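import Pool.Agent.Helper47.CA.Stm

/-!
# Group algebras: the involution, the `ℓ¹` norm, traces
-/

set_option autoImplicit false
set_option linter.unusedSectionVars false

open scoped InnerProductSpace Kronecker
open Filter Topology Matrix Finset

namespace Pool.Agent.Helper47.CA

open Pool.Agent.N557.QWX (Op tr IsTracial IsHom)
open Pool.Agent.N859.QX (QWEP)
open Pool.Agent.N859.QW (vN Aut L2)
open Pool.Agent.W661.RC (hs Le)

noncomputable section

section cj

variable {Γ : Type} [Group Γ]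

/-- the involution of the group algebra -/
def cj (c : MonoidAlgebra ℂ Γ) : MonoidAlgebra ℂ Γ :=
  c.coeff.sum fun g z => MonoidAlgebra.single g⁻¹ (star z)

theorem cj_zero : cj (0 : MonoidAlgebra ℂ Γ) = 0 := by
  simp [cj]

theorem cj_add (a b : MonoidAlgebra ℂ Γ) : cj (a + b) = cj a + cj b := by
  unfold cj
  rw [MonoidAlgebra.coeff_add]
  exact Finsupp.sum_add_index' (fun g => by simp) (fun g x y => by
    rw [star_add, MonoidAlgebra.single_add])

theorem cj_single (g : Γ) (z : ℂ) : cj (MonoidAlgebra.single g z) = MonoidAlgebra.single g⁻¹ (star z) := by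
  unfold cj
  rw [MonoidAlgebra.coeff_single]
  exact Finsupp.sum_single_index (by simp)

variable {K : Type} [NormedAddCommGroup K] [InnerProductSpace ℂ K] [CompleteSpace K]

theorem opr_single (θ : Γ →* unitary (Op K)) (g : Γ) (z : ℂ) :
    opr θ (MonoidAlgebra.single g z) = z • (θ g : Op K) := MonoidAlgebra.lift_single _ _ _

theorem opr_cj (θ : Γ →* unitary (Op K)) (c : MonoidAlgebra ℂ Γ) : opr θ (cj c) = star (opr θ c) := by
  induction c using MonoidAlgebra.induction_linear with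
  | zero => rw [cj_zero, map_zero, star_zero]
  | add a b ha hb => rw [cj_add, map_add, ha, hb, map_add, star_add]
  | single g z =>
    rw [cj_single, opr_single, opr_single, star_smul, map_inv]
    rfl

variable {m : Type} [Fintype m] [DecidableEq m]

theorem mrep_single (ρ : Γ →* unitaryGroup m ℂ) (g : Γ) (z : ℂ) :
    mrep ρ (MonoidAlgebra.single g z) = z • (ρ g : Matrix m m ℂ) := MonoidAlgebra.lift_single _ _ _

theorem mrep_cj (ρ : Γ →* unitaryGroup m ℂ) (c : MonoidAlgebra ℂ Γ) : mrep ρ (cj c) = (mrep ρ c)ᴴ := by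
  induction c using MonoidAlgebra.induction_linear with
  | zero => rw [cj_zero, map_zero, conjTranspose_zero]
  | add a b ha hb => rw [cj_add, map_add, ha, hb, map_add, conjTranspose_add]
  | single g z =>
    rw [cj_single, mrep_single, mrep_single, conjTranspose_smul, map_inv]
    rfl

/-- the `ℓ¹` norm -/
def n1 (c : MonoidAlgebra ℂ Γ) : ℝ := ∑ g ∈ c.coeff.support, ‖c.coeff g‖

theorem n1_nonneg (c : MonoidAlgebra ℂ Γ) : 0 ≤ n1 c := sum_nonneg fun _ _ => norm_nonneg _

theorem opr_eq (θ : Γ →* unitary (Op K)) (c : MonoidAlgebra ℂ Γ) :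
    opr θ c = ∑ g ∈ c.coeff.support, c.coeff g • (θ g : Op K) := by
  unfold opr
  rw [MonoidAlgebra.lift_apply]
  rfl

theorem mrep_eq (ρ : Γ →* unitaryGroup m ℂ) (c : MonoidAlgebra ℂ Γ) :
    mrep ρ c = ∑ g ∈ c.coeff.support, c.coeff g • (ρ g : Matrix m m ℂ) := by
  unfold mrep
  rw [MonoidAlgebra.lift_apply]
  rfl

theorem tr_add (η : K) (x y : Op K) : tr η (x + y) = tr η x + tr η y := by
  unfold tr
  rw [ContinuousLinearMap.add_apply, inner_add_right]

theorem tr_smul (η : K) (c : ℂ) (x : Op K) : tr η (c • x) = c * tr η x := by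
  unfold tr
  rw [ContinuousLinearMap.smul_apply, inner_smul_right]

theorem tr_zero (η : K) : tr η (0 : Op K) = 0 := by
  unfold tr
  rw [ContinuousLinearMap.zero_apply, inner_zero_right]

theorem tr_sum {ι : Type} (η : K) (s : Finset ι) (f : ι → Op K) : tr η (∑ i ∈ s, f i) = ∑ i ∈ s, tr η (f i) := by
  classical
  induction s using Finset.induction_on with
  | empty => simp [tr_zero]
  | insert a s ha ih => rw [sum_insert ha, sum_insert ha, tr_add, ih]

theorem tr_star_mul (η : K) (x : Op K) : tr η (star x * x) = ((‖x η‖ ^ 2 : ℝ) : ℂ) := by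
  unfold tr
  rw [mul_apply_eq_comp, ContinuousLinearMap.star_eq_adjoint,
    ContinuousLinearMap.adjoint_inner_right, inner_self_eq_norm_sq_to_K]
  norm_cast

/-- the trace of an element of the group algebra -/
theorem trace_close (θ : Γ →* unitary (Op K)) (η : K) (ρ : Γ →* unitaryGroup m ℂ) (ε : ℝ)
    (c : MonoidAlgebra ℂ Γ)
    (h : ∀ g ∈ c.coeff.support,
      ‖trace (ρ g : Matrix m m ℂ) / (Fintype.card m : ℂ) - tr η (θ g : Op K)‖ ≤ ε) :
    ‖trace (mrep ρ c) / (Fintype.card m : ℂ) - tr η (opr θ c)‖ ≤ n1 c * ε := by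
  rw [opr_eq, mrep_eq, trace_sum, tr_sum, sum_div, ← sum_sub_distrib, n1, sum_mul]
  refine (norm_sum_le _ _).trans (sum_le_sum fun g hg => ?_)
  rw [trace_smul, tr_smul, smul_eq_mul, mul_div_assoc, ← mul_sub, norm_mul]
  exact mul_le_mul_of_nonneg_left (h g hg) (norm_nonneg _)

theorem hs_eq_trace {p : Type} [Fintype p] (x : Matrix m p ℂ) : ((hs x : ℝ) : ℂ) = trace (xᴴ * x) := by
  unfold hs
  rw [Finset.sum_comm]
  push_cast
  show ∑ y, ∑ x_1, ((‖x x_1 y‖ : ℂ)) ^ 2 = ∑ i, (xᴴ * x) i i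
  refine sum_congr rfl fun i _ => ?_
  rw [Matrix.mul_apply]
  refine sum_congr rfl fun j _ => ?_
  rw [conjTranspose_apply, Complex.star_def, Complex.conj_mul']

theorem hs_close (θ : Γ →* unitary (Op K)) (η : K) (ρ : Γ →* unitaryGroup m ℂ) (ε : ℝ)
    (c : MonoidAlgebra ℂ Γ)
    (h : ∀ g ∈ (cj c * c).coeff.support,
      ‖trace (ρ g : Matrix m m ℂ) / (Fintype.card m : ℂ) - tr η (θ g : Op K)‖ ≤ ε) :
    |hs (mrep ρ c) / Fintype.card m - ‖opr θ c η‖ ^ 2| ≤ n1 (cj c * c) * ε := by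
  have h1 := trace_close θ η ρ ε (cj c * c) h
  rw [map_mul, map_mul, mrep_cj, opr_cj, tr_star_mul, ← hs_eq_trace] at h1
  have h2 : ((hs (mrep ρ c) : ℝ) : ℂ) / (Fintype.card m : ℂ) - ((‖opr θ c η‖ ^ 2 : ℝ) : ℂ) =
      ((hs (mrep ρ c) / Fintype.card m - ‖opr θ c η‖ ^ 2 : ℝ) : ℂ) := by
    push_cast
    ring
  rw [h2, Complex.norm_real] at h1
  exact h1

end cj

end

end Pool.Agent.Helper47.CA
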