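import Pool.Agent.Helper47.CA.Stm
import Pool.Graph.R_seed8.W683.RC.Bas

/-!
# The approximate conditional expectation is almost a contraction (`S_BES`)
-/

set_option autoImplicit false

open Matrix
open scoped ComplexOrder Kronecker

namespace Pool.Agent.Helper47.CA

open Pool.Agent.W661.RC (hs Le)
open Pool.Agent.W683.RC

namespace Bes

variable {m q : Type} [Fintype m] [DecidableEq m] [Fintype q] [DecidableEq q] {r : ℕ}

lemma trace_PT [Nonempty m] (A : Matrix q q ℂ) (w : Matrix (m × q) (m × q) ℂ) :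
    trace (((1 : Matrix m m ℂ) ⊗ₖ A) * w) = (Fintype.card m : ℂ) * trace (A * PT w) := by
  have hm : (Fintype.card m : ℂ) ≠ 0 := by exact_mod_cast Fintype.card_ne_zero
  have h1 : trace (((1 : Matrix m m ℂ) ⊗ₖ A) * w) = ∑ x : m, ∑ a : q, ∑ b : q, A a b * w (x, b) (x, a) := by
    simp only [Matrix.trace, Matrix.diag, Matrix.mul_apply, Fintype.sum_prod_type, Matrix.kroneckerMap_apply,
      Matrix.one_apply, ite_mul, one_mul, zero_mul, Finset.sum_ite_eq, Finset.mem_univ, if_true]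
    refine Finset.sum_congr rfl fun x _ => Finset.sum_congr rfl fun a _ => ?_
    rw [Finset.sum_comm]
    refine Finset.sum_congr rfl fun b _ => ?_
    rw [Finset.sum_ite_eq]
    simp
  have h2 : trace (A * PT w) = (∑ x : m, ∑ a : q, ∑ b : q, A a b * w (x, b) (x, a)) / (Fintype.card m : ℂ) := by
    simp only [Matrix.trace, Matrix.diag, Matrix.mul_apply, PT, Matrix.of_apply]
    rw [Finset.sum_comm (s := (Finset.univ : Finset m)), Finset.sum_div]
    refine Finset.sum_congr rfl fun a _ => ?_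
    rw [Finset.sum_comm, Finset.sum_div]
    refine Finset.sum_congr rfl fun b _ => ?_
    rw [← mul_div_assoc, Finset.mul_sum]
  rw [h1, h2, mul_div_cancel₀ _ hm]

lemma trace_F [Nonempty m] (F : Matrix m m ℂ) (Z : Matrix q q ℂ) (w : Matrix (m × q) (m × q) ℂ) :
    trace ((F ⊗ₖ Z)ᴴ * w) = (Fintype.card m : ℂ) * trace (Zᴴ * PT ((Fᴴ ⊗ₖ (1 : Matrix q q ℂ)) * w)) := by
  rw [← trace_PT, ← Matrix.mul_assoc, ← Matrix.mul_kronecker_mul, Matrix.one_mul, Matrix.mul_one,
    conjTranspose_kronecker]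

end Bes

open Bes

theorem bes : S_BES := by
  intro r σ hσ
  set κ : ℝ := min 1 (σ / 3) / (r + 1) with hκ
  have hr : (0 : ℝ) < r + 1 := by positivity
  have hmin : 0 < min 1 (σ / 3) := lt_min one_pos (by positivity)
  have hκ0 : 0 < κ := div_pos hmin hr
  refine ⟨κ, hκ0, ?_⟩
  intro m q _ _ _ _ _ _ F hF w
  set M : ℝ := (Fintype.card m : ℝ) with hM
  have hM0 : 0 < M := by
    rw [hM]; exact_mod_cast Fintype.card_pos
  set Z : Fin r → Matrix q q ℂ := fun i => PT (((F i)ᴴ ⊗ₖ (1 : Matrix q q ℂ)) * w) with hZ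
  set S : ℝ := ∑ i, hs (Z i) with hS
  have hS0 : 0 ≤ S := Finset.sum_nonneg fun i _ => hs_nonneg _
  -- the inner product with `w`
  have h1 : trace ((EE F w)ᴴ * w) = ((M * S : ℝ) : ℂ) := by
    have e : (EE F w)ᴴ * w = ∑ i, (F i ⊗ₖ Z i)ᴴ * w := by
      unfold EE
      rw [conjTranspose_sum, Finset.sum_mul]
    rw [e, trace_sum]
    have : ∀ i, trace ((F i ⊗ₖ Z i)ᴴ * w) = ((M * hs (Z i) : ℝ) : ℂ) := by
      intro i
      rw [trace_F, show PT (((F i)ᴴ ⊗ₖ (1 : Matrix q q ℂ)) * w) = Z i from rfl, trace_conjTranspose_mul_self]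
      push_cast
      rfl
    rw [Finset.sum_congr rfl fun i _ => this i, hS, Finset.mul_sum]
    push_cast
    rfl
  have h2 : M * S ≤ √(hs (EE F w)) * √(hs w) := by
    have h := norm_trace_le (EE F w) w
    rw [h1, Complex.norm_real, Real.norm_eq_abs] at h
    exact (le_abs_self _).trans h
  -- the norm
  have h3 : hs (EE F w) ≤ (1 + r * κ) * (M * S) := by
    have e : ((hs (EE F w) : ℝ) : ℂ) = ∑ i, ∑ j, trace ((F i)ᴴ * F j) * trace ((Z i)ᴴ * Z j) := by
      rw [← trace_conjTranspose_mul_self]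
      have e1 : (EE F w)ᴴ * EE F w = ∑ i, ∑ j, ((F i)ᴴ * F j) ⊗ₖ ((Z i)ᴴ * Z j) := by
        have e0 : EE F w = ∑ i, F i ⊗ₖ Z i := rfl
        rw [e0, conjTranspose_sum, Finset.sum_mul]
        refine Finset.sum_congr rfl fun i _ => ?_
        rw [Finset.mul_sum]
        refine Finset.sum_congr rfl fun j _ => ?_
        rw [conjTranspose_kronecker, Matrix.mul_kronecker_mul]
      rw [e1, trace_sum]
      refine Finset.sum_congr rfl fun i _ => ?_
      rw [trace_sum]
      refine Finset.sum_congr rfl fun j _ => ?_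
      rw [trace_kronecker]
    have e2 : ∀ i j, trace ((F i)ᴴ * F j) * trace ((Z i)ᴴ * Z j) =
        (M : ℂ) * (if i = j then trace ((Z i)ᴴ * Z j) else 0) +
        (M : ℂ) * ((trace ((F i)ᴴ * F j) / (Fintype.card m : ℂ) - (if i = j then 1 else 0)) *
          trace ((Z i)ᴴ * Z j)) := by
      intro i j
      have hm : (Fintype.card m : ℂ) ≠ 0 := by exact_mod_cast Fintype.card_ne_zero
      have : (M : ℂ) = (Fintype.card m : ℂ) := by rw [hM]; push_cast; rfl
      rw [this]
      split_ifs <;> field_simp <;> ring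
    have e3 : ((hs (EE F w) : ℝ) : ℂ) = ((M * S : ℝ) : ℂ) + ∑ i, ∑ j, (M : ℂ) *
        ((trace ((F i)ᴴ * F j) / (Fintype.card m : ℂ) - (if i = j then 1 else 0)) * trace ((Z i)ᴴ * Z j)) := by
      rw [e]
      simp_rw [e2]
      simp_rw [Finset.sum_add_distrib]
      congr 1
      simp only [← Finset.mul_sum, Finset.sum_ite_eq, Finset.mem_univ, if_true, trace_conjTranspose_mul_self]
      rw [hS]
      push_cast
      rfl
    have e4 : ‖∑ i, ∑ j, (M : ℂ) *
        ((trace ((F i)ᴴ * F j) / (Fintype.card m : ℂ) - (if i = j then 1 else 0)) * trace ((Z i)ᴴ * Z j))‖ ≤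
        r * κ * (M * S) := by
      have b1 : ∀ i j, ‖(M : ℂ) * ((trace ((F i)ᴴ * F j) / (Fintype.card m : ℂ) - (if i = j then 1 else 0)) *
          trace ((Z i)ᴴ * Z j))‖ ≤ M * (κ * (√(hs (Z i)) * √(hs (Z j)))) := by
        intro i j
        rw [norm_mul, norm_mul, Complex.norm_real, Real.norm_eq_abs, abs_of_pos hM0]
        exact mul_le_mul_of_nonneg_left (mul_le_mul (hF i j) (norm_trace_le _ _) (norm_nonneg _) hκ0.le) hM0.le
      have b2 : ‖∑ i, ∑ j, (M : ℂ) *
        ((trace ((F i)ᴴ * F j) / (Fintype.card m : ℂ) - (if i = j then 1 else 0)) * trace ((Z i)ᴴ * Z j))‖ ≤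
          ∑ i, ∑ j, M * (κ * (√(hs (Z i)) * √(hs (Z j)))) :=
        (norm_sum_le _ _).trans (Finset.sum_le_sum fun i _ => (norm_sum_le _ _).trans
          (Finset.sum_le_sum fun j _ => b1 i j))
      refine b2.trans ?_
      have b3 : ∑ i, ∑ j, M * (κ * (√(hs (Z i)) * √(hs (Z j)))) = M * κ * (∑ i, √(hs (Z i))) ^ 2 := by
        rw [sq, Finset.sum_mul_sum, Finset.mul_sum]
        refine Finset.sum_congr rfl fun i _ => ?_
        rw [Finset.mul_sum]
        refine Finset.sum_congr rfl fun j _ => ?_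
        ring
      rw [b3]
      have b4 : (∑ i, √(hs (Z i))) ^ 2 ≤ r * S := by
        have := sq_sum_le_card_mul_sum_sq (s := (Finset.univ : Finset (Fin r))) (f := fun i => √(hs (Z i)))
        rw [Finset.card_univ, Fintype.card_fin] at this
        refine this.trans (le_of_eq ?_)
        congr 1
        exact Finset.sum_congr rfl fun i _ => Real.sq_sqrt (hs_nonneg _)
      calc M * κ * (∑ i, √(hs (Z i))) ^ 2 ≤ M * κ * (r * S) :=
            mul_le_mul_of_nonneg_left b4 (mul_nonneg hM0.le hκ0.le)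
        _ = r * κ * (M * S) := by ring
    have e5 : hs (EE F w) ≤ M * S + r * κ * (M * S) := by
      have h := congrArg Complex.re e3
      rw [Complex.ofReal_re, Complex.add_re, Complex.ofReal_re] at h
      rw [h]
      have := (Complex.re_le_norm _).trans e4
      linarith
    linarith
  have hrk : r * κ ≤ min 1 (σ / 3) := by
    rw [hκ, ← mul_div_assoc, div_le_iff₀ hr]
    nlinarith
  have hrk0 : 0 ≤ r * κ := mul_nonneg (Nat.cast_nonneg _) hκ0.le
  have hk1 : r * κ ≤ 1 := hrk.trans (min_le_left _ _)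
  have hk2 : r * κ ≤ σ / 3 := hrk.trans (min_le_right _ _)
  have h4 : √(hs (EE F w)) ≤ (1 + r * κ) * √(hs w) := by
    by_cases h0 : √(hs (EE F w)) = 0
    · rw [h0]
      positivity
    · have hp : 0 < √(hs (EE F w)) := lt_of_le_of_ne (Real.sqrt_nonneg _) (Ne.symm h0)
      have h5 : √(hs (EE F w)) * √(hs (EE F w)) ≤ ((1 + r * κ) * √(hs w)) * √(hs (EE F w)) := by
        rw [Real.mul_self_sqrt (hs_nonneg _)]
        refine h3.trans ?_
        calc (1 + r * κ) * (M * S) ≤ (1 + r * κ) * (√(hs (EE F w)) * √(hs w)) :=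
              mul_le_mul_of_nonneg_left h2 (by positivity)
          _ = _ := by ring
      exact le_of_mul_le_mul_right h5 hp
  have h6 : hs (EE F w) ≤ ((1 + r * κ) * √(hs w)) ^ 2 := by
    rw [← Real.sq_sqrt (hs_nonneg (EE F w))]
    exact pow_le_pow_left₀ (Real.sqrt_nonneg _) h4 2
  rw [mul_pow, Real.sq_sqrt (hs_nonneg w)] at h6
  refine h6.trans (mul_le_mul_of_nonneg_right ?_ (hs_nonneg w))
  nlinarith

end Pool.Agent.Helper47.CA
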