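import Pool.Agent.Helper47.CA.ComA

/-!
# Approximate commutants and conditional expectations (`S_COM`), part 2
-/

set_option autoImplicit false
set_option linter.unusedSectionVars false

open Matrix
open scoped ComplexOrder Kronecker

namespace Pool.Agent.Helper47.CA

open Pool.Agent.W661.RC (hs Le)
open Pool.Agent.W683.RC

namespace Com

noncomputable section

variable {m n l q : Type} [Fintype m] [Fintype n] [Fintype l] [Fintype q] {r : ℕ}

/-! ### Cayley transform -/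

lemma cayley [DecidableEq m] (X : Matrix m m ℂ) (hX : Xᴴ = X) (hb : LB X 1) :
    ∃ u : Matrix m m ℂ, uᴴ * u = 1 ∧ (∀ F : Matrix m m ℂ, nm (u * F - F * u) ≤ 2 * nm (X * F - F * X)) ∧
      ∀ (q : Type) [Fintype q] [DecidableEq q] (y : Matrix (m × q) (m × q) ℂ),
        nm ((X ⊗ₖ (1 : Matrix q q ℂ)) * y - y * (X ⊗ₖ (1 : Matrix q q ℂ))) ≤
          nm ((u ⊗ₖ (1 : Matrix q q ℂ)) * y - y * (u ⊗ₖ (1 : Matrix q q ℂ))) := by
  set A : Matrix m m ℂ := 1 - Complex.I • X with hA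
  set B : Matrix m m ℂ := 1 + Complex.I • X with hB
  have hAh : Aᴴ = B := by
    rw [hA, hB, conjTranspose_sub, conjTranspose_one, conjTranspose_smul, hX, Complex.star_def, Complex.conj_I,
      neg_smul, sub_neg_eq_add]
  have hBh : Bᴴ = A := by rw [← hAh, conjTranspose_conjTranspose]
  have hAB : A * B = 1 + X * X := by
    rw [hA, hB, Matrix.sub_mul, Matrix.mul_add, Matrix.mul_add, Matrix.one_mul, Matrix.mul_one, Matrix.one_mul,
      Matrix.smul_mul, Matrix.mul_smul, smul_smul, Complex.I_mul_I, neg_one_smul]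
    abel
  have hBA : B * A = 1 + X * X := by
    rw [hA, hB, Matrix.add_mul, Matrix.mul_sub, Matrix.mul_sub, Matrix.one_mul, Matrix.mul_one, Matrix.one_mul,
      Matrix.smul_mul, Matrix.mul_smul, smul_smul, Complex.I_mul_I, neg_one_smul]
    abel
  have hpos : (1 + X * X).PosDef := by
    have h1 : (X * X).PosSemidef := by
      have := Matrix.posSemidef_conjTranspose_mul_self X
      rwa [hX] at this
    exact Matrix.PosDef.one.add_posSemidef h1
  obtain ⟨V, hV⟩ := hpos.isUnit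
  have hAR : A * (B * (V⁻¹ : (Matrix m m ℂ)ˣ)) = 1 := by
    rw [← Matrix.mul_assoc, hAB, ← hV, Units.mul_inv]
  set R : Matrix m m ℂ := B * (V⁻¹ : (Matrix m m ℂ)ˣ) with hR
  have hRA : R * A = 1 := mul_eq_one_comm.1 hAR
  have hsA : ∀ (l : Type) [Fintype l] (y : Matrix m l ℂ), hs (A * y) = hs y + hs (X * y) := by
    intro l _ y
    rw [hs_eq_tr, hs_eq_tr, hs_eq_tr, ← tr_add]
    congr 1
    rw [conjTranspose_mul, hAh, conjTranspose_mul, hX]
    calc yᴴ * B * (A * y) = yᴴ * (B * A) * y := by simp only [Matrix.mul_assoc]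
      _ = _ := by rw [hBA, Matrix.mul_add, Matrix.add_mul, Matrix.mul_one]; simp only [Matrix.mul_assoc]
  have LBR : LB R 1 := by
    intro l _ y
    rw [one_mul]
    apply nm_le_of_hs
    have h1 := hsA l (R * y)
    rw [← Matrix.mul_assoc, hAR, Matrix.one_mul] at h1
    rw [h1]
    linarith [hs_nonneg (X * (R * y))]
  have LBA : LB A (√2) := by
    intro l _ y
    unfold nm
    rw [← Real.sqrt_mul (by norm_num)]
    apply Real.sqrt_le_sqrt
    rw [hsA]
    have h2 : hs (X * y) ≤ hs y := by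
      have := hb l y
      rw [one_mul] at this
      rw [← nm_sq, ← nm_sq]
      exact pow_le_pow_left₀ (nm_nonneg _) this 2
    linarith
  have hu1 : ∀ F : Matrix m m ℂ, R * F - F * R = Complex.I • (R * (X * F - F * X) * R) := by
    intro F
    have h1 : R * F - F * R = R * (F * A - A * F) * R := by
      rw [Matrix.mul_sub, Matrix.sub_mul]
      have e1 : R * (F * A) * R = R * F * (A * R) := by simp only [Matrix.mul_assoc]
      have e2 : R * (A * F) * R = (R * A) * F * R := by simp only [Matrix.mul_assoc]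
      rw [e1, e2, hAR, hRA, Matrix.mul_one, Matrix.one_mul]
    have h2 : F * A - A * F = Complex.I • (X * F - F * X) := by
      rw [hA, Matrix.mul_sub, Matrix.sub_mul, Matrix.mul_one, Matrix.one_mul, Matrix.mul_smul, Matrix.smul_mul,
        smul_sub]
      abel
    rw [h1, h2, Matrix.mul_smul, Matrix.smul_mul]
  refine ⟨(2 : ℂ) • R - 1, ?_, ?_, ?_⟩
  · have e1 : (2 : ℂ) • R - 1 = B * R := by
      have h2 : B = (2 : ℂ) • 1 - A := by
        rw [hA, hB, two_smul]; abel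
      rw [h2, Matrix.sub_mul, hAR, Matrix.smul_mul, Matrix.one_mul]
    rw [e1, conjTranspose_mul, hBh]
    calc Rᴴ * A * (B * R) = Rᴴ * (A * B) * R := by simp only [Matrix.mul_assoc]
      _ = Rᴴ * (B * A) * R := by rw [hAB, hBA]
      _ = (Rᴴ * Aᴴ) * (A * R) := by rw [hAh]; simp only [Matrix.mul_assoc]
      _ = (A * R)ᴴ * (A * R) := by rw [conjTranspose_mul A R]
      _ = 1 := by rw [hAR, conjTranspose_one, Matrix.one_mul]
  · intro F
    have e1 : ((2 : ℂ) • R - 1) * F - F * ((2 : ℂ) • R - 1) = (2 : ℂ) • (R * F - F * R) := by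
      rw [Matrix.sub_mul, Matrix.mul_sub, Matrix.one_mul, Matrix.mul_one, Matrix.smul_mul, Matrix.mul_smul, smul_sub]
      abel
    rw [e1, hu1, nm_smul, nm_smul]
    have h1 := LBR.right (R * (X * F - F * X))
    have h2 := LBR m (X * F - F * X)
    have n1 : ‖(2 : ℂ)‖ = 2 := by norm_num
    have n2 : ‖Complex.I‖ = 1 := Complex.norm_I
    rw [n1, n2]
    linarith
  · intro q _ _ y
    set R1 := R ⊗ₖ (1 : Matrix q q ℂ) with hR1
    set A1 := A ⊗ₖ (1 : Matrix q q ℂ) with hA1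
    set X1 := X ⊗ₖ (1 : Matrix q q ℂ) with hX1
    have hAR1 : A1 * R1 = 1 := by
      rw [hA1, hR1, ← Matrix.mul_kronecker_mul, hAR, Matrix.one_mul, Matrix.one_kronecker_one]
    have hRA1 : R1 * A1 = 1 := mul_eq_one_comm.1 hAR1
    have hAX : A1 = 1 - Complex.I • X1 := by
      rw [hA1, hA, hX1]
      ext ⟨a, b⟩ ⟨c, d⟩
      simp only [Matrix.kroneckerMap_apply, Matrix.sub_apply, Matrix.smul_apply, Matrix.one_apply, smul_eq_mul,
        Prod.mk.injEq]
      by_cases h1 : a = c <;> by_cases h2 : b = d <;> simp [h1, h2]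
    have hu : ((2 : ℂ) • R - 1) ⊗ₖ (1 : Matrix q q ℂ) = (2 : ℂ) • R1 - 1 := by
      rw [hR1]
      ext ⟨a, b⟩ ⟨c, d⟩
      simp only [Matrix.kroneckerMap_apply, Matrix.sub_apply, Matrix.smul_apply, Matrix.one_apply, smul_eq_mul,
        Prod.mk.injEq]
      by_cases h1 : a = c <;> by_cases h2 : b = d <;> simp [h1, h2]
    have e1 : ((2 : ℂ) • R1 - 1) * y - y * ((2 : ℂ) • R1 - 1) = (2 : ℂ) • (R1 * y - y * R1) := by
      rw [Matrix.sub_mul, Matrix.mul_sub, Matrix.one_mul, Matrix.mul_one, Matrix.smul_mul, Matrix.mul_smul, smul_sub]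
      abel
    have e2 : A1 * y - y * A1 = -(Complex.I • (X1 * y - y * X1)) := by
      rw [hAX, Matrix.sub_mul, Matrix.mul_sub, Matrix.mul_one, Matrix.one_mul, Matrix.mul_smul, Matrix.smul_mul,
        smul_sub]
      abel
    have e3 : A1 * y - y * A1 = A1 * (y * R1 - R1 * y) * A1 := by
      rw [Matrix.mul_sub, Matrix.sub_mul]
      have f1 : A1 * (y * R1) * A1 = A1 * y * (R1 * A1) := by simp only [Matrix.mul_assoc]
      have f2 : A1 * (R1 * y) * A1 = (A1 * R1) * y * A1 := by simp only [Matrix.mul_assoc]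
      rw [f1, f2, hAR1, hRA1, Matrix.mul_one, Matrix.one_mul]
    rw [hu, e1, nm_smul]
    have h3 : nm (X1 * y - y * X1) = nm (A1 * y - y * A1) := by
      rw [e2, ← neg_smul, nm_smul, norm_neg, Complex.norm_I, one_mul]
    rw [h3, e3]
    have hk := (LBA.kron (q := q))
    have h4 := hk.right (A1 * (y * R1 - R1 * y))
    have h5 := hk _ (y * R1 - R1 * y)
    have h6 : √2 * √2 = (2 : ℝ) := Real.mul_self_sqrt (by norm_num)
    have n1 : ‖(2 : ℂ)‖ = 2 := by norm_num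
    rw [n1, nm_comm (R1 * y)]
    calc nm (A1 * (y * R1 - R1 * y) * A1) ≤ √2 * nm (A1 * (y * R1 - R1 * y)) := h4
      _ ≤ √2 * (√2 * nm (y * R1 - R1 * y)) := mul_le_mul_of_nonneg_left h5 (Real.sqrt_nonneg _)
      _ = 2 * nm (y * R1 - R1 * y) := by rw [← mul_assoc, h6]

/-! ### Convex combinations of conjugates -/

/-- `y` is a convex combination of the matrices `w z w*`, where `w` is unitary and the commutators `[w, F i]` have norm
at most `j b` -/
def Rep [DecidableEq m] [DecidableEq q] (z : Matrix (m × q) (m × q) ℂ) (F : Fin r → Matrix m m ℂ) (b : ℝ) (j : ℕ)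
    (y : Matrix (m × q) (m × q) ℂ) : Prop :=
  ∀ (φ : Matrix (m × q) (m × q) ℂ → Matrix (m × q) (m × q) ℂ) (v : Matrix (m × q) (m × q) ℂ) (c : ℝ),
    (∀ x y, φ ((1 / 2 : ℂ) • (x + y)) = (1 / 2 : ℂ) • (φ x + φ y)) →
    (∀ w : Matrix m m ℂ, wᴴ * w = 1 → (∀ i, nm (w * F i - F i * w) ≤ j * b) →
      nm (φ ((w ⊗ₖ (1 : Matrix q q ℂ)) * z * (w ⊗ₖ (1 : Matrix q q ℂ))ᴴ) - v) ≤ c) →
    nm (φ y - v) ≤ c

lemma rep_zero [DecidableEq m] [DecidableEq q] (z : Matrix (m × q) (m × q) ℂ) (F : Fin r → Matrix m m ℂ) (b : ℝ) :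
    Rep z F b 0 z := by
  intro φ v c _ h
  have h1 := h 1 (by rw [conjTranspose_one, Matrix.one_mul]) (by
    intro i
    rw [Matrix.one_mul, Matrix.mul_one, sub_self]
    simp [nm, hs_zero])
  rwa [Matrix.one_kronecker_one, conjTranspose_one, Matrix.one_mul, Matrix.mul_one] at h1

lemma rep_succ [DecidableEq m] [DecidableEq q] (z : Matrix (m × q) (m × q) ℂ) (F : Fin r → Matrix m m ℂ) (b : ℝ)
    (hb : 0 ≤ b) (j : ℕ) (y : Matrix (m × q) (m × q) ℂ) (h : Rep z F b j y) (u : Matrix m m ℂ) (hu : uᴴ * u = 1)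
    (hub : ∀ i, nm (u * F i - F i * u) ≤ b) :
    Rep z F b (j + 1) ((1 / 2 : ℂ) • (y + (u ⊗ₖ (1 : Matrix q q ℂ)) * y * (u ⊗ₖ (1 : Matrix q q ℂ))ᴴ)) := by
  intro φ v c hφ hc
  have h1 : nm (φ y - v) ≤ c := by
    refine h φ v c hφ fun w hw hwb => hc w hw fun i => (hwb i).trans ?_
    push_cast
    nlinarith
  have h2 : nm (φ ((u ⊗ₖ (1 : Matrix q q ℂ)) * y * (u ⊗ₖ (1 : Matrix q q ℂ))ᴴ) - v) ≤ c := by
    refine h (fun x => φ ((u ⊗ₖ (1 : Matrix q q ℂ)) * x * (u ⊗ₖ (1 : Matrix q q ℂ))ᴴ)) v c ?_ ?_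
    · intro x y
      show φ _ = _
      rw [Matrix.mul_smul, Matrix.smul_mul, Matrix.mul_add, Matrix.add_mul, hφ]
    · intro w hw hwb
      have h3 := hc (u * w) (by
        rw [conjTranspose_mul]
        calc wᴴ * uᴴ * (u * w) = wᴴ * (uᴴ * u) * w := by simp only [Matrix.mul_assoc]
          _ = 1 := by rw [hu, Matrix.mul_one, hw]) (by
        intro i
        have e : u * w * F i - F i * (u * w) = u * (w * F i - F i * w) + (u * F i - F i * u) * w := by
          noncomm_ring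
        rw [e]
        refine (nm_add _ _).trans ?_
        have e1 : nm (u * (w * F i - F i * w)) = nm (w * F i - F i * w) := by
          unfold nm; rw [hs_unit_mul hu]
        have e2 : nm ((u * F i - F i * u) * w) = nm (u * F i - F i * u) := by
          unfold nm; rw [hs_mul_unit hw]
        rw [e1, e2]
        push_cast
        linarith [hwb i, hub i])
      have e3 : (u * w) ⊗ₖ (1 : Matrix q q ℂ) = (u ⊗ₖ (1 : Matrix q q ℂ)) * (w ⊗ₖ (1 : Matrix q q ℂ)) := by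
        rw [← Matrix.mul_kronecker_mul, Matrix.one_mul]
      rw [e3, conjTranspose_mul] at h3
      show nm (φ _ - v) ≤ c
      convert h3 using 4
      simp only [Matrix.mul_assoc]
  rw [hφ]
  have e4 : (1 / 2 : ℂ) • (φ y + φ ((u ⊗ₖ (1 : Matrix q q ℂ)) * y * (u ⊗ₖ (1 : Matrix q q ℂ))ᴴ)) - v =
      (1 / 2 : ℂ) • ((φ y - v) + (φ ((u ⊗ₖ (1 : Matrix q q ℂ)) * y * (u ⊗ₖ (1 : Matrix q q ℂ))ᴴ) - v)) := by
    module
  rw [e4, nm_smul]
  have n1 : ‖(1 / 2 : ℂ)‖ = 1 / 2 := by norm_num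
  rw [n1]
  have := nm_add (φ y - v) (φ ((u ⊗ₖ (1 : Matrix q q ℂ)) * y * (u ⊗ₖ (1 : Matrix q q ℂ))ᴴ) - v)
  linarith

/-- the decrease of the norm -/
lemma decrease [DecidableEq m] [DecidableEq q] (y : Matrix (m × q) (m × q) ℂ) (u : Matrix m m ℂ) (hu : uᴴ * u = 1) :
    hs ((1 / 2 : ℂ) • (y + (u ⊗ₖ (1 : Matrix q q ℂ)) * y * (u ⊗ₖ (1 : Matrix q q ℂ))ᴴ)) =
      hs y - nm ((u ⊗ₖ (1 : Matrix q q ℂ)) * y - y * (u ⊗ₖ (1 : Matrix q q ℂ))) ^ 2 / 4 := by
  set U := u ⊗ₖ (1 : Matrix q q ℂ) with hU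
  have hU1 : Uᴴ * U = 1 := by
    rw [hU, conjTranspose_kronecker, ← Matrix.mul_kronecker_mul, hu, conjTranspose_one, Matrix.one_mul,
      Matrix.one_kronecker_one]
  rw [nm_sq, hs_comm_eq' hU1, hs_smul]
  have n1 : ‖(1 / 2 : ℂ)‖ = 1 / 2 := by norm_num
  have h1 : hs (U * y * Uᴴ) = hs y := by
    rw [hs_mul_unit (unit_conj hU1), hs_unit_mul hU1]
  have h2 : hs (y + U * y * Uᴴ) + hs (y - U * y * Uᴴ) = 2 * (hs y + hs (U * y * Uᴴ)) := by
    rw [hs_eq_norm, hs_eq_norm, hs_eq_norm, hs_eq_norm, vc_add, vc_sub]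
    have := parallelogram_law_with_norm ℂ (vc y) (vc (U * y * Uᴴ))
    nlinarith
  rw [n1]
  rw [h1] at h2
  linarith

/-- the greedy argument -/
lemma greedy [DecidableEq m] [DecidableEq q] (z : Matrix (m × q) (m × q) ℂ) (F : Fin r → Matrix m m ℂ) (b : ℝ)
    (hb : 0 ≤ b) (D2 s : ℝ) (hz : hs z ≤ D2) (J : ℕ) (hJ : D2 < (J + 1) * s) :
    ∃ (j : ℕ) (y : Matrix (m × q) (m × q) ℂ), j ≤ J ∧ Rep z F b j y ∧
      ∀ u : Matrix m m ℂ, uᴴ * u = 1 → (∀ i, nm (u * F i - F i * u) ≤ b) →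
        nm ((u ⊗ₖ (1 : Matrix q q ℂ)) * y - y * (u ⊗ₖ (1 : Matrix q q ℂ))) ^ 2 ≤ 4 * s := by
  by_contra hcon
  push Not at hcon
  have key : ∀ j : ℕ, j ≤ J + 1 → ∃ y : Matrix (m × q) (m × q) ℂ, Rep z F b j y ∧ hs y ≤ hs z - j * s := by
    intro j
    induction j with
    | zero => exact fun _ => ⟨z, rep_zero z F b, by simp⟩
    | succ j ih =>
      intro hj
      obtain ⟨y, hy, hys⟩ := ih (by omega)
      obtain ⟨u, hu, hub, hus⟩ := hcon j y (by omega) hy
      refine ⟨_, rep_succ z F b hb j y hy u hu hub, ?_⟩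
      rw [decrease y u hu]
      push_cast
      linarith
  obtain ⟨y, -, hy⟩ := key (J + 1) le_rfl
  have := hs_nonneg y
  push_cast at hy
  linarith

/-! ### The map `T ↦ ∑ F_i T F_i*` -/

/-- `∑ F_i T F_i*` -/
def PP (F : Fin r → Matrix m m ℂ) (T : Matrix m m ℂ) : Matrix m m ℂ := ∑ i, F i * T * (F i)ᴴ

lemma PP_star (F : Fin r → Matrix m m ℂ) (T : Matrix m m ℂ) : (PP F T)ᴴ = PP F Tᴴ := by
  unfold PP
  rw [conjTranspose_sum]
  refine Finset.sum_congr rfl fun i _ => ?_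
  rw [conjTranspose_mul, conjTranspose_mul, conjTranspose_conjTranspose]
  simp only [Matrix.mul_assoc]

lemma PP_LB (F : Fin r → Matrix m m ℂ) (c : ℝ) (hc : 0 ≤ c) (hF : ∀ i, LB (F i) c) (T : Matrix m m ℂ) (hT : LB T 1) :
    LB (PP F T) (r * (c * c)) := by
  have := LB.sum Finset.univ (fun i => F i * T * (F i)ᴴ) (c * c) (fun i _ => by
    have h1 := LB.mul hc (hF i) hT
    rw [mul_one] at h1
    exact LB.mul hc h1 (hF i).star)
  rwa [Finset.card_univ, Fintype.card_fin] at this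

lemma PP_comm (cst : Fin r → Fin r → Fin r → ℂ) (F : Fin r → Matrix m m ℂ) (c e : ℝ) (hc : 0 ≤ c)
    (hF : ∀ i, LB (F i) c) (hmul : ∀ j i, nm (F j * F i - ∑ l, cst j i l • F l) ≤ e)
    (hstar : ∀ l j, nm ((F l)ᴴ * F j - ∑ i, cst j i l • (F i)ᴴ) ≤ e) (T : Matrix m m ℂ) (hT : LB T 1) (j : Fin r) :
    nm (PP F T * F j - F j * PP F T) ≤ 2 * (r * (c * e)) := by
  have he : 0 ≤ e := (nm_nonneg _).trans (hmul j j)
  have e1 : PP F T * F j - F j * PP F T = ∑ l, F l * T * ((F l)ᴴ * F j - ∑ i, cst j i l • (F i)ᴴ) -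
      ∑ i, (F j * F i - ∑ l, cst j i l • F l) * T * (F i)ᴴ := by
    have f1 : PP F T * F j = ∑ l, F l * T * ((F l)ᴴ * F j) := by
      unfold PP
      rw [Matrix.sum_mul]
      exact Finset.sum_congr rfl fun l _ => by simp only [Matrix.mul_assoc]
    have f2 : F j * PP F T = ∑ i, F j * F i * T * (F i)ᴴ := by
      unfold PP
      rw [Matrix.mul_sum]
      exact Finset.sum_congr rfl fun l _ => by simp only [Matrix.mul_assoc]
    have f3 : ∑ l, F l * T * (∑ i, cst j i l • (F i)ᴴ) = ∑ i, (∑ l, cst j i l • F l) * T * (F i)ᴴ := by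
      have g1 : ∀ l, F l * T * (∑ i, cst j i l • (F i)ᴴ) = ∑ i, cst j i l • (F l * T * (F i)ᴴ) := by
        intro l
        rw [Matrix.mul_sum]
        exact Finset.sum_congr rfl fun i _ => by rw [Matrix.mul_smul]
      have g2 : ∀ i, (∑ l, cst j i l • F l) * T * (F i)ᴴ = ∑ l, cst j i l • (F l * T * (F i)ᴴ) := by
        intro i
        rw [Matrix.sum_mul, Matrix.sum_mul]
        exact Finset.sum_congr rfl fun l _ => by rw [Matrix.smul_mul, Matrix.smul_mul]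
      rw [Finset.sum_congr rfl fun l _ => g1 l, Finset.sum_congr rfl fun i _ => g2 i, Finset.sum_comm]
    have f4 : ∑ l, F l * T * ((F l)ᴴ * F j - ∑ i, cst j i l • (F i)ᴴ) =
        ∑ l, F l * T * ((F l)ᴴ * F j) - ∑ l, F l * T * (∑ i, cst j i l • (F i)ᴴ) := by
      rw [← Finset.sum_sub_distrib]
      exact Finset.sum_congr rfl fun l _ => by rw [Matrix.mul_sub]
    have f5 : ∑ i, (F j * F i - ∑ l, cst j i l • F l) * T * (F i)ᴴ =
        ∑ i, F j * F i * T * (F i)ᴴ - ∑ i, (∑ l, cst j i l • F l) * T * (F i)ᴴ := by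
      rw [← Finset.sum_sub_distrib]
      exact Finset.sum_congr rfl fun l _ => by rw [Matrix.sub_mul, Matrix.sub_mul]
    rw [f4, f5, f1, f2, f3]
    abel
  have b1 : nm (∑ l, F l * T * ((F l)ᴴ * F j - ∑ i, cst j i l • (F i)ᴴ)) ≤ r * (c * e) := by
    refine (nm_sum _ _).trans ?_
    have : ∀ l ∈ (Finset.univ : Finset (Fin r)), nm (F l * T * ((F l)ᴴ * F j - ∑ i, cst j i l • (F i)ᴴ)) ≤ c * e := by
      intro l _
      have h1 := LB.mul hc (hF l) hT
      rw [mul_one] at h1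
      exact (h1 _ _).trans (mul_le_mul_of_nonneg_left (hstar l j) hc)
    refine (Finset.sum_le_sum this).trans (le_of_eq ?_)
    rw [Finset.sum_const, Finset.card_univ, Fintype.card_fin, nsmul_eq_mul]
  have b2 : nm (∑ i, (F j * F i - ∑ l, cst j i l • F l) * T * (F i)ᴴ) ≤ r * (c * e) := by
    refine (nm_sum _ _).trans ?_
    have : ∀ i ∈ (Finset.univ : Finset (Fin r)), nm ((F j * F i - ∑ l, cst j i l • F l) * T * (F i)ᴴ) ≤ c * e := by
      intro i _
      have h1 := (hF i).star.right ((F j * F i - ∑ l, cst j i l • F l) * T)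
      have h2 := hT.right (F j * F i - ∑ l, cst j i l • F l)
      rw [one_mul] at h2
      exact h1.trans (mul_le_mul_of_nonneg_left (h2.trans (hmul j i)) hc)
    refine (Finset.sum_le_sum this).trans (le_of_eq ?_)
    rw [Finset.sum_const, Finset.card_univ, Fintype.card_fin, nsmul_eq_mul]
  rw [e1]
  refine (nm_sub _ _).trans ?_
  linarith

/-- almost commutation with all the `P(T)` -/
lemma comm_PP [DecidableEq m] [DecidableEq q] (F : Fin r → Matrix m m ℂ) (c C1 d b S : ℝ) (hc : 0 ≤ c)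
    (hC1 : r * (c * c) ≤ C1) (hC1' : 1 ≤ C1) (hF : ∀ i, LB (F i) c)
    (hP : ∀ T : Matrix m m ℂ, LB T 1 → ∀ j, nm (PP F T * F j - F j * PP F T) ≤ d) (hd : 2 * d ≤ b)
    (y : Matrix (m × q) (m × q) ℂ)
    (hy : ∀ u : Matrix m m ℂ, uᴴ * u = 1 → (∀ i, nm (u * F i - F i * u) ≤ b) →
        nm ((u ⊗ₖ (1 : Matrix q q ℂ)) * y - y * (u ⊗ₖ (1 : Matrix q q ℂ))) ≤ S)
    (T : Matrix m m ℂ) (hT : LB T 1) :
    nm ((PP F T ⊗ₖ (1 : Matrix q q ℂ)) * y - y * (PP F T ⊗ₖ (1 : Matrix q q ℂ))) ≤ 2 * C1 * S := by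
  have hC0 : 0 < C1 := by linarith
  -- one half
  have key : ∀ k : ℂ, ‖k‖ = 1 → ∀ X : Matrix m m ℂ, X = ((1 / (2 * C1) : ℝ) : ℂ) • (k • PP F T + (k • PP F T)ᴴ) →
      nm ((X ⊗ₖ (1 : Matrix q q ℂ)) * y - y * (X ⊗ₖ (1 : Matrix q q ℂ))) ≤ S := by
    intro k hk X hX
    have hp : ‖((1 / (2 * C1) : ℝ) : ℂ)‖ = 1 / (2 * C1) := by
      rw [Complex.norm_real, Real.norm_eq_abs, abs_of_pos (by positivity)]
    have h1 : Xᴴ = X := by
      rw [hX, conjTranspose_smul, conjTranspose_add, conjTranspose_conjTranspose, add_comm]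
      congr 1
      exact Complex.conj_ofReal _
    have hPk : LB (k • PP F T) C1 := by
      have := (PP_LB F c hc hF T hT).smul k
      rw [hk, one_mul] at this
      exact this.mono hC1
    have h2 : LB X 1 := by
      rw [hX]
      have := (hPk.add hPk.star).smul ((1 / (2 * C1) : ℝ) : ℂ)
      rw [hp] at this
      exact this.mono (by rw [← two_mul, one_div, inv_mul_cancel₀ (by positivity)])
    obtain ⟨u, hu, hu1, hu2⟩ := cayley X h1 h2
    refine (hu2 q y).trans (hy u hu fun i => (hu1 (F i)).trans ?_)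
    have h3 : nm (X * F i - F i * X) ≤ d := by
      have e1 : X * F i - F i * X = ((1 / (2 * C1) : ℝ) : ℂ) • (k • (PP F T * F i - F i * PP F T) +
          (star k) • (PP F Tᴴ * F i - F i * PP F Tᴴ)) := by
        rw [hX, conjTranspose_smul, PP_star]
        simp only [Matrix.smul_mul, Matrix.mul_smul, Matrix.add_mul, Matrix.mul_add, smul_add, smul_sub]
        abel
      rw [e1, nm_smul, hp]
      have h4 := hP T hT i
      have h5 := hP Tᴴ hT.star i
      have h6 := nm_add (k • (PP F T * F i - F i * PP F T)) ((star k) • (PP F Tᴴ * F i - F i * PP F Tᴴ))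
      rw [nm_smul, nm_smul, hk, norm_star, hk, one_mul, one_mul] at h6
      have hd0 : 0 ≤ d := (nm_nonneg _).trans h4
      calc 1 / (2 * C1) * nm (k • (PP F T * F i - F i * PP F T) + (star k) • (PP F Tᴴ * F i - F i * PP F Tᴴ)) ≤
            1 / (2 * C1) * (2 * d) := mul_le_mul_of_nonneg_left (by linarith) (by positivity)
        _ = d / C1 := by field_simp
        _ ≤ d := div_le_self hd0 hC1'
    linarith
  have h1 := key 1 (by simp) _ rfl
  have h2 := key (-Complex.I) (by simp) _ rfl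
  set X1 := ((1 / (2 * C1) : ℝ) : ℂ) • ((1 : ℂ) • PP F T + ((1 : ℂ) • PP F T)ᴴ) with hX1
  set X2 := ((1 / (2 * C1) : ℝ) : ℂ) • ((-Complex.I) • PP F T + ((-Complex.I) • PP F T)ᴴ) with hX2
  have hC0c : (C1 : ℂ) ≠ 0 := by exact_mod_cast hC0.ne'
  have e : PP F T = (C1 : ℂ) • (X1 + Complex.I • X2) := by
    have g1 : ((1 / (2 * C1) : ℝ) : ℂ) = 1 / (2 * (C1 : ℂ)) := by push_cast; ring
    rw [hX1, hX2, conjTranspose_smul, conjTranspose_smul, star_one, g1]
    have g2 : star (-Complex.I) = Complex.I := by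
      rw [Complex.star_def, map_neg, Complex.conj_I, neg_neg]
    rw [g2]
    ext a b'
    simp only [Matrix.smul_apply, Matrix.add_apply, smul_eq_mul]
    have g3 : Complex.I * Complex.I = -1 := Complex.I_mul_I
    field_simp
    linear_combination ((PP F T) a b' - (PP F T)ᴴ a b') * g3
  have e2 : (PP F T ⊗ₖ (1 : Matrix q q ℂ)) * y - y * (PP F T ⊗ₖ (1 : Matrix q q ℂ)) =
      (C1 : ℂ) • (((X1 ⊗ₖ (1 : Matrix q q ℂ)) * y - y * (X1 ⊗ₖ (1 : Matrix q q ℂ))) +
        Complex.I • ((X2 ⊗ₖ (1 : Matrix q q ℂ)) * y - y * (X2 ⊗ₖ (1 : Matrix q q ℂ)))) := by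
    have e3 : PP F T ⊗ₖ (1 : Matrix q q ℂ) =
        (C1 : ℂ) • ((X1 ⊗ₖ (1 : Matrix q q ℂ)) + Complex.I • (X2 ⊗ₖ (1 : Matrix q q ℂ))) := by
      rw [e, Matrix.smul_kronecker, Matrix.add_kronecker, Matrix.smul_kronecker Complex.I X2]
    rw [e3]
    simp only [Matrix.smul_mul, Matrix.mul_smul, Matrix.add_mul, Matrix.mul_add, smul_add, smul_sub]
    abel
  rw [e2, nm_smul, Complex.norm_real, Real.norm_eq_abs, abs_of_pos hC0]
  have h6 := nm_add ((X1 ⊗ₖ (1 : Matrix q q ℂ)) * y - y * (X1 ⊗ₖ (1 : Matrix q q ℂ)))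
    (Complex.I • ((X2 ⊗ₖ (1 : Matrix q q ℂ)) * y - y * (X2 ⊗ₖ (1 : Matrix q q ℂ))))
  rw [nm_smul, Complex.norm_I, one_mul] at h6
  calc _ ≤ C1 * (S + S) := mul_le_mul_of_nonneg_left (h6.trans (add_le_add h1 h2)) hC0.le
    _ = _ := by ring

end

end Com

open Com

set_option maxHeartbeats 8000000 in
theorem com : S_COM := by
  intro r cst t C β ε σ hβ hε hσ
  set c : ℝ := |C| with hcdef
  have hc : 0 ≤ c := abs_nonneg _
  set C1 : ℝ := r * (c * c) + 1 with hC1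
  have hr : (0 : ℝ) ≤ r := Nat.cast_nonneg _
  have hC1' : 1 ≤ C1 := by
    have : 0 ≤ r * (c * c) := by positivity
    linarith
  set s : ℝ := (σ / (16 * C1)) ^ 2 with hs'
  have hs0 : 0 < s := by positivity
  set J : ℕ := ⌈1 / s⌉₊ with hJ
  have hJs : 1 < (J + 1) * s := by
    have := Nat.le_ceil (1 / s)
    rw [div_le_iff₀ hs0] at this
    nlinarith
  set b : ℝ := min (√β) (σ / 4) / ((J + 1) * (r * c + 1)) with hb
  have hb0 : 0 < b := by
    have : 0 < √β := Real.sqrt_pos.2 hβ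
    positivity
  have hrc : 0 ≤ r * c := by positivity
  have hb1 : (J : ℝ) * b ≤ √β := by
    have h1 : (J + 1) * (r * c + 1) * b = min (√β) (σ / 4) := by
      rw [hb]; field_simp
    have h2 := min_le_left (√β) (σ / 4)
    have h3 : (J : ℝ) * b ≤ (J + 1) * (r * c + 1) * b := by
      apply mul_le_mul_of_nonneg_right _ hb0.le
      have : (0 : ℝ) ≤ J := Nat.cast_nonneg _
      nlinarith
    linarith
  have hb2 : r * c * (J * b) ≤ σ / 4 := by
    have h1 : (J + 1) * (r * c + 1) * b = min (√β) (σ / 4) := by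
      rw [hb]; field_simp
    have h2 := min_le_right (√β) (σ / 4)
    have h3 : r * c * (J * b) ≤ (J + 1) * (r * c + 1) * b := by
      have : (0 : ℝ) ≤ J := Nat.cast_nonneg _
      have h4 : r * c * J ≤ (J + 1) * (r * c + 1) := by nlinarith
      calc r * c * (J * b) = (r * c * J) * b := by ring
        _ ≤ _ := mul_le_mul_of_nonneg_right h4 hb0.le
    linarith
  set x : ℝ := min 1 (min (b / (4 * (r * c) + 1)) (σ / (4 * (r * c + 1)))) with hx
  have hx0 : 0 < x := by positivity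
  have hx1 : x ≤ 1 := min_le_left _ _
  have hx2 : 4 * (r * c) * x ≤ b := by
    have h1 : x ≤ b / (4 * (r * c) + 1) := (min_le_right _ _).trans (min_le_left _ _)
    rw [le_div_iff₀ (by positivity)] at h1
    nlinarith
  have hx3 : (r * c + 1) * x ≤ σ / 4 := by
    have h1 : x ≤ σ / (4 * (r * c + 1)) := (min_le_right _ _).trans (min_le_right _ _)
    rw [le_div_iff₀ (by positivity)] at h1
    linarith
  refine ⟨x ^ 2, by positivity, ?_⟩
  intro m q _ _ _ _ _ _ F z hF hmul hstar hone htr hz hV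
  set M : ℝ := ((Fintype.card m : ℕ) : ℝ) with hM
  set Q : ℝ := ((Fintype.card q : ℕ) : ℝ) with hQ
  have hM0 : 0 < M := by rw [hM]; exact_mod_cast Fintype.card_pos
  have hQ0 : 0 < Q := by rw [hQ]; exact_mod_cast Fintype.card_pos
  have hMc : (Fintype.card m : ℂ) ≠ 0 := by exact_mod_cast Fintype.card_ne_zero
  set D : ℝ := √(M * Q) with hD
  have hD0 : 0 < D := Real.sqrt_pos.2 (by positivity)
  have hD2 : D ^ 2 = M * Q := Real.sq_sqrt (by positivity)
  have hDM : √M * √Q = D := by rw [hD, Real.sqrt_mul hM0.le]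
  have hLF : ∀ i, LB (F i) c := fun i => LB.of_le hc (by rw [hcdef, sq_abs]; exact hF i)
  have hxs : √(x ^ 2 * M) = x * √M := by
    rw [Real.sqrt_mul (sq_nonneg x), Real.sqrt_sq hx0.le]
  have hnmul : ∀ j i, nm (F j * F i - ∑ l, cst j i l • F l) ≤ x * √M := fun j i => by
    rw [← hxs]; exact Real.sqrt_le_sqrt (hmul j i)
  have hnstar : ∀ l j, nm ((F l)ᴴ * F j - ∑ i, cst j i l • (F i)ᴴ) ≤ x * √M := fun l j => by
    rw [← hxs]; exact Real.sqrt_le_sqrt (hstar l j)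
  have hnone : nm (∑ i, t i • F i - 1) ≤ x * √M := by
    rw [← hxs]; exact Real.sqrt_le_sqrt hone
  have hnF : ∀ i, nm (F i) ≤ c * √M := by
    intro i
    have := hLF i m 1
    rwa [Matrix.mul_one, nm_one] at this
  have hLz : LB z 1 := LB.of_le zero_le_one (by simpa using hz)
  have hnz : hs z ≤ D ^ 2 := by
    have := hLz (m × q) 1
    rw [Matrix.mul_one, nm_one, one_mul, Fintype.card_prod, Nat.cast_mul] at this
    rw [← nm_sq]
    exact pow_le_pow_left₀ (nm_nonneg _) this 2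
  -- the greedy argument
  obtain ⟨j, y, hj, hrep, hy⟩ := greedy z F (b * √M) (by positivity) (D ^ 2) (s * D ^ 2) hnz J (by
    calc D ^ 2 = 1 * D ^ 2 := (one_mul _).symm
      _ < (J + 1) * s * D ^ 2 := mul_lt_mul_of_pos_right hJs (by positivity)
      _ = _ := by ring)
  have hjJ : (j : ℝ) ≤ J := by exact_mod_cast hj
  -- (1) distance of `z` and `y`
  have d1 : nm (z - y) ≤ √ε * D := by
    rw [nm_comm]
    refine hrep (fun x => x) z (√ε * D) (fun _ _ => rfl) ?_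
    intro w hw hwb
    set W := w ⊗ₖ (1 : Matrix q q ℂ) with hW
    have hW1 : Wᴴ * W = 1 := by
      rw [hW, conjTranspose_kronecker, ← Matrix.mul_kronecker_mul, hw, conjTranspose_one, Matrix.one_mul,
        Matrix.one_kronecker_one]
    have h1 := hV w (by rw [hw]; exact Le_refl 1) (by
      intro i
      have h2 := hwb i
      have h3 : nm (w * F i - F i * w) ≤ √β * √M := by
        refine h2.trans ?_
        calc (j : ℝ) * (b * √M) ≤ J * (b * √M) := mul_le_mul_of_nonneg_right hjJ (by positivity)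
          _ = (J * b) * √M := by ring
          _ ≤ √β * √M := mul_le_mul_of_nonneg_right hb1 (Real.sqrt_nonneg _)
      rw [← nm_sq]
      calc nm (w * F i - F i * w) ^ 2 ≤ (√β * √M) ^ 2 := pow_le_pow_left₀ (nm_nonneg _) h3 2
        _ = β * M := by rw [mul_pow, Real.sq_sqrt hβ.le, Real.sq_sqrt hM0.le])
    have h4 : hs (W * z * Wᴴ - z) = hs (W * z - z * W) := by
      rw [hs_comm_eq' hW1, hs_sub_comm]
    show √(hs (W * z * Wᴴ - z)) ≤ _
    rw [h4, hD, ← Real.sqrt_mul hε]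
    exact Real.sqrt_le_sqrt h1
  -- (2) distance of `EE z` and `EE y`
  have d2 : nm (EE F y - EE F z) ≤ σ / 4 * D := by
    refine hrep (fun x => EE F x) (EE F z) (σ / 4 * D) (fun x y => EE_half F x y) ?_
    intro w hw hwb
    set W := w ⊗ₖ (1 : Matrix q q ℂ) with hW
    have hwl : LB wᴴ 1 := by
      intro l _ v
      rw [one_mul]
      apply nm_le_of_hs
      rw [hs_unit_mul (unit_conj hw)]
    have e1 : ∀ i, PT (((F i)ᴴ ⊗ₖ (1 : Matrix q q ℂ)) * (W * z * Wᴴ)) - PT (((F i)ᴴ ⊗ₖ (1 : Matrix q q ℂ)) * z) =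
        PT (((wᴴ * (F i)ᴴ * w - (F i)ᴴ) ⊗ₖ (1 : Matrix q q ℂ)) * z) := by
      intro i
      have g1 : PT (((F i)ᴴ ⊗ₖ (1 : Matrix q q ℂ)) * (W * z * Wᴴ)) =
          PT (((wᴴ * (F i)ᴴ * w) ⊗ₖ (1 : Matrix q q ℂ)) * z) := by
        have g2 : ((F i)ᴴ ⊗ₖ (1 : Matrix q q ℂ)) * (W * z * Wᴴ) =
            (((F i)ᴴ * w) ⊗ₖ (1 : Matrix q q ℂ)) * z * (wᴴ ⊗ₖ (1 : Matrix q q ℂ)) := by
          have g3 : ((F i)ᴴ * w) ⊗ₖ (1 : Matrix q q ℂ) = ((F i)ᴴ ⊗ₖ (1 : Matrix q q ℂ)) * W := by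
            rw [hW, ← Matrix.mul_kronecker_mul, Matrix.one_mul]
          have g4 : Wᴴ = wᴴ ⊗ₖ (1 : Matrix q q ℂ) := by
            rw [hW, conjTranspose_kronecker, conjTranspose_one]
          rw [g3, g4]
          simp only [Matrix.mul_assoc]
        rw [g2, ← PT_comm, ← Matrix.mul_assoc, ← Matrix.mul_kronecker_mul, Matrix.one_mul]
        simp only [Matrix.mul_assoc]
      rw [g1, ← PT_sub, ← Matrix.sub_mul]
      congr 2
      ext ⟨a, b⟩ ⟨c, d⟩
      simp only [Matrix.sub_apply, Matrix.kroneckerMap_apply, sub_mul]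
    have e2 : EE F (W * z * Wᴴ) - EE F z =
        ∑ i, F i ⊗ₖ PT (((wᴴ * (F i)ᴴ * w - (F i)ᴴ) ⊗ₖ (1 : Matrix q q ℂ)) * z) := by
      unfold EE
      rw [← Finset.sum_sub_distrib]
      refine Finset.sum_congr rfl fun i _ => ?_
      rw [← e1 i]
      ext ⟨a, b⟩ ⟨c, d⟩
      simp only [Matrix.sub_apply, Matrix.kroneckerMap_apply, mul_sub]
    show nm (EE F (W * z * Wᴴ) - EE F z) ≤ _
    rw [e2]
    refine (nm_sum _ _).trans ?_
    have e3 : ∀ i ∈ (Finset.univ : Finset (Fin r)),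
        nm (F i ⊗ₖ PT (((wᴴ * (F i)ᴴ * w - (F i)ᴴ) ⊗ₖ (1 : Matrix q q ℂ)) * z)) ≤ c * (J * b * D) := by
      intro i _
      refine (nm_F_PT hc (hnF i) _).trans (mul_le_mul_of_nonneg_left ?_ hc)
      have h1 := hLz.right ((wᴴ * (F i)ᴴ * w - (F i)ᴴ) ⊗ₖ (1 : Matrix q q ℂ))
      rw [one_mul, nm_kron_one] at h1
      refine h1.trans ?_
      have h2 : nm (wᴴ * (F i)ᴴ * w - (F i)ᴴ) = nm (w * F i - F i * w) := by
        unfold nm
        rw [hs_sub_comm, ← hs_comm_eq hw, hs_comm_conj hw]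
      rw [h2]
      have h3 : nm (w * F i - F i * w) ≤ J * b * √M := by
        refine (hwb i).trans ?_
        calc (j : ℝ) * (b * √M) ≤ J * (b * √M) := mul_le_mul_of_nonneg_right hjJ (by positivity)
          _ = (J * b) * √M := by ring
      calc nm (w * F i - F i * w) * √Q ≤ (J * b * √M) * √Q :=
            mul_le_mul_of_nonneg_right h3 (Real.sqrt_nonneg _)
        _ = J * b * (√M * √Q) := by ring
        _ = J * b * D := by rw [hDM]
    refine (Finset.sum_le_sum e3).trans ?_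
    rw [Finset.sum_const, Finset.card_univ, Fintype.card_fin, nsmul_eq_mul]
    calc (r : ℝ) * (c * (J * b * D)) = r * c * (J * b) * D := by ring
      _ ≤ σ / 4 * D := mul_le_mul_of_nonneg_right hb2 hD0.le
  -- (3) almost commutation
  have hcomm : ∀ u : Matrix m m ℂ, uᴴ * u = 1 → (∀ i, nm (u * F i - F i * u) ≤ b * √M) →
      nm ((u ⊗ₖ (1 : Matrix q q ℂ)) * y - y * (u ⊗ₖ (1 : Matrix q q ℂ))) ≤ σ / (8 * C1) * D := by
    intro u hu hub
    have h1 := hy u hu hub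
    have h2 : 4 * (s * D ^ 2) = (σ / (8 * C1) * D) ^ 2 := by
      rw [hs']; field_simp; ring
    rw [h2] at h1
    exact (pow_le_pow_iff_left₀ (nm_nonneg _) (by positivity) two_ne_zero).1 h1
  have hPPc := fun T hT => comm_PP F c C1 (2 * (r * (c * (x * √M)))) (b * √M) (σ / (8 * C1) * D) hc
    (by linarith) hC1' hLF (fun T' hT' j' => PP_comm cst F c (x * √M) hc hLF hnmul hnstar T' hT' j') (by
      calc 2 * (2 * (r * (c * (x * √M)))) = (4 * (r * c) * x) * √M := by ring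
        _ ≤ b * √M := mul_le_mul_of_nonneg_right hx2 (Real.sqrt_nonneg _)) y hcomm T hT
  -- (4) the average
  obtain ⟨Ω, _, _, T, hT, havg⟩ := exists_avg m
  have hΩ : (0 : ℝ) < Fintype.card Ω := by exact_mod_cast Fintype.card_pos
  have hΩc : (Fintype.card Ω : ℂ) ≠ 0 := by exact_mod_cast Fintype.card_ne_zero
  set G : Matrix m m ℂ := ∑ i, (trace ((F i)ᴴ) / (Fintype.card m : ℂ)) • F i with hG
  have hPT1 : ∀ a : Matrix m m ℂ, PT (a ⊗ₖ (1 : Matrix q q ℂ)) = (trace a / (Fintype.card m : ℂ)) • 1 := by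
    intro a
    ext x' y'
    have g : ∀ w : m, (a ⊗ₖ (1 : Matrix q q ℂ)) (w, x') (w, y') = a w w * (1 : Matrix q q ℂ) x' y' := fun w => rfl
    show (∑ w : m, (a ⊗ₖ (1 : Matrix q q ℂ)) (w, x') (w, y')) / (Fintype.card m : ℂ) = _
    rw [Finset.sum_congr rfl fun w _ => g w, ← Finset.sum_mul, Matrix.smul_apply, smul_eq_mul]
    show (trace a * (1 : Matrix q q ℂ) x' y') / _ = _
    ring
  have e1 : ∑ ω, (y * (PP F (T ω) ⊗ₖ (1 : Matrix q q ℂ)) - (PP F (T ω) ⊗ₖ (1 : Matrix q q ℂ)) * y) *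
      (T ω ⊗ₖ (1 : Matrix q q ℂ))ᴴ = (Fintype.card Ω : ℂ) • (y * (G ⊗ₖ (1 : Matrix q q ℂ)) - EE F y) := by
    have hPPk : ∀ T : Matrix m m ℂ, PP F T ⊗ₖ (1 : Matrix q q ℂ) =
        ∑ i, (F i ⊗ₖ (1 : Matrix q q ℂ)) * (T ⊗ₖ (1 : Matrix q q ℂ)) * ((F i)ᴴ ⊗ₖ (1 : Matrix q q ℂ)) := by
      intro T
      have g1 : ∀ i, (F i ⊗ₖ (1 : Matrix q q ℂ)) * (T ⊗ₖ (1 : Matrix q q ℂ)) * ((F i)ᴴ ⊗ₖ (1 : Matrix q q ℂ)) =
          (F i * T * (F i)ᴴ) ⊗ₖ (1 : Matrix q q ℂ) := by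
        intro i
        rw [← Matrix.mul_kronecker_mul, ← Matrix.mul_kronecker_mul, Matrix.one_mul, Matrix.one_mul]
      rw [Finset.sum_congr rfl fun i _ => g1 i]
      unfold PP
      ext ⟨a, b⟩ ⟨c, d⟩
      simp only [Matrix.kroneckerMap_apply, Matrix.sum_apply, Finset.sum_mul]
    have g1 : ∑ ω, (y * (PP F (T ω) ⊗ₖ (1 : Matrix q q ℂ))) * (T ω ⊗ₖ (1 : Matrix q q ℂ))ᴴ =
        (Fintype.card Ω : ℂ) • (y * (G ⊗ₖ (1 : Matrix q q ℂ))) := by
      have g2 : ∀ ω, (y * (PP F (T ω) ⊗ₖ (1 : Matrix q q ℂ))) * (T ω ⊗ₖ (1 : Matrix q q ℂ))ᴴ =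
          ∑ i, y * (F i ⊗ₖ (1 : Matrix q q ℂ)) * ((T ω ⊗ₖ (1 : Matrix q q ℂ)) * ((F i)ᴴ ⊗ₖ (1 : Matrix q q ℂ)) *
            (T ω ⊗ₖ (1 : Matrix q q ℂ))ᴴ) := by
        intro ω
        rw [hPPk, Matrix.mul_sum, Matrix.sum_mul]
        exact Finset.sum_congr rfl fun i _ => by simp only [Matrix.mul_assoc]
      rw [Finset.sum_congr rfl fun ω _ => g2 ω, Finset.sum_comm]
      have g3 : ∀ i, ∑ ω, y * (F i ⊗ₖ (1 : Matrix q q ℂ)) * ((T ω ⊗ₖ (1 : Matrix q q ℂ)) *
          ((F i)ᴴ ⊗ₖ (1 : Matrix q q ℂ)) * (T ω ⊗ₖ (1 : Matrix q q ℂ))ᴴ) =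
          (Fintype.card Ω : ℂ) • (y * (((trace ((F i)ᴴ) / (Fintype.card m : ℂ)) • F i) ⊗ₖ (1 : Matrix q q ℂ))) := by
        intro i
        rw [← Matrix.mul_sum, havg, hPT1, Matrix.mul_smul, Matrix.kronecker_smul, Matrix.one_kronecker_one,
          Matrix.mul_smul, Matrix.mul_one, Matrix.smul_kronecker, Matrix.mul_smul]
      rw [Finset.sum_congr rfl fun i _ => g3 i, ← Finset.smul_sum, ← Matrix.mul_sum]
      congr 2
      rw [hG]
      ext ⟨a, b⟩ ⟨c, d⟩
      simp only [Matrix.kroneckerMap_apply, Matrix.sum_apply, Finset.sum_mul]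
    have g4 : ∑ ω, ((PP F (T ω) ⊗ₖ (1 : Matrix q q ℂ)) * y) * (T ω ⊗ₖ (1 : Matrix q q ℂ))ᴴ =
        (Fintype.card Ω : ℂ) • EE F y := by
      have g2 : ∀ ω, ((PP F (T ω) ⊗ₖ (1 : Matrix q q ℂ)) * y) * (T ω ⊗ₖ (1 : Matrix q q ℂ))ᴴ =
          ∑ i, (F i ⊗ₖ (1 : Matrix q q ℂ)) * ((T ω ⊗ₖ (1 : Matrix q q ℂ)) * (((F i)ᴴ ⊗ₖ (1 : Matrix q q ℂ)) * y) *
            (T ω ⊗ₖ (1 : Matrix q q ℂ))ᴴ) := by
        intro ω
        rw [hPPk, Matrix.sum_mul, Matrix.sum_mul]
        exact Finset.sum_congr rfl fun i _ => by simp only [Matrix.mul_assoc]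
      rw [Finset.sum_congr rfl fun ω _ => g2 ω, Finset.sum_comm]
      unfold EE
      rw [Finset.smul_sum]
      refine Finset.sum_congr rfl fun i _ => ?_
      rw [← Matrix.mul_sum, havg, Matrix.mul_smul, ← Matrix.mul_kronecker_mul, Matrix.mul_one, Matrix.one_mul]
    simp only [Matrix.sub_mul, Finset.sum_sub_distrib]
    rw [g1, g4, smul_sub]
  have d3 : nm (y * (G ⊗ₖ (1 : Matrix q q ℂ)) - EE F y) ≤ σ / 4 * D := by
    have h1 : nm ((Fintype.card Ω : ℂ) • (y * (G ⊗ₖ (1 : Matrix q q ℂ)) - EE F y)) ≤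
        Fintype.card Ω * (σ / 4 * D) := by
      rw [← e1]
      refine (nm_sum _ _).trans ?_
      have h2 : ∀ ω ∈ (Finset.univ : Finset Ω), nm ((y * (PP F (T ω) ⊗ₖ (1 : Matrix q q ℂ)) -
          (PP F (T ω) ⊗ₖ (1 : Matrix q q ℂ)) * y) * (T ω ⊗ₖ (1 : Matrix q q ℂ))ᴴ) ≤ σ / 4 * D := by
        intro ω _
        have h3 := ((hT ω).kron (q := q)).star.right (y * (PP F (T ω) ⊗ₖ (1 : Matrix q q ℂ)) -
          (PP F (T ω) ⊗ₖ (1 : Matrix q q ℂ)) * y)
        rw [one_mul] at h3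
        refine h3.trans ?_
        rw [nm_comm]
        refine (hPPc (T ω) (hT ω)).trans (le_of_eq ?_)
        field_simp
        ring
      refine (Finset.sum_le_sum h2).trans (le_of_eq ?_)
      rw [Finset.sum_const, Finset.card_univ, nsmul_eq_mul]
    rw [nm_smul] at h1
    have h2 : ‖(Fintype.card Ω : ℂ)‖ = Fintype.card Ω := by simp
    rw [h2] at h1
    exact le_of_mul_le_mul_left h1 hΩ
  -- (5) the unit
  have d4 : nm (y - y * (G ⊗ₖ (1 : Matrix q q ℂ))) ≤ σ / 4 * D := by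
    have h1 : nm (1 - G) ≤ σ / 4 * √M := by
      have e2 : (1 : Matrix m m ℂ) - G = -(∑ i, t i • F i - 1) -
          ∑ i, (trace ((F i)ᴴ) / (Fintype.card m : ℂ) - t i) • F i := by
        rw [hG]
        simp only [sub_smul, Finset.sum_sub_distrib]
        abel
      rw [e2]
      refine (nm_sub _ _).trans ?_
      have h2 : nm (-(∑ i, t i • F i - 1)) ≤ x * √M := by
        rw [← neg_one_smul ℂ, nm_smul]
        simpa using hnone
      have h3 : nm (∑ i, (trace ((F i)ᴴ) / (Fintype.card m : ℂ) - t i) • F i) ≤ r * (x * (c * √M)) := by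
        refine (nm_sum _ _).trans ?_
        have h4 : ∀ i ∈ (Finset.univ : Finset (Fin r)),
            nm ((trace ((F i)ᴴ) / (Fintype.card m : ℂ) - t i) • F i) ≤ x * (c * √M) := by
          intro i _
          rw [nm_smul]
          have h5 : x ^ 2 ≤ x := by nlinarith
          exact mul_le_mul ((htr i).trans h5) (hnF i) (nm_nonneg _) hx0.le
        refine (Finset.sum_le_sum h4).trans (le_of_eq ?_)
        rw [Finset.sum_const, Finset.card_univ, Fintype.card_fin, nsmul_eq_mul]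
      calc _ ≤ x * √M + r * (x * (c * √M)) := add_le_add h2 h3
        _ = (r * c + 1) * x * √M := by ring
        _ ≤ σ / 4 * √M := mul_le_mul_of_nonneg_right hx3 (Real.sqrt_nonneg _)
    have h2 := hrep (fun v => v * ((1 - G) ⊗ₖ (1 : Matrix q q ℂ))) 0 (σ / 4 * D) (fun v w => by
      rw [Matrix.smul_mul, Matrix.add_mul]) (by
      intro w hw _
      rw [sub_zero]
      set W := w ⊗ₖ (1 : Matrix q q ℂ) with hW
      have hW1 : Wᴴ * W = 1 := by
        rw [hW, conjTranspose_kronecker, ← Matrix.mul_kronecker_mul, hw, conjTranspose_one, Matrix.one_mul,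
          Matrix.one_kronecker_one]
      have h3 : nm (W * z * Wᴴ * ((1 - G) ⊗ₖ (1 : Matrix q q ℂ))) ≤ nm ((1 - G) ⊗ₖ (1 : Matrix q q ℂ)) := by
        have e3 : W * z * Wᴴ * ((1 - G) ⊗ₖ (1 : Matrix q q ℂ)) = W * (z * (Wᴴ * ((1 - G) ⊗ₖ (1 : Matrix q q ℂ)))) := by
          simp only [Matrix.mul_assoc]
        have e4 : ∀ v : Matrix (m × q) (m × q) ℂ, nm (W * v) = nm v := fun v => by
          unfold nm; rw [hs_unit_mul hW1]
        have e5 : ∀ v : Matrix (m × q) (m × q) ℂ, nm (Wᴴ * v) = nm v := fun v => by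
          unfold nm; rw [hs_unit_mul (unit_conj hW1)]
        rw [e3, e4]
        have := hLz _ (Wᴴ * ((1 - G) ⊗ₖ (1 : Matrix q q ℂ)))
        rwa [one_mul, e5] at this
      refine h3.trans ?_
      rw [nm_kron_one]
      calc nm (1 - G) * √Q ≤ σ / 4 * √M * √Q := mul_le_mul_of_nonneg_right h1 (Real.sqrt_nonneg _)
        _ = σ / 4 * (√M * √Q) := by ring
        _ = _ := by rw [hDM])
    rw [sub_zero] at h2
    have e6 : y * ((1 - G) ⊗ₖ (1 : Matrix q q ℂ)) = y - y * (G ⊗ₖ (1 : Matrix q q ℂ)) := by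
      have : (1 - G) ⊗ₖ (1 : Matrix q q ℂ) = 1 - G ⊗ₖ (1 : Matrix q q ℂ) := by
        rw [← Matrix.one_kronecker_one]
        ext ⟨a, b⟩ ⟨c, d⟩
        simp only [Matrix.sub_apply, Matrix.kroneckerMap_apply, sub_mul]
      rw [this, Matrix.mul_sub, Matrix.mul_one]
    rw [← e6]
    exact h2
  -- the sum
  have total : nm (z - EE F z) ≤ (√ε + σ) * D := by
    have h1 := nm_tri z y (EE F z)
    have h2 := nm_tri y (EE F y) (EE F z)
    have h3 := nm_tri y (y * (G ⊗ₖ (1 : Matrix q q ℂ))) (EE F y)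
    nlinarith
  rw [← nm_sq]
  calc nm (z - EE F z) ^ 2 ≤ ((√ε + σ) * D) ^ 2 := pow_le_pow_left₀ (nm_nonneg _) total 2
    _ = (√ε + σ) ^ 2 * D ^ 2 := mul_pow _ _ _
    _ = _ := by rw [hD2]

end Pool.Agent.Helper47.CA
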