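import Pool.Agent.Helper47.CA.Stm
import Pool.Graph.R_seed8.W683.RC.Bas

/-!
# Approximate commutants and conditional expectations (`S_COM`), part 1
-/

set_option autoImplicit false
set_option linter.unusedSectionVars false

open Matrix
open scoped ComplexOrder Kronecker

namespace Pool.Agent.Helper47.CA

open Pool.Agent.W661.RC (hs Le)
open Pool.Agent.W683.RC

namespace Com

noncomputable section

variable {m n l q : Type} [Fintype m] [Fintype n] [Fintype l] [Fintype q] {r : ℕ}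

/-- the Hilbert-Schmidt norm -/
def nm (x : Matrix m n ℂ) : ℝ := √(hs x)

lemma nm_nonneg (x : Matrix m n ℂ) : 0 ≤ nm x := Real.sqrt_nonneg _

lemma nm_sq (x : Matrix m n ℂ) : nm x ^ 2 = hs x := Real.sq_sqrt (hs_nonneg x)

lemma nm_add (x y : Matrix m n ℂ) : nm (x + y) ≤ nm x + nm y := sqrt_hs_add_le x y

lemma nm_sub (x y : Matrix m n ℂ) : nm (x - y) ≤ nm x + nm y := sqrt_hs_sub_le x y

lemma nm_sum {ι : Type*} (s : Finset ι) (f : ι → Matrix m n ℂ) : nm (∑ i ∈ s, f i) ≤ ∑ i ∈ s, nm (f i) :=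
  sqrt_hs_sum_le s f

lemma nm_smul (c : ℂ) (x : Matrix m n ℂ) : nm (c • x) = ‖c‖ * nm x := by
  unfold nm
  rw [hs_smul, Real.sqrt_mul (by positivity), Real.sqrt_sq (norm_nonneg _)]

lemma nm_conj (x : Matrix m n ℂ) : nm xᴴ = nm x := by
  unfold nm
  rw [hs_conjTranspose]

lemma nm_comm (x y : Matrix m n ℂ) : nm (x - y) = nm (y - x) := by
  unfold nm
  rw [hs_sub_comm]

lemma nm_le_of_hs {x : Matrix m n ℂ} {y : Matrix l q ℂ} (h : hs x ≤ hs y) : nm x ≤ nm y :=
  Real.sqrt_le_sqrt h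

lemma nm_tri (x y z : Matrix m n ℂ) : nm (x - z) ≤ nm (x - y) + nm (y - z) := by
  have : x - z = (x - y) + (y - z) := by abel
  rw [this]
  exact nm_add _ _

/-- a bound of the operator norm -/
def LB (a : Matrix m m ℂ) (c : ℝ) : Prop :=
  ∀ (l : Type) [Fintype l] (y : Matrix m l ℂ), nm (a * y) ≤ c * nm y

lemma LB.star {a : Matrix m m ℂ} {c : ℝ} (h : LB a c) : LB aᴴ c := by
  intro l _ y
  have h0 : 0 ≤ c * nm y := (nm_nonneg _).trans (h l y)
  by_cases hz : nm (aᴴ * y) = 0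
  · rw [hz]; exact h0
  have hp : 0 < nm (aᴴ * y) := lt_of_le_of_ne (nm_nonneg _) (Ne.symm hz)
  have h1 : nm (aᴴ * y) * nm (aᴴ * y) ≤ c * nm y * nm (aᴴ * y) := by
    rw [← sq, nm_sq, hs_eq_tr]
    have e : (aᴴ * y)ᴴ * (aᴴ * y) = (a * (aᴴ * y))ᴴ * y := by
      rw [conjTranspose_mul a]
      simp only [Matrix.mul_assoc]
    rw [e]
    refine (tr_conj_mul_le _ _).trans ?_
    calc nm (a * (aᴴ * y)) * nm y ≤ (c * nm (aᴴ * y)) * nm y :=
          mul_le_mul_of_nonneg_right (h l _) (nm_nonneg _)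
      _ = _ := by ring
  exact le_of_mul_le_mul_right h1 hp

lemma LB.right {a : Matrix m m ℂ} {c : ℝ} (h : LB a c) (y : Matrix l m ℂ) : nm (y * a) ≤ c * nm y := by
  rw [← nm_conj, ← nm_conj y, conjTranspose_mul]
  exact h.star l yᴴ

lemma LB.add {a b : Matrix m m ℂ} {c d : ℝ} (h : LB a c) (h' : LB b d) : LB (a + b) (c + d) := by
  intro l _ y
  rw [Matrix.add_mul, add_mul]
  exact (nm_add _ _).trans (add_le_add (h l y) (h' l y))

lemma LB.sub {a b : Matrix m m ℂ} {c d : ℝ} (h : LB a c) (h' : LB b d) : LB (a - b) (c + d) := by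
  intro l _ y
  rw [Matrix.sub_mul, add_mul]
  exact (nm_sub _ _).trans (add_le_add (h l y) (h' l y))

lemma LB.smul {a : Matrix m m ℂ} {c : ℝ} (h : LB a c) (k : ℂ) : LB (k • a) (‖k‖ * c) := by
  intro l _ y
  rw [Matrix.smul_mul, nm_smul, mul_assoc]
  exact mul_le_mul_of_nonneg_left (h l y) (norm_nonneg _)

lemma LB.mono {a : Matrix m m ℂ} {c d : ℝ} (h : LB a c) (hcd : c ≤ d) : LB a d := by
  intro l _ y
  exact (h l y).trans (mul_le_mul_of_nonneg_right hcd (nm_nonneg _))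

lemma LB.mul {a b : Matrix m m ℂ} {c d : ℝ} (hc : 0 ≤ c) (h : LB a c) (h' : LB b d) : LB (a * b) (c * d) := by
  intro l _ y
  rw [Matrix.mul_assoc]
  refine (h l _).trans ?_
  rw [mul_assoc]
  exact mul_le_mul_of_nonneg_left (h' l y) hc

lemma LB.sum {ι : Type*} (s : Finset ι) (f : ι → Matrix m m ℂ) (c : ℝ) (h : ∀ i ∈ s, LB (f i) c) :
    LB (∑ i ∈ s, f i) (s.card * c) := by
  intro l _ y
  rw [Matrix.sum_mul]
  refine (nm_sum _ _).trans ((Finset.sum_le_sum fun i hi => h i hi l y).trans ?_)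
  rw [Finset.sum_const, nsmul_eq_mul, mul_assoc]

/-- from the order -/
lemma LB.of_le [DecidableEq m] {a : Matrix m m ℂ} {c : ℝ} (hc : 0 ≤ c)
    (h : Le (aᴴ * a) (((c ^ 2 : ℝ) : ℂ) • 1)) : LB a c := by
  intro l _ y
  have := hs_mul_le_of h y
  unfold nm
  rw [← Real.sqrt_sq hc, ← Real.sqrt_mul (sq_nonneg c)]
  exact Real.sqrt_le_sqrt this

/-- tensor products -/
lemma LB.kron [DecidableEq q] {a : Matrix m m ℂ} {c : ℝ} (h : LB a c) : LB (a ⊗ₖ (1 : Matrix q q ℂ)) c := by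
  intro l _ y
  have key : ∀ w : Matrix (m × q) l ℂ, nm w = nm (Matrix.of fun (x : m) (p : q × l) => w (x, p.1) p.2) := by
    intro w
    unfold nm hs
    congr 1
    rw [Fintype.sum_prod_type]
    refine Finset.sum_congr rfl fun x _ => ?_
    rw [Fintype.sum_prod_type]
    rfl
  have e : (Matrix.of fun (x : m) (p : q × l) => ((a ⊗ₖ (1 : Matrix q q ℂ)) * y) (x, p.1) p.2) =
      a * (Matrix.of fun (x : m) (p : q × l) => y (x, p.1) p.2) := by
    ext x ⟨b, c⟩
    simp only [Matrix.of_apply, Matrix.mul_apply, Fintype.sum_prod_type, Matrix.kroneckerMap_apply,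
      Matrix.one_apply, mul_ite, mul_one, mul_zero, ite_mul, zero_mul, Finset.sum_ite_eq, Finset.mem_univ, if_true]
  rw [key, key y, e]
  exact h _ _

lemma nm_kron (a : Matrix m n ℂ) (b : Matrix q l ℂ) : nm (a ⊗ₖ b) = nm a * nm b := by
  unfold nm
  rw [← Real.sqrt_mul (hs_nonneg a)]
  congr 1
  have h : ((hs (a ⊗ₖ b) : ℝ) : ℂ) = ((hs a * hs b : ℝ) : ℂ) := by
    rw [← trace_conjTranspose_mul_self, conjTranspose_kronecker, ← Matrix.mul_kronecker_mul, trace_kronecker,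
      trace_conjTranspose_mul_self, trace_conjTranspose_mul_self]
    push_cast
    rfl
  exact_mod_cast h

lemma nm_one [DecidableEq q] : nm (1 : Matrix q q ℂ) = √(Fintype.card q) := by
  unfold nm
  congr 1
  rw [hs_eq_tr, conjTranspose_one, Matrix.one_mul]
  simp [Pool.Agent.W661.RC.tr]

lemma nm_kron_one [DecidableEq q] (a : Matrix m n ℂ) : nm (a ⊗ₖ (1 : Matrix q q ℂ)) = nm a * √(Fintype.card q) := by
  rw [nm_kron, nm_one]

/-! ### The partial trace -/

lemma PT_add [DecidableEq m] [DecidableEq q] (x y : Matrix (m × q) (m × q) ℂ) : PT (x + y) = PT x + PT y := by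
  ext a b
  simp only [PT, Matrix.of_apply, Matrix.add_apply, Finset.sum_add_distrib, add_div]

lemma PT_smul [DecidableEq m] [DecidableEq q] (c : ℂ) (x : Matrix (m × q) (m × q) ℂ) : PT (c • x) = c • PT x := by
  ext a b
  simp only [PT, Matrix.of_apply, Matrix.smul_apply, smul_eq_mul, ← Finset.mul_sum, mul_div_assoc]

lemma PT_sub [DecidableEq m] [DecidableEq q] (x y : Matrix (m × q) (m × q) ℂ) : PT (x - y) = PT x - PT y := by
  ext a b
  simp only [PT, Matrix.of_apply, Matrix.sub_apply, Finset.sum_sub_distrib, sub_div]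

lemma EE_half [DecidableEq m] [DecidableEq q] (F : Fin r → Matrix m m ℂ) (x y : Matrix (m × q) (m × q) ℂ) :
    EE F ((1 / 2 : ℂ) • (x + y)) = (1 / 2 : ℂ) • (EE F x + EE F y) := by
  unfold EE
  rw [← Finset.sum_add_distrib, Finset.smul_sum]
  refine Finset.sum_congr rfl fun i _ => ?_
  rw [Matrix.mul_smul, PT_smul, Matrix.mul_add, PT_add, Matrix.kronecker_smul, Matrix.kronecker_add]

lemma EE_sub [DecidableEq m] [DecidableEq q] (F : Fin r → Matrix m m ℂ) (x y : Matrix (m × q) (m × q) ℂ) :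
    EE F (x - y) = EE F x - EE F y := by
  unfold EE
  rw [← Finset.sum_sub_distrib]
  refine Finset.sum_congr rfl fun i _ => ?_
  rw [Matrix.mul_sub, PT_sub]
  ext ⟨a, b⟩ ⟨c, d⟩
  simp only [Matrix.sub_apply, Matrix.kroneckerMap_apply, mul_sub]

lemma PT_comm [DecidableEq m] [DecidableEq q] (a : Matrix m m ℂ) (y : Matrix (m × q) (m × q) ℂ) :
    PT ((a ⊗ₖ (1 : Matrix q q ℂ)) * y) = PT (y * (a ⊗ₖ (1 : Matrix q q ℂ))) := by
  ext b c
  simp only [PT, Matrix.of_apply]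
  congr 1
  simp only [Matrix.mul_apply, Fintype.sum_prod_type, Matrix.kroneckerMap_apply,
      Matrix.one_apply, mul_ite, mul_one, mul_zero, ite_mul, zero_mul, Finset.sum_ite_eq, Finset.sum_ite_eq',
      Finset.mem_univ, if_true]
  rw [Finset.sum_comm]
  exact Finset.sum_congr rfl fun x _ => Finset.sum_congr rfl fun x' _ => mul_comm _ _

lemma nm_PT [DecidableEq m] [DecidableEq q] [Nonempty m] (y : Matrix (m × q) (m × q) ℂ) :
    √(Fintype.card m) * nm (PT y) ≤ nm y := by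
  have hm : (0 : ℝ) < Fintype.card m := by exact_mod_cast Fintype.card_pos
  unfold nm
  rw [← Real.sqrt_mul hm.le]
  apply Real.sqrt_le_sqrt
  have h1 : ∀ a b, ‖PT y a b‖ ^ 2 ≤ (∑ x : m, ‖y (x, a) (x, b)‖ ^ 2) / Fintype.card m := by
    intro a b
    have e : PT y a b = (∑ x : m, y (x, a) (x, b)) / (Fintype.card m : ℂ) := rfl
    rw [e, norm_div, div_pow]
    have h2 : ‖∑ x : m, y (x, a) (x, b)‖ ^ 2 ≤ Fintype.card m * ∑ x : m, ‖y (x, a) (x, b)‖ ^ 2 := by
      have h3 := norm_sum_le (Finset.univ : Finset m) fun x => y (x, a) (x, b)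
      have h4 := sq_sum_le_card_mul_sum_sq (s := (Finset.univ : Finset m)) (f := fun x => ‖y (x, a) (x, b)‖)
      rw [Finset.card_univ] at h4
      exact (pow_le_pow_left₀ (norm_nonneg _) h3 2).trans h4
    have e2 : ‖(Fintype.card m : ℂ)‖ = Fintype.card m := by simp
    rw [e2, div_le_div_iff₀ (by positivity) hm]
    nlinarith
  have h5 : hs (PT y) ≤ ∑ a : q, ∑ b : q, (∑ x : m, ‖y (x, a) (x, b)‖ ^ 2) / Fintype.card m :=
    Finset.sum_le_sum fun a _ => Finset.sum_le_sum fun b _ => h1 a b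
  have h6 : ∑ a : q, ∑ b : q, ∑ x : m, ‖y (x, a) (x, b)‖ ^ 2 ≤ hs y := by
    have e3 : ∑ a : q, ∑ b : q, ∑ x : m, ‖y (x, a) (x, b)‖ ^ 2 = ∑ x : m, ∑ a : q, ∑ b : q, ‖y (x, a) (x, b)‖ ^ 2 := by
      rw [Finset.sum_comm (s := (Finset.univ : Finset m))]
      refine Finset.sum_congr rfl fun a _ => ?_
      rw [Finset.sum_comm]
    rw [e3]
    unfold hs
    rw [Fintype.sum_prod_type]
    refine Finset.sum_le_sum fun x _ => Finset.sum_le_sum fun a _ => ?_
    rw [Fintype.sum_prod_type]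
    exact Finset.single_le_sum (f := fun x' : m => ∑ b : q, ‖y (x, a) (x', b)‖ ^ 2)
      (fun x' _ => Finset.sum_nonneg fun b _ => by positivity) (Finset.mem_univ x)
  have h7 : ∑ a : q, ∑ b : q, (∑ x : m, ‖y (x, a) (x, b)‖ ^ 2) / Fintype.card m =
      (∑ a : q, ∑ b : q, ∑ x : m, ‖y (x, a) (x, b)‖ ^ 2) / Fintype.card m := by
    rw [Finset.sum_div]
    exact Finset.sum_congr rfl fun a _ => (Finset.sum_div _ _ _).symm
  rw [h7] at h5
  calc (Fintype.card m : ℝ) * hs (PT y) ≤ Fintype.card m *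
        ((∑ a : q, ∑ b : q, ∑ x : m, ‖y (x, a) (x, b)‖ ^ 2) / Fintype.card m) :=
        mul_le_mul_of_nonneg_left h5 hm.le
    _ = ∑ a : q, ∑ b : q, ∑ x : m, ‖y (x, a) (x, b)‖ ^ 2 := by field_simp
    _ ≤ hs y := h6

lemma nm_F_PT [DecidableEq m] [DecidableEq q] [Nonempty m] {F : Matrix m m ℂ} {c : ℝ} (hc : 0 ≤ c)
    (hF : nm F ≤ c * √(Fintype.card m)) (y : Matrix (m × q) (m × q) ℂ) : nm (F ⊗ₖ PT y) ≤ c * nm y := by
  rw [nm_kron]
  calc nm F * nm (PT y) ≤ (c * √(Fintype.card m)) * nm (PT y) := mul_le_mul_of_nonneg_right hF (nm_nonneg _)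
    _ = c * (√(Fintype.card m) * nm (PT y)) := by ring
    _ ≤ _ := mul_le_mul_of_nonneg_left (nm_PT y) hc

/-! ### Averages -/

/-- the sign -/
def sg (b : Bool) : ℂ := if b then 1 else -1

lemma sg_norm (b : Bool) : ‖sg b‖ = 1 := by
  cases b <;> simp [sg]

lemma sg_star (b : Bool) : star (sg b) = sg b := by
  cases b <;> simp [sg]

lemma sg_sq (b : Bool) : sg b * sg b = 1 := by
  cases b <;> simp [sg]

lemma sg_not (b : Bool) : sg (!b) = - sg b := by
  cases b <;> simp [sg]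

lemma sum_sg [DecidableEq m] (x y : m) (h : x ≠ y) : ∑ χ : m → Bool, sg (χ x) * sg (χ y) = 0 := by
  let e : (m → Bool) → (m → Bool) := fun χ => Function.update χ x (!χ x)
  have he : Function.Involutive e := by
    intro χ
    funext a
    by_cases ha : a = x
    · subst ha; simp [e]
    · simp [e, Function.update_of_ne ha]
  have h1 : ∑ χ : m → Bool, sg (χ x) * sg (χ y) = ∑ χ : m → Bool, sg (e χ x) * sg (e χ y) :=
    (Equiv.sum_comp he.toPerm fun χ : m → Bool => sg (χ x) * sg (χ y)).symm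
  have h2 : ∀ χ : m → Bool, sg (e χ x) * sg (e χ y) = - (sg (χ x) * sg (χ y)) := by
    intro χ
    have e1 : e χ x = !χ x := by simp [e]
    have e2 : e χ y = χ y := by simp [e, Function.update_of_ne (Ne.symm h)]
    rw [e1, e2, sg_not, neg_mul]
  rw [Finset.sum_congr rfl fun χ _ => h2 χ, Finset.sum_neg_distrib] at h1
  exact self_eq_neg.1 h1

/-- signed permutation matrices -/
def TT [DecidableEq m] (χ : m → Bool) (τ : Equiv.Perm m) : Matrix m m ℂ :=
  Matrix.of fun x y => if y = τ x then sg (χ x) else 0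

lemma TT_mul [DecidableEq m] (χ : m → Bool) (τ : Equiv.Perm m) (y : Matrix m l ℂ) (x : m) (c : l) :
    (TT χ τ * y) x c = sg (χ x) * y (τ x) c := by
  simp only [Matrix.mul_apply, TT, Matrix.of_apply, ite_mul, zero_mul, Finset.sum_ite_eq', Finset.mem_univ, if_true]

lemma TT_kron_mul [DecidableEq m] [DecidableEq q] (χ : m → Bool) (τ : Equiv.Perm m) (y : Matrix (m × q) l ℂ)
    (x : m) (a : q) (c : l) :
    ((TT χ τ ⊗ₖ (1 : Matrix q q ℂ)) * y) (x, a) c = sg (χ x) * y (τ x, a) c := by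
  simp only [Matrix.mul_apply, TT, Matrix.of_apply, Fintype.sum_prod_type, Matrix.kroneckerMap_apply,
    Matrix.one_apply, mul_ite, mul_one, mul_zero, ite_mul, zero_mul, Finset.sum_ite_eq, Finset.sum_ite_eq',
    Finset.mem_univ, if_true]

lemma mul_TT_kron [DecidableEq m] [DecidableEq q] (χ : m → Bool) (τ : Equiv.Perm m) (y : Matrix l (m × q) ℂ)
    (x : m) (a : q) (c : l) :
    (y * (TT χ τ ⊗ₖ (1 : Matrix q q ℂ))ᴴ) c (x, a) = y c (τ x, a) * sg (χ x) := by
  have h : y * (TT χ τ ⊗ₖ (1 : Matrix q q ℂ))ᴴ = ((TT χ τ ⊗ₖ (1 : Matrix q q ℂ)) * yᴴ)ᴴ := by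
    rw [conjTranspose_mul, conjTranspose_conjTranspose]
  rw [h, conjTranspose_apply, TT_kron_mul, star_mul', sg_star, conjTranspose_apply, star_star, mul_comm]

lemma TT_LB [DecidableEq m] (χ : m → Bool) (τ : Equiv.Perm m) : LB (TT χ τ) 1 := by
  intro l _ y
  rw [one_mul]
  apply nm_le_of_hs
  unfold hs
  have h1 : ∀ x : m, ∑ j, ‖(TT χ τ * y) x j‖ ^ 2 = ∑ j, ‖y (τ x) j‖ ^ 2 := by
    intro x
    refine Finset.sum_congr rfl fun j _ => ?_
    rw [TT_mul, norm_mul, sg_norm, one_mul]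
  rw [Finset.sum_congr rfl fun x _ => h1 x]
  exact (Equiv.sum_comp τ fun x => ∑ j, ‖y x j‖ ^ 2).le

lemma exists_avg (m : Type) [Fintype m] [DecidableEq m] [Nonempty m] :
    ∃ (Ω : Type) (_ : Fintype Ω) (_ : Nonempty Ω) (T : Ω → Matrix m m ℂ), (∀ ω, LB (T ω) 1) ∧
      ∀ (q : Type) [Fintype q] [DecidableEq q] (Y : Matrix (m × q) (m × q) ℂ),
        ∑ ω, (T ω ⊗ₖ (1 : Matrix q q ℂ)) * Y * (T ω ⊗ₖ (1 : Matrix q q ℂ))ᴴ =
          (Fintype.card Ω : ℂ) • ((1 : Matrix m m ℂ) ⊗ₖ PT Y) := by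
  have : NeZero (Fintype.card m) := ⟨Fintype.card_ne_zero⟩
  let e : m ≃ Fin (Fintype.card m) := Fintype.equivFin m
  let τ : m → Equiv.Perm m := fun k => (e.trans (Equiv.addRight (e k))).trans e.symm
  have hτ : ∀ (x : m) (f : m → ℂ), ∑ k, f (τ k x) = ∑ y, f y := by
    intro x f
    let g : m ≃ m := (e.trans (Equiv.addLeft (e x))).trans e.symm
    exact Equiv.sum_comp g f
  refine ⟨(m → Bool) × m, inferInstance, inferInstance, fun ω => TT ω.1 (τ ω.2), fun ω => TT_LB _ _, ?_⟩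
  intro q _ _ Y
  have hm : (Fintype.card m : ℂ) ≠ 0 := by exact_mod_cast Fintype.card_ne_zero
  ext ⟨x, a⟩ ⟨y, b⟩
  rw [Matrix.sum_apply, Matrix.smul_apply, Matrix.kroneckerMap_apply, Fintype.sum_prod_type]
  have h1 : ∀ (χ : m → Bool) (k : m), ((TT χ (τ k) ⊗ₖ (1 : Matrix q q ℂ)) * Y *
      (TT χ (τ k) ⊗ₖ (1 : Matrix q q ℂ))ᴴ) (x, a) (y, b) =
      (sg (χ x) * sg (χ y)) * Y (τ k x, a) (τ k y, b) := by
    intro χ k
    rw [mul_TT_kron, TT_kron_mul]
    ring
  simp only [h1]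
  rw [Finset.sum_comm]
  simp only [← Finset.sum_mul]
  by_cases hxy : x = y
  · subst hxy
    simp only [sg_sq, Matrix.one_apply_eq, one_mul]
    rw [← Finset.mul_sum, hτ x fun z => Y (z, a) (z, b)]
    simp only [PT, Matrix.of_apply, smul_eq_mul, Finset.sum_const, Finset.card_univ, Fintype.card_prod, nsmul_eq_mul,
      mul_one]
    push_cast
    field_simp
  · simp only [sum_sg x y hxy, zero_mul, Finset.sum_const_zero, Matrix.one_apply_ne hxy, smul_zero]

end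

end Com

end Pool.Agent.Helper47.CA
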