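import Pool.Graph.R_pool_sql_team_seeded_63374d34.N557.QW.Fin
import Pool.Graph.R_pool_sql_team_seeded_63374d34.N859.QW.Defs

/-!
# Relative embeddability of crossed products: definitions

Von Neumann algebras act on Hilbert spaces; a faithful normal tracial state is given by a vector
(`IsTracial N ξ`: the vector state `tr ξ : x ↦ ⟨ξ, x ξ⟩` is a faithful trace on `N`). `IsHom A M f` says that `f`
is a unital `*`-homomorphism of `A` to `M`. `QWEP` is Kirchberg's property.
-/

set_option autoImplicit false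

open scoped InnerProductSpace
open Filter Topology

namespace Pool.Agent.Helper47.CA

open Pool.Agent.N557.QWX (Op tr IsTracial IsHom)
open Pool.Agent.N859.QX (QWEP)
open Pool.Agent.N859.QW (vN)

section basic

variable {H K L : Type} [NormedAddCommGroup H] [InnerProductSpace ℂ H] [CompleteSpace H]
  [NormedAddCommGroup K] [InnerProductSpace ℂ K] [CompleteSpace K]
  [NormedAddCommGroup L] [InnerProductSpace ℂ L] [CompleteSpace L]

/-- The von Neumann algebra `B` is *hyperfinite*: it is generated by an upwards directed family of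
finite-dimensional unital `*`-subalgebras. -/
def Hyperfinite (B : VonNeumannAlgebra H) : Prop :=
  ∃ (J : Type) (_ : Nonempty J) (D : J → StarSubalgebra ℂ (Op H)), Directed (· ≤ ·) D ∧
    (∀ j, FiniteDimensional ℂ (D j)) ∧
    Set.centralizer (Set.centralizer (⋃ j, (D j : Set (Op H)))) = (B : Set (Op H))

/-- The tracial von Neumann algebra `(T, tr η)` with the embeddings `i` of `A` and `j` of `N` is the von Neumann
algebra tensor product of `(A, tr ξ)` and `(N, tr ζ)`: the images commute and generate `T`, and the trace is the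
product trace. -/
structure IsTensor (A : VonNeumannAlgebra H) (ξ : H) (N : VonNeumannAlgebra L) (ζ : L)
    (T : VonNeumannAlgebra K) (η : K) (i : Op H → Op K) (j : Op L → Op K) : Prop where
  tracial : IsTracial T η
  homA : IsHom A T i
  homN : IsHom N T j
  comm : ∀ a ∈ A, ∀ b ∈ N, i a * j b = j b * i a
  trace : ∀ a ∈ A, ∀ b ∈ N, tr η (i a * j b) = tr ξ a * tr ζ b
  generates : ∀ S : VonNeumannAlgebra K, (∀ a ∈ A, i a ∈ S) → (∀ b ∈ N, j b ∈ S) → T ≤ S

end basic

/-- One term of the sequence in the definition of relative embeddability: a QWEP finite von Neumann algebra `A` with a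
faithful normal tracial state, a hyperfinite von Neumann subalgebra `B` of `A`, and the tensor product `T` of `A` and
`N₁`. -/
structure Piece {L : Type} [NormedAddCommGroup L] [InnerProductSpace ℂ L] [CompleteSpace L]
    (N₁ : VonNeumannAlgebra L) (ζ : L) where
  /-- the Hilbert space of `A` -/
  H : Type
  [nH : NormedAddCommGroup H]
  [iH : InnerProductSpace ℂ H]
  [cH : CompleteSpace H]
  /-- the algebra `A` -/
  A : VonNeumannAlgebra H
  /-- the subalgebra `B` -/
  B : VonNeumannAlgebra H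
  /-- the trace vector of `A` -/
  ξ : H
  /-- the Hilbert space of the tensor product -/
  K : Type
  [nK : NormedAddCommGroup K]
  [iK : InnerProductSpace ℂ K]
  [cK : CompleteSpace K]
  /-- the tensor product of `A` and `N₁` -/
  T : VonNeumannAlgebra K
  /-- the trace vector of the tensor product -/
  η : K
  /-- the embedding of `A` -/
  i : Op H → Op K
  /-- the embedding of `N₁` -/
  j : Op L → Op K
  tracial : IsTracial A ξ
  qwep : QWEP A
  le : B ≤ A
  hyp : Hyperfinite B
  tensor : IsTensor A ξ N₁ ζ T η i j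

attribute [instance] Piece.nH Piece.iH Piece.cH Piece.nK Piece.iK Piece.cK

section re

variable {L : Type} [NormedAddCommGroup L] [InnerProductSpace ℂ L] [CompleteSpace L]
  {N₁ : VonNeumannAlgebra L} {ζ : L}

/-- The von Neumann subalgebra `B ⊗ N₁` of `T = A ⊗ N₁`. -/
noncomputable def Piece.TN (P : Piece N₁ ζ) : VonNeumannAlgebra P.K :=
  vN {x | (∃ b ∈ P.B, x = P.i b) ∨ ∃ c ∈ N₁, x = P.j c}

variable {I : Type} (P : I → Piece N₁ ζ)

/-- A bounded sequence of operators. -/
def Bdd (x : ∀ k, Op (P k).K) : Prop := ∃ C : ℝ, ∀ k, ‖x k‖ ≤ C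

/-- The sequence `x` represents zero in the tracial ultraproduct. -/
def Null (ω : Ultrafilter I) (x : ∀ k, Op (P k).K) : Prop :=
  Tendsto (fun k => ‖x k (P k).η‖) ω (𝓝 0)

/-- The sequences `x` and `y` represent the same element of the tracial ultraproduct. -/
def Eqv (ω : Ultrafilter I) (x y : ∀ k, Op (P k).K) : Prop := Null P ω fun k => x k - y k

/-- The constant sequence of the identity operators. -/
def sOne : ∀ k, Op (P k).K := fun _ => 1

/-- The sum of two sequences of operators. -/
def sAdd (x y : ∀ k, Op (P k).K) : ∀ k, Op (P k).K := fun k => x k + y k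

/-- The multiples of a sequence of operators. -/
def sSmul (c : ℂ) (x : ∀ k, Op (P k).K) : ∀ k, Op (P k).K := fun k => c • x k

/-- The product of two sequences of operators. -/
def sMul (x y : ∀ k, Op (P k).K) : ∀ k, Op (P k).K := fun k => x k * y k

/-- The sequence of the adjoint operators. -/
noncomputable def sStar (x : ∀ k, Op (P k).K) : ∀ k, Op (P k).K := fun k => star (x k)

variable {H : Type} [NormedAddCommGroup H] [InnerProductSpace ℂ H] [CompleteSpace H]

/-- The map `x ↦ (π x k)_k` is a unital trace preserving `*`-homomorphism of `(M, tr ξ)` to the tracial ultraproduct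
of the algebras `(P k).T`, that is, to the bounded sequences modulo the null sequences. -/
structure IsEmb (ω : Ultrafilter I) (M : VonNeumannAlgebra H) (ξ : H) (π : Op H → ∀ k, Op (P k).K) : Prop where
  mem : ∀ x ∈ M, ∀ k, π x k ∈ (P k).T
  bdd : ∀ x ∈ M, Bdd P (π x)
  one : Eqv P ω (π 1) (sOne P)
  add : ∀ x ∈ M, ∀ y ∈ M, Eqv P ω (π (x + y)) (sAdd P (π x) (π y))
  smul : ∀ c : ℂ, ∀ x ∈ M, Eqv P ω (π (c • x)) (sSmul P c (π x))
  mul : ∀ x ∈ M, ∀ y ∈ M, Eqv P ω (π (x * y)) (sMul P (π x) (π y))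
  star : ∀ x ∈ M, Eqv P ω (π (star x)) (sStar P (π x))
  trace : ∀ x ∈ M, Tendsto (fun k => tr (P k).η (π x k)) ω (𝓝 (tr ξ x))

end re

/-- The inclusion `N ⊆ M` of finite von Neumann algebras is *relatively embeddable* over `N₁` (is RE/`N₁`): there are an
ultrafilter, algebras `A_k`, `B_k` and a tracial embedding `π` of `M` in the ultraproduct of the `A_k ⊗ N₁` such that
`π(N)` is contained in the ultraproduct of the `B_k ⊗ N₁`, and the commuting square condition holds: if `x₀` is the
conditional expectation of `x ∈ M` on `N`, then the class of `π x₀` is the conditional expectation of the class of `π x`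
on the ultraproduct of the `B_k ⊗ N₁`. -/
def RE {H : Type} [NormedAddCommGroup H] [InnerProductSpace ℂ H] [CompleteSpace H]
    {L : Type} [NormedAddCommGroup L] [InnerProductSpace ℂ L] [CompleteSpace L]
    (N M : VonNeumannAlgebra H) (ξ : H) (N₁ : VonNeumannAlgebra L) (ζ : L) : Prop :=
  ∃ (I : Type) (ω : Ultrafilter I) (P : I → Piece N₁ ζ) (π : Op H → ∀ k, Op (P k).K),
    IsEmb P ω M ξ π ∧
    (∀ x ∈ N, ∃ y : ∀ k, Op (P k).K, Bdd P y ∧ (∀ k, y k ∈ (P k).TN) ∧ Eqv P ω (π x) y) ∧
    ∀ x ∈ M, ∀ x₀ ∈ N, (∀ b ∈ N, tr ξ (b * (x - x₀)) = 0) →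
      ∀ b : ∀ k, Op (P k).K, Bdd P b → (∀ k, b k ∈ (P k).TN) →
        Tendsto (fun k => tr (P k).η (b k * (π x k - π x₀ k))) ω (𝓝 0)

section group

variable {G : Type} [Group G]

/-- The subgroup `S` is *co-amenable* in `G`: there is a `G`-invariant mean on the bounded real functions on `G / S`. -/
def CoAmenable (S : Subgroup G) : Prop :=
  ∃ m : (G ⧸ S → ℝ) → ℝ, m 1 = 1 ∧
    (∀ f g : G ⧸ S → ℝ, BddAbove (Set.range |f|) → BddAbove (Set.range |g|) → m (f + g) = m f + m g) ∧
    (∀ (c : ℝ) (f : G ⧸ S → ℝ), BddAbove (Set.range |f|) → m (c • f) = c * m f) ∧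
    (∀ f : G ⧸ S → ℝ, BddAbove (Set.range |f|) → 0 ≤ f → 0 ≤ m f) ∧
    ∀ (g : G) (f : G ⧸ S → ℝ), BddAbove (Set.range |f|) → m (fun x => f (g • x)) = m f

variable {E : Type} [NormedAddCommGroup E] [InnerProductSpace ℂ E] [CompleteSpace E]

/-- `α` is an action of `G` on the tracial von Neumann algebra `(N, tr ξ)` by trace preserving `*`-automorphisms (only
the values of `α g` on `N` matter; the inverse of `α g` is `α g⁻¹`). -/
structure IsAction (N : VonNeumannAlgebra E) (ξ : E) (α : G → Op E → Op E) : Prop where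
  hom : ∀ g, IsHom N N (α g)
  one : ∀ x ∈ N, α 1 x = x
  mul : ∀ g h, ∀ x ∈ N, α (g * h) x = α g (α h x)
  trace : ∀ g, ∀ x ∈ N, tr ξ (α g x) = tr ξ x

open Pool.Agent.N859.QW (L2)

/-- `T` is the operator `(T ζ)(g) = α_g⁻¹(x) ζ(g)` on `ℓ²(G, E)`. -/
def IsPi (α : G → Op E → Op E) (x : Op E) (T : Op (L2 G E)) : Prop :=
  ∀ (ζ : L2 G E) (g : G), (T ζ : ∀ _ : G, E) g = α g⁻¹ x ((ζ : ∀ _ : G, E) g)

/-- `T` is the operator `(T ζ)(g) = ζ(h⁻¹ g)` on `ℓ²(G, E)`. -/
def IsLam (h : G) (T : Op (L2 G E)) : Prop :=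
  ∀ (ζ : L2 G E) (g : G), (T ζ : ∀ _ : G, E) g = (ζ : ∀ _ : G, E) (h⁻¹ * g)

/-- The crossed product `N ⋊ S`, as a von Neumann subalgebra of `N ⋊ G` on `ℓ²(G, E)`: it is generated by the operators
`(π(x) ζ)(g) = α_g⁻¹(x) ζ(g)` for `x` in `N` and `(λ(h) ζ)(g) = ζ(h⁻¹ g)` for `h` in `S`. -/
noncomputable def crossProd (N : VonNeumannAlgebra E) (α : G → Op E → Op E) (S : Subgroup G) :
    VonNeumannAlgebra (L2 G E) :=
  vN ({T | ∃ x ∈ N, IsPi α x T} ∪ {T | ∃ h ∈ S, IsLam h T})

open Classical in
/-- The trace vector of `N ⋊ G`: the vector `ξ` at the neutral element. -/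
noncomputable def vec (G : Type) [Group G] (ξ : E) : L2 G E := lp.single 2 (1 : G) ξ

/-- The inclusion of `N ⋊ S` in `N ⋊ G` is relatively embeddable over `N ⋊ S`. -/
def CrossedRE (N : VonNeumannAlgebra E) (ξ : E) (α : G → Op E → Op E) (S : Subgroup G) : Prop :=
  RE (crossProd N α S) (crossProd N α ⊤) (vec G ξ) (crossProd N α S) (vec G ξ)

end group

end Pool.Agent.Helper47.CA
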