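import Pool.Agent.Helper47.CA.Hyp

/-!
# The representation in the tensor product and its density
-/

set_option autoImplicit false
set_option linter.unusedSectionVars false

open scoped InnerProductSpace Kronecker
open Filter Topology Matrix Finset

namespace Pool.Agent.Helper47.CA

open Pool.Agent.N557.QWX (Op tr IsTracial IsHom)
open Pool.Agent.N859.QW (vN Aut L2)

noncomputable section

namespace Den

variable {H : Type} [NormedAddCommGroup H] [InnerProductSpace ℂ H] [CompleteSpace H]
  {K : Type} [NormedAddCommGroup K] [InnerProductSpace ℂ K] [CompleteSpace K]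

/-- the image of a unitary -/
theorem hom_unitary {A : VonNeumannAlgebra H} {M : VonNeumannAlgebra K} {f : Op H → Op K} (hf : IsHom A M f)
    {a : Op H} (ha : a ∈ A) (hu : a ∈ unitary (Op H)) : f a ∈ unitary (Op K) := by
  rw [Unitary.mem_iff] at hu ⊢
  rw [← hf.star a ha, ← hf.mul _ (star_mem ha) _ ha, ← hf.mul _ ha _ (star_mem ha), hu.1, hu.2, hf.one]
  exact ⟨rfl, rfl⟩

end Den

/-- **TH.** -/
theorem th : S_TH := by
  intro L _ _ _ N₁ ζ S _ u hG P
  have hA := P.tensor.homA
  have hN := P.tensor.homN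
  -- the elements
  let W : FreeGroup (UA P.A) → Op P.H := fun w =>
    (((FreeGroup.lift (fun v : UA P.A => v) w : UA P.A) : unitary (Op P.H)) : Op P.H)
  have hW : ∀ w, W w ∈ P.A := fun w => (FreeGroup.lift (fun v : UA P.A => v) w : UA P.A).2
  have hWu : ∀ w, W w ∈ unitary (Op P.H) := fun w =>
    ((FreeGroup.lift (fun v : UA P.A => v) w : UA P.A) : unitary (Op P.H)).2
  have hW1 : W 1 = 1 := by
    show (((FreeGroup.lift (fun v : UA P.A => v) 1 : UA P.A) : unitary (Op P.H)) : Op P.H) = 1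
    rw [map_one]
    rfl
  have hWm : ∀ w w', W (w * w') = W w * W w' := by
    intro w w'
    show (((FreeGroup.lift (fun v : UA P.A => v) (w * w') : UA P.A) : unitary (Op P.H)) : Op P.H) = _
    rw [map_mul]
    rfl
  let θ : FreeGroup (UA P.A) × S →* unitary (Op P.K) :=
    { toFun := fun g => ⟨P.i (W g.1) * P.j (u g.2 : Op L),
        mul_mem (Den.hom_unitary hA (hW _) (hWu _)) (Den.hom_unitary hN (hG.mem _) (u g.2).2)⟩
      map_one' := by
        apply Subtype.ext
        show P.i (W 1) * P.j (u 1 : Op L) = 1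
        rw [hW1, hA.one, map_one]
        show 1 * P.j 1 = 1
        rw [hN.one, one_mul]
      map_mul' := by
        intro g g'
        apply Subtype.ext
        show P.i (W (g.1 * g'.1)) * P.j (u (g.2 * g'.2) : Op L) =
          P.i (W g.1) * P.j (u g.2 : Op L) * (P.i (W g'.1) * P.j (u g'.2 : Op L))
        rw [hWm, hA.mul _ (hW _) _ (hW _), map_mul]
        show P.i (W g.1) * P.i (W g'.1) * P.j ((u g.2 : Op L) * (u g'.2 : Op L)) = _
        rw [hN.mul _ (hG.mem _) _ (hG.mem _)]
        have h1 := P.tensor.comm _ (hW g'.1) _ (hG.mem g.2)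
        calc P.i (W g.1) * P.i (W g'.1) * (P.j (u g.2 : Op L) * P.j (u g'.2 : Op L)) =
            P.i (W g.1) * (P.i (W g'.1) * P.j (u g.2 : Op L)) * P.j (u g'.2 : Op L) := by
              simp only [mul_assoc]
          _ = P.i (W g.1) * (P.j (u g.2 : Op L) * P.i (W g'.1)) * P.j (u g'.2 : Op L) := by rw [h1]
          _ = _ := by simp only [mul_assoc] }
  exact ⟨θ, fun w h => rfl, fun g => mul_mem (hA.mem _ (hW _)) (hN.mem _ (hG.mem _)),
    fun w h => P.tensor.trace _ (hW w) _ (hG.mem h)⟩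

/-- **DEN.** -/
theorem den (hU : S_UNI) : S_DEN := by
  intro L _ _ _ N₁ ζ S _ u hG P θ hθ a ha ε hε
  classical
  have hA := P.tensor.homA
  have hN := P.tensor.homN
  -- the elements of `T`
  have hgens : ∀ x ∈ Hyp.gens P P.A, x ∈ vN (Hyp.gens P P.A) := by
    intro x hx
    rw [← SetLike.mem_coe]
    unfold vN
    rw [VonNeumannAlgebra.coe_commutant]
    show _ ∈ Set.centralizer ((StarSubalgebra.centralizer ℂ _ : StarSubalgebra ℂ (Op P.K)) : Set (Op P.K))
    rw [StarSubalgebra.coe_centralizer]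
    exact Set.subset_centralizer_centralizer (Or.inl hx)
  have hT : P.T ≤ vN (Hyp.gens P P.A) :=
    P.tensor.generates _ (fun a ha => hgens _ (Or.inl ⟨a, ha, rfl⟩)) (fun b hb => hgens _ (Or.inr ⟨b, hb, rfl⟩))
  have hgen : Set.centralizer (Set.centralizer (⋃ _ : Unit, (P.A.toStarSubalgebra : Set (Op P.H)))) =
      (P.A : Set (Op P.H)) := by
    rw [Set.iUnion_const]
    exact P.A.centralizer_centralizer'
  obtain ⟨-, y, hy, hd⟩ := Hyp.app_TN hG P (B := P.A) le_rfl (J := Unit) (D := fun _ => P.A.toStarSubalgebra)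
    (fun _ _ => ⟨(), le_rfl, le_rfl⟩) hgen (hT ha) hε
  -- the elements of the span
  have key : ∃ c : MonoidAlgebra ℂ (FreeGroup (UA P.A) × S), opr θ c = y := by
    change y ∈ Submodule.span ℂ {x | ∃ d ∈ P.A.toStarSubalgebra, ∃ h : S, x = P.i d * P.j (u h : Op L)} at hy
    have hle : Submodule.span ℂ {x | ∃ d ∈ P.A.toStarSubalgebra, ∃ h : S, x = P.i d * P.j (u h : Op L)} ≤
        LinearMap.range (opr θ).toLinearMap := by
      rw [Submodule.span_le]
      rintro _ ⟨d, hdA, h, rfl⟩
      obtain ⟨c, hc⟩ := hU P.H P.A d hdA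
      have h1 : P.i d = ∑ v ∈ c.support, c v • P.i ((v : unitary (Op P.H)) : Op P.H) := by
        rw [hc]
        exact Hyp.hom_sum hA _ _ _ fun v _ => v.2
      rw [h1, sum_mul]
      refine Submodule.sum_mem _ fun v _ => ?_
      rw [smul_mul_assoc]
      refine Submodule.smul_mem _ _ ⟨MonoidAlgebra.single (FreeGroup.of v, h) 1, ?_⟩
      show opr θ (MonoidAlgebra.single (FreeGroup.of v, h) 1) = _
      rw [opr_single, one_smul, hθ, FreeGroup.lift_apply_of]
    exact hle hy
  obtain ⟨c, rfl⟩ := key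
  refine ⟨c, ?_⟩
  have e : (opr θ c - a) P.η = -((a - opr θ c) P.η) := by
    show opr θ c P.η - a P.η = -(a P.η - opr θ c P.η)
    abel
  rw [e, norm_neg]
  exact hd

end

end Pool.Agent.Helper47.CA
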