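import Pool.Agent.Helper47.CA.Alg
import Pool.Graph.R_pool_sql_team_seeded_63374d34.N169.QWP.COM
import Pool.Graph.R_pool_sql_team_seeded_63374d34.N31.QWP.LKM

/-!
# The group von Neumann algebra as a crossed product
-/

set_option autoImplicit false
set_option linter.unusedSectionVars false

open scoped InnerProductSpace
open Filter Topology Finset

namespace Pool.Agent.Helper47.CA

open Pool.Agent.N557.QWX (Op tr IsTracial IsHom)
open Pool.Agent.N859.QW (vN Aut L2)
open Pool.Agent.N557.QW (lam LG LK lam_dl star_lam lam_one lam_mul lam_mem cf)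
open Pool.Agent.H494R3.GT (dl inner_dl)

noncomputable section

namespace Gv

section vn

variable {H : Type} [NormedAddCommGroup H] [InnerProductSpace ℂ H] [CompleteSpace H]

theorem mem_vN_iff {X : Set (Op H)} {b : Op H} :
    b ∈ vN X ↔ b ∈ Set.centralizer (Set.centralizer (X ∪ star X)) := by
  rw [← SetLike.mem_coe]
  unfold vN
  rw [VonNeumannAlgebra.coe_commutant]
  change b ∈ Set.centralizer ((StarSubalgebra.centralizer ℂ X : StarSubalgebra ℂ (Op H)) : Set (Op H)) ↔ _
  rw [StarSubalgebra.coe_centralizer]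

theorem vN_le {X : Set (Op H)} {V : VonNeumannAlgebra H} (h : ∀ x ∈ X, x ∈ V) : vN X ≤ V := by
  intro b hb
  rw [mem_vN_iff] at hb
  have h1 : X ∪ star X ⊆ (V : Set (Op H)) := by
    refine Set.union_subset h ?_
    intro x hx
    have := star_mem (h _ hx)
    rwa [star_star] at this
  have h2 : b ∈ Set.centralizer (Set.centralizer (V : Set (Op H))) :=
    Set.centralizer_subset (Set.centralizer_subset h1) hb
  have h3 : Set.centralizer (Set.centralizer (V : Set (Op H))) = (V : Set (Op H)) := V.centralizer_centralizer'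
  rw [h3] at h2
  exact h2

theorem subset_vN {X : Set (Op H)} {x : Op H} (hx : x ∈ X) : x ∈ vN X :=
  mem_vN_iff.2 (Set.subset_centralizer_centralizer (Or.inl hx))

theorem smul_one_mem (V : VonNeumannAlgebra H) (c : ℂ) : c • (1 : Op H) ∈ V := by
  show c • (1 : Op H) ∈ V.toStarSubalgebra
  exact V.toStarSubalgebra.smul_mem (one_mem V.toStarSubalgebra) c

end vn

theorem op_c (a : Op ℂ) (z : ℂ) : a z = z * a 1 := by
  have : a z = a (z • 1) := by rw [smul_eq_mul, mul_one]
  rw [this, map_smul, smul_eq_mul]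

theorem comm_c (a b : Op ℂ) : a * b = b * a := by
  ext
  show a (b 1) = b (a 1)
  rw [op_c a (b 1), op_c b (a 1), mul_comm]

/-- all operators on `ℂ` -/
def NC : VonNeumannAlgebra ℂ where
  toStarSubalgebra := ⊤
  centralizer_centralizer' := by
    refine Set.eq_univ_of_forall fun x => ?_
    intro y _
    exact comm_c y x

theorem mem_NC (x : Op ℂ) : x ∈ NC := by
  show x ∈ (⊤ : StarSubalgebra ℂ (Op ℂ))
  trivial

variable {G : Type} [Group G]

theorem lam_ap (h : G) (v : Pool.Agent.H494R3.GT.L2 G) (g : G) : (lam h v) g = v (h⁻¹ * g) := by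
  rw [← inner_dl, ← star_star (lam h), star_lam, ContinuousLinearMap.star_eq_adjoint,
    ContinuousLinearMap.adjoint_inner_right, lam_dl, inner_dl]

/-- the unitaries of the group -/
def uG (G : Type) [Group G] : G →* unitary (Op (L2 G ℂ)) where
  toFun g := ⟨lam g, by
    rw [Unitary.mem_iff, star_lam, ← lam_mul, ← lam_mul, inv_mul_cancel, mul_inv_cancel, lam_one]
    exact ⟨rfl, rfl⟩⟩
  map_one' := Subtype.ext lam_one
  map_mul' g h := Subtype.ext (lam_mul g h)

theorem uG_coe (g : G) : (uG G g : Op (L2 G ℂ)) = lam g := rfl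

/-- the trivial action -/
def al (G : Type) [Group G] : G →* Aut NC := 1

theorem u_mem (S : Subgroup G) {h : G} (hh : h ∈ S) : (uG G h : Op (L2 G ℂ)) ∈ crossedSub NC (al G) S :=
  subset_vN (Or.inr ⟨h, hh, fun v g => lam_ap h v g⟩)

theorem cs_le (S : Subgroup G) {V : VonNeumannAlgebra (L2 G ℂ)} (h : ∀ h ∈ S, (uG G h : Op (L2 G ℂ)) ∈ V) :
    crossedSub NC (al G) S ≤ V := by
  refine vN_le ?_
  rintro T (⟨x, hx⟩ | ⟨g, hg, hT⟩)
  · have h1 : T = ((x : Op ℂ) 1) • (1 : Op (L2 G ℂ)) := by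
      ext v g
      rw [hx v g]
      show (x : Op ℂ) (v g) = _
      rw [op_c]
      show v g * (x : Op ℂ) 1 = ((x : Op ℂ) 1) • v g
      rw [smul_eq_mul, mul_comm]
    rw [h1]
    exact smul_one_mem V _
  · have h1 : T = (uG G g : Op (L2 G ℂ)) := by
      ext v k
      rw [hT v k, uG_coe]
      exact (lam_ap g v k).symm
    rw [h1]
    exact h g hg

theorem vec_eq : vec G (1 : ℂ) = dl (1 : G) := rfl

theorem tracial_LG : IsTracial (LG G) (dl (1 : G)) := by
  obtain ⟨h1, h2, h3⟩ := (Pool.Agent.N169.QWP.t_com G).2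
  refine ⟨h1, h2, fun x hx h0 => h3 x hx ?_⟩
  rw [tr_star_mul] at h0
  have h4 : ‖x (dl (1 : G))‖ ^ 2 = 0 := by exact_mod_cast h0
  exact norm_eq_zero.1 (pow_eq_zero_iff two_ne_zero |>.1 h4)

theorem tracial_le {H : Type} [NormedAddCommGroup H] [InnerProductSpace ℂ H] [CompleteSpace H]
    {A B : VonNeumannAlgebra H} {ξ : H} (h : IsTracial A ξ) (hBA : B ≤ A) : IsTracial B ξ :=
  ⟨h.unit, fun x hx y hy => h.tracial x (hBA hx) y (hBA hy), fun x hx h0 => h.faithful x (hBA hx) h0⟩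

theorem lam_LK (S : Subgroup G) {h : G} (hh : h ∈ S) : lam h ∈ LK S := by
  rw [Pool.Agent.N31.QWP.mem_LK_iff]
  refine ⟨lam_mem h, fun g hg => ?_⟩
  classical
  rw [cf, lam_dl, mul_one, Pool.Agent.H494R3.GT.dl_inner]
  have : g ≠ h := fun e => hg (e ▸ hh)
  rw [if_neg this]

end Gv

open Gv in
/-- the properties of the group von Neumann algebra -/
theorem gv_al (G : Type) [Group G] : IsTracial (crossedSub NC (1 : G →* Aut NC) ⊤) (vec G (1 : ℂ)) ∧
    ∃ u : G →* unitary (Op (L2 G ℂ)),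
      (∀ (S : Subgroup G), ∀ h ∈ S, (u h : Op (L2 G ℂ)) ∈ crossedSub NC (1 : G →* Aut NC) S) ∧
      (∀ (S : Subgroup G) (V : VonNeumannAlgebra (L2 G ℂ)), (∀ h ∈ S, (u h : Op (L2 G ℂ)) ∈ V) →
        crossedSub NC (1 : G →* Aut NC) S ≤ V) ∧
      (∀ g, g ≠ 1 → tr (vec G (1 : ℂ)) (u g : Op (L2 G ℂ)) = 0) ∧
      ∀ (S : Subgroup G) (y : G), y ∉ S → ∀ b ∈ crossedSub NC (1 : G →* Aut NC) S,
        tr (vec G (1 : ℂ)) (b * (u y : Op (L2 G ℂ))) = 0 := by
  have hLG : crossedSub NC (al G) ⊤ ≤ LG G := cs_le ⊤ fun h _ => lam_mem h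
  refine ⟨?_, uG G, fun S h hh => u_mem S hh, fun S V hV => cs_le S hV, ?_, ?_⟩
  · rw [vec_eq]
    exact tracial_le tracial_LG hLG
  · intro g hg
    classical
    rw [vec_eq]
    unfold tr
    rw [uG_coe, lam_dl, mul_one, Pool.Agent.H494R3.GT.dl_inner, if_neg (Ne.symm hg)]
  · intro S y hy b hb
    have hbLK : b ∈ LK S := cs_le S (fun h hh => lam_LK S hh) hb
    obtain ⟨hbLG, hcf⟩ := Pool.Agent.N31.QWP.mem_LK_iff.1 hbLK
    rw [vec_eq, uG_coe, tracial_LG.tracial b hbLG (lam y) (lam_mem y)]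
    have h1 := hcf y⁻¹ fun h => hy (by simpa using S.inv_mem h)
    unfold tr
    show ⟪dl (1 : G), lam y (b (dl 1))⟫_ℂ = 0
    rw [← star_star (lam y), star_lam, ContinuousLinearMap.star_eq_adjoint,
      ContinuousLinearMap.adjoint_inner_right, lam_dl, mul_one]
    exact h1

end

end Pool.Agent.Helper47.CA
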