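import Pool.Agent.Helper47.CA.Alg

/-!
# Approximation of the elements of `B ⊗ N₁`
-/

set_option autoImplicit false
set_option linter.unusedSectionVars false

open scoped InnerProductSpace Kronecker
open Filter Topology Matrix Finset

namespace Pool.Agent.Helper47.CA

open Pool.Agent.N557.QWX (Op tr IsTracial IsHom)
open Pool.Agent.N859.QX (QWEP)
open Pool.Agent.N859.QW (vN Aut L2)

noncomputable section

namespace Hyp

section dens

variable {H : Type} [NormedAddCommGroup H] [InnerProductSpace ℂ H] [CompleteSpace H]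

/-- the double commutant theorem for one vector -/
theorem dens (S : StarSubalgebra ℂ (Op H)) (b : Op H)
    (hb : b ∈ Set.centralizer (Set.centralizer (S : Set (Op H)))) (v : H) (ε : ℝ) (hε : 0 < ε) :
    ∃ s ∈ S, ‖(s - b) v‖ ≤ ε := by
  let ev : Op H →ₗ[ℂ] H := (ContinuousLinearMap.apply ℂ H v).toLinearMap
  let V : Submodule ℂ H := ((Subalgebra.toSubmodule S.toSubalgebra).map ev).topologicalClosure
  have hVc : IsClosed (V : Set H) := Submodule.isClosed_topologicalClosure _
  have hc : CompleteSpace V := hVc.completeSpace_coe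
  have hmem : ∀ s ∈ S, s v ∈ V := fun s hs =>
    Submodule.le_topologicalClosure _ ⟨s, hs, rfl⟩
  -- `V` is invariant
  have hinv : ∀ s ∈ S, ∀ x ∈ V, s x ∈ V := by
    intro s hs x hx
    have h1 : (V : Set H) ⊆ (fun y => s y) ⁻¹' (V : Set H) := by
      refine closure_minimal ?_ (hVc.preimage s.continuous)
      rintro _ ⟨s', hs', rfl⟩
      exact hmem (s * s') (mul_mem hs hs')
    exact h1 hx
  have hinv' : ∀ s ∈ S, ∀ x ∈ Vᗮ, s x ∈ Vᗮ := by
    intro s hs x hx
    rw [Submodule.mem_orthogonal] at hx ⊢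
    intro y hy
    rw [← ContinuousLinearMap.adjoint_inner_left]
    exact hx _ (hinv (star s) (star_mem hs) y hy)
  have hcomm : V.starProjection ∈ Set.centralizer (S : Set (Op H)) := by
    intro s hs
    ext x
    change s (V.starProjection x) = V.starProjection (s x)
    have h1 : x = V.starProjection x + (x - V.starProjection x) := by abel
    have h2 : x - V.starProjection x ∈ Vᗮ := Submodule.sub_starProjection_mem_orthogonal x
    have h3 : V.starProjection (s (x - V.starProjection x)) = 0 :=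
      (Submodule.starProjection_apply_eq_zero_iff V).2 (hinv' s hs _ h2)
    have h4 : V.starProjection (s (V.starProjection x)) = s (V.starProjection x) :=
      Submodule.starProjection_eq_self_iff.2 (hinv s hs _ (Submodule.starProjection_apply_mem V x))
    conv_rhs => rw [h1, map_add, map_add, h3, h4, add_zero]
  have hbv : b v ∈ V := by
    have h1 := hb _ hcomm
    have h2 : V.starProjection v = v := by
      refine Submodule.starProjection_eq_self_iff.2 ?_
      exact hmem 1 (one_mem S)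
    have h3 : V.starProjection (b v) = b (V.starProjection v) := by
      have := congrArg (fun T : Op H => T v) h1
      exact this
    rw [h2] at h3
    rw [← h3]
    exact Submodule.starProjection_apply_mem V _
  have hcl : b v ∈ closure ((((Subalgebra.toSubmodule S.toSubalgebra).map ev : Submodule ℂ H)) : Set H) := hbv
  obtain ⟨_, ⟨s, hs, rfl⟩, hd⟩ := Metric.mem_closure_iff.1 hcl ε hε
  refine ⟨s, hs, ?_⟩
  rw [dist_eq_norm, norm_sub_rev] at hd
  exact hd.le

/-- the von Neumann algebra generated by a set -/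
theorem mem_vN {X : Set (Op H)} {b : Op H} (hb : b ∈ vN X) :
    b ∈ Set.centralizer (Set.centralizer ((StarAlgebra.adjoin ℂ X : StarSubalgebra ℂ (Op H)) : Set (Op H))) := by
  have h1 : b ∈ Set.centralizer ((StarSubalgebra.centralizer ℂ X : StarSubalgebra ℂ (Op H)) : Set (Op H)) := by
    unfold vN at hb
    rw [← SetLike.mem_coe, VonNeumannAlgebra.coe_commutant] at hb
    exact hb
  rw [StarSubalgebra.coe_centralizer] at h1
  refine Set.centralizer_subset (Set.centralizer_subset ?_) h1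
  refine Set.union_subset (StarAlgebra.subset_adjoin ℂ X) ?_
  intro x hx
  have h2 : star x ∈ StarAlgebra.adjoin ℂ X := StarAlgebra.subset_adjoin ℂ X hx
  have h3 := star_mem h2
  rwa [star_star] at h3

end dens

section homs

variable {H : Type} [NormedAddCommGroup H] [InnerProductSpace ℂ H] [CompleteSpace H]
  {K : Type} [NormedAddCommGroup K] [InnerProductSpace ℂ K] [CompleteSpace K]

theorem smul_mem' {A : VonNeumannAlgebra H} (c : ℂ) {x : Op H} (hx : x ∈ A) : c • x ∈ A := by
  show c • x ∈ A.toStarSubalgebra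
  exact A.toStarSubalgebra.smul_mem hx c

theorem hom_sub {A : VonNeumannAlgebra H} {M : VonNeumannAlgebra K} {f : Op H → Op K} (hf : IsHom A M f)
    {x y : Op H} (hx : x ∈ A) (hy : y ∈ A) : f (x - y) = f x - f y := by
  have h1 : x - y = x + (-1 : ℂ) • y := by
    rw [neg_one_smul]
    abel
  rw [h1, hf.add x hx _ (smul_mem' _ hy), hf.smul _ y hy, neg_one_smul, sub_eq_add_neg]

theorem hom_sum {A : VonNeumannAlgebra H} {M : VonNeumannAlgebra K} {f : Op H → Op K} (hf : IsHom A M f)
    {ι : Type} (s : Finset ι) (c : ι → ℂ) (x : ι → Op H) (hx : ∀ k ∈ s, x k ∈ A) :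
    f (∑ k ∈ s, c k • x k) = ∑ k ∈ s, c k • f (x k) := by
  classical
  have h0 : f 0 = 0 := by
    have := hf.smul 0 1 (one_mem A)
    rwa [zero_smul, zero_smul] at this
  induction s using Finset.induction_on with
  | empty => rw [sum_empty, sum_empty, h0]
  | insert a s ha ih =>
    have h1 : ∀ k ∈ s, x k ∈ A := fun k hk => hx k (mem_insert_of_mem hk)
    have h2 : ∑ k ∈ s, c k • x k ∈ A := by
      show _ ∈ A.toStarSubalgebra
      exact sum_mem fun k hk => A.toStarSubalgebra.smul_mem (h1 k hk) _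
    rw [sum_insert ha, sum_insert ha, hf.add _ (smul_mem' _ (hx a (mem_insert_self a s))) _ h2,
      hf.smul _ _ (hx a (mem_insert_self a s)), ih h1]

theorem tr_one {ξ : H} (h : ‖ξ‖ = 1) : tr ξ (1 : Op H) = 1 := by
  have h1 := tr_star_mul ξ (1 : Op H)
  rw [star_one, mul_one] at h1
  rw [h1]
  show ((‖ξ‖ ^ 2 : ℝ) : ℂ) = 1
  rw [h]
  norm_num

/-- an operator of a tracial von Neumann algebra vanishes if it vanishes on the trace vector -/
theorem eq_of_vec {A : VonNeumannAlgebra H} {ξ : H} (hA : IsTracial A ξ) {x y : Op H} (hx : x ∈ A) (hy : y ∈ A)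
    (h : x ξ = y ξ) : x = y := by
  have h1 : x - y ∈ A := sub_mem hx hy
  have h2 := hA.faithful _ h1 (by
    rw [tr_star_mul]
    show ((‖x ξ - y ξ‖ ^ 2 : ℝ) : ℂ) = 0
    rw [h, sub_self, norm_zero]
    norm_num)
  exact sub_eq_zero.1 h2

/-- an orthonormal basis of a finite-dimensional subalgebra -/
theorem basis {A : VonNeumannAlgebra H} {ξ : H} (hA : IsTracial A ξ) (D : StarSubalgebra ℂ (Op H))
    (hDA : ∀ x ∈ D, x ∈ A) (hfin : FiniteDimensional ℂ D) :
    ∃ (r : ℕ) (f : Fin r → Op H), (∀ k, f k ∈ D) ∧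
      (∀ j k, tr ξ (star (f j) * f k) = if j = k then 1 else 0) ∧
      ∀ x ∈ D, x = ∑ k, tr ξ (star (f k) * x) • f k := by
  let ev : Op H →ₗ[ℂ] H := (ContinuousLinearMap.apply ℂ H ξ).toLinearMap
  let DS : Submodule ℂ (Op H) := Subalgebra.toSubmodule D.toSubalgebra
  have hDS : FiniteDimensional ℂ DS := hfin
  let V : Submodule ℂ H := DS.map ev
  have hV : FiniteDimensional ℂ V := inferInstance
  let e := stdOrthonormalBasis ℂ V
  have h1 : ∀ k, ∃ f ∈ D, f ξ = (e k : H) := by
    intro k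
    obtain ⟨f, hf, hfe⟩ := (e k).2
    exact ⟨f, hf, hfe⟩
  choose f hf hfe using h1
  have htr : ∀ (a x : Op H), tr ξ (star a * x) = ⟪a ξ, x ξ⟫_ℂ := by
    intro a x
    unfold tr
    show ⟪ξ, star a (x ξ)⟫_ℂ = _
    rw [ContinuousLinearMap.star_eq_adjoint, ContinuousLinearMap.adjoint_inner_right]
  refine ⟨_, f, hf, ?_, ?_⟩
  · intro j k
    rw [htr, hfe, hfe, ← Submodule.coe_inner]
    exact orthonormal_iff_ite.1 e.orthonormal j k
  · intro x hx
    have hxV : x ξ ∈ V := ⟨x, hx, rfl⟩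
    refine eq_of_vec hA (hDA x hx) ?_ ?_
    · show _ ∈ A.toStarSubalgebra
      exact sum_mem fun k _ => A.toStarSubalgebra.smul_mem (hDA _ (hf k)) _
    · have h2 := e.sum_repr' ⟨x ξ, hxV⟩
      have h3 := congrArg (fun z : V => (z : H)) h2
      simp only [Submodule.coe_sum, Submodule.coe_smul] at h3
      rw [← h3, _root_.sum_apply]
      refine sum_congr rfl fun k _ => ?_
      rw [htr, hfe]
      change _ = ⟪(e k : H), x ξ⟫_ℂ • (f k ξ)
      rw [hfe]
      rfl

end homs

section piece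

variable {L : Type} [NormedAddCommGroup L] [InnerProductSpace ℂ L] [CompleteSpace L]
  {N₁ : VonNeumannAlgebra L} {ζ : L} {S : Type} [Group S] {u : S →* unitary (Op L)}

theorem norm_i (hG : GrpAlg N₁ ζ u) (P : Piece N₁ ζ) {a : Op P.H} (ha : a ∈ P.A) :
    ‖P.i a P.η‖ = ‖a P.ξ‖ := by
  have h1 := P.tensor.trace (star a * a) (mul_mem (star_mem ha) ha) 1 (one_mem N₁)
  rw [P.tensor.homN.one, mul_one, P.tensor.homA.mul _ (star_mem ha) _ ha, P.tensor.homA.star _ ha,
    tr_star_mul, tr_star_mul, tr_one hG.tracial.unit, mul_one] at h1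
  have h2 : ‖P.i a P.η‖ ^ 2 = ‖a P.ξ‖ ^ 2 := by exact_mod_cast h1
  exact (sq_eq_sq₀ (norm_nonneg _) (norm_nonneg _)).1 h2

theorem norm_j (P : Piece N₁ ζ) {c : Op L} (hc : c ∈ N₁) :
    ‖P.j c P.η‖ = ‖c ζ‖ := by
  have h1 := P.tensor.trace 1 (one_mem P.A) (star c * c) (mul_mem (star_mem hc) hc)
  rw [P.tensor.homA.one, one_mul, P.tensor.homN.mul _ (star_mem hc) _ hc, P.tensor.homN.star _ hc,
    tr_star_mul, tr_star_mul, tr_one P.tracial.unit, one_mul] at h1
  have h2 : ‖P.j c P.η‖ ^ 2 = ‖c ζ‖ ^ 2 := by exact_mod_cast h1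
  exact (sq_eq_sq₀ (norm_nonneg _) (norm_nonneg _)).1 h2

/-- the span of the products -/
def MD (P : Piece N₁ ζ) (u : S →* unitary (Op L)) (D : StarSubalgebra ℂ (Op P.H)) : Submodule ℂ (Op P.K) :=
  Submodule.span ℂ {x | ∃ d ∈ D, ∃ h : S, x = P.i d * P.j (u h : Op L)}

theorem MD_mono (P : Piece N₁ ζ) (u : S →* unitary (Op L)) {D D' : StarSubalgebra ℂ (Op P.H)} (h : D ≤ D') :
    MD P u D ≤ MD P u D' := by
  refine Submodule.span_mono ?_
  rintro _ ⟨d, hd, g, rfl⟩
  exact ⟨d, h hd, g, rfl⟩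

/-- the span of the unitaries of the group -/
theorem mem_span_u {c : Op L} (hc : c ∈ StarAlgebra.adjoin ℂ (Set.range fun h => (u h : Op L))) :
    c ∈ Submodule.span ℂ (Set.range fun h => (u h : Op L)) := by
  have hmul : ∀ x ∈ Submodule.span ℂ (Set.range fun h => (u h : Op L)),
      ∀ y ∈ Submodule.span ℂ (Set.range fun h => (u h : Op L)),
      x * y ∈ Submodule.span ℂ (Set.range fun h => (u h : Op L)) := by
    intro x hx y hy
    induction hx using Submodule.span_induction with
    | mem x hx =>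
      obtain ⟨g, rfl⟩ := hx
      induction hy using Submodule.span_induction with
      | mem y hy =>
        obtain ⟨h, rfl⟩ := hy
        refine Submodule.subset_span ⟨g * h, ?_⟩
        simp
      | zero => rw [mul_zero]; exact Submodule.zero_mem _
      | add a b _ _ ha hb => rw [mul_add]; exact Submodule.add_mem _ ha hb
      | smul z a _ ha => rw [mul_smul_comm]; exact Submodule.smul_mem _ _ ha
    | zero => rw [zero_mul]; exact Submodule.zero_mem _
    | add a b _ _ ha hb => rw [add_mul]; exact Submodule.add_mem _ ha hb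
    | smul z a _ ha => rw [smul_mul_assoc]; exact Submodule.smul_mem _ _ ha
  have hone : (1 : Op L) ∈ Submodule.span ℂ (Set.range fun h => (u h : Op L)) :=
    Submodule.subset_span ⟨1, by simp⟩
  induction hc using StarAlgebra.adjoin_induction with
  | mem x hx => exact Submodule.subset_span hx
  | algebraMap r =>
    rw [Algebra.algebraMap_eq_smul_one]
    exact Submodule.smul_mem _ _ hone
  | add x y _ _ hx hy => exact Submodule.add_mem _ hx hy
  | mul x y _ _ hx hy => exact hmul x hx y hy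
  | star x hx' hx =>
    clear hx'
    induction hx using Submodule.span_induction with
    | mem x hx =>
      obtain ⟨g, rfl⟩ := hx
      refine Submodule.subset_span ⟨g⁻¹, ?_⟩
      simp only [map_inv]
      rfl
    | zero => rw [star_zero]; exact Submodule.zero_mem _
    | add a b _ _ ha hb => rw [star_add]; exact Submodule.add_mem _ ha hb
    | smul z a _ ha => rw [star_smul]; exact Submodule.smul_mem _ _ ha

/-- the elements of `N₁` are approximated -/
theorem app_u (hG : GrpAlg N₁ ζ u) {c : Op L} (hc : c ∈ N₁) {ε : ℝ} (hε : 0 < ε) :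
    ∃ c' ∈ Submodule.span ℂ (Set.range fun h => (u h : Op L)), ‖(c' - c) ζ‖ ≤ ε := by
  have h1 : N₁ ≤ vN (Set.range fun h => (u h : Op L)) := hG.gen _ fun h => by
    rw [← SetLike.mem_coe]
    unfold vN
    rw [VonNeumannAlgebra.coe_commutant]
    show _ ∈ Set.centralizer ((StarSubalgebra.centralizer ℂ _ : StarSubalgebra ℂ (Op L)) : Set (Op L))
    rw [StarSubalgebra.coe_centralizer]
    exact Set.subset_centralizer_centralizer (Or.inl ⟨h, rfl⟩)
  obtain ⟨s, hs, hd⟩ := dens _ c (mem_vN (h1 hc)) ζ ε hε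
  exact ⟨s, mem_span_u hs, hd⟩

theorem span_le_N (hG : GrpAlg N₁ ζ u) {c : Op L}
    (hc : c ∈ Submodule.span ℂ (Set.range fun h => (u h : Op L))) : c ∈ N₁ := by
  induction hc using Submodule.span_induction with
  | mem x hx =>
    obtain ⟨h, rfl⟩ := hx
    exact hG.mem h
  | zero => exact zero_mem N₁
  | add a b _ _ ha hb => exact add_mem ha hb
  | smul z a _ ha => exact smul_mem' _ ha

theorem j_span (hG : GrpAlg N₁ ζ u) (P : Piece N₁ ζ) {D : StarSubalgebra ℂ (Op P.H)} {d : Op P.H} (hd : d ∈ D)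
    {c : Op L} (hc : c ∈ Submodule.span ℂ (Set.range fun h => (u h : Op L))) :
    P.i d * P.j c ∈ MD P u D := by
  induction hc using Submodule.span_induction with
  | mem x hx =>
    obtain ⟨h, rfl⟩ := hx
    exact Submodule.subset_span ⟨d, hd, h, rfl⟩
  | zero =>
    have h0 : P.j (0 : Op L) = 0 := by
      have := P.tensor.homN.smul 0 1 (one_mem N₁)
      rwa [zero_smul, zero_smul] at this
    rw [h0, mul_zero]
    exact Submodule.zero_mem _
  | add a b ha' hb' ha hb =>
    rw [P.tensor.homN.add a (span_le_N hG ha') b (span_le_N hG hb'), mul_add]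
    exact Submodule.add_mem _ ha hb
  | smul z a ha' ha =>
    rw [P.tensor.homN.smul z a (span_le_N hG ha'), mul_smul_comm]
    exact Submodule.smul_mem _ _ ha

/-- approximation of the products -/
theorem app_prod (hG : GrpAlg N₁ ζ u) (P : Piece N₁ ζ) {B : VonNeumannAlgebra P.H} (hBA : B ≤ P.A)
    {J : Type} [Nonempty J] {D : J → StarSubalgebra ℂ (Op P.H)} (hdir : Directed (· ≤ ·) D)
    (hgen : Set.centralizer (Set.centralizer (⋃ j, (D j : Set (Op P.H)))) = (B : Set (Op P.H)))
    {b : Op P.H} (hb : b ∈ B) {c : Op L} (hc : c ∈ N₁) {ε : ℝ} (hε : 0 < ε) :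
    ∃ k : J, ∃ y ∈ MD P u (D k), ‖(P.i b * P.j c - y) P.η‖ ≤ ε := by
  have hDB : ∀ k, ∀ x ∈ D k, x ∈ B := by
    intro k x hx
    rw [← SetLike.mem_coe, ← hgen]
    exact Set.subset_centralizer_centralizer (Set.mem_iUnion.2 ⟨k, hx⟩)
  have hcoe : ((⨆ k, D k : StarSubalgebra ℂ (Op P.H)) : Set (Op P.H)) = ⋃ k, (D k : Set (Op P.H)) :=
    StarSubalgebra.coe_iSup_of_directed hdir
  have h1 : b ∈ Set.centralizer (Set.centralizer ((⨆ k, D k : StarSubalgebra ℂ (Op P.H)) : Set (Op P.H))) := by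
    rw [hcoe, hgen]
    exact hb
  obtain ⟨s, hs, hd⟩ := dens (⨆ k, D k) b h1 P.ξ (ε / (2 * (‖P.j c‖ + 1))) (by positivity)
  rw [← SetLike.mem_coe, hcoe, Set.mem_iUnion] at hs
  obtain ⟨k, hsk⟩ := hs
  obtain ⟨c', hc', hd'⟩ := app_u hG hc (ε := ε / (2 * (‖P.i s‖ + 1))) (by positivity)
  refine ⟨k, P.i s * P.j c', j_span hG P hsk hc', ?_⟩
  have hsA : s ∈ P.A := hBA (hDB k s hsk)
  have hbA : b ∈ P.A := hBA hb
  have hc'N := span_le_N hG hc'
  have e1 : P.i b * P.j c - P.i s * P.j c' = P.j c * P.i (b - s) + P.i s * P.j (c - c') := by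
    rw [hom_sub P.tensor.homA hbA hsA, hom_sub P.tensor.homN hc hc'N, mul_sub, mul_sub,
      P.tensor.comm b hbA c hc, P.tensor.comm s hsA c hc]
    abel
  have n1 : ‖P.i (b - s) P.η‖ ≤ ε / (2 * (‖P.j c‖ + 1)) := by
    rw [norm_i hG P (sub_mem hbA hsA)]
    have : (b - s) P.ξ = -((s - b) P.ξ) := by
      show b P.ξ - s P.ξ = -(s P.ξ - b P.ξ)
      abel
    rw [this, norm_neg]
    exact hd
  have n2 : ‖P.j (c - c') P.η‖ ≤ ε / (2 * (‖P.i s‖ + 1)) := by
    rw [norm_j P (sub_mem hc hc'N)]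
    have : (c - c') ζ = -((c' - c) ζ) := by
      show c ζ - c' ζ = -(c' ζ - c ζ)
      abel
    rw [this, norm_neg]
    exact hd'
  rw [e1]
  have half : ∀ t : ℝ, 0 ≤ t → t * (ε / (2 * (t + 1))) ≤ ε / 2 := by
    intro t ht
    rw [mul_div_assoc', div_le_div_iff₀ (by positivity) (by positivity)]
    nlinarith
  calc ‖(P.j c * P.i (b - s) + P.i s * P.j (c - c')) P.η‖
      = ‖P.j c (P.i (b - s) P.η) + P.i s (P.j (c - c') P.η)‖ := rfl
    _ ≤ ‖P.j c (P.i (b - s) P.η)‖ + ‖P.i s (P.j (c - c') P.η)‖ := norm_add_le _ _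
    _ ≤ ‖P.j c‖ * (ε / (2 * (‖P.j c‖ + 1))) + ‖P.i s‖ * (ε / (2 * (‖P.i s‖ + 1))) := by
        refine add_le_add ?_ ?_
        · exact ((P.j c).le_opNorm _).trans (mul_le_mul_of_nonneg_left n1 (norm_nonneg _))
        · exact ((P.i s).le_opNorm _).trans (mul_le_mul_of_nonneg_left n2 (norm_nonneg _))
    _ ≤ ε / 2 + ε / 2 := add_le_add (half _ (norm_nonneg _)) (half _ (norm_nonneg _))
    _ = ε := by ring

/-- the generators of `B ⊗ N₁` -/
def gens (P : Piece N₁ ζ) (B : VonNeumannAlgebra P.H) : Set (Op P.K) :=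
  {x | (∃ b ∈ B, x = P.i b) ∨ ∃ c ∈ N₁, x = P.j c}

theorem mem_span_ij (P : Piece N₁ ζ) {B : VonNeumannAlgebra P.H} (hBA : B ≤ P.A) {x : Op P.K}
    (hx : x ∈ StarAlgebra.adjoin ℂ (gens P B)) :
    x ∈ Submodule.span ℂ {x | ∃ b ∈ B, ∃ c ∈ N₁, x = P.i b * P.j c} := by
  set W : Submodule ℂ (Op P.K) := Submodule.span ℂ {x | ∃ b ∈ B, ∃ c ∈ N₁, x = P.i b * P.j c} with hW
  have hA := P.tensor.homA
  have hN := P.tensor.homN
  have hmul : ∀ x ∈ W, ∀ y ∈ W, x * y ∈ W := by
    intro x hx y hy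
    induction hx using Submodule.span_induction with
    | mem x hx =>
      obtain ⟨b, hb, c, hc, rfl⟩ := hx
      induction hy using Submodule.span_induction with
      | mem y hy =>
        obtain ⟨b', hb', c', hc', rfl⟩ := hy
        refine Submodule.subset_span ⟨b * b', mul_mem hb hb', c * c', mul_mem hc hc', ?_⟩
        rw [hA.mul b (hBA hb) b' (hBA hb'), hN.mul c hc c' hc']
        have h1 := P.tensor.comm b' (hBA hb') c hc
        calc P.i b * P.j c * (P.i b' * P.j c') = P.i b * (P.j c * P.i b') * P.j c' := by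
              simp only [mul_assoc]
          _ = P.i b * (P.i b' * P.j c) * P.j c' := by rw [h1]
          _ = _ := by simp only [mul_assoc]
      | zero => rw [mul_zero]; exact Submodule.zero_mem _
      | add a b _ _ ha hb => rw [mul_add]; exact Submodule.add_mem _ ha hb
      | smul z a _ ha => rw [mul_smul_comm]; exact Submodule.smul_mem _ _ ha
    | zero => rw [zero_mul]; exact Submodule.zero_mem _
    | add a b _ _ ha hb => rw [add_mul]; exact Submodule.add_mem _ ha hb
    | smul z a _ ha => rw [smul_mul_assoc]; exact Submodule.smul_mem _ _ ha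
  have hone : (1 : Op P.K) ∈ W :=
    Submodule.subset_span ⟨1, one_mem B, 1, one_mem N₁, by rw [hA.one, hN.one, one_mul]⟩
  induction hx using StarAlgebra.adjoin_induction with
  | mem x hx =>
    rcases hx with ⟨b, hb, rfl⟩ | ⟨c, hc, rfl⟩
    · exact Submodule.subset_span ⟨b, hb, 1, one_mem N₁, by rw [hN.one, mul_one]⟩
    · exact Submodule.subset_span ⟨1, one_mem B, c, hc, by rw [hA.one, one_mul]⟩
  | algebraMap r =>
    rw [Algebra.algebraMap_eq_smul_one]
    exact Submodule.smul_mem _ _ hone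
  | add x y _ _ hx hy => exact Submodule.add_mem _ hx hy
  | mul x y _ _ hx hy => exact hmul x hx y hy
  | star x hx' hx =>
    clear hx'
    induction hx using Submodule.span_induction with
    | mem x hx =>
      obtain ⟨b, hb, c, hc, rfl⟩ := hx
      refine Submodule.subset_span ⟨star b, star_mem hb, star c, star_mem hc, ?_⟩
      rw [star_mul, hA.star b (hBA hb), hN.star c hc]
      have h1 := P.tensor.comm (star b) (star_mem (hBA hb)) (star c) (star_mem hc)
      rw [hA.star b (hBA hb), hN.star c hc] at h1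
      exact h1.symm
    | zero => rw [star_zero]; exact Submodule.zero_mem _
    | add a b _ _ ha hb => rw [star_add]; exact Submodule.add_mem _ ha hb
    | smul z a _ ha => rw [star_smul]; exact Submodule.smul_mem _ _ ha

/-- approximation of the elements of `B ⊗ N₁` -/
theorem app_TN (hG : GrpAlg N₁ ζ u) (P : Piece N₁ ζ) {B : VonNeumannAlgebra P.H} (hBA : B ≤ P.A)
    {J : Type} [Nonempty J] {D : J → StarSubalgebra ℂ (Op P.H)} (hdir : Directed (· ≤ ·) D)
    (hgen : Set.centralizer (Set.centralizer (⋃ j, (D j : Set (Op P.H)))) = (B : Set (Op P.H)))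
    {x : Op P.K} (hx : x ∈ vN (gens P B)) {ε : ℝ} (hε : 0 < ε) :
    ∃ k : J, ∃ y ∈ MD P u (D k), ‖(x - y) P.η‖ ≤ ε := by
  obtain ⟨s, hs, hd⟩ := dens _ x (mem_vN hx) P.η (ε / 2) (by positivity)
  have hs' := mem_span_ij P hBA hs
  have key : ∀ δ : ℝ, 0 < δ → ∃ k : J, ∃ y ∈ MD P u (D k), ‖(s - y) P.η‖ ≤ δ := by
    clear hd hs
    induction hs' using Submodule.span_induction with
    | mem x hx =>
      obtain ⟨b, hb, c, hc, rfl⟩ := hx
      exact fun δ hδ => app_prod hG P hBA hdir hgen hb hc hδ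
    | zero =>
      intro δ hδ
      refine ⟨Classical.arbitrary J, 0, Submodule.zero_mem _, ?_⟩
      rw [sub_zero]
      show ‖(0 : P.K)‖ ≤ δ
      rw [norm_zero]
      exact hδ.le
    | add a b _ _ ha hb =>
      intro δ hδ
      obtain ⟨k1, y1, hy1, h1⟩ := ha (δ / 2) (by positivity)
      obtain ⟨k2, y2, hy2, h2⟩ := hb (δ / 2) (by positivity)
      obtain ⟨k, hk1, hk2⟩ := hdir k1 k2
      refine ⟨k, y1 + y2, Submodule.add_mem _ (MD_mono P u hk1 hy1) (MD_mono P u hk2 hy2), ?_⟩
      have e : (a + b - (y1 + y2)) P.η = (a - y1) P.η + (b - y2) P.η := by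
        rw [← _root_.add_apply]
        congr 1
        abel
      rw [e]
      refine (norm_add_le _ _).trans ?_
      linarith
    | smul z a _ ha =>
      intro δ hδ
      obtain ⟨k, y, hy, h⟩ := ha (δ / (‖z‖ + 1)) (by positivity)
      refine ⟨k, z • y, Submodule.smul_mem _ _ hy, ?_⟩
      have e : (z • a - z • y) P.η = z • ((a - y) P.η) := by
        rw [← smul_sub]
        rfl
      rw [e, norm_smul]
      calc ‖z‖ * ‖(a - y) P.η‖ ≤ ‖z‖ * (δ / (‖z‖ + 1)) := mul_le_mul_of_nonneg_left h (norm_nonneg _)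
        _ ≤ δ := by
          rw [mul_div_assoc', div_le_iff₀ (by positivity)]
          nlinarith [norm_nonneg z]
  obtain ⟨k, y, hy, h⟩ := key (ε / 2) (by positivity)
  refine ⟨k, y, hy, ?_⟩
  have e : (x - y) P.η = -((s - x) P.η) + (s - y) P.η := by
    show x P.η - y P.η = -(s P.η - x P.η) + (s P.η - y P.η)
    abel
  rw [e]
  refine (norm_add_le _ _).trans ?_
  rw [norm_neg]
  linarith

/-- the coefficients -/
theorem coeffs (P : Piece N₁ ζ) {D : StarSubalgebra ℂ (Op P.H)} (hD : ∀ x ∈ D, x ∈ P.A) {r : ℕ} {f : Fin r → Op P.H}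
    (hf : ∀ k, f k ∈ D) (hexp : ∀ x ∈ D, x = ∑ k, tr P.ξ (star (f k) * x) • f k) {y : Op P.K}
    (hy : y ∈ MD P u D) : ∃ β : Fin r → (S →₀ ℂ),
      y = ∑ k, (β k).sum fun h z => z • (P.i (f k) * P.j (u h : Op L)) := by
  induction hy using Submodule.span_induction with
  | mem x hx =>
    obtain ⟨d, hd, h, rfl⟩ := hx
    refine ⟨fun k => Finsupp.single h (tr P.ξ (star (f k) * d)), ?_⟩
    have h1 : P.i d = ∑ k, tr P.ξ (star (f k) * d) • P.i (f k) := by
      conv_lhs => rw [hexp d hd]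
      exact hom_sum P.tensor.homA _ _ _ fun k _ => hD _ (hf k)
    rw [h1, sum_mul]
    refine sum_congr rfl fun k _ => ?_
    rw [Finsupp.sum_single_index (by rw [zero_smul]), smul_mul_assoc]
  | zero => exact ⟨0, by simp⟩
  | add a b _ _ ha hb =>
    obtain ⟨β, hβ⟩ := ha
    obtain ⟨γ, hγ⟩ := hb
    refine ⟨β + γ, ?_⟩
    rw [hβ, hγ, ← sum_add_distrib]
    refine sum_congr rfl fun k _ => ?_
    rw [Pi.add_apply, Finsupp.sum_add_index' (fun h => by rw [zero_smul]) (fun h z z' => by rw [add_smul])]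
  | smul z a _ ha =>
    obtain ⟨β, hβ⟩ := ha
    refine ⟨fun k => z • β k, ?_⟩
    rw [hβ, smul_sum]
    refine sum_congr rfl fun k _ => ?_
    rw [Finsupp.sum_smul_index' (fun h => by rw [zero_smul]), Finsupp.smul_sum]
    refine Finsupp.sum_congr fun h _ => ?_
    rw [smul_assoc]

end piece

end Hyp

open Hyp in
/-- **HYP.** -/
theorem hyp : S_HYP := by
  intro L _ _ _ N₁ ζ S _ u hG P s b hb ε hε
  classical
  obtain ⟨J, hJ, D, hdir, hfin, hgen⟩ := P.hyp
  have h1 : ∀ w, ∃ k : J, ∃ y ∈ MD P u (D k), ‖(b w - y) P.η‖ ≤ ε := fun w =>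
    app_TN hG P P.le hdir hgen (hb w) hε
  choose k y hy hyd using h1
  obtain ⟨K, hK⟩ := hdir.finite_le k
  have hDB : ∀ x ∈ D K, x ∈ P.B := by
    intro x hx
    rw [← SetLike.mem_coe, ← hgen]
    exact Set.subset_centralizer_centralizer (Set.mem_iUnion.2 ⟨K, hx⟩)
  have hDA : ∀ x ∈ D K, x ∈ P.A := fun x hx => P.le (hDB x hx)
  obtain ⟨r, f, hf, hort, hexp⟩ := basis P.tracial (D K) hDA (hfin K)
  have h2 : ∀ w, ∃ β : Fin r → (S →₀ ℂ),
      y w = ∑ k, (β k).sum fun h z => z • (P.i (f k) * P.j (u h : Op L)) := fun w =>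
    coeffs P hDA hf hexp (MD_mono P u (hK w) (hy w))
  choose β hβ using h2
  let T : Finset S := univ.biUnion fun w => univ.biUnion fun k => (β w k).support
  have hT : ∀ w k, (β w k).support ⊆ T := fun w k =>
    (subset_biUnion_of_mem (fun k => (β w k).support) (mem_univ k)).trans
      (subset_biUnion_of_mem (fun w => univ.biUnion fun k => (β w k).support) (mem_univ w))
  have hstar : ∀ x : Op P.H, star (tr P.ξ x) = tr P.ξ (star x) := by
    intro x
    unfold tr
    rw [ContinuousLinearMap.star_eq_adjoint, ContinuousLinearMap.adjoint_inner_right]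
    exact inner_conj_symm _ _
  refine ⟨r, f, fun j i l => tr P.ξ (star (f l) * (f j * f i)), fun i => tr P.ξ (star (f i)), T.card,
    fun l => (T.equivFin.symm l : S), fun w k l => β w k (T.equivFin.symm l : S), fun k => hDB _ (hf k), ?_, ?_, ?_,
    fun _ => rfl, hort, ?_⟩
  · intro j i
    exact hexp _ (mul_mem (hf j) (hf i))
  · intro l j
    have h3 := congrArg star (hexp _ (mul_mem (star_mem (hf j)) (hf l)))
    rw [star_mul, star_star, star_sum] at h3
    rw [h3]
    refine sum_congr rfl fun i _ => ?_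
    rw [star_smul, hstar, star_mul, star_mul, star_star, star_star, mul_assoc]
  · have h3 := hexp 1 (one_mem _)
    simp only [mul_one] at h3
    exact h3.symm
  · intro w
    have h3 : ∑ k, ∑ l : Fin T.card, β w k (T.equivFin.symm l : S) •
        (P.i (f k) * P.j (u (T.equivFin.symm l : S) : Op L)) = y w := by
      rw [hβ w]
      refine sum_congr rfl fun k _ => ?_
      rw [Finsupp.sum_of_support_subset _ (hT w k) _ (fun h _ => by rw [zero_smul])]
      rw [← sum_coe_sort T]
      exact Equiv.sum_comp T.equivFin.symm fun g : T => β w k (g : S) • (P.i (f k) * P.j (u (g : S) : Op L))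
    rw [h3]
    exact hyd w

end

end Pool.Agent.Helper47.CA
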