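import Pool.Agent.Helper47.CA.Main0
import Pool.Agent.Helper47.CA.Gv
import Pool.Agent.Helper47.CA.Hyp

/-!
# From the main step to the failure of relative embeddability
-/

set_option autoImplicit false
set_option linter.unusedSectionVars false
set_option linter.unusedVariables false

open scoped InnerProductSpace Kronecker ComplexOrder
open Filter Topology Matrix Finset

namespace Pool.Agent.Helper47.CA

open Pool.Agent.N557.QWX (Op tr IsTracial IsHom)
open Pool.Agent.N859.QX (QWEP)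
open Pool.Agent.N859.QW (vN)
open Pool.Agent.W661.RC (hs Le)

noncomputable section

variable {L : Type} [NormedAddCommGroup L] [InnerProductSpace ℂ L] [CompleteSpace L]
  {N₁ : VonNeumannAlgebra L} {ζ : L}

theorem TN_le (P : Piece N₁ ζ) : P.TN ≤ P.T := by
  refine Gv.vN_le ?_
  rintro x (⟨b, hb, rfl⟩ | ⟨c, hc, rfl⟩)
  · exact P.tensor.homA.mem b (P.le hb)
  · exact P.tensor.homN.mem c hc

section null

variable {I : Type} {P : I → Piece N₁ ζ} {ω : Ultrafilter I}

theorem null_of_le {x : ∀ k, Op (P k).K} (f : I → ℝ) (h : ∀ k, ‖x k (P k).η‖ ≤ f k)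
    (hf : Tendsto f ω (𝓝 0)) : Null P ω x := squeeze_zero (fun _ => norm_nonneg _) h hf

theorem null_add {x y : ∀ k, Op (P k).K} (hx : Null P ω x) (hy : Null P ω y) :
    Null P ω fun k => x k + y k :=
  null_of_le (fun k => ‖x k (P k).η‖ + ‖y k (P k).η‖) (fun k => norm_add_le _ _) (by simpa using Tendsto.add hx hy)

theorem null_neg {x y : ∀ k, Op (P k).K} (hx : Null P ω fun k => x k - y k) :
    Null P ω fun k => y k - x k := by
  refine null_of_le (fun k => ‖(x k - y k) (P k).η‖) (fun k => ?_) hx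
  have : (y k - x k) (P k).η = -((x k - y k) (P k).η) := by
    rw [← neg_sub (x k) (y k)]; rfl
  rw [this, norm_neg]

theorem null_zero : Null P ω fun k => (0 : Op (P k).K) := by
  refine null_of_le (fun _ => 0) (fun k => ?_) tendsto_const_nhds
  simp

theorem null_left {a x : ∀ k, Op (P k).K} (ha : Bdd P a) (hx : Null P ω x) :
    Null P ω fun k => a k * x k := by
  obtain ⟨C, hC⟩ := ha
  refine null_of_le (fun k => C * ‖x k (P k).η‖) (fun k => ?_) (by simpa using Tendsto.const_mul C hx)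
  exact (norm_mul_ap _ _ _).trans (mul_le_mul_of_nonneg_right (hC k) (norm_nonneg _))

theorem null_right {a x : ∀ k, Op (P k).K} (haT : ∀ k, a k ∈ (P k).T) (hxT : ∀ k, x k ∈ (P k).T)
    (ha : Bdd P a) (hx : Null P ω x) : Null P ω fun k => x k * a k := by
  obtain ⟨C, hC⟩ := ha
  refine null_of_le (fun k => C * ‖x k (P k).η‖) (fun k => ?_) (by simpa using Tendsto.const_mul C hx)
  exact (norm_mul_ap' (P k).tensor.tracial (hxT k) (haT k)).trans
    (mul_le_mul_of_nonneg_right (hC k) (norm_nonneg _))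

theorem null_ev {x : ∀ k, Op (P k).K} (hx : Null P ω x) {κ : ℝ} (hκ : 0 < κ) :
    ∀ᶠ k in (ω : Filter I), ‖x k (P k).η‖ ≤ κ := by
  have : ∀ᶠ r in 𝓝 (0 : ℝ), r ≤ κ := (eventually_le_nhds hκ)
  exact Tendsto.eventually hx this

variable {H : Type} [NormedAddCommGroup H] [InnerProductSpace ℂ H] [CompleteSpace H]
  {M : VonNeumannAlgebra H} {ξ : H} {π : Op H → ∀ k, Op (P k).K}

theorem star_null (hπ : IsEmb0 P ω M ξ π) {u : unitary (Op H)} (hu : (u : Op H) ∈ M) :
    Null P ω fun k => star (π u k) * π u k - 1 := by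
  have h1 : Null P ω fun k => star (π u k) - π (star (u : Op H)) k := null_neg (hπ.star _ hu)
  have h2 : Null P ω fun k => (star (π u k) - π (star (u : Op H)) k) * π u k :=
    null_right (hπ.mem _ hu) (fun k => mem_sub (mem_star (hπ.mem _ hu k)) (hπ.mem _ (mem_star hu) k))
      (hπ.bdd _ hu) h1
  have h3 : Null P ω fun k => π (star (u : Op H)) k * π u k - π (star (u : Op H) * u) k :=
    null_neg (hπ.mul _ (mem_star hu) _ hu)
  have h4 := hπ.one
  have h5 : star (u : Op H) * u = 1 := Unitary.star_mul_self_of_mem u.2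
  rw [h5] at h3
  refine null_of_le (fun k => ‖((star (π u k) - π (star (u : Op H)) k) * π u k + (π (star (u : Op H)) k * π u k -
    π 1 k) + (π 1 k - 1)) (P k).η‖) (fun k => le_of_eq ?_) (null_add (null_add h2 h3) h4)
  congr 2
  noncomm_ring

/-- the words in the group unitaries -/
theorem word_null (hπ : IsEmb0 P ω M ξ π) {Γ : Type} [Group Γ] (U : Γ →* unitary (Op H))
    (hU : ∀ g, (U g : Op H) ∈ M) {n : ℕ} (γ : FreeGroup (Fin n) →* Γ) (w : FreeGroup (Fin n)) :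
    Null P ω fun k => evL (fun i => π (U (γ (FreeGroup.of i))) k)
      (fun i => star (π (U (γ (FreeGroup.of i))) k)) w - π (U (γ w)) k := by
  have key : ∀ l : List (Fin n × Bool),
      (∀ k, (l.map fun p => if p.2 then π (U (γ (FreeGroup.of p.1))) k else
        star (π (U (γ (FreeGroup.of p.1))) k)).prod ∈ (P k).T) ∧
      (∃ C : ℝ, ∀ k, ‖(l.map fun p => if p.2 then π (U (γ (FreeGroup.of p.1))) k else
        star (π (U (γ (FreeGroup.of p.1))) k)).prod‖ ≤ C) ∧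
      Null P ω fun k => (l.map fun p => if p.2 then π (U (γ (FreeGroup.of p.1))) k else
        star (π (U (γ (FreeGroup.of p.1))) k)).prod - π (U (γ (FreeGroup.mk l))) k := by
    intro l
    induction l with
    | nil =>
      refine ⟨fun k => mem_one _, ⟨1, fun k => ?_⟩, ?_⟩
      · simp only [List.map_nil, List.prod_nil]
        exact ContinuousLinearMap.norm_id_le
      · have h1 : FreeGroup.mk ([] : List (Fin n × Bool)) = 1 := rfl
        simp only [List.map_nil, List.prod_nil, h1, map_one]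
        exact null_neg hπ.one
    | cons p l ih =>
      obtain ⟨i1, ⟨C, i2⟩, i3⟩ := ih
      simp only [List.map_cons, List.prod_cons]
      have hmk : FreeGroup.mk (p :: l) = FreeGroup.mk [p] * FreeGroup.mk l := by
        rw [FreeGroup.mul_mk]; rfl
      set g := γ (FreeGroup.mk [p]) with hg
      set g' := γ (FreeGroup.mk l) with hg'
      set A : ∀ k, Op (P k).K := fun k => if p.2 then π (U (γ (FreeGroup.of p.1))) k else
        star (π (U (γ (FreeGroup.of p.1))) k) with hA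
      have hAT : ∀ k, A k ∈ (P k).T := by
        intro k
        rw [hA]
        simp only
        split_ifs
        · exact hπ.mem _ (hU _) k
        · exact mem_star (hπ.mem _ (hU _) k)
      obtain ⟨C1, hC1⟩ := hπ.bdd _ (hU (γ (FreeGroup.of p.1)))
      have hAC : ∀ k, ‖A k‖ ≤ C1 := by
        intro k
        rw [hA]
        simp only
        split_ifs
        · exact hC1 k
        · rw [norm_star]; exact hC1 k
      have hAn : Null P ω fun k => A k - π (U g) k := by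
        rcases p with ⟨i, b⟩
        cases b with
        | true =>
          have : g = γ (FreeGroup.of i) := rfl
          rw [this]
          simp only [hA, if_true, sub_self]
          exact null_zero
        | false =>
          have : g = (γ (FreeGroup.of i))⁻¹ := by
            rw [← map_inv]
            rfl
          have h2 : (U g : Op H) = star (U (γ (FreeGroup.of i)) : Op H) := by
            rw [this, map_inv]; rfl
          rw [h2]
          simp only [hA, Bool.false_eq_true, if_false]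
          exact null_neg (hπ.star _ (hU _))
      refine ⟨fun k => mem_mul (hAT k) (i1 k), ⟨C1 * C, fun k => ?_⟩, ?_⟩
      · refine (norm_mul_le _ _).trans (mul_le_mul (hAC k) (i2 k) (norm_nonneg _) ((norm_nonneg _).trans (hAC k)))
      · rw [hmk, map_mul, ← hg, ← hg', map_mul]
        have h1 := null_left (P := P) ⟨C1, hAC⟩ i3
        have h2 : Null P ω fun k => (A k - π (U g) k) * π (U g') k :=
          null_right (hπ.mem _ (hU g')) (fun k => mem_sub (hAT k) (hπ.mem _ (hU g) k)) (hπ.bdd _ (hU g')) hAn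
        have h3 : Null P ω fun k => π (U g) k * π (U g') k - π ((U g : Op H) * (U g' : Op H)) k :=
          null_neg (hπ.mul _ (hU g) _ (hU g'))
        refine null_of_le _ (fun k => le_of_eq ?_) (null_add (null_add h1 h2) h3)
        congr 2
        have : ((U g * U g' : unitary (Op H)) : Op H) = (U g : Op H) * (U g' : Op H) := rfl
        rw [this]
        noncomm_ring
  have h := (key w.toWord).2.2
  rw [FreeGroup.mk_toWord] at h
  exact h

theorem norm_tr_le {K : Type} [NormedAddCommGroup K] [InnerProductSpace ℂ K] [CompleteSpace K] {η : K}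
    (hη : ‖η‖ = 1) (b w : Op K) (hb : ‖b‖ ≤ 1) : ‖tr η (b * w)‖ ≤ ‖w η‖ := by
  unfold tr
  refine (norm_inner_le_norm _ _).trans ?_
  rw [hη, one_mul]
  refine (norm_mul_ap b w η).trans ?_
  nlinarith [norm_nonneg (w η)]

end null

set_option maxHeartbeats 1600000 in
/-- the abstract form -/
theorem not_re_of (hMAIN : S_MAIN) (hTRU : S_TRU) {H : Type} [NormedAddCommGroup H] [InnerProductSpace ℂ H]
    [CompleteSpace H] (N₀ M : VonNeumannAlgebra H) (ξ : H) {G : Type} [Group G]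
    (S : Subgroup G) (U : G →* unitary (Op H)) (hM : ∀ g, (U g : Op H) ∈ M)
    (hN₀ : ∀ g ∈ S, (U g : Op H) ∈ N₀)
    (hort : ∀ y, y ∉ S → ∀ b ∈ N₀, tr ξ (b * (U y : Op H)) = 0)
    {n : ℕ} (γ : FreeGroup (Fin n) →* G) (x : FreeGroup (Fin n)) (hx : γ x ∉ S)
    (hFF : ∀ ε : ℝ, 0 < ε → ∃ (δ : ℝ) (R Sw : Finset (FreeGroup (Fin n))), 0 < δ ∧ (∀ w ∈ R, γ w = 1) ∧
      (∀ w ∈ Sw, γ w ∈ S) ∧ FF n R Sw x δ ε)
    {Λ : Type} [Group Λ] (v : Λ →* unitary (Op L)) (hN : GrpAlg N₁ ζ v) (hS : RFin Λ) :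
    ¬ RE N₀ M ξ N₁ ζ := by
  classical
  rintro ⟨I, ω, P, π, hπ', hsub, hexp⟩
  have hπ := emb0 hπ'
  obtain ⟨Cy, hCy⟩ := hπ.bdd _ (hM (γ x))
  have hCa : ∀ i : Fin n, ∃ C : ℝ, ∀ k, ‖π (U (γ (FreeGroup.of i))) k‖ ≤ C := fun i => hπ.bdd _ (hM _)
  choose Ca hCa using hCa
  set C : ℝ := ∑ i, |Ca i| with hC
  have hCi : ∀ i k, ‖π (U (γ (FreeGroup.of i))) k‖ ≤ C := fun i k =>
    (hCa i k).trans ((le_abs_self _).trans
      (single_le_sum (f := fun i => |Ca i|) (fun _ _ => abs_nonneg _) (mem_univ i)))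
  obtain ⟨Cz, hCz⟩ : ∃ Cz : ℝ, Cz = |Cy| + 1 := ⟨_, rfl⟩
  have hCz0 : 0 < Cz := by rw [hCz]; positivity
  have hz : ∀ k, ‖π (U (γ x)) k‖ ≤ Cz := fun k => (hCy k).trans (by rw [hCz]; linarith [le_abs_self Cy])
  obtain ⟨c0, hc0⟩ : ∃ c0 : ℝ, c0 = 1 / (1 + Cz ^ 2) := ⟨_, rfl⟩
  have hc00 : 0 < c0 := by rw [hc0]; positivity
  obtain ⟨s, hs⟩ : ∃ s : ℝ, s = c0 / (72 * Cz) := ⟨_, rfl⟩
  have hs0 : 0 < s := by rw [hs]; positivity
  have hsz : 18 * Cz * s = c0 / 4 := by
    rw [hs]; field_simp; norm_num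
  have hε : 0 < s ^ 2 := by positivity
  have hsq : √(s ^ 2) = s := Real.sqrt_sq hs0.le
  obtain ⟨δ, R, Sw, hδ, hR, hSw, hff⟩ := hFF (s ^ 2) hε
  obtain ⟨κ, hκ, hmain⟩ := hMAIN n R Sw x δ (s ^ 2) C hδ hε hff
  rw [hsq] at hmain
  have n1 : ∀ᶠ k in (ω : Filter I), ∀ i : Fin n,
      ‖(star (π (U (γ (FreeGroup.of i))) k) * π (U (γ (FreeGroup.of i))) k - 1) (P k).η‖ ≤ κ := by
    rw [eventually_all]
    exact fun i => null_ev (star_null hπ (hM _)) hκ
  have n2 : ∀ᶠ k in (ω : Filter I), ∀ w ∈ R, ‖(evL (fun i => π (U (γ (FreeGroup.of i))) k)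
      (fun i => star (π (U (γ (FreeGroup.of i))) k)) w - 1) (P k).η‖ ≤ κ := by
    rw [Filter.eventually_all_finset]
    intro w hw
    have h1 := word_null hπ U hM γ w
    rw [hR w hw, map_one] at h1
    have h2 := null_add h1 hπ.one
    have h3 := null_ev h2 hκ
    filter_upwards [h3] with k hk
    convert hk using 4
    simp
  have n3 : ∀ᶠ k in (ω : Filter I), ∀ w ∈ Sw, ∃ b ∈ (P k).TN, ‖(evL (fun i => π (U (γ (FreeGroup.of i))) k)
      (fun i => star (π (U (γ (FreeGroup.of i))) k)) w - b) (P k).η‖ ≤ κ := by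
    rw [Filter.eventually_all_finset]
    intro w hw
    have h1 := word_null hπ U hM γ w
    obtain ⟨y, -, hy1, hy2⟩ := hsub _ (hN₀ (γ w) (hSw w hw))
    have hy2' : Null P ω fun k => π (U (γ w)) k - y k := hy2
    have h2 := null_add h1 hy2'
    have h3 := null_ev h2 hκ
    filter_upwards [h3] with k hk
    refine ⟨y k, hy1 k, ?_⟩
    convert hk using 4
    simp
  have n4 : ∀ᶠ k in (ω : Filter I), ‖(evL (fun i => π (U (γ (FreeGroup.of i))) k)
      (fun i => star (π (U (γ (FreeGroup.of i))) k)) x - π (U (γ x)) k) (P k).η‖ ≤ s :=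
    null_ev (word_null hπ U hM γ x) hs0
  have hgood : ∀ᶠ k in (ω : Filter I), ∃ b₁ ∈ (P k).TN, ∃ b₂ ∈ (P k).TN, ‖b₁‖ ≤ 1 ∧ ‖b₂‖ ≤ 1 ∧
      2 / (1 + Cz ^ 2) * ‖π (U (γ x)) k (P k).η‖ ^ 2 ≤ ‖tr (P k).η (b₁ * π (U (γ x)) k)‖ +
        ‖tr (P k).η (b₂ * π (U (γ x)) k)‖ + 6 * Cz * (3 * s) := by
    filter_upwards [n1, n2, n3, n4] with k k1 k2 k3 k4
    obtain ⟨b, hb1, hb2⟩ := hmain L N₁ ζ Λ v hN hS (P k)
      (fun i => π (U (γ (FreeGroup.of i))) k) (fun i => hπ.mem _ (hM _) k) (fun i => hCi i k) k1 k2 k3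
    refine hTRU (P k).K (P k).T (P k).TN (P k).η (P k).tensor.tracial (TN_le (P k)) _ (hπ.mem _ (hM _) k) Cz
      (hz k) b hb1 (3 * s) ?_
    have e : π (U (γ x)) k - b = (evL (fun i => π (U (γ (FreeGroup.of i))) k)
      (fun i => star (π (U (γ (FreeGroup.of i))) k)) x - b) - (evL (fun i => π (U (γ (FreeGroup.of i))) k)
      (fun i => star (π (U (γ (FreeGroup.of i))) k)) x - π (U (γ x)) k) := by abel
    rw [e]
    have hb2' : ‖(evL (fun i => π (U (γ (FreeGroup.of i))) k)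
      (fun i => star (π (U (γ (FreeGroup.of i))) k)) x - b) (P k).η‖ ≤ 2 * s := hb2
    have h3 : ∀ X Y : Op (P k).K, ‖(X - Y) (P k).η‖ ≤ ‖X (P k).η‖ + ‖Y (P k).η‖ := fun X Y => norm_sub_le _ _
    refine (h3 _ _).trans ?_
    linarith
  have hall : ∀ k, ∃ b₁ ∈ (P k).TN, ∃ b₂ ∈ (P k).TN, ‖b₁‖ ≤ 1 ∧ ‖b₂‖ ≤ 1 ∧
      ((∃ b₁ ∈ (P k).TN, ∃ b₂ ∈ (P k).TN, ‖b₁‖ ≤ 1 ∧ ‖b₂‖ ≤ 1 ∧
        2 / (1 + Cz ^ 2) * ‖π (U (γ x)) k (P k).η‖ ^ 2 ≤ ‖tr (P k).η (b₁ * π (U (γ x)) k)‖ +
          ‖tr (P k).η (b₂ * π (U (γ x)) k)‖ + 6 * Cz * (3 * s)) →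
        2 / (1 + Cz ^ 2) * ‖π (U (γ x)) k (P k).η‖ ^ 2 ≤ ‖tr (P k).η (b₁ * π (U (γ x)) k)‖ +
          ‖tr (P k).η (b₂ * π (U (γ x)) k)‖ + 6 * Cz * (3 * s)) := by
    intro k
    by_cases hk : ∃ b₁ ∈ (P k).TN, ∃ b₂ ∈ (P k).TN, ‖b₁‖ ≤ 1 ∧ ‖b₂‖ ≤ 1 ∧
        2 / (1 + Cz ^ 2) * ‖π (U (γ x)) k (P k).η‖ ^ 2 ≤ ‖tr (P k).η (b₁ * π (U (γ x)) k)‖ +
          ‖tr (P k).η (b₂ * π (U (γ x)) k)‖ + 6 * Cz * (3 * s)
    · obtain ⟨b₁, h1, b₂, h2, h3, h4, h5⟩ := hk
      exact ⟨b₁, h1, b₂, h2, h3, h4, fun _ => h5⟩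
    · exact ⟨0, zero_mem (S := StarSubalgebra ℂ (Op (P k).K)) (P k).TN.toStarSubalgebra, 0,
        zero_mem (S := StarSubalgebra ℂ (Op (P k).K)) (P k).TN.toStarSubalgebra, by simp, by simp,
        fun h => absurd h hk⟩
  choose B1 hB1 B2 hB2 hn1 hn2 hB using hall
  -- the commuting square condition
  have hz0 : Null P ω (π 0) := by
    have h1 := hπ.smul 0 1 (mem_one M)
    simpa using h1
  have hsmall : ∀ B : ∀ k, Op (P k).K, (∀ k, B k ∈ (P k).TN) → (∀ k, ‖B k‖ ≤ 1) →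
      ∀ᶠ k in (ω : Filter I), ‖tr (P k).η (B k * π (U (γ x)) k)‖ ≤ c0 / 4 := by
    intro B hB hBn
    have h1 := hexp _ (hM (γ x)) 0 (zero_mem (S := StarSubalgebra ℂ (Op H)) N₀.toStarSubalgebra) (by
      intro b hb
      rw [sub_zero]
      exact hort _ hx b hb) B ⟨1, hBn⟩ hB
    have h2 : Tendsto (fun k => ‖tr (P k).η (B k * (π (U (γ x)) k - π 0 k))‖) ω (𝓝 0) := by
      simpa using h1.norm
    have h3 := Tendsto.add h2 hz0
    rw [add_zero] at h3
    have h4 : ∀ᶠ k in (ω : Filter I), ‖tr (P k).η (B k * (π (U (γ x)) k - π 0 k))‖ + ‖π 0 k (P k).η‖ ≤ c0 / 4 :=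
      h3.eventually (eventually_le_nhds (by positivity))
    filter_upwards [h4] with k hk
    have e : B k * π (U (γ x)) k = B k * (π (U (γ x)) k - π 0 k) + B k * π 0 k := by noncomm_ring
    rw [e, tr_add]
    refine (norm_add_le _ _).trans ?_
    have := norm_tr_le (P k).tensor.tracial.unit (B k) (π 0 k) (hBn k)
    linarith
  have hbig : ∀ᶠ k in (ω : Filter I), 1 / 2 ≤ ‖π (U (γ x)) k (P k).η‖ ^ 2 := by
    have h1 := null_ev (star_null hπ (hM (γ x))) (show (0 : ℝ) < 1 / 2 by norm_num)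
    filter_upwards [h1] with k hk
    have h2 := norm_tr_le (P k).tensor.tracial.unit 1 (star (π (U (γ x)) k) * π (U (γ x)) k - 1)
      (by rw [show (1 : Op (P k).K) = ContinuousLinearMap.id ℂ _ from rfl]; exact ContinuousLinearMap.norm_id_le)
    rw [one_mul] at h2
    have h3 : tr (P k).η (star (π (U (γ x)) k) * π (U (γ x)) k - 1) =
        ((‖π (U (γ x)) k (P k).η‖ ^ 2 - 1 : ℝ) : ℂ) := by
      rw [sub_eq_add_neg, tr_add, tr_star_mul, ← neg_one_smul ℂ (1 : Op (P k).K), tr_smul,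
        Hyp.tr_one (P k).tensor.tracial.unit]
      push_cast
      ring
    rw [h3, Complex.norm_real] at h2
    have h4 := (abs_le.1 (h2.trans hk)).1
    linarith
  obtain ⟨k, g1, g2, g3, g4⟩ := (hgood.and ((hsmall B1 hB1 hn1).and ((hsmall B2 hB2 hn2).and hbig))).exists
  have g5 := hB k g1
  have g6 : 2 / (1 + Cz ^ 2) = 2 * c0 := by rw [hc0]; ring
  rw [g6] at g5
  have g7 : 6 * Cz * (3 * s) = c0 / 4 := by rw [← hsz]; ring
  rw [g7] at g5
  nlinarith

end

end Pool.Agent.Helper47.CA
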