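import Pool.Agent.Helper47.CA.Stm

/-!
# The group `(⊕_ℤ Γ) ⋊ ℤ` and its co-amenable subgroup
-/

set_option autoImplicit false

open Filter Topology Finset

namespace Pool.Agent.Helper47.CA

namespace Grp

/-! ### The mean -/

section mean

variable {G : Type} [Group G] {S : Subgroup G}

/-- the averages -/
noncomputable def av (c : ℤ → G ⧸ S) (F : G ⧸ S → ℝ) (n : ℕ) : ℝ :=
  (∑ k ∈ range (n + 1), F (c k)) / ((n : ℝ) + 1)

/-- the mean -/
noncomputable def mn (c : ℤ → G ⧸ S) (F : G ⧸ S → ℝ) : ℝ :=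
  limUnder (hyperfilter ℕ : Filter ℕ) (av c F)

theorem bd_of {X : Type} {F : X → ℝ} (h : BddAbove (Set.range |F|)) : ∃ C : ℝ, 0 ≤ C ∧ ∀ x, |F x| ≤ C := by
  obtain ⟨C, hC⟩ := h
  exact ⟨max C 0, le_max_right _ _, fun x => (hC ⟨x, rfl⟩).trans (le_max_left _ _)⟩

theorem bd_to {X : Type} {F : X → ℝ} {C : ℝ} (h : ∀ x, |F x| ≤ C) : BddAbove (Set.range |F|) :=
  ⟨C, by rintro _ ⟨x, rfl⟩; exact h x⟩

theorem tends {c : ℤ → G ⧸ S} {F : G ⧸ S → ℝ} (h : BddAbove (Set.range |F|)) :
    Tendsto (av c F) (hyperfilter ℕ : Filter ℕ) (𝓝 (mn c F)) := by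
  obtain ⟨C, hC0, hC⟩ := bd_of h
  have h1 : ∀ n, av c F n ∈ Set.Icc (-C) C := by
    intro n
    have h2 : |∑ k ∈ range (n + 1), F (c k)| ≤ C * ((n : ℝ) + 1) := by
      refine (abs_sum_le_sum_abs _ _).trans ?_
      have h0 : ∀ k ∈ range (n + 1), |F (c (k : ℤ))| ≤ C := fun k _ => hC _
      refine (sum_le_sum h0).trans (le_of_eq ?_)
      rw [sum_const, card_range, nsmul_eq_mul]
      push_cast
      ring
    have h3 : |av c F n| ≤ C := by
      unfold av
      rw [abs_div, abs_of_pos (by positivity : (0 : ℝ) < (n : ℝ) + 1), div_le_iff₀ (by positivity)]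
      exact h2
    exact abs_le.1 h3
  have h2 : ((hyperfilter ℕ).map (av c F) : Filter ℝ) ≤ 𝓟 (Set.Icc (-C) C) := by
    rw [le_principal_iff]
    show av c F ⁻¹' Set.Icc (-C) C ∈ (hyperfilter ℕ : Filter ℕ)
    exact Filter.univ_mem' h1
  obtain ⟨x, -, hx⟩ := isCompact_Icc.ultrafilter_le_nhds _ h2
  exact tendsto_nhds_limUnder ⟨x, hx⟩

theorem mn_eq {c : ℤ → G ⧸ S} {F : G ⧸ S → ℝ} {x : ℝ}
    (h : Tendsto (av c F) (hyperfilter ℕ : Filter ℕ) (𝓝 x)) : mn c F = x := h.limUnder_eq

theorem smul_bd {F : G ⧸ S → ℝ} (h : BddAbove (Set.range |F|)) (g : G) :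
    BddAbove (Set.range |fun x => F (g • x)|) := by
  obtain ⟨C, hC0, hC⟩ := bd_of h
  exact bd_to fun x => hC _

/-- a bounded difference of the sums -/
theorem mn_inv {c : ℤ → G ⧸ S} {F : G ⧸ S → ℝ} (h : BddAbove (Set.range |F|)) (g : G) (B : ℝ)
    (hB : ∀ n : ℕ, |∑ k ∈ range (n + 1), (F (g • c k) - F (c k))| ≤ B) :
    mn c (fun x => F (g • x)) = mn c F := by
  apply mn_eq
  have h1 : Tendsto (fun n : ℕ => (∑ k ∈ range (n + 1), (F (g • c k) - F (c k))) / ((n : ℝ) + 1))
      atTop (𝓝 0) := by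
    have h2 : Tendsto (fun n : ℕ => B / ((n : ℝ) + 1)) atTop (𝓝 0) :=
      tendsto_const_nhds.div_atTop (tendsto_atTop_add_const_right _ _ tendsto_natCast_atTop_atTop)
    refine squeeze_zero_norm (fun n => ?_) h2
    rw [Real.norm_eq_abs, abs_div, abs_of_pos (by positivity : (0 : ℝ) < (n : ℝ) + 1)]
    exact div_le_div_of_nonneg_right (hB n) (by positivity)
  have h3 := h1.mono_left Nat.hyperfilter_le_atTop
  have h4 := h3.add (tends (c := c) h)
  rw [zero_add] at h4
  refine h4.congr fun n => ?_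
  unfold av
  rw [← add_div, sum_sub_distrib, sub_add_cancel]

theorem coam (c : ℤ → G ⧸ S) (t : G) (X : Set G) (ht : ∀ k : ℤ, t • c k = c (k - 1))
    (hX : ∀ x ∈ X, ∃ k₀ : ℕ, ∀ k : ℕ, k₀ ≤ k → x • c k = c k)
    (hgen : ∀ g, g ∈ Subgroup.closure (insert t X)) : CoAmenable S := by
  refine ⟨mn c, ?_, ?_, ?_, ?_, ?_⟩
  · apply mn_eq
    have : av c (1 : G ⧸ S → ℝ) = fun _ => 1 := by
      funext n
      unfold av
      have : (∑ k ∈ range (n + 1), (1 : G ⧸ S → ℝ) (c k)) = (n : ℝ) + 1 := by
        simp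
      rw [this, div_self (by positivity)]
    rw [this]
    exact tendsto_const_nhds
  · intro f g hf hg
    apply mn_eq
    refine ((tends (c := c) hf).add (tends (c := c) hg)).congr fun n => ?_
    unfold av
    rw [← add_div, ← sum_add_distrib]
    rfl
  · intro a f hf
    apply mn_eq
    refine ((tends (c := c) hf).const_mul a).congr fun n => ?_
    unfold av
    rw [← mul_div_assoc, mul_sum]
    rfl
  · intro f hf h0
    refine ge_of_tendsto (tends (c := c) hf) (Filter.Eventually.of_forall fun n => ?_)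
    unfold av
    exact div_nonneg (sum_nonneg fun k _ => h0 _) (by positivity)
  · intro g
    refine Subgroup.closure_induction (p := fun g _ => ∀ f : G ⧸ S → ℝ, BddAbove (Set.range |f|) →
      mn c (fun x => f (g • x)) = mn c f) ?_ ?_ ?_ ?_ (hgen g)
    · intro x hx f hf
      obtain ⟨C, hC0, hC⟩ := bd_of hf
      rcases Set.mem_insert_iff.1 hx with rfl | hx
      · refine mn_inv hf x (2 * C) fun n => ?_
        have h1 : ∑ k ∈ range (n + 1), (f (x • c k) - f (c k)) = f (c (-1)) - f (c n) := by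
          induction n with
          | zero =>
            rw [sum_range_one, ht]
            norm_num
          | succ n ih =>
            rw [sum_range_succ, ih, ht]
            have : (((n + 1 : ℕ) : ℤ) - 1) = (n : ℤ) := by push_cast; ring
            rw [this]
            ring
        rw [h1]
        have h2 := abs_le.1 (hC (c (-1)))
        have h3 := abs_le.1 (hC (c n))
        rw [abs_le]
        constructor <;> linarith
      · obtain ⟨k₀, hk₀⟩ := hX x hx
        refine mn_inv hf x (k₀ * (2 * C)) fun n => ?_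
        refine (abs_sum_le_sum_abs _ _).trans ?_
        have h1 : ∀ k ∈ range (n + 1), |f (x • c k) - f (c k)| ≤ if k < k₀ then 2 * C else 0 := by
          intro k _
          split_ifs with hk
          · have h2 := abs_le.1 (hC (x • c k))
            have h3 := abs_le.1 (hC (c k))
            rw [abs_le]
            constructor <;> linarith
          · rw [hk₀ k (by omega), sub_self, abs_zero]
        refine (sum_le_sum h1).trans ?_
        rw [← sum_filter, sum_const, nsmul_eq_mul]
        apply mul_le_mul_of_nonneg_right _ (by linarith)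
        have h4 : (range (n + 1)).filter (fun k => k < k₀) ⊆ range k₀ := by
          intro k hk
          exact mem_range.2 (mem_filter.1 hk).2
        have h5 := card_le_card h4
        rw [card_range] at h5
        exact_mod_cast h5
    · intro f hf
      simp only [one_smul]
    · intro x y _ _ hx hy f hf
      have h1 := hy (fun z => f (x • z)) (smul_bd hf x)
      have h2 := hx f hf
      simp only [smul_smul] at h1
      rw [h1, h2]
    · intro x _ hx f hf
      have h1 := hx (fun z => f (x⁻¹ • z)) (smul_bd hf x⁻¹)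
      simp only [inv_smul_smul] at h1
      exact h1.symm

end mean

/-! ### The group -/

section grp

variable (Γ : Type) [Group Γ]

/-- finitely supported functions -/
def NN : Subgroup (ℤ → Γ) where
  carrier := {f | {n | f n ≠ 1}.Finite}
  one_mem' := by simp
  mul_mem' := by
    intro a b ha hb
    refine (ha.union hb).subset ?_
    intro n hn
    by_contra h
    rw [Set.mem_union, not_or] at h
    have h1 : a n = 1 := not_not.1 h.1
    have h2 : b n = 1 := not_not.1 h.2
    exact hn (by show a n * b n = 1; rw [h1, h2, one_mul])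
  inv_mem' := by
    intro a ha
    refine ha.subset ?_
    intro n hn h
    exact hn (by show (a n)⁻¹ = 1; rw [h, inv_one])

/-- the shift -/
def sh (k : ℤ) : MulAut (NN Γ) where
  toFun f := ⟨fun n => f.1 (n - k), (f.2 : {n | f.1 n ≠ 1}.Finite).preimage
    (f := fun n => n - k) (sub_left_injective.injOn)⟩
  invFun f := ⟨fun n => f.1 (n + k), (f.2 : {n | f.1 n ≠ 1}.Finite).preimage
    (f := fun n => n + k) ((add_left_injective k).injOn)⟩
  left_inv f := by
    apply Subtype.ext
    funext n
    show f.1 (n + k - k) = f.1 n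
    rw [add_sub_cancel_right]
  right_inv f := by
    apply Subtype.ext
    funext n
    show f.1 (n - k + k) = f.1 n
    rw [sub_add_cancel]
  map_mul' f g := rfl

/-- the action of `ℤ` -/
def ac : Multiplicative ℤ →* MulAut (NN Γ) where
  toFun k := sh Γ k.toAdd
  map_one' := by
    ext f n
    show f.1 (n - 0) = f.1 n
    rw [sub_zero]
  map_mul' a b := by
    ext f n
    show f.1 (n - (a.toAdd + b.toAdd)) = f.1 (n - a.toAdd - b.toAdd)
    rw [sub_sub]

/-- the group -/
abbrev GG : Type := NN Γ ⋊[ac Γ] Multiplicative ℤ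

/-- the subgroup of `⊕ Γ` -/
def SN (K : Subgroup Γ) : Subgroup (NN Γ) where
  carrier := {f | (∀ n : ℤ, n < 0 → f.1 n = 1) ∧ f.1 0 ∈ K}
  one_mem' := ⟨fun n _ => rfl, K.one_mem⟩
  mul_mem' := by
    rintro a b ⟨h1, h2⟩ ⟨h3, h4⟩
    refine ⟨fun n hn => ?_, K.mul_mem h2 h4⟩
    show a.1 n * b.1 n = 1
    rw [h1 n hn, h3 n hn, one_mul]
  inv_mem' := by
    rintro a ⟨h1, h2⟩
    refine ⟨fun n hn => ?_, K.inv_mem h2⟩
    show (a.1 n)⁻¹ = 1
    rw [h1 n hn, inv_one]

/-- the subgroup -/
def SS (K : Subgroup Γ) : Subgroup (GG Γ) := (SN Γ K).map SemidirectProduct.inl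

/-- the embedding at the place `0` -/
def em : Γ →* NN Γ where
  toFun y := ⟨fun n => if n = 0 then y else 1, by
    refine (Set.finite_singleton (0 : ℤ)).subset ?_
    intro n hn
    by_contra h
    exact hn (if_neg (fun h' => h (Set.mem_singleton_iff.2 h')))⟩
  map_one' := by
    apply Subtype.ext
    funext n
    show (if n = 0 then (1 : Γ) else 1) = 1
    split_ifs <;> rfl
  map_mul' a b := by
    apply Subtype.ext
    funext n
    show (if n = 0 then a * b else (1 : Γ)) = (if n = 0 then a else 1) * (if n = 0 then b else 1)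
    split_ifs
    · rfl
    · rw [one_mul]

variable {Γ}

theorem rfin_of {H : Type} [Group H] (ψ : H →* (ℤ → Γ)) (hψ : Function.Injective ψ)
    (hf : ∀ h, {n | ψ h n ≠ 1}.Finite) (hΓ : RFin Γ) : RFin H := by
  classical
  intro T
  obtain ⟨J, hJ⟩ : ∃ J : Finset ℤ, ∀ h ∈ T, ∀ n, ψ h n ≠ 1 → n ∈ J := by
    refine ⟨T.biUnion fun h => (hf h).toFinset, fun h hh n hn => ?_⟩
    exact mem_biUnion.2 ⟨h, hh, (Set.Finite.mem_toFinset _).2 hn⟩
  obtain ⟨Q, _, _, f, hfQ⟩ := hΓ ((T ×ˢ J).image fun z => ψ z.1 z.2)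
  refine ⟨J → Q, inferInstance, inferInstance,
    { toFun := fun h j => f (ψ h j)
      map_one' := by
        funext j
        show f (ψ 1 j) = 1
        rw [map_one]
        exact map_one f
      map_mul' := fun a b => by
        funext j
        show f (ψ (a * b) j) = f (ψ a j) * f (ψ b j)
        rw [map_mul]
        exact map_mul f _ _ }, ?_⟩
  intro a ha b hb hab
  apply hψ
  funext n
  by_cases hn : n ∈ J
  · apply hfQ
    · exact mem_coe.2 (mem_image.2 ⟨(a, n), mem_product.2 ⟨ha, hn⟩, rfl⟩)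
    · exact mem_coe.2 (mem_image.2 ⟨(b, n), mem_product.2 ⟨hb, hn⟩, rfl⟩)
    · exact congrFun hab ⟨n, hn⟩
  · have h1 : ψ a n = 1 := by
      by_contra h
      exact hn (hJ a ha n h)
    have h2 : ψ b n = 1 := by
      by_contra h
      exact hn (hJ b hb n h)
    rw [h1, h2]

theorem countable_GG [Countable Γ] : Countable (GG Γ) := by
  have h1 : Countable (NN Γ) := by
    have h0 : Countable (Additive Γ) := inferInstanceAs (Countable Γ)
    have h2 : Function.Injective (fun f : NN Γ => (Finsupp.ofSupportFinite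
        (fun n => Additive.ofMul (f.1 n)) (f.2 : {n | f.1 n ≠ 1}.Finite) : ℤ →₀ Additive Γ)) := by
      intro f g h
      apply Subtype.ext
      funext n
      have := DFunLike.congr_fun h n
      exact this
    exact h2.countable
  have h3 : Function.Injective (fun g : GG Γ => (g.left, g.right)) := by
    intro a b h
    exact SemidirectProduct.ext (congrArg Prod.fst h) (congrArg Prod.snd h)
  have h4 : Countable (Multiplicative ℤ) := inferInstanceAs (Countable ℤ)
  exact h3.countable

/-- the generator -/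
def tt : GG Γ := SemidirectProduct.inr (Multiplicative.ofAdd (1 : ℤ))

theorem tt_zpow (k : ℤ) : (tt : GG Γ) ^ k = SemidirectProduct.inr (Multiplicative.ofAdd k) := by
  unfold tt
  rw [← map_zpow, ← ofAdd_zsmul, smul_eq_mul, mul_one]

theorem conj_tt (x : NN Γ) (k : ℤ) : (tt : GG Γ) ^ k * SemidirectProduct.inl x * (tt ^ k)⁻¹ =
    SemidirectProduct.inl (sh Γ k x) := by
  rw [tt_zpow, ← map_inv, ← SemidirectProduct.inl_aut]
  rfl

end grp

end Grp

open Grp in
theorem grp : S_GRP := by
  intro Γ _ K hc hR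
  refine ⟨GG Γ, inferInstance, SS Γ K, SemidirectProduct.inl.comp (em Γ), countable_GG, ?_, ?_, ?_, ?_⟩
  · refine coam (fun k : ℤ => (((tt : GG Γ) ^ (-k) : GG Γ) : GG Γ ⧸ SS Γ K)) tt
      (Set.range (SemidirectProduct.inl : NN Γ →* GG Γ)) ?_ ?_ ?_
    · intro k
      show (((tt : GG Γ) * tt ^ (-k) : GG Γ) : GG Γ ⧸ SS Γ K) = _
      congr 1
      rw [← zpow_one_add]
      congr 1
      ring
    · rintro _ ⟨x, rfl⟩
      obtain ⟨B, hB⟩ : ∃ B : ℕ, ∀ n : ℤ, x.1 n ≠ 1 → -(B : ℤ) < n := by
        obtain ⟨b, hb⟩ := (x.2 : {n | x.1 n ≠ 1}.Finite).bddBelow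
        refine ⟨(1 - b).toNat, fun n hn => ?_⟩
        have h1 := hb hn
        have h2 := Int.self_le_toNat (1 - b)
        omega
      refine ⟨B, fun k hk => ?_⟩
      show ((SemidirectProduct.inl x * tt ^ (-(k : ℤ)) : GG Γ) : GG Γ ⧸ SS Γ K) = _
      rw [QuotientGroup.eq]
      have h1 : (SemidirectProduct.inl x * tt ^ (-(k : ℤ)) : GG Γ)⁻¹ * tt ^ (-(k : ℤ)) =
          tt ^ (k : ℤ) * SemidirectProduct.inl x⁻¹ * (tt ^ (k : ℤ))⁻¹ := by
        rw [mul_inv_rev, zpow_neg, inv_inv, ← map_inv]
      rw [h1, conj_tt]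
      refine Subgroup.mem_map_of_mem _ ⟨fun n hn => ?_, ?_⟩
      · show (x.1 (n - k))⁻¹ = 1
        have : x.1 (n - k) = 1 := by
          by_contra h
          have := hB _ h
          omega
        rw [this, inv_one]
      · show (x.1 (0 - k))⁻¹ ∈ K
        have : x.1 (0 - k) = 1 := by
          by_contra h
          have := hB _ h
          omega
        rw [this, inv_one]
        exact K.one_mem
    · intro g
      have h1 : g = SemidirectProduct.inl g.left * SemidirectProduct.inr g.right :=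
        (SemidirectProduct.inl_left_mul_inr_right g).symm
      rw [h1]
      refine mul_mem (Subgroup.subset_closure (Set.mem_insert_of_mem _ ⟨_, rfl⟩)) ?_
      have h2 : (SemidirectProduct.inr g.right : GG Γ) = tt ^ (g.right.toAdd) := by
        rw [tt_zpow]
        rfl
      rw [h2]
      exact zpow_mem (Subgroup.subset_closure (Set.mem_insert _ _)) _
  · let e := (SN Γ K).equivMapOfInjective (SemidirectProduct.inl : NN Γ →* GG Γ)
      SemidirectProduct.inl_injective
    refine rfin_of (H := SS Γ K) (((NN Γ).subtype.comp (SN Γ K).subtype).comp e.symm.toMonoidHom) ?_ ?_ hR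
    · exact (Subtype.val_injective.comp Subtype.val_injective).comp e.symm.injective
    · intro h
      exact (e.symm h).1.2
  · intro k hk
    refine Subgroup.mem_map_of_mem _ ⟨fun n hn => ?_, ?_⟩
    · exact if_neg hn.ne
    · show (if (0 : ℤ) = 0 then k else 1) ∈ K
      rw [if_pos rfl]
      exact hk
  · intro y hy
    have h1 := (Subgroup.mem_map_iff_mem (SemidirectProduct.inl_injective)).1 hy
    have h2 : (if (0 : ℤ) = 0 then y else 1) ∈ K := h1.2
    rwa [if_pos rfl] at h2

end Pool.Agent.Helper47.CA
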