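import Pool.Agent.Helper47.CA.Gv

/-!
# The group von Neumann algebra as a crossed product: the final form
-/

set_option autoImplicit false

open scoped InnerProductSpace

namespace Pool.Agent.Helper47.CA

open Pool.Agent.N557.QWX (Op tr IsTracial IsHom)
open Pool.Agent.N859.QW (vN Aut L2)

noncomputable section

variable {G : Type} [Group G]

theorem crossProd_eq (S : Subgroup G) : crossProd Gv.NC (fun _ x => x) S = crossedSub Gv.NC (1 : G →* Aut Gv.NC) S := by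
  unfold crossProd crossedSub
  congr 2
  ext T
  constructor
  · rintro ⟨x, hx, h⟩
    exact ⟨⟨x, hx⟩, fun ζ g => h ζ g⟩
  · rintro ⟨x, h⟩
    exact ⟨x, x.2, fun ζ g => h ζ g⟩

theorem isAction_triv : IsAction Gv.NC (1 : ℂ) (fun (_ : G) x => x) :=
  ⟨fun _ => ⟨fun _ h => h, rfl, fun _ _ _ _ => rfl, fun _ _ _ => rfl, fun _ _ _ _ => rfl, fun _ _ => rfl⟩,
    fun _ _ => rfl, fun _ _ _ _ => rfl, fun _ _ _ => rfl⟩

theorem nc_tracial : IsTracial Gv.NC (1 : ℂ) := by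
  refine ⟨norm_one, fun x _ y _ => by rw [Gv.comm_c], ?_⟩
  intro x _ h0
  rw [tr_star_mul] at h0
  have h4 : ‖x (1 : ℂ)‖ ^ 2 = 0 := by exact_mod_cast h0
  have h5 : x (1 : ℂ) = 0 := norm_eq_zero.1 (pow_eq_zero_iff two_ne_zero |>.1 h4)
  ext
  exact h5

/-- the group von Neumann algebra -/
theorem gvp (G : Type) [Group G] : IsTracial (crossProd Gv.NC (fun _ x => x) (⊤ : Subgroup G)) (vec G (1 : ℂ)) ∧
    ∃ u : G →* unitary (Op (L2 G ℂ)),
      (∀ (S : Subgroup G), ∀ h ∈ S, (u h : Op (L2 G ℂ)) ∈ crossProd Gv.NC (fun _ x => x) S) ∧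
      (∀ (S : Subgroup G) (V : VonNeumannAlgebra (L2 G ℂ)), (∀ h ∈ S, (u h : Op (L2 G ℂ)) ∈ V) →
        crossProd Gv.NC (fun _ x => x) S ≤ V) ∧
      (∀ g, g ≠ 1 → tr (vec G (1 : ℂ)) (u g : Op (L2 G ℂ)) = 0) ∧
      ∀ (S : Subgroup G) (y : G), y ∉ S → ∀ b ∈ crossProd Gv.NC (fun _ x => x) S,
        tr (vec G (1 : ℂ)) (b * (u y : Op (L2 G ℂ))) = 0 := by
  simp only [crossProd_eq]
  exact gv_al G

end

end Pool.Agent.Helper47.CA
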