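import Pool.Agent.Helper47.CA.Stm
import Pool.Graph.R_pool_sql_team_seeded_63374d34.N896.QWP.CAB

/-!
# KAP: Kaplansky's density theorem with elements of the group algebra
-/

set_option autoImplicit false

open scoped InnerProductSpace ComplexOrder
open Filter Topology Matrix

namespace Pool.Agent.Helper47.CA.Kap

open Pool.Agent.N557.QWX (Op tr IsTracial IsHom)
open Pool.Agent.W661.RC (hs Le)
open Pool.Agent.N557.QW (fa S_CA S_CB)
open Pool.Agent.N896.QWP (ff cont_ff fa_eq abs_ff_le t_ca t_cb inverse_eq norm_inverse cont_inv)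

noncomputable section

section tracial

variable {K : Type} [NormedAddCommGroup K] [InnerProductSpace ℂ K] [CompleteSpace K]

theorem kap_sq (η : K) (x : Op K) : (‖x η‖ ^ 2 : ℝ) = (tr η (star x * x)).re := by
  unfold tr
  rw [ContinuousLinearMap.star_eq_adjoint]
  change _ = (⟪η, ContinuousLinearMap.adjoint x (x η)⟫_ℂ).re
  rw [ContinuousLinearMap.adjoint_inner_right, inner_self_eq_norm_sq_to_K]
  norm_cast

theorem kap_star {T : VonNeumannAlgebra K} {η : K} (h : IsTracial T η) {x : Op K} (hx : x ∈ T) :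
    ‖(star x) η‖ = ‖x η‖ := by
  have h1 := kap_sq η x
  have h2 := kap_sq η (star x)
  rw [star_star, ← h.tracial _ (star_mem hx) _ hx, ← h1] at h2
  have h3 := (sq_eq_sq₀ (norm_nonneg _) (norm_nonneg _)).mp h2
  exact h3

theorem kap_mul {T : VonNeumannAlgebra K} {η : K} (h : IsTracial T η) {x z : Op K} (hx : x ∈ T)
    (hz : z ∈ T) : ‖x (z η)‖ ≤ ‖z‖ * ‖x η‖ := by
  have h1 : ‖(star (x * z)) η‖ = ‖(x * z) η‖ := kap_star h (mul_mem hx hz)
  have h2 : ‖x (z η)‖ = ‖(star z) ((star x) η)‖ := by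
    rw [show x (z η) = (x * z) η from rfl, ← h1, star_mul]
    rfl
  rw [h2]
  calc ‖(star z) ((star x) η)‖ ≤ ‖star z‖ * ‖(star x) η‖ := (star z).le_opNorm _
    _ = ‖z‖ * ‖x η‖ := by rw [norm_star, kap_star h hx]

theorem kap_in {T : VonNeumannAlgebra K} {x : Op K} (h : ∀ t ∈ T.commutant, t * x = x * t) :
    x ∈ T := by
  rw [← T.commutant_commutant, VonNeumannAlgebra.mem_commutant_iff]
  exact h

theorem kap_inv_mem {T : VonNeumannAlgebra K} {z : Op K} (hz : z ∈ T) (hsa : star z = z) :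
    Ring.inverse (1 + z * z) ∈ T := by
  apply kap_in
  intro t ht
  rw [VonNeumannAlgebra.mem_commutant_iff] at ht
  have h1 : Commute z t := ht z hz
  rw [inverse_eq z hsa]
  exact (h1.cfc_real (fun t : ℝ => (1 + t * t)⁻¹)).symm

theorem kap_fa_mem {T : VonNeumannAlgebra K} {z : Op K} (hz : z ∈ T) (hsa : star z = z) :
    fa z ∈ T := by
  apply kap_in
  intro t ht
  rw [VonNeumannAlgebra.mem_commutant_iff] at ht
  have h1 : Commute z t := ht z hz
  rw [fa_eq z hsa]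
  exact (h1.cfc_real ff).symm

theorem kap_cb {T : VonNeumannAlgebra K} {η : K} (h : IsTracial T η) {a z : Op K} (ha : a ∈ T)
    (hz : z ∈ T) (hsa : star a = a) (hsz : star z = z) :
    ‖(fa a - fa z) η‖ ≤ 3 * ‖(a - z) η‖ := by
  have h1 := t_cb K a z η hsa hsz
  have h2 : ‖(a - z) (Ring.inverse (1 + z * z) η)‖ ≤ 1 * ‖(a - z) η‖ :=
    (kap_mul h (sub_mem ha hz) (kap_inv_mem hz hsz)).trans
      (mul_le_mul_of_nonneg_right (norm_inverse z hsz) (norm_nonneg _))
  have h3 : ‖(a - z) (fa z η)‖ ≤ 1 * ‖(a - z) η‖ :=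
    (kap_mul h (sub_mem ha hz) (kap_fa_mem hz hsz)).trans
      (mul_le_mul_of_nonneg_right ((t_ca K).1 z hsz).2.2.2 (norm_nonneg _))
  linarith

end tracial

section poly

/-- Polynomials which are bounded by one on an interval and close to `ff`. -/
theorem kap_poly (R ε : ℝ) (hε : 0 < ε) : ∃ p : Polynomial ℝ,
    (∀ t, |t| ≤ R → |p.eval t| ≤ 1) ∧ ∀ t, |t| ≤ R → |p.eval t - ff t| ≤ ε := by
  obtain ⟨q, hq⟩ := exists_polynomial_near_of_continuousOn (-R) R ff cont_ff.continuousOn (ε / 2)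
    (by positivity)
  have h1 : (0 : ℝ) < 1 + ε / 2 := by positivity
  refine ⟨Polynomial.C ((1 + ε / 2)⁻¹) * q, ?_, ?_⟩
  · intro t ht
    have h2 := hq t (abs_le.mp ht)
    have h3 := abs_ff_le t
    rw [Polynomial.eval_mul, Polynomial.eval_C, abs_mul, abs_of_pos (inv_pos.mpr h1),
      inv_mul_le_iff₀ h1, mul_one]
    have h4 : |q.eval t| ≤ |q.eval t - ff t| + |ff t| := by
      have := abs_add_le (q.eval t - ff t) (ff t)
      rwa [sub_add_cancel] at this
    linarith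
  · intro t ht
    have h2 := hq t (abs_le.mp ht)
    have h3 := abs_ff_le t
    rw [Polynomial.eval_mul, Polynomial.eval_C]
    have h4 : (1 + ε / 2)⁻¹ * q.eval t - ff t
        = (1 + ε / 2)⁻¹ * ((q.eval t - ff t) - (ε / 2) * ff t) := by
      field_simp
      ring
    rw [h4, abs_mul, abs_of_pos (inv_pos.mpr h1), inv_mul_le_iff₀ h1]
    have h5 : |q.eval t - ff t - ε / 2 * ff t| ≤ |q.eval t - ff t| + |ε / 2 * ff t| := abs_sub _ _
    have h6 : |ε / 2 * ff t| ≤ ε / 2 := by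
      rw [abs_mul, abs_of_pos (by positivity : (0 : ℝ) < ε / 2)]
      calc ε / 2 * |ff t| ≤ ε / 2 * 1 := mul_le_mul_of_nonneg_left h3 (by positivity)
        _ = ε / 2 := mul_one _
    have h7 : ε ≤ (1 + ε / 2) * ε := by nlinarith
    linarith

variable {K : Type} [NormedAddCommGroup K] [InnerProductSpace ℂ K] [CompleteSpace K]

theorem kap_spec {a : Op K} {t : ℝ} {R : ℝ} (ha : ‖a‖ ≤ R) (ht : t ∈ spectrum ℝ a) : |t| ≤ R := by
  have h2 := spectrum.norm_le_norm_mul_of_mem ht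
  have h3 : ‖(1 : Op K)‖ ≤ 1 := ContinuousLinearMap.norm_id_le
  calc |t| ≤ ‖a‖ * ‖(1 : Op K)‖ := h2
    _ ≤ ‖a‖ * 1 := mul_le_mul_of_nonneg_left h3 (norm_nonneg _)
    _ = ‖a‖ := mul_one _
    _ ≤ R := ha

theorem kap_norm_poly {a : Op K} (hsa : IsSelfAdjoint a) {R : ℝ} (ha : ‖a‖ ≤ R) (p : Polynomial ℝ)
    (hp : ∀ t, |t| ≤ R → |p.eval t| ≤ 1) : ‖Polynomial.aeval a p‖ ≤ 1 := by
  rw [← cfc_polynomial p a hsa]
  apply norm_cfc_le zero_le_one
  intro t ht
  exact hp t (kap_spec ha ht)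

theorem kap_dist_poly {a : Op K} (hsa : IsSelfAdjoint a) {R : ℝ} (ha : ‖a‖ ≤ R) (p : Polynomial ℝ)
    {ε : ℝ} (hε : 0 < ε) (hp : ∀ t, |t| ≤ R → |p.eval t - ff t| ≤ ε) :
    ‖Polynomial.aeval a p - fa a‖ ≤ ε := by
  rw [← cfc_polynomial p a hsa, fa_eq a hsa, ← cfc_sub _ _ a p.continuous.continuousOn
    cont_ff.continuousOn]
  apply norm_cfc_le hε.le
  intro t ht
  exact hp t (kap_spec ha ht)

end poly

section alg

variable {Γ : Type} [Group Γ]

/-- The star of the group algebra. -/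
def gst (c : MonoidAlgebra ℂ Γ) : MonoidAlgebra ℂ Γ :=
  c.coeff.sum fun g z => MonoidAlgebra.single g⁻¹ ((starRingEnd ℂ) z)

/-- The `ℓ¹`-norm. -/
def l1 (c : MonoidAlgebra ℂ Γ) : ℝ := c.coeff.sum fun _ z => ‖z‖

variable {K : Type} [NormedAddCommGroup K] [InnerProductSpace ℂ K] [CompleteSpace K]

theorem opr_apply (θ : Γ →* unitary (Op K)) (c : MonoidAlgebra ℂ Γ) :
    opr θ c = c.coeff.sum fun g z => z • (θ g : Op K) := by
  unfold opr
  rw [MonoidAlgebra.lift_apply]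
  rfl

theorem opr_single (θ : Γ →* unitary (Op K)) (g : Γ) (z : ℂ) :
    opr θ (MonoidAlgebra.single g z) = z • (θ g : Op K) := by
  unfold opr
  rw [MonoidAlgebra.lift_single]
  rfl

theorem opr_gst (θ : Γ →* unitary (Op K)) (c : MonoidAlgebra ℂ Γ) :
    opr θ (gst c) = star (opr θ c) := by
  rw [opr_apply θ c]
  unfold gst
  rw [Finsupp.sum, Finsupp.sum, map_sum, star_sum]
  refine Finset.sum_congr rfl fun g _ => ?_
  rw [opr_single, star_smul, map_inv]
  rfl

theorem unitary_norm_le (u : unitary (Op K)) : ‖(u : Op K)‖ ≤ 1 := by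
  rcases subsingleton_or_nontrivial K with h | h
  · have : (u : Op K) = 0 := Subsingleton.elim _ _
    rw [this, norm_zero]
    exact zero_le_one
  · exact (CStarRing.norm_coe_unitary u).le

theorem opr_norm (θ : Γ →* unitary (Op K)) (c : MonoidAlgebra ℂ Γ) : ‖opr θ c‖ ≤ l1 c := by
  rw [opr_apply θ c]
  unfold l1
  rw [Finsupp.sum, Finsupp.sum]
  refine (norm_sum_le _ _).trans (Finset.sum_le_sum fun g _ => ?_)
  rw [norm_smul]
  calc _ ≤ ‖c.coeff g‖ * 1 := mul_le_mul_of_nonneg_left (unitary_norm_le _) (norm_nonneg _)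
    _ = _ := mul_one _

theorem opr_mem {T : VonNeumannAlgebra K} (θ : Γ →* unitary (Op K)) (hθ : ∀ g, (θ g : Op K) ∈ T)
    (c : MonoidAlgebra ℂ Γ) : opr θ c ∈ T := by
  rw [opr_apply θ c, Finsupp.sum]
  refine sum_mem fun g _ => ?_
  exact T.toStarSubalgebra.smul_mem (hθ g) _

/-- The self-adjoint part. -/
def gsa (c : MonoidAlgebra ℂ Γ) : MonoidAlgebra ℂ Γ := (1 / 2 : ℂ) • (c + gst c)

theorem opr_gsa (θ : Γ →* unitary (Op K)) (c : MonoidAlgebra ℂ Γ) :
    opr θ (gsa c) = (1 / 2 : ℂ) • (opr θ c + star (opr θ c)) := by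
  unfold gsa
  rw [map_smul, map_add, opr_gst]

theorem opr_gsa_sa (θ : Γ →* unitary (Op K)) (c : MonoidAlgebra ℂ Γ) :
    star (opr θ (gsa c)) = opr θ (gsa c) := by
  rw [opr_gsa, star_smul, star_add, star_star, add_comm]
  congr 1
  simp

/-- A polynomial of an element of the group algebra. -/
def gpol (p : Polynomial ℝ) (c : MonoidAlgebra ℂ Γ) : MonoidAlgebra ℂ Γ :=
  Polynomial.aeval c (p.map (algebraMap ℝ ℂ))

theorem opr_gpol (θ : Γ →* unitary (Op K)) (p : Polynomial ℝ) (c : MonoidAlgebra ℂ Γ) :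
    opr θ (gpol p c) = Polynomial.aeval (opr θ c) p := by
  unfold gpol
  rw [← Polynomial.aeval_algHom_apply, Polynomial.aeval_map_algebraMap]

/-- The self-adjoint case: `c` is bounded by one in all representations. -/
theorem kap_one {T : VonNeumannAlgebra K} {η : K} (h : IsTracial T η) (θ : Γ →* unitary (Op K))
    (hθ : ∀ g, (θ g : Op K) ∈ T)
    (hd : ∀ a ∈ T, ∀ ε : ℝ, 0 < ε → ∃ c : MonoidAlgebra ℂ Γ, ‖(opr θ c - a) η‖ ≤ ε)
    {y : Op K} (hy : y ∈ T) (hsy : star y = y) (hny : ‖y‖ ≤ 1) {ε : ℝ} (hε : 0 < ε) :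
    ∃ c : MonoidAlgebra ℂ Γ, ‖(opr θ c - y) η‖ ≤ ε ∧
      ∀ (K' : Type) [NormedAddCommGroup K'] [InnerProductSpace ℂ K'] [CompleteSpace K']
        (θ' : Γ →* unitary (Op K')), ‖opr θ' c‖ ≤ 1 := by
  obtain ⟨z, hsz, hfz, hcz⟩ := (t_ca K).2 y hsy hny
  have hz : z ∈ T := by
    apply kap_in
    intro t ht
    apply hcz
    exact (VonNeumannAlgebra.mem_commutant_iff.mp ht y hy).symm
  obtain ⟨s₀, hs₀⟩ := hd z hz (ε / 6) (by positivity)
  set s := gsa s₀ with hs
  have hs1 : ‖(opr θ s - z) η‖ ≤ ε / 6 := by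
    have e1 : opr θ s - z = (1 / 2 : ℂ) • ((opr θ s₀ - z) + star (opr θ s₀ - z)) := by
      rw [hs, opr_gsa, star_sub, hsz]
      have : z = (1 / 2 : ℂ) • (z + z) := by
        rw [← two_smul ℂ z, smul_smul]; norm_num
      conv_lhs => rw [this]
      rw [← smul_sub]
      congr 1
      abel
    rw [e1]
    have e2 : ‖((1 / 2 : ℂ) • ((opr θ s₀ - z) + star (opr θ s₀ - z))) η‖
        = 1 / 2 * ‖(opr θ s₀ - z) η + (star (opr θ s₀ - z)) η‖ := by
      change ‖(1 / 2 : ℂ) • ((opr θ s₀ - z) η + (star (opr θ s₀ - z)) η)‖ = _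
      rw [norm_smul]
      norm_num
    rw [e2]
    have e3 := norm_add_le ((opr θ s₀ - z) η) ((star (opr θ s₀ - z)) η)
    rw [kap_star h (sub_mem (opr_mem θ hθ s₀) hz)] at e3
    linarith
  have hfs := kap_cb h (opr_mem θ hθ s) hz (opr_gsa_sa θ s₀) hsz
  rw [hfz] at hfs
  obtain ⟨p, hp1, hp2⟩ := kap_poly (l1 s) (ε / 2) (by positivity)
  refine ⟨gpol p s, ?_, ?_⟩
  · rw [opr_gpol]
    have e4 := kap_dist_poly (opr_gsa_sa θ s₀) (opr_norm θ s) p (by positivity) hp2
    have e5 : ‖(Polynomial.aeval (opr θ s) p - fa (opr θ s)) η‖ ≤ ε / 2 := by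
      refine (ContinuousLinearMap.le_opNorm _ _).trans ?_
      rw [h.unit, mul_one]
      exact e4
    have e6 : (Polynomial.aeval (opr θ s) p - y) η
        = (Polynomial.aeval (opr θ s) p - fa (opr θ s)) η + (fa (opr θ s) - y) η := by
      simp only [_root_.sub_apply]
      abel
    rw [e6]
    refine (norm_add_le _ _).trans ?_
    linarith
  · intro K' _ _ _ θ'
    rw [opr_gpol]
    exact kap_norm_poly (opr_gsa_sa θ' s₀) (opr_norm θ' s) p hp1

end alg

section mat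

variable {Γ : Type} [Group Γ]

/-- The representation on the Euclidean space. -/
def erep {m : Type} [Fintype m] [DecidableEq m] (ρ : Γ →* unitaryGroup m ℂ) :
    Γ →* unitary (Op (EuclideanSpace ℂ m)) where
  toFun g := ⟨Matrix.toEuclideanCLM (n := m) (𝕜 := ℂ) (ρ g : Matrix m m ℂ), by
    have h := (ρ g).2
    rw [Unitary.mem_iff] at h ⊢
    constructor
    · rw [← map_star, ← map_mul, h.1, map_one]
    · rw [← map_star, ← map_mul, h.2, map_one]⟩
  map_one' := by
    apply Subtype.ext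
    simp
  map_mul' a b := by
    apply Subtype.ext
    simp

theorem erep_opr {m : Type} [Fintype m] [DecidableEq m] (ρ : Γ →* unitaryGroup m ℂ)
    (c : MonoidAlgebra ℂ Γ) :
    opr (erep ρ) c = Matrix.toEuclideanCLM (n := m) (𝕜 := ℂ) (mrep ρ c) := by
  rw [opr_apply]
  unfold mrep
  rw [MonoidAlgebra.lift_apply, Finsupp.sum, Finsupp.sum, map_sum]
  refine Finset.sum_congr rfl fun g _ => ?_
  rw [map_smul]
  rfl

theorem le_of_norm {m : Type} [Fintype m] [DecidableEq m] (M : Matrix m m ℂ) (C : ℝ)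
    (h : ‖Matrix.toEuclideanCLM (n := m) (𝕜 := ℂ) M‖ ≤ C) :
    Le (Mᴴ * M) (((C ^ 2 : ℝ) : ℂ) • 1) := by
  unfold Le
  apply Matrix.PosSemidef.of_dotProduct_mulVec_nonneg
  · unfold Matrix.IsHermitian
    simp [Matrix.conjTranspose_sub, Matrix.conjTranspose_smul, Matrix.conjTranspose_mul]
  · intro x
    have h1 : ‖Matrix.toEuclideanCLM (n := m) (𝕜 := ℂ) M (WithLp.toLp 2 x)‖ ≤ C * ‖WithLp.toLp 2 x‖ :=
      (ContinuousLinearMap.le_opNorm _ _).trans (mul_le_mul_of_nonneg_right h (norm_nonneg _))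
    have hC : 0 ≤ C := (norm_nonneg _).trans h
    rw [Matrix.toEuclideanCLM_toLp] at h1
    have h2 : ‖WithLp.toLp 2 (M *ᵥ x)‖ ^ 2 ≤ (C * ‖WithLp.toLp 2 x‖) ^ 2 :=
      pow_le_pow_left₀ (norm_nonneg _) h1 2
    have h3 : ∀ v : m → ℂ, ((‖WithLp.toLp 2 v‖ ^ 2 : ℝ) : ℂ) = star v ⬝ᵥ v := by
      intro v
      rw [EuclideanSpace.norm_sq_eq]
      push_cast
      rw [dotProduct]
      refine Finset.sum_congr rfl fun i _ => ?_
      rw [Pi.star_apply, RCLike.star_def, Complex.conj_mul']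
    have h4 : star x ⬝ᵥ ((((C ^ 2 : ℝ) : ℂ) • (1 : Matrix m m ℂ) - Mᴴ * M) *ᵥ x)
        = (((C * ‖WithLp.toLp 2 x‖) ^ 2 - ‖WithLp.toLp 2 (M *ᵥ x)‖ ^ 2 : ℝ) : ℂ) := by
      rw [Matrix.sub_mulVec, dotProduct_sub, Matrix.smul_mulVec, Matrix.one_mulVec,
        dotProduct_smul, ← h3 x, ← Matrix.mulVec_mulVec, Matrix.dotProduct_mulVec,
        ← Matrix.star_mulVec, ← h3 (M *ᵥ x)]
      push_cast
      rw [smul_eq_mul]
      ring
    rw [h4]
    have h5 : 0 ≤ (C * ‖WithLp.toLp 2 x‖) ^ 2 - ‖WithLp.toLp 2 (M *ᵥ x)‖ ^ 2 := by linarith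
    exact_mod_cast h5

end mat

theorem kap : S_KAP := by
  intro K _ _ _ T η Γ _ θ h hθ hd a ha C hC ε hε
  have hC0 : 0 ≤ C := (norm_nonneg _).trans hC
  suffices hmain : ∃ c : MonoidAlgebra ℂ Γ, ‖(opr θ c - a) η‖ ≤ ε ∧
      ∀ (K' : Type) [NormedAddCommGroup K'] [InnerProductSpace ℂ K'] [CompleteSpace K']
        (θ' : Γ →* unitary (Op K')), ‖opr θ' c‖ ≤ 2 * C by
    obtain ⟨c, hc1, hc2⟩ := hmain
    refine ⟨c, hc1, hc2 K θ, ?_⟩
    intro m _ _ ρ
    apply le_of_norm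
    rw [← erep_opr]
    exact hc2 _ (erep ρ)
  rcases hC0.eq_or_lt with hz | hCpos
  · refine ⟨0, ?_, ?_⟩
    · have : a = 0 := norm_le_zero_iff.mp (by rw [← hz] at hC; exact hC)
      rw [this, map_zero, sub_zero]
      simp [hε.le]
    · intro K' _ _ _ θ'
      rw [map_zero, norm_zero]
      positivity
  · -- real and imaginary parts
    have hCc : ((C : ℝ) : ℂ) ≠ 0 := by exact_mod_cast hCpos.ne'
    set y₁ : Op K := ((1 / (2 * C) : ℝ) : ℂ) • (a + star a) with hy₁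
    set y₂ : Op K := ((1 / (2 * C) : ℝ) : ℂ) • (-Complex.I • (a - star a)) with hy₂
    have hm : ∀ (z : ℂ) (x : Op K), x ∈ T → z • x ∈ T := fun z x hx =>
      T.toStarSubalgebra.smul_mem hx _
    have hy₁m : y₁ ∈ T := hm _ _ (add_mem ha (star_mem ha))
    have hy₂m : y₂ ∈ T := hm _ _ (hm _ _ (sub_mem ha (star_mem ha)))
    have hns : ‖star a‖ ≤ C := by rw [norm_star]; exact hC
    have hcoef : ‖((1 / (2 * C) : ℝ) : ℂ)‖ = 1 / (2 * C) := by
      rw [Complex.norm_real, Real.norm_of_nonneg (by positivity)]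
    have hy₁n : ‖y₁‖ ≤ 1 := by
      rw [hy₁, norm_smul, hcoef]
      calc 1 / (2 * C) * ‖a + star a‖ ≤ 1 / (2 * C) * (C + C) :=
            mul_le_mul_of_nonneg_left ((norm_add_le _ _).trans (add_le_add hC hns)) (by positivity)
        _ = 1 := by field_simp; norm_num
    have hy₂n : ‖y₂‖ ≤ 1 := by
      rw [hy₂, norm_smul, norm_smul, hcoef, norm_neg, Complex.norm_I, one_mul]
      calc 1 / (2 * C) * ‖a - star a‖ ≤ 1 / (2 * C) * (C + C) :=
            mul_le_mul_of_nonneg_left ((norm_sub_le _ _).trans (add_le_add hC hns)) (by positivity)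
        _ = 1 := by field_simp; norm_num
    have hy₁s : star y₁ = y₁ := by
      rw [hy₁, star_smul, star_add, star_star, add_comm, RCLike.star_def, Complex.conj_ofReal]
    have hy₂s : star y₂ = y₂ := by
      rw [hy₂, star_smul, star_smul, star_sub, star_star, RCLike.star_def, Complex.conj_ofReal,
        map_neg, Complex.conj_I, neg_neg]
      congr 1
      rw [← neg_sub a (star a), smul_neg, neg_smul]
    have hsplit : a = (C : ℂ) • y₁ + (C : ℂ) • (Complex.I • y₂) := by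
      rw [hy₁, hy₂, smul_smul, smul_smul, smul_smul, smul_smul]
      have e1 : (C : ℂ) * ((1 / (2 * C) : ℝ) : ℂ) = 1 / 2 := by
        push_cast
        field_simp
      have e2 : (C : ℂ) * Complex.I * ((1 / (2 * C) : ℝ) : ℂ) * -Complex.I = 1 / 2 := by
        push_cast
        have : (C : ℂ) * Complex.I * (1 / (2 * C)) * -Complex.I
            = (C : ℂ) * (1 / (2 * C)) * -(Complex.I * Complex.I) := by ring
        rw [this, Complex.I_mul_I]
        field_simp
      rw [e1, e2, ← smul_add]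
      have : a + star a + (a - star a) = (2 : ℂ) • a := by
        rw [two_smul]; abel
      rw [this, smul_smul]
      norm_num
    obtain ⟨c₁, h11, h12⟩ := kap_one h θ hθ hd hy₁m hy₁s hy₁n (ε := ε / (2 * C)) (by positivity)
    obtain ⟨c₂, h21, h22⟩ := kap_one h θ hθ hd hy₂m hy₂s hy₂n (ε := ε / (2 * C)) (by positivity)
    refine ⟨(C : ℂ) • c₁ + (C : ℂ) • (Complex.I • c₂), ?_, ?_⟩
    · have e3 : (opr θ ((C : ℂ) • c₁ + (C : ℂ) • (Complex.I • c₂)) - a) η
          = (C : ℂ) • ((opr θ c₁ - y₁) η) + (C : ℂ) • (Complex.I • ((opr θ c₂ - y₂) η)) := by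
        conv_lhs => rw [hsplit]
        rw [map_add, map_smul, map_smul, map_smul]
        simp only [_root_.sub_apply, _root_.add_apply, _root_.smul_apply, smul_sub]
        abel
      rw [e3]
      refine (norm_add_le _ _).trans ?_
      rw [norm_smul, norm_smul, norm_smul, Complex.norm_I, one_mul, Complex.norm_real,
        Real.norm_of_nonneg hC0]
      have e4 : C * ‖(opr θ c₁ - y₁) η‖ ≤ C * (ε / (2 * C)) := mul_le_mul_of_nonneg_left h11 hC0
      have e5 : C * ‖(opr θ c₂ - y₂) η‖ ≤ C * (ε / (2 * C)) := mul_le_mul_of_nonneg_left h21 hC0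
      have e6 : C * (ε / (2 * C)) = ε / 2 := by field_simp
      linarith
    · intro K' _ _ _ θ'
      rw [map_add, map_smul, map_smul, map_smul]
      refine (norm_add_le _ _).trans ?_
      rw [norm_smul, norm_smul, norm_smul, Complex.norm_I, one_mul, Complex.norm_real,
        Real.norm_of_nonneg hC0]
      have e4 := mul_le_mul_of_nonneg_left (h12 K' θ') hC0
      have e5 := mul_le_mul_of_nonneg_left (h22 K' θ') hC0
      linarith

end

end Pool.Agent.Helper47.CA.Kap
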