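import Pool.Agent.Helper47.CA.Stm
import Pool.Graph.R_seed8.W683.RC.Bas
import Pool.Graph.R_pool_sql_team_seeded_63374d34.N163.QW.DAY

/-!
# Matrix models for the unitaries of a QWEP finite von Neumann algebra
-/

set_option autoImplicit false

open scoped InnerProductSpace Kronecker
open Filter Topology Matrix

namespace Pool.Agent.Helper47.CA

open Pool.Agent.N557.QWX (Op tr IsTracial IsHom)
open Pool.Agent.N859.QX (QWEP)
open Pool.Agent.N859.QW (vN Aut L2)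
open Pool.Agent.W661.RC (hs Le)
open Pool.Agent.W683.RC (sqrt_hs_add_le hs_isom_mul hs_mul_coisom hs_nonneg hs_sub_comm hs_zero vc
  norm_trace_le sqrt_hs)

namespace Mic

section words

variable {Γ : Type} [Group Γ]

theorem uu {n : ℕ} (u : unitaryGroup (Fin n) ℂ) :
    (u : Matrix (Fin n) (Fin n) ℂ)ᴴ * (u : Matrix (Fin n) (Fin n) ℂ) = 1 :=
  UnitaryGroup.star_mul_self u

theorem uu' {n : ℕ} (u : unitaryGroup (Fin n) ℂ) :
    (u : Matrix (Fin n) (Fin n) ℂ) * (u : Matrix (Fin n) (Fin n) ℂ)ᴴ = 1 :=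
  (Unitary.mem_iff.1 u.2).2

theorem inv_coe {n : ℕ} (u : unitaryGroup (Fin n) ℂ) :
    ((u⁻¹ : unitaryGroup (Fin n) ℂ) : Matrix (Fin n) (Fin n) ℂ) =
      (u : Matrix (Fin n) (Fin n) ℂ)ᴴ := rfl

/-- multiplication by a unitary matrix on the left -/
theorem hs_lu {n : ℕ} (u : unitaryGroup (Fin n) ℂ) (x : Matrix (Fin n) (Fin n) ℂ) :
    hs ((u : Matrix (Fin n) (Fin n) ℂ) * x) = hs x := hs_isom_mul (uu u) x

theorem hs_ru {n : ℕ} (u : unitaryGroup (Fin n) ℂ) (x : Matrix (Fin n) (Fin n) ℂ) :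
    hs (x * (u : Matrix (Fin n) (Fin n) ℂ)) = hs x := hs_mul_coisom (uu' u) x

/-- almost multiplicative on `A` -/
def AM (A : Finset Γ) (n : ℕ) (X : Γ → unitaryGroup (Fin n) ℂ) (ε : ℝ) : Prop :=
  ∀ g ∈ A, ∀ h ∈ A, hs ((X (g * h) : Matrix (Fin n) (Fin n) ℂ) -
    (X g : Matrix (Fin n) (Fin n) ℂ) * (X h : Matrix (Fin n) (Fin n) ℂ)) ≤ ε

theorem words (w : FreeGroup Γ) :
    ∃ (A : Finset Γ) (C : ℝ), 0 ≤ C ∧ ∀ (n : ℕ) (X : Γ → unitaryGroup (Fin n) ℂ) (ε : ℝ), AM A n X ε →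
      √(hs (((FreeGroup.lift X w : unitaryGroup (Fin n) ℂ) : Matrix (Fin n) (Fin n) ℂ) -
        (X (FreeGroup.lift (fun g : Γ => g) w) : Matrix (Fin n) (Fin n) ℂ))) ≤ C * √ε := by
  classical
  have hone : ∀ (n : ℕ) (X : Γ → unitaryGroup (Fin n) ℂ) (ε : ℝ) (A : Finset Γ), (1 : Γ) ∈ A →
      AM A n X ε → √(hs ((1 : Matrix (Fin n) (Fin n) ℂ) - (X 1 : Matrix (Fin n) (Fin n) ℂ))) ≤ √ε := by
    intro n X ε A h1 hA
    refine Real.sqrt_le_sqrt ?_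
    have := hA 1 h1 1 h1
    rw [one_mul] at this
    have e : (X 1 : Matrix (Fin n) (Fin n) ℂ) - (X 1 : Matrix (Fin n) (Fin n) ℂ) *
        (X 1 : Matrix (Fin n) (Fin n) ℂ) = (X 1 : Matrix (Fin n) (Fin n) ℂ) *
        (1 - (X 1 : Matrix (Fin n) (Fin n) ℂ)) := by
      rw [Matrix.mul_sub, Matrix.mul_one]
    rw [e, hs_lu] at this
    exact this
  induction w using FreeGroup.induction_on with
  | C1 =>
    refine ⟨{1}, 1, zero_le_one, fun n X ε hA => ?_⟩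
    rw [map_one, map_one, one_mul]
    exact hone n X ε _ (Finset.mem_singleton_self _) hA
  | of g =>
    refine ⟨∅, 0, le_refl _, fun n X ε _ => ?_⟩
    rw [FreeGroup.lift_apply_of, FreeGroup.lift_apply_of, sub_self, hs_zero, Real.sqrt_zero, zero_mul]
  | inv_of g _ =>
    refine ⟨{1, g, g⁻¹}, 2, by norm_num, fun n X ε hA => ?_⟩
    rw [map_inv, map_inv, FreeGroup.lift_apply_of, FreeGroup.lift_apply_of]
    have h1 := hone n X ε _ (by simp) hA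
    have h2 := hA g (by simp) g⁻¹ (by simp)
    rw [mul_inv_cancel] at h2
    have e : (((X g)⁻¹ : unitaryGroup (Fin n) ℂ) : Matrix (Fin n) (Fin n) ℂ) -
        (X g⁻¹ : Matrix (Fin n) (Fin n) ℂ) =
        (((X g)⁻¹ : unitaryGroup (Fin n) ℂ) : Matrix (Fin n) (Fin n) ℂ) *
          ((1 - (X 1 : Matrix (Fin n) (Fin n) ℂ)) + ((X 1 : Matrix (Fin n) (Fin n) ℂ) -
            (X g : Matrix (Fin n) (Fin n) ℂ) * (X g⁻¹ : Matrix (Fin n) (Fin n) ℂ))) := by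
      rw [inv_coe, sub_add_sub_cancel, Matrix.mul_sub, Matrix.mul_one, ← Matrix.mul_assoc, uu,
        Matrix.one_mul]
    rw [e, hs_lu]
    refine (sqrt_hs_add_le _ _).trans ?_
    have h3 := Real.sqrt_le_sqrt h2
    linarith
  | mul x y hx hy =>
    obtain ⟨A, C, hC, hA⟩ := hx
    obtain ⟨B, D, hD, hB⟩ := hy
    refine ⟨A ∪ B ∪ {FreeGroup.lift (fun g : Γ => g) x, FreeGroup.lift (fun g : Γ => g) y}, C + D + 1,
      by positivity, fun n X ε h => ?_⟩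
    have h1 := hA n X ε fun g hg k hk => h g (by simp [hg]) k (by simp [hk])
    have h2 := hB n X ε fun g hg k hk => h g (by simp [hg]) k (by simp [hk])
    have h3 := h (FreeGroup.lift (fun g : Γ => g) x) (by simp) (FreeGroup.lift (fun g : Γ => g) y)
      (by simp)
    rw [map_mul, map_mul]
    set a := FreeGroup.lift (fun g : Γ => g) x
    set b := FreeGroup.lift (fun g : Γ => g) y
    set U := FreeGroup.lift X x
    set V := FreeGroup.lift X y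
    have e : ((U * V : unitaryGroup (Fin n) ℂ) : Matrix (Fin n) (Fin n) ℂ) -
        (X (a * b) : Matrix (Fin n) (Fin n) ℂ) =
        ((U : Matrix (Fin n) (Fin n) ℂ) - (X a : Matrix (Fin n) (Fin n) ℂ)) * (V : Matrix (Fin n) (Fin n) ℂ) +
        ((X a : Matrix (Fin n) (Fin n) ℂ) * ((V : Matrix (Fin n) (Fin n) ℂ) - (X b : Matrix (Fin n) (Fin n) ℂ)) +
        -((X (a * b) : Matrix (Fin n) (Fin n) ℂ) - (X a : Matrix (Fin n) (Fin n) ℂ) *
          (X b : Matrix (Fin n) (Fin n) ℂ))) := by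
      rw [Submonoid.coe_mul]
      noncomm_ring
    rw [e]
    refine (sqrt_hs_add_le _ _).trans ?_
    rw [hs_ru]
    have h4 := sqrt_hs_add_le ((X a : Matrix (Fin n) (Fin n) ℂ) *
      ((V : Matrix (Fin n) (Fin n) ℂ) - (X b : Matrix (Fin n) (Fin n) ℂ)))
      (-((X (a * b) : Matrix (Fin n) (Fin n) ℂ) - (X a : Matrix (Fin n) (Fin n) ℂ) *
          (X b : Matrix (Fin n) (Fin n) ℂ)))
    rw [hs_lu, Pool.Agent.W683.RC.hs_neg] at h4
    have h5 := Real.sqrt_le_sqrt h3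
    linarith

end words

theorem tr_diff {n : ℕ} (hn : 0 < n) (x y : Matrix (Fin n) (Fin n) ℂ) (δ : ℝ)
    (h : √(hs (x - y)) ≤ δ * √(n : ℝ)) : ‖trace x / n - trace y / n‖ ≤ δ := by
  have hn' : (0 : ℝ) < n := by exact_mod_cast hn
  have h1 := norm_trace_le (1 : Matrix (Fin n) (Fin n) ℂ) (x - y)
  rw [conjTranspose_one, Matrix.one_mul] at h1
  have h2 : hs (1 : Matrix (Fin n) (Fin n) ℂ) = n := by
    rw [Pool.Agent.W683.RC.hs_eq, conjTranspose_one, Matrix.one_mul, trace_one]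
    simp
  rw [← sub_div, ← trace_sub, norm_div, Complex.norm_natCast]
  rw [div_le_iff₀ hn']
  have h3 : ‖trace (x - y)‖ ≤ √(hs (1 : Matrix (Fin n) (Fin n) ℂ)) * √(hs (x - y)) := h1
  rw [h2] at h3
  calc ‖trace (x - y)‖ ≤ √(n : ℝ) * √(hs (x - y)) := h3
    _ ≤ √(n : ℝ) * (δ * √(n : ℝ)) := by gcongr
    _ = δ * (√(n : ℝ) * √(n : ℝ)) := by ring
    _ = δ * n := by rw [Real.mul_self_sqrt hn'.le]

/-- densities, from the hypertrace -/
theorem dens {K : Type} [NormedAddCommGroup K] [InnerProductSpace ℂ K] [CompleteSpace K]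
    {Γ : Type} [Group Γ] (τ : Γ → ℂ) (b : Γ → (K →L[ℂ] K)) (φ : (K →L[ℂ] K) →ₗ[ℂ] ℂ)
    (hφ1 : φ 1 = 1) (hher : ∀ T, φ (star T) = star (φ T)) (hpos : ∀ T, 0 ≤ (φ (star T * T)).re)
    (hinv : ∀ g V, φ (star (b g) * V * b g) = φ V)
    (hsq : ∀ g, φ (star (1 - star (b g) * b g) * (1 - star (b g) * b g)) = 0)
    (hmul : ∀ g h, φ (star (b (g * h) - b g * b h) * (b (g * h) - b g * b h)) = 0)
    (hval : ∀ g, φ (b g) = τ g) (A : Finset Γ) (ε : ℝ) (hε : 0 < ε) :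
    ∃ (N : ℕ) (ζ : Fin N → K), ∑ k, ‖ζ k‖ ^ 2 = 1 ∧
        (∀ g ∈ A, ∀ V : K →L[ℂ] K, ‖V‖ ≤ 1 →
          ‖∑ k, (⟪ζ k, V (ζ k)⟫_ℂ - ⟪b g (ζ k), V (b g (ζ k))⟫_ℂ)‖ ≤ ε) ∧
        (∀ g ∈ A, ∑ k, ‖(1 - star (b g) * b g) (ζ k)‖ ^ 2 ≤ ε) ∧
        (∀ g ∈ A, ∀ h ∈ A, ∑ k, ‖(b (g * h) - b g * b h) (ζ k)‖ ^ 2 ≤ ε) ∧
        ∀ g ∈ A, ‖∑ k, ⟪ζ k, b g (ζ k)⟫_ℂ - τ g‖ ≤ ε := by
  classical
  set e := A.equivFin with he
  set P : Finset (Γ × Γ) := A ×ˢ A with hP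
  set eP := P.equivFin with heP
  let X : Fin A.card ⊕ (Fin P.card ⊕ Fin A.card) → (K →L[ℂ] K) := Sum.elim
    (fun i => star (1 - star (b (e.symm i)) * b (e.symm i)) *
      (1 - star (b (e.symm i)) * b (e.symm i)))
    (Sum.elim (fun i => star (b ((eP.symm i).1.1 * (eP.symm i).1.2) -
        b (eP.symm i).1.1 * b (eP.symm i).1.2) *
      (b ((eP.symm i).1.1 * (eP.symm i).1.2) - b (eP.symm i).1.1 * b (eP.symm i).1.2))
      (fun i => b (e.symm i) - τ (e.symm i) • 1))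
  let f := Fintype.equivFin (Fin A.card ⊕ (Fin P.card ⊕ Fin A.card))
  obtain ⟨N', ζ, h4, h5, h6⟩ := Pool.Agent.N163.QW.t_day K φ A.card _ (fun i => b (e.symm i)) (X ∘ f.symm)
    hφ1 hher hpos (fun i V => hinv _ V) (by
      intro j
      rcases h : f.symm j with i | i | i
      · simp only [Function.comp, h]
        exact hsq _
      · simp only [Function.comp, h]
        exact hmul _ _
      · simp only [Function.comp, h]
        show φ (b (e.symm i) - τ (e.symm i) • 1) = 0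
        rw [map_sub, map_smul, hφ1, hval, smul_eq_mul, mul_one, sub_self]) ε hε
  have h7 : ∀ Y : K →L[ℂ] K, ∀ x : K, ⟪x, (star Y * Y) x⟫_ℂ = ((‖Y x‖ ^ 2 : ℝ) : ℂ) := by
    intro Y x
    rw [mul_apply_eq_comp, ContinuousLinearMap.star_eq_adjoint,
      ContinuousLinearMap.adjoint_inner_right, inner_self_eq_norm_sq_to_K]
    norm_cast
  have h8 : ∀ Y : K →L[ℂ] K, ‖∑ k, ⟪ζ k, (star Y * Y) (ζ k)⟫_ℂ‖ ≤ ε →
      ∑ k, ‖Y (ζ k)‖ ^ 2 ≤ ε := by
    intro Y hY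
    have : ∑ k, ⟪ζ k, (star Y * Y) (ζ k)⟫_ℂ = ((∑ k, ‖Y (ζ k)‖ ^ 2 : ℝ) : ℂ) := by
      rw [Complex.ofReal_sum]
      exact Finset.sum_congr rfl fun k _ => h7 Y (ζ k)
    rw [this, Complex.norm_real, Real.norm_eq_abs,
      abs_of_nonneg (Finset.sum_nonneg fun _ _ => sq_nonneg _)] at hY
    exact hY
  refine ⟨N', ζ, h4, ?_, ?_, ?_, ?_⟩
  · intro g hg V hV
    have := h5 (e ⟨g, hg⟩) V hV
    simpa using this
  · intro g hg
    apply h8
    have := h6 (f (Sum.inl (e ⟨g, hg⟩)))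
    simpa [X] using this
  · intro g hg h hh
    apply h8
    have := h6 (f (Sum.inr (Sum.inl (eP ⟨(g, h), Finset.mem_product.2 ⟨hg, hh⟩⟩))))
    simpa [X] using this
  · intro g hg
    have h9 := h6 (f (Sum.inr (Sum.inr (e ⟨g, hg⟩))))
    simp only [Function.comp, Equiv.symm_apply_apply, X, Sum.elim_inr] at h9
    have h10 : ∑ k, ⟪ζ k, (b g - τ g • (1 : K →L[ℂ] K)) (ζ k)⟫_ℂ = ∑ k, ⟪ζ k, b g (ζ k)⟫_ℂ - τ g := by
      have h11 : ∀ k, ⟪ζ k, (b g - τ g • (1 : K →L[ℂ] K)) (ζ k)⟫_ℂ =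
          ⟪ζ k, b g (ζ k)⟫_ℂ - τ g * ((‖ζ k‖ ^ 2 : ℝ) : ℂ) := by
        intro k
        show ⟪ζ k, b g (ζ k) - τ g • ζ k⟫_ℂ = _
        rw [inner_sub_right, inner_smul_right, inner_self_eq_norm_sq_to_K]
        norm_cast
      rw [Finset.sum_congr rfl fun k _ => h11 k, Finset.sum_sub_distrib, ← Finset.mul_sum,
        ← Complex.ofReal_sum, h4, Complex.ofReal_one, mul_one]
    rw [h10] at h9
    exact h9

end Mic

open Mic in
theorem mic : S_STA → S_STC → S_MIC := by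
  classical
  intro hSTA hSTC H _ _ _ A ξ hT hQ W ε hε
  obtain ⟨K, _, _, _, b, φ, hb1, hφ1, hher, hpos, hinv, hsq, hmul, hval⟩ := hSTA H A ξ hT hQ
  set τ : UA A → ℂ := fun g => tr ξ ((g : unitary (Op H)) : Op H) with hτ
  have hmain := hSTC (UA A) τ (fun B => ⟨∑ g ∈ B, ‖b g‖, fun ε hε => ⟨K, inferInstance, inferInstance,
    inferInstance, b, by
      obtain ⟨N', ζ, h1, h2, h3, h4, h5⟩ := dens τ b φ hφ1 hher hpos hinv hsq hmul hval B ε hε
      exact ⟨N', ζ, hb1, fun g hg => Finset.single_le_sum (f := fun g => ‖b g‖)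
        (fun _ _ => norm_nonneg _) hg, h1, h2, h3, h4, h5⟩⟩⟩)
  choose B C hC hB using fun w : FreeGroup (UA A) => words w
  set M : ℝ := ∑ w ∈ W, C w with hM
  have hM0 : 0 ≤ M := Finset.sum_nonneg fun w _ => hC w
  obtain ⟨δ, hδ, hδε⟩ : ∃ δ : ℝ, 0 < δ ∧ M * √δ + δ ≤ ε := by
    have hc : Tendsto (fun δ : ℝ => M * √δ + δ) (𝓝 0) (𝓝 (M * √0 + 0)) := by
      apply Continuous.tendsto
      fun_prop
    rw [Real.sqrt_zero, mul_zero, add_zero] at hc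
    have h1 : ∀ᶠ δ in 𝓝[>] (0 : ℝ), M * √δ + δ < ε :=
      (hc.mono_left nhdsWithin_le_nhds).eventually_lt_const hε
    obtain ⟨δ, h2, h3⟩ := (h1.and self_mem_nhdsWithin).exists
    exact ⟨δ, h3, h2.le⟩
  obtain ⟨n, X, hn, hX1, hX2⟩ := hmain
    ((W.biUnion B) ∪ W.image fun w => FreeGroup.lift (fun u : UA A => u) w) δ hδ
  refine ⟨n, X, hn, fun w hw => ?_⟩
  have hn' : (0 : ℝ) < n := by exact_mod_cast hn
  have h1 := hB w n X (δ * n) fun g hg h hh => hX1 g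
    (Finset.mem_union_left _ (Finset.mem_biUnion.2 ⟨w, hw, hg⟩)) h
    (Finset.mem_union_left _ (Finset.mem_biUnion.2 ⟨w, hw, hh⟩))
  have h2 := hX2 (FreeGroup.lift (fun u : UA A => u) w)
    (Finset.mem_union_right _ (Finset.mem_image_of_mem _ hw))
  rw [Real.sqrt_mul hδ.le, ← mul_assoc] at h1
  have h3 := tr_diff hn _ _ (C w * √δ) h1
  have h4 : C w * √δ ≤ M * √δ := by
    gcongr
    exact Finset.single_le_sum (f := C) (fun w _ => hC w) hw
  calc _ ≤ _ := norm_sub_le_norm_sub_add_norm_sub _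
        (trace (X (FreeGroup.lift (fun u : UA A => u) w) : Matrix (Fin n) (Fin n) ℂ) / n) _
    _ ≤ C w * √δ + δ := add_le_add h3 h2
    _ ≤ ε := by linarith

end Pool.Agent.Helper47.CA
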