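import Pool.Agent.Helper47.CA.Stm
import Pool.Graph.R_seed8.W683.RC.Bas
import Pool.Graph.R_seed8.H80R2.HG.PS

/-!
# Almost unitary matrices are close to unitary matrices (`S_POL`)
-/

set_option autoImplicit false

open Matrix
open scoped ComplexOrder

namespace Pool.Agent.Helper47.CA

open Pool.Agent.W661.RC (hs Le tr)
open Pool.Agent.W683.RC

theorem pol : S_POL := by
  intro m _ _ x
  obtain ⟨u, P, hP, hx, hPP⟩ := Pool.Agent.H80R2.HG.PSAux.polar x
  refine ⟨u, ?_⟩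
  have hu : (u : Matrix m m ℂ)ᴴ * (u : Matrix m m ℂ) = 1 := UnitaryGroup.star_mul_self u
  have e1 : x - (u : Matrix m m ℂ) = (u : Matrix m m ℂ) * (P - 1) := by
    rw [hx, Matrix.mul_sub, Matrix.mul_one]
  rw [e1, hs_unit_mul hu, ← hPP]
  have hPh : Pᴴ = P := hP.1
  set y : Matrix m m ℂ := P - 1 with hy
  have e2 : P * P - 1 = y + P * y := by
    rw [hy]; noncomm_ring
  rw [e2, hs_eq (y + P * y)]
  have e3 : (y + P * y)ᴴ * (y + P * y) = yᴴ * y + (P * y)ᴴ * (P * y) + (yᴴ * P * y + yᴴ * P * y) := by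
    rw [conjTranspose_add, conjTranspose_mul, hPh]
    noncomm_ring
  have h1 : 0 ≤ tr (yᴴ * P * y) := tr_nonneg (hP.conjTranspose_mul_mul_same y)
  have h2 := hs_nonneg (P * y)
  rw [e3, ← Pool.Agent.W661.RC.tr, tr_add, tr_add, tr_add, ← hs_eq_tr, ← hs_eq_tr]
  linarith

end Pool.Agent.Helper47.CA
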