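import Pool.Agent.Helper47.CA.Stm
import Pool.Graph.R_seed8.W683.RC.Bas

/-!
# The finite form of rigidity for general index types
-/

set_option autoImplicit false
set_option linter.unusedSectionVars false

open scoped InnerProductSpace Kronecker ComplexOrder
open Filter Topology Matrix Finset

namespace Pool.Agent.Helper47.CA

open Pool.Agent.W661.RC (hs Le)
open Pool.Agent.W683.RC

noncomputable section

section reindex

variable {m m' : Type} [Fintype m] [DecidableEq m] [Fintype m'] [DecidableEq m']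

theorem hs_submatrix (e : m' ≃ m) (x : Matrix m m ℂ) : hs (x.submatrix e e) = hs x := by
  unfold Pool.Agent.W661.RC.hs
  simp only [Matrix.submatrix_apply]
  rw [Equiv.sum_comp e fun i => ∑ j, ‖x i (e j)‖ ^ 2]
  refine sum_congr rfl fun i _ => ?_
  exact Equiv.sum_comp e fun j => ‖x i j‖ ^ 2

theorem sub_sm (e : m' ≃ m) (A B : Matrix m m ℂ) :
    (A - B).submatrix e e = A.submatrix e e - B.submatrix e e := rfl

/-- change of the index type -/
def reU (e : m' ≃ m) : unitaryGroup m ℂ →* unitaryGroup m' ℂ where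
  toFun U := ⟨(U : Matrix m m ℂ).submatrix e e, by
    rw [mem_unitaryGroup_iff, star_eq_conjTranspose, conjTranspose_submatrix, submatrix_mul_equiv]
    have h : (U : Matrix m m ℂ) * (U : Matrix m m ℂ)ᴴ = 1 := mem_unitaryGroup_iff.1 U.2
    rw [h, submatrix_one_equiv]⟩
  map_one' := Subtype.ext (by
    show (1 : Matrix m m ℂ).submatrix e e = 1
    exact submatrix_one_equiv e)
  map_mul' U V := Subtype.ext (by
    show ((U : Matrix m m ℂ) * (V : Matrix m m ℂ)).submatrix e e =
      (U : Matrix m m ℂ).submatrix e e * (V : Matrix m m ℂ).submatrix e e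
    rw [submatrix_mul_equiv])

theorem reU_coe (e : m' ≃ m) (U : unitaryGroup m ℂ) :
    (reU e U : Matrix m' m' ℂ) = (U : Matrix m m ℂ).submatrix e e := rfl

end reindex

theorem ff_of {n : ℕ} {R Sw : Finset (FreeGroup (Fin n))} {x : FreeGroup (Fin n)} {δ ε : ℝ}
    (h : ∀ (d : ℕ) (U : Fin n → unitaryGroup (Fin d) ℂ) (V : Matrix (Fin d) (Fin d) ℂ), 0 < d →
        (∀ w ∈ R, hs ((FreeGroup.lift U w : Matrix (Fin d) (Fin d) ℂ) - 1) ≤ δ * d) → Le (Vᴴ * V) 1 →
        (∀ w ∈ Sw, hs ((FreeGroup.lift U w : Matrix (Fin d) (Fin d) ℂ) * V -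
          V * (FreeGroup.lift U w : Matrix (Fin d) (Fin d) ℂ)) ≤ δ * d) →
        hs ((FreeGroup.lift U x : Matrix (Fin d) (Fin d) ℂ) * V -
          V * (FreeGroup.lift U x : Matrix (Fin d) (Fin d) ℂ)) ≤ ε * d) : FF n R Sw x δ ε := by
  intro m _ _ _ U V h1 h2 h3
  set e : Fin (Fintype.card m) ≃ m := (Fintype.equivFin m).symm with he
  have hl : ∀ w, (FreeGroup.lift (fun i => reU e (U i)) w : Matrix _ _ ℂ) =
      (FreeGroup.lift U w : Matrix m m ℂ).submatrix e e := by
    intro w
    rw [← reU_coe]
    congr 1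
    have : FreeGroup.lift (fun i => reU e (U i)) = (reU e).comp (FreeGroup.lift U) := by
      ext i
      simp
    rw [this]
    rfl
  have hc : ∀ w, (FreeGroup.lift U w : Matrix m m ℂ).submatrix e e * V.submatrix e e -
      V.submatrix e e * (FreeGroup.lift U w : Matrix m m ℂ).submatrix e e =
      ((FreeGroup.lift U w : Matrix m m ℂ) * V - V * (FreeGroup.lift U w : Matrix m m ℂ)).submatrix e e := by
    intro w
    rw [submatrix_mul_equiv, submatrix_mul_equiv, sub_sm]
  have key := h (Fintype.card m) (fun i => reU e (U i)) (V.submatrix e e) Fintype.card_pos (by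
    intro w hw
    rw [hl]
    have : (FreeGroup.lift U w : Matrix m m ℂ).submatrix e e - 1 =
        ((FreeGroup.lift U w : Matrix m m ℂ) - 1).submatrix e e := by
      rw [sub_sm, submatrix_one_equiv]
    rw [this, hs_submatrix]
    exact h1 w hw) (by
    unfold Pool.Agent.W661.RC.Le at *
    rw [conjTranspose_submatrix, submatrix_mul_equiv]
    have : (1 : Matrix (Fin (Fintype.card m)) (Fin (Fintype.card m)) ℂ) - (Vᴴ * V).submatrix e e =
        (1 - Vᴴ * V).submatrix e e := by
      rw [sub_sm, submatrix_one_equiv]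
    rw [this]
    exact h2.submatrix e) (by
    intro w hw
    rw [hl, hc, hs_submatrix]
    exact h3 w hw)
  rw [hl, hc, hs_submatrix] at key
  exact key

end

end Pool.Agent.Helper47.CA
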