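import Pool.Agent.Helper47.CA.Stm
import Pool.Graph.R_pool_sql_team_seeded_63374d34.N286.QW.STATE
import Pool.Graph.R_pool_sql_team_seeded_63374d34.N833.QW.BIM
import Pool.Graph.R_pool_sql_team_seeded_63374d34.N664.QWP.RT

/-!
# The hypertrace on the unitaries of a QWEP finite von Neumann algebra

Copy of `Pool.Agent.N286.QW.t_state` with the value of the trace.
-/

set_option autoImplicit false

open scoped InnerProductSpace CStarAlgebra

namespace Pool.Agent.Helper47.CA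

open Pool.Agent.N557.QWX (Op tr IsTracial IsHom)

namespace Sta

open Pool.Agent.N859.QW Pool.Agent.N286.QW

/-- The hypotheses on `N`, unitaries `u g` in `N`, operators `r g` in the commutant with `r g ξ = u g ξ`. -/
structure Dtt {H : Type} [NormedAddCommGroup H] [InnerProductSpace ℂ H] [CompleteSpace H]
    (N : VonNeumannAlgebra H) {Γ : Type} [Group Γ] (u : Γ →* unitary (H →L[ℂ] H))
    (r : Γ → (H →L[ℂ] H)) (ξ : H) : Prop where
  mem : ∀ g, (u g : H →L[ℂ] H) ∈ N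
  com : ∀ g, ∀ x ∈ N, x * r g = r g * x
  unit : ‖ξ‖ = 1
  eq1 : ∀ g, r g ξ = (u g : H →L[ℂ] H) ξ
  eq2 : ∀ g, star (r g) ξ = (star (u g : H →L[ℂ] H)) ξ

theorem state_aux (H : Type) [NormedAddCommGroup H] [InnerProductSpace ℂ H] [CompleteSpace H]
    (N : VonNeumannAlgebra H) (Γ : Type) [Group Γ] (u : Γ →* unitary (H →L[ℂ] H))
    (r : Γ → (H →L[ℂ] H)) (ξ : H) (hQ : Pool.Agent.N859.QW.QWEP N) (hD : Dtt N u r ξ) :
    ∃ (K : Type) (_ : NormedAddCommGroup K) (_ : InnerProductSpace ℂ K) (_ : CompleteSpace K)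
      (b : Γ → (K →L[ℂ] K)) (φ : (K →L[ℂ] K) →ₗ[ℂ] ℂ),
      b 1 = 1 ∧ φ 1 = 1 ∧ (∀ T, φ (star T) = star (φ T)) ∧ (∀ T, 0 ≤ (φ (star T * T)).re) ∧
      (∀ g V, φ (star (b g) * V * b g) = φ V) ∧
      (∀ g, φ (star (1 - star (b g) * b g) * (1 - star (b g) * b g)) = 0) ∧
      (∀ g h, φ (star (b (g * h) - b g * b h) * (b (g * h) - b g * b h)) = 0) ∧
      ∀ g, φ (b g) = ⟪ξ, (u g : H →L[ℂ] H) ξ⟫_ℂ := by
  obtain ⟨K₀, _, _, _, B, q, hB, hW, hq⟩ := hQ
  classical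
  -- lifts of the unitaries
  have hlift : ∀ g, ∃ x : B, q x = (u g : H →L[ℂ] H) := by
    intro g
    have h1 : (u g : H →L[ℂ] H) ∈ Set.range q := by
      rw [hq]
      exact hD.mem g
    exact h1
  obtain ⟨x, hx1, hx⟩ : ∃ x : Γ → B, x 1 = 1 ∧ ∀ g, q (x g) = (u g : H →L[ℂ] H) := by
    choose y hy using hlift
    refine ⟨fun g => if g = 1 then 1 else y g, if_pos rfl, fun g => ?_⟩
    by_cases hg : g = 1
    · simp only [if_pos hg]
      rw [hg, map_one, map_one]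
      rfl
    · simp only [if_neg hg]
      exact hy g
  have hπ : Function.Injective (pim B q) := by
    intro a b hab
    apply Subtype.ext
    apply ContinuousLinearMap.ext
    intro k
    have h1 := congrArg (fun T : WithLp 2 (K₀ × H) →L[ℂ] WithLp 2 (K₀ × H) =>
      (T (WithLp.toLp 2 (k, 0))).fst) hab
    exact h1
  obtain ⟨Φ, hΦ1, hΦc, hΦ⟩ := hW (WithLp 2 (K₀ × H)) (pim B q) hπ
  -- the operators from the commutant
  have hRc : ∀ g, dg (0 : K₀ →L[ℂ] K₀) (r g) ∈ Set.centralizer (Set.range (pim B q)) := by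
    intro g
    rw [Set.mem_centralizer_iff]
    rintro _ ⟨b, rfl⟩
    show dg (b : K₀ →L[ℂ] K₀) (q b) * dg 0 (r g) = dg 0 (r g) * dg (b : K₀ →L[ℂ] K₀) (q b)
    rw [← dg_mul, ← dg_mul, mul_zero, zero_mul]
    have h1 : q b ∈ (N : Set (H →L[ℂ] H)) := by
      rw [← hq]
      exact ⟨b, rfl⟩
    rw [hD.com g (q b) h1]
  have hRΦ : ∀ g T, dg (0 : K₀ →L[ℂ] K₀) (r g) * Φ T = Φ T * dg 0 (r g) := by
    intro g T
    exact (Set.mem_centralizer_iff.1 (hΦc T)) _ (hRc g)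
  obtain ⟨ξ', hξ'⟩ : ∃ ξ' : WithLp 2 (K₀ × H), ξ' = WithLp.toLp 2 (0, ξ) := ⟨_, rfl⟩
  have hin : ∀ (v : WithLp 2 (K₀ × H)), ⟪ξ', v⟫_ℂ = ⟪ξ, v.snd⟫_ℂ := by
    intro v
    rw [WithLp.prod_inner_apply, hξ']
    show ⟪(0 : K₀), _⟫_ℂ + ⟪ξ, _⟫_ℂ = _
    rw [inner_zero_left, zero_add]
    rfl
  have hb_ap : ∀ b : B, pim B q b ξ' = WithLp.toLp 2 (0, q b ξ) := by
    intro b
    refine wext ?_ ?_
    · show (b : K₀ →L[ℂ] K₀) ξ'.fst = 0
      rw [hξ']
      exact map_zero _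
    · show q b ξ'.snd = _
      rw [hξ']
      rfl
  have hR_ap : ∀ g, dg (0 : K₀ →L[ℂ] K₀) (r g) ξ' = WithLp.toLp 2 (0, (u g : H →L[ℂ] H) ξ) := by
    intro g
    refine wext ?_ ?_
    · rfl
    · show r g ξ'.snd = (u g : H →L[ℂ] H) ξ
      rw [hξ']
      exact hD.eq1 g
  obtain ⟨φ, hφ⟩ : ∃ φ : (WithLp 2 (K₀ × H) →L[ℂ] WithLp 2 (K₀ × H)) →ₗ[ℂ] ℂ,
      ∀ T, φ T = ⟪ξ', Φ T ξ'⟫_ℂ := by
    refine ⟨{ toFun := fun T => ⟪ξ', Φ T ξ'⟫_ℂ, map_add' := ?_, map_smul' := ?_ }, fun _ => rfl⟩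
    · intro S T
      rw [map_add]
      show ⟪ξ', Φ S ξ' + Φ T ξ'⟫_ℂ = _
      rw [inner_add_right]
    · intro c T
      rw [map_smul]
      show ⟪ξ', c • Φ T ξ'⟫_ℂ = _
      rw [inner_smul_right]
      rfl
  have hφπ : ∀ b : B, φ (pim B q b) = ⟪ξ, q b ξ⟫_ℂ := by
    intro b
    rw [hφ, hΦ, hb_ap, hin]
    rfl
  have hφ0 : ∀ z : B, q z = 0 → φ (star (pim B q z) * pim B q z) = 0 := by
    intro z hz
    rw [← map_star, ← map_mul, hφπ, map_mul, hz, mul_zero]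
    exact inner_zero_right _
  have hbi : ∀ (y : B) (T : WithLp 2 (K₀ × H) →L[ℂ] WithLp 2 (K₀ × H)),
      Φ (star (pim B q y) * T * pim B q y) = star (pim B q y) * Φ T * pim B q y := by
    intro y T
    have h1 := Pool.Agent.N833.QW.t_bim Φ hΦ1 (pim B q y) (hΦ y) (by rw [← map_star, ← map_mul, hΦ])
    rw [mul_assoc, (h1 _).1, mul_assoc]
    have h2 := (h1 (star T)).2
    rw [star_star] at h2
    rw [h2]
  refine ⟨WithLp 2 (K₀ × H), inferInstance, inferInstance, inferInstance,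
    fun g => pim B q (x g), φ, ?_, ?_, ?_, ?_, ?_, ?_, ?_, ?_⟩
  · show pim B q (x 1) = 1
    rw [hx1, map_one]
  · rw [hφ, hΦ1, hin]
    show ⟪ξ, ξ'.snd⟫_ℂ = 1
    rw [hξ']
    show ⟪ξ, ξ⟫_ℂ = 1
    rw [inner_self_eq_norm_sq_to_K, hD.unit]
    norm_num
  · intro T
    rw [hφ, hφ, cp_star, ContinuousLinearMap.star_eq_adjoint,
      ContinuousLinearMap.adjoint_inner_right]
    exact (inner_conj_symm _ _).symm
  · intro T
    rw [hφ]
    exact cp_pos Φ T ξ'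
  · intro g V
    rw [hφ, hφ, hbi]
    show ⟪ξ', star (pim B q (x g)) (Φ V (pim B q (x g) ξ'))⟫_ℂ = _
    rw [ContinuousLinearMap.star_eq_adjoint, ContinuousLinearMap.adjoint_inner_right, hb_ap, hx,
      ← hR_ap]
    have h1 : Φ V (dg (0 : K₀ →L[ℂ] K₀) (r g) ξ') = dg (0 : K₀ →L[ℂ] K₀) (r g) (Φ V ξ') := by
      have := congrArg (fun T : WithLp 2 (K₀ × H) →L[ℂ] WithLp 2 (K₀ × H) => T ξ') (hRΦ g V)
      exact this.symm
    rw [h1, ← ContinuousLinearMap.adjoint_inner_left, ← ContinuousLinearMap.star_eq_adjoint,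
      ← dg_star, hR_ap]
    congr 1
    refine wext ?_ ?_
    · show star (0 : K₀ →L[ℂ] K₀) 0 = _
      rw [map_zero, hξ']
      rfl
    · show star (r g) ((u g : H →L[ℂ] H) ξ) = ξ'.snd
      have h2 : star (r g) * (u g : H →L[ℂ] H) = (u g : H →L[ℂ] H) * star (r g) := by
        have h3 := hD.com g (star (u g : H →L[ℂ] H)) (star_mem (hD.mem g))
        have h4 := congrArg star h3
        rw [star_mul, star_mul, star_star] at h4
        exact h4
      have h5 : star (r g) ((u g : H →L[ℂ] H) ξ) = (star (r g) * (u g : H →L[ℂ] H)) ξ := rfl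
      rw [h5, h2]
      show (u g : H →L[ℂ] H) (star (r g) ξ) = _
      rw [hD.eq2]
      have h6 : (u g : H →L[ℂ] H) (star (u g : H →L[ℂ] H) ξ) =
        ((u g : H →L[ℂ] H) * star (u g : H →L[ℂ] H)) ξ := rfl
      have h7 : (u g : H →L[ℂ] H) * star (u g : H →L[ℂ] H) = 1 :=
        (Unitary.mem_iff.1 (u g).2).2
      rw [h6, h7, hξ']
      rfl
  · intro g
    show φ (star (1 - star (pim B q (x g)) * pim B q (x g)) *
      (1 - star (pim B q (x g)) * pim B q (x g))) = 0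
    have h1 : (1 - star (pim B q (x g)) * pim B q (x g)) = pim B q (1 - star (x g) * x g) := by
      rw [map_sub, map_one, map_mul, map_star]
    rw [h1]
    apply hφ0
    have h7 : star (u g : H →L[ℂ] H) * (u g : H →L[ℂ] H) = 1 := (Unitary.mem_iff.1 (u g).2).1
    rw [map_sub, map_one, map_mul, map_star, hx, h7, sub_self]
  · intro g h
    show φ (star (pim B q (x (g * h)) - pim B q (x g) * pim B q (x h)) *
      (pim B q (x (g * h)) - pim B q (x g) * pim B q (x h))) = 0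
    have h1 : pim B q (x (g * h)) - pim B q (x g) * pim B q (x h) =
        pim B q (x (g * h) - x g * x h) := by
      rw [map_sub, map_mul]
    rw [h1]
    apply hφ0
    rw [map_sub, map_mul, hx, hx, hx, map_mul]
    exact sub_self _
  · intro g
    show φ (pim B q (x g)) = _
    rw [hφπ, hx]


theorem qwep_of {H : Type} [NormedAddCommGroup H] [InnerProductSpace ℂ H] [CompleteSpace H]
    {N : VonNeumannAlgebra H} (h : Pool.Agent.N859.QX.QWEP N) : Pool.Agent.N859.QW.QWEP N := by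
  obtain @⟨K, i1, i2, i3, ⟨B, hB, hW, q, hq⟩⟩ := h
  refine ⟨K, i1, i2, i3, B, q, hB, ?_, hq⟩
  intro L _ _ _ π hπ
  exact ((hW.all L).expectation π hπ).expectation

end Sta

theorem sta : S_STA := by
  intro H _ _ _ A ξ hT hQ
  have hT' : Pool.Agent.N557.QW.IsTracial A ξ := by
    refine ⟨hT.unit, fun x hx y hy => hT.tracial x hx y hy, fun x hx h0 => hT.faithful x hx ?_⟩
    show ⟪ξ, (star x) (x ξ)⟫_ℂ = 0
    rw [h0, map_zero, inner_zero_right]
  have hex : ∀ g : UA A, ∃ r : H →L[ℂ] H, (∀ x ∈ A, x * r = r * x) ∧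
      r ξ = ((g : unitary (Op H)) : Op H) ξ ∧ (star r) ξ = (star ((g : unitary (Op H)) : Op H)) ξ := by
    intro g
    exact Pool.Agent.N664.QWP.t_rt H A ξ hT' _ g.2 (Unitary.mem_iff.1 g.1.2).1 (Unitary.mem_iff.1 g.1.2).2
  choose r hr1 hr2 hr3 using hex
  exact Sta.state_aux H A (UA A) (UAs A).subtype r ξ (Sta.qwep_of hQ)
    ⟨fun g => g.2, hr1, hT.unit, hr2, hr3⟩

end Pool.Agent.Helper47.CA
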