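import Pool.Agent.Helper47.CA.Stm
import Pool.Graph.R_pool_sql_team_seeded_63374d34.N896.QWP.CAB

/-!
# Truncation in a tracial von Neumann algebra (`S_TRU`)
-/

set_option autoImplicit false

open scoped InnerProductSpace

namespace Pool.Agent.Helper47.CA

open Pool.Agent.N557.QWX (Op tr IsTracial IsHom)
open Pool.Agent.N557.QW (fa)
open Pool.Agent.N896.QWP

noncomputable section

namespace Tru

variable {K : Type} [NormedAddCommGroup K] [InnerProductSpace ℂ K] [CompleteSpace K]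

lemma tr_eq (η : K) (x y : Op K) : tr η (x * y) = ⟪(star x) η, y η⟫_ℂ := by
  show ⟪η, x (y η)⟫_ℂ = _
  rw [ContinuousLinearMap.star_eq_adjoint, ContinuousLinearMap.adjoint_inner_left]

lemma nrm_star {T : VonNeumannAlgebra K} {η : K} (hT : IsTracial T η) {x : Op K} (hx : x ∈ T) :
    ‖(star x) η‖ = ‖x η‖ := by
  have h := hT.tracial x hx (star x) (star_mem hx)
  rw [tr_eq, tr_eq, star_star, inner_self_eq_norm_sq_to_K, inner_self_eq_norm_sq_to_K] at h
  have h2 : ‖(star x) η‖ ^ 2 = ‖x η‖ ^ 2 := by exact_mod_cast h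
  exact (pow_left_inj₀ (norm_nonneg _) (norm_nonneg _) two_ne_zero).1 h2

lemma nrm_mul {T : VonNeumannAlgebra K} {η : K} (hT : IsTracial T η) {x y : Op K} (hx : x ∈ T) (hy : y ∈ T) :
    ‖x (y η)‖ ≤ ‖y‖ * ‖x η‖ := by
  have h := nrm_star hT (mul_mem hx hy)
  have h1 : ‖x (y η)‖ = ‖(star (x * y)) η‖ := h.symm
  rw [h1, star_mul]
  show ‖(star y) ((star x) η)‖ ≤ _
  refine ((star y).le_opNorm _).trans ?_
  rw [norm_star, nrm_star hT hx]

lemma inv_mem {T : VonNeumannAlgebra K} {a : Op K} (ha : a ∈ T) (hs : IsSelfAdjoint a) :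
    Ring.inverse (1 + a * a) ∈ T := by
  rw [← VonNeumannAlgebra.commutant_commutant T, VonNeumannAlgebra.mem_commutant_iff]
  intro g hg
  have hc : g * a = a * g := ((VonNeumannAlgebra.mem_commutant_iff.1 hg) a ha).symm
  have h1 : Ring.inverse (1 + a * a) * (1 + a * a) = 1 := Ring.inverse_mul_cancel _ (isUnit1 a hs)
  have h2 : (1 + a * a) * Ring.inverse (1 + a * a) = 1 := Ring.mul_inverse_cancel _ (isUnit1 a hs)
  have h3 : g * (1 + a * a) = (1 + a * a) * g := by
    rw [mul_add, add_mul, mul_one, one_mul, ← mul_assoc, hc, mul_assoc, hc, mul_assoc]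
  calc g * Ring.inverse (1 + a * a)
      = Ring.inverse (1 + a * a) * ((1 + a * a) * g) * Ring.inverse (1 + a * a) := by
        rw [← mul_assoc, h1, one_mul]
    _ = Ring.inverse (1 + a * a) * g * ((1 + a * a) * Ring.inverse (1 + a * a)) := by
        rw [← h3]; noncomm_ring
    _ = Ring.inverse (1 + a * a) * g := by rw [h2, mul_one]

lemma fa_mem {T : VonNeumannAlgebra K} {a : Op K} (ha : a ∈ T) (hs : IsSelfAdjoint a) : fa a ∈ T :=
  T.toStarSubalgebra.smul_mem (mul_mem ha (inv_mem ha hs)) 2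

/-- the trace of the product of self-adjoint elements is real -/
lemma tr_im {T : VonNeumannAlgebra K} {η : K} (hT : IsTracial T η) {x y : Op K} (hx : x ∈ T) (hy : y ∈ T)
    (sx : star x = x) (sy : star y = y) : (tr η (x * y)).im = 0 := by
  have h := hT.tracial x hx y hy
  have h1 : (starRingEnd ℂ) (tr η (x * y)) = tr η (y * x) := by
    rw [tr_eq, tr_eq, sx, sy, inner_conj_symm]
  rw [← h] at h1
  exact Complex.conj_eq_iff_im.1 h1

lemma norm_inner_self (a : Op K) (ha : IsSelfAdjoint a) (C : ℝ) (hC : ‖a‖ ≤ C) (η : K) :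
    2 / (1 + C ^ 2) * ‖a η‖ ^ 2 ≤ (tr η (fa a * a)).re := by
  set Z := Ring.inverse (1 + a * a) with hZ
  have h2 : (1 + a * a) * Z = 1 := Ring.mul_inverse_cancel _ (isUnit1 a ha)
  have hC0 : 0 ≤ C := (norm_nonneg _).trans hC
  have ha' : star a = a := ha
  set v := a η with hv
  set w := Z v with hw
  have e1 : v = w + a (a w) := by
    have : ((1 + a * a) * Z) v = v := by rw [h2]; rfl
    rw [← this]
    rfl
  have adj : ∀ x y : K, ⟪a x, y⟫_ℂ = ⟪x, a y⟫_ℂ := by
    intro x y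
    have := ContinuousLinearMap.adjoint_inner_left a y x
    rw [← ContinuousLinearMap.star_eq_adjoint, ha'] at this
    exact this
  have e2 : tr η (fa a * a) = 2 * ⟪v, w⟫_ℂ := by
    show ⟪η, ((2 : ℂ) • (a * Z)) (a η)⟫_ℂ = _
    rw [ContinuousLinearMap.smul_apply, inner_smul_right]
    congr 1
    show ⟪η, a (Z v)⟫_ℂ = _
    rw [← adj]
  have e3 : ⟪v, w⟫_ℂ = ((‖w‖ ^ 2 + ‖a w‖ ^ 2 : ℝ) : ℂ) := by
    rw [e1, inner_add_left, adj, inner_self_eq_norm_sq_to_K, inner_self_eq_norm_sq_to_K]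
    push_cast
    rfl
  have e4 : ‖v‖ ^ 2 = ‖w‖ ^ 2 + 2 * ‖a w‖ ^ 2 + ‖a (a w)‖ ^ 2 := by
    rw [e1, @norm_add_sq ℂ]
    have : RCLike.re ⟪w, a (a w)⟫_ℂ = ‖a w‖ ^ 2 := by
      rw [← adj, inner_self_eq_norm_sq]
    rw [this]
  have b1 : ‖a w‖ ≤ C * ‖w‖ := (a.le_opNorm w).trans (mul_le_mul_of_nonneg_right hC (norm_nonneg _))
  have b2 : ‖a (a w)‖ ≤ C * ‖a w‖ := (a.le_opNorm _).trans (mul_le_mul_of_nonneg_right hC (norm_nonneg _))
  have b1' : ‖a w‖ ^ 2 ≤ C ^ 2 * ‖w‖ ^ 2 := by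
    rw [← mul_pow]; exact pow_le_pow_left₀ (norm_nonneg _) b1 2
  have b2' : ‖a (a w)‖ ^ 2 ≤ C ^ 2 * ‖a w‖ ^ 2 := by
    rw [← mul_pow]; exact pow_le_pow_left₀ (norm_nonneg _) b2 2
  have hre : (tr η (fa a * a)).re = 2 * (‖w‖ ^ 2 + ‖a w‖ ^ 2) := by
    rw [e2, e3]
    rw [show (2 : ℂ) = ((2 : ℝ) : ℂ) by norm_num, ← Complex.ofReal_mul, Complex.ofReal_re]
  rw [hre, e4]
  have hp : 0 < 1 + C ^ 2 := by positivity
  rw [div_mul_eq_mul_div, div_le_iff₀ hp]
  nlinarith [sq_nonneg ‖w‖]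

end Tru

open Tru

theorem tru : S_TRU := by
  intro K _ _ _ T N η hT hNT z hz C hC n hn ε hε
  have hC0 : 0 ≤ C := (norm_nonneg _).trans hC
  -- self-adjoint parts
  have key : ∀ c : ℂ, ‖c‖ = 1 → ∀ z1 n1 : Op K, z1 = (1 / 2 : ℂ) • (c • z + star (c • z)) →
      n1 = (1 / 2 : ℂ) • (c • n + star (c • n)) →
      ‖fa n1‖ ≤ 1 ∧ fa n1 ∈ N ∧ 2 / (1 + C ^ 2) * ‖z1 η‖ ^ 2 - 3 * C * ε ≤ ‖tr η (fa n1 * z)‖ := by
    intro c hc z1 n1 h1 h2
    have mN : ∀ x ∈ N, x ∈ T := fun x hx => hNT hx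
    have hhalf : star (1 / 2 : ℂ) = 1 / 2 := by
      rw [Complex.star_def, map_div₀, map_one, Complex.conj_ofNat]
    have s1 : star z1 = z1 := by
      rw [h1, star_smul, star_add, star_star, add_comm, hhalf]
    have s2 : star n1 = n1 := by
      rw [h2, star_smul, star_add, star_star, add_comm, hhalf]
    have m1 : z1 ∈ T := by
      have h : c • z ∈ T := T.toStarSubalgebra.smul_mem hz c
      rw [h1]
      exact T.toStarSubalgebra.smul_mem (add_mem h (star_mem h)) _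
    have m2 : n1 ∈ N := by
      have h : c • n ∈ N := N.toStarSubalgebra.smul_mem hn c
      rw [h2]
      exact N.toStarSubalgebra.smul_mem (add_mem h (star_mem h)) _
    have nz1 : ‖z1‖ ≤ C := by
      rw [h1, norm_smul]
      have h3 : ‖c • z‖ ≤ C := by rw [norm_smul, hc, one_mul]; exact hC
      have h4 : ‖c • z + star (c • z)‖ ≤ C + C := by
        refine (norm_add_le _ _).trans (add_le_add h3 ?_)
        rw [norm_star]; exact h3
      have h5 : ‖(1 / 2 : ℂ)‖ = 1 / 2 := by norm_num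
      rw [h5]; linarith
    have hd : ‖(n1 - z1) η‖ ≤ ε := by
      have e : n1 - z1 = (-(1 / 2 : ℂ)) • (c • (z - n) + star (c • (z - n))) := by
        rw [h1, h2, smul_sub, star_sub]
        module
      have hzn : c • (z - n) ∈ T := T.toStarSubalgebra.smul_mem (sub_mem hz (mN n hn)) c
      rw [e, ContinuousLinearMap.smul_apply, norm_smul, ContinuousLinearMap.add_apply]
      have h3 : ‖(c • (z - n)) η‖ ≤ ε := by
        rw [ContinuousLinearMap.smul_apply, norm_smul, hc, one_mul]; exact hε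
      have h4 : ‖(c • (z - n)) η + (star (c • (z - n))) η‖ ≤ ε + ε := by
        refine (norm_add_le _ _).trans (add_le_add h3 ?_)
        rw [nrm_star hT hzn]; exact h3
      have h5 : ‖(-(1 / 2) : ℂ)‖ = 1 / 2 := by norm_num
      rw [h5]; linarith
    have hdT : n1 - z1 ∈ T := sub_mem (mN _ m2) m1
    have hb : ‖(fa n1 - fa z1) η‖ ≤ 3 * ε := by
      refine (t_cb K n1 z1 η s2 s1).trans ?_
      have h3 := nrm_mul hT hdT (inv_mem m1 s1)
      have h4 := nrm_mul hT hdT (fa_mem m1 s1)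
      have h5 := norm_inverse z1 s1
      have h6 := norm_fa z1 s1
      have h7 : ‖Ring.inverse (1 + z1 * z1)‖ * ‖(n1 - z1) η‖ ≤ 1 * ε :=
        mul_le_mul h5 hd (norm_nonneg _) zero_le_one
      have h8 : ‖fa z1‖ * ‖(n1 - z1) η‖ ≤ 1 * ε := mul_le_mul h6 hd (norm_nonneg _) zero_le_one
      linarith
    refine ⟨norm_fa n1 s2, fa_mem m2 s2, ?_⟩
    have hsz : ‖z η‖ ≤ C := by
      refine (z.le_opNorm η).trans ?_
      rw [hT.unit, mul_one]; exact hC
    -- `c z = z1 + i z2`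
    set z2 : Op K := (-(Complex.I) / 2 : ℂ) • (c • z - star (c • z)) with hz2
    have s3 : star z2 = z2 := by
      rw [hz2, star_smul, star_sub, star_star]
      have : star (-(Complex.I) / 2 : ℂ) = -(-(Complex.I) / 2) := by
        rw [Complex.star_def, map_div₀, map_neg, Complex.conj_I, Complex.conj_ofNat]; ring
      rw [this, neg_smul, ← smul_neg, neg_sub]
    have m3 : z2 ∈ T := by
      have h : c • z ∈ T := T.toStarSubalgebra.smul_mem hz c
      exact T.toStarSubalgebra.smul_mem (sub_mem h (star_mem h)) _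
    have e3 : c • z = z1 + Complex.I • z2 := by
      have : Complex.I * (-(Complex.I) / 2) = 1 / 2 := by
        rw [mul_div_assoc', mul_neg, Complex.I_mul_I, neg_neg]
      rw [h1, hz2, smul_smul, this]
      module
    have e4 : tr η (fa n1 * (c • z)) = tr η (fa z1 * z1) + Complex.I * tr η (fa z1 * z2) +
        ⟪(fa n1 - fa z1) η, (c • z) η⟫_ℂ := by
      have h3 : star (fa n1) = fa n1 := fa_sa n1 s2
      have h4 : star (fa z1) = fa z1 := fa_sa z1 s1
      have h5 : tr η (fa z1 * (c • z)) = tr η (fa z1 * z1) + Complex.I * tr η (fa z1 * z2) := by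
        rw [e3, tr_eq, tr_eq, tr_eq, ContinuousLinearMap.add_apply, inner_add_right,
          ContinuousLinearMap.smul_apply, inner_smul_right]
      rw [← h5, tr_eq, tr_eq, h3, h4, ContinuousLinearMap.sub_apply, inner_sub_left]
      ring
    have e5 : ‖tr η (fa n1 * (c • z))‖ = ‖tr η (fa n1 * z)‖ := by
      rw [tr_eq, tr_eq, ContinuousLinearMap.smul_apply, inner_smul_right, norm_mul, hc, one_mul]
    rw [← e5]
    have h6 := Complex.abs_re_le_norm (tr η (fa n1 * (c • z)))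
    have h7 := (le_abs_self _).trans h6
    refine le_trans ?_ h7
    rw [e4, Complex.add_re, Complex.add_re, Complex.I_mul_re, tr_im hT (fa_mem m1 s1) m3 (fa_sa z1 s1) s3,
      neg_zero, add_zero]
    have h8 := norm_inner_self z1 s1 C nz1 η
    have h9 : ‖⟪(fa n1 - fa z1) η, (c • z) η⟫_ℂ‖ ≤ 3 * ε * C := by
      refine (norm_inner_le_norm _ _).trans ?_
      have : ‖(c • z) η‖ ≤ C := by
        rw [ContinuousLinearMap.smul_apply, norm_smul, hc, one_mul]; exact hsz
      exact mul_le_mul hb this (norm_nonneg _) ((norm_nonneg _).trans hb)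
    have h10 := (abs_le.1 ((Complex.abs_re_le_norm _).trans h9)).1
    linarith
  obtain ⟨p1, p2, p3⟩ := key 1 (by simp) _ _ rfl rfl
  obtain ⟨q1, q2, q3⟩ := key (-Complex.I) (by simp) _ _ rfl rfl
  refine ⟨_, p2, _, q2, p1, q1, ?_⟩
  set x := ((1 / 2 : ℂ) • ((1 : ℂ) • z + star ((1 : ℂ) • z))) η with hx
  set y := ((1 / 2 : ℂ) • ((-Complex.I) • z + star ((-Complex.I) • z))) η with hy
  have hsum : ‖z η‖ ^ 2 = ‖x‖ ^ 2 + ‖y‖ ^ 2 := by
    have ex : x = (1 / 2 : ℂ) • (z η + (star z) η) := by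
      rw [hx, one_smul]; rfl
    have ey : y = (-Complex.I / 2 : ℂ) • (z η - (star z) η) := by
      rw [hy, star_smul]
      have : star (-Complex.I) = Complex.I := by
        rw [Complex.star_def, map_neg, Complex.conj_I, neg_neg]
      rw [this]
      show (1 / 2 : ℂ) • ((-Complex.I) • z η + Complex.I • (star z) η) = _
      module
    have n1 : ‖(1 / 2 : ℂ)‖ = 1 / 2 := by norm_num
    have n2 : ‖(-Complex.I / 2 : ℂ)‖ = 1 / 2 := by simp
    rw [ex, ey, norm_smul, norm_smul, n1, n2, mul_pow, mul_pow]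
    have := parallelogram_law_with_norm ℂ (z η) ((star z) η)
    rw [nrm_star hT hz] at this
    nlinarith
  rw [hsum]
  linarith

end

end Pool.Agent.Helper47.CA
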