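import Pool.Agent.Helper47.CA.Stm

/-!
# Every element of a von Neumann algebra is a linear combination of unitaries
-/

set_option autoImplicit false
set_option linter.unusedSectionVars false

open scoped InnerProductSpace
open Filter Topology Finset

namespace Pool.Agent.Helper47.CA

open Pool.Agent.N557.QWX (Op tr IsTracial IsHom)

noncomputable section

namespace Uni

variable {H : Type} [NormedAddCommGroup H] [InnerProductSpace ℂ H] [CompleteSpace H]

theorem closed (A : VonNeumannAlgebra H) : IsClosed (A.toStarSubalgebra : Set (Op H)) := by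
  have h1 : (A.toStarSubalgebra : Set (Op H)) = Set.centralizer (Set.centralizer (A : Set (Op H))) :=
    A.centralizer_centralizer'.symm
  rw [h1]
  exact Set.isClosed_centralizer _

end Uni

/-- **UNI.** -/
theorem uni : S_UNI := by
  intro H _ _ _ A x hx
  classical
  have hc : IsClosed (A.toStarSubalgebra : Set (Op H)) := Uni.closed A
  obtain ⟨u, c, hxc, -⟩ := CStarAlgebra.exists_sum_four_unitary (⟨x, hx⟩ : A.toStarSubalgebra)
  have hu : ∀ i, ((u i : A.toStarSubalgebra) : Op H) ∈ unitary (Op H) := by
    intro i
    have h1 := (u i).2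
    rw [Unitary.mem_iff] at h1 ⊢
    exact ⟨congrArg Subtype.val h1.1, congrArg Subtype.val h1.2⟩
  let v : Fin 4 → UA A := fun i => ⟨⟨((u i : A.toStarSubalgebra) : Op H), hu i⟩, (u i : A.toStarSubalgebra).2⟩
  refine ⟨∑ i, Finsupp.single (v i) (c i), ?_⟩
  have h1 := congrArg (fun y : A.toStarSubalgebra => (y : Op H)) hxc
  have h2 : x = ∑ i, c i • ((u i : A.toStarSubalgebra) : Op H) := by
    have h3 : x = A.toStarSubalgebra.subtype (⟨x, hx⟩ : A.toStarSubalgebra) := rfl
    rw [h3, hxc, map_sum]
    rfl
  rw [h2, ← Finsupp.sum_finsetSum_index (fun _ => by rw [zero_smul]) (fun _ _ _ => by rw [add_smul])]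
  refine sum_congr rfl fun i _ => ?_
  rw [Finsupp.sum_single_index (by rw [zero_smul])]

end

end Pool.Agent.Helper47.CA
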