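import Pool.Agent.Helper47.CA.MainC
import Pool.Agent.Helper47.CA.Fin0
import Pool.Agent.Helper47.CA.Gvp
import Pool.Agent.Helper47.CA.Rei
import Pool.Agent.Helper47.CA.Kap
import Pool.Agent.Helper47.CA.Tru
import Pool.Agent.Helper47.CA.Grp
import Pool.Agent.Helper47.CA.Uni
import Pool.Agent.Helper47.CA.Den
import Pool.Agent.Helper47.CA.Bes
import Pool.Agent.Helper47.CA.Pol
import Pool.Agent.Helper47.CA.Com
import Pool.Agent.Helper47.CA.Sta
import Pool.Agent.Helper47.CA.Stc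
import Pool.Agent.Helper47.CA.Mic
import Pool.Graph.R_pool_sql_team_seeded_63374d34.N289.SA.Pair
import Pool.Graph.R_pool_sql_team_seeded_63374d34.N52.ST.Final

/-!
# The final theorem

Modules by helper18 (STC), helper25 (STA, MIC), helper30 (TRU, BES, POL, COM), helper55 (KAP), helper76 (GRP) and
helper80 (TH, DEN, HYP, UNI, GV); statements, main step and assembly by helper47.
-/

set_option autoImplicit false

open scoped InnerProductSpace
open Filter Topology

namespace Pool.Agent.Helper47.CA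

open Pool.Agent.N557.QWX (Op tr IsTracial IsHom)
open Pool.Agent.N859.QW (vN Aut L2)

theorem main_step : S_MAIN :=
  main_of (mic sta stc) Kap.kap th (den uni) hyp uni com bes pol

theorem isTracial_mono {H : Type} [NormedAddCommGroup H] [InnerProductSpace ℂ H] [CompleteSpace H]
    {N M : VonNeumannAlgebra H} {ξ : H} (h : N ≤ M) (hM : IsTracial M ξ) : IsTracial N ξ :=
  ⟨hM.unit, fun x hx y hy => hM.tracial x (h hx) y (h hy), fun x hx => hM.faithful x (h hx)⟩

/-- the main theorem, with a stronger form: the inclusion of the group von Neumann algebras is not relatively embeddable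
over the von Neumann algebra of any residually finite group. -/
theorem final : ∃ (G : Type) (_ : Group G) (S : Subgroup G) (N : VonNeumannAlgebra ℂ) (ξ : ℂ) (α : G → Op ℂ → Op ℂ),
    Countable G ∧ CoAmenable S ∧ IsTracial N ξ ∧ IsAction N ξ α ∧
    (∀ H : Subgroup G, IsTracial (crossProd N α H) (vec G ξ)) ∧ ¬ CrossedRE N ξ α S ∧
    ∀ (L : Type) [NormedAddCommGroup L] [InnerProductSpace ℂ L] [CompleteSpace L] (N₁ : VonNeumannAlgebra L)
      (ζ : L) (Λ : Type) [Group Λ] (v : Λ →* unitary (Op L)), RFin Λ → GrpAlg N₁ ζ v →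
      ¬ RE (crossProd N α S) (crossProd N α ⊤) (vec G ξ) N₁ ζ := by
  obtain ⟨Γ, _, K, hc, hrf, hT, hTK, hcl, g, hg, k, hk, hgk⟩ := Pool.Agent.N289.SA.s_pair
  obtain ⟨n, γ, hγ⟩ := Pool.Agent.N303.KQ.exists_free hT
  obtain ⟨x, hx⟩ := hγ (g * k * g⁻¹)
  obtain ⟨G, _, S, ι, hGc, hS, hSrf, hι1, hι2⟩ := grp Γ K hc hrf
  obtain ⟨hM, u, hu1, hu2, hu3, hu4⟩ := gvp G
  have hle : ∀ H : Subgroup G, crossProd Gv.NC (fun _ x => x) H ≤ crossProd Gv.NC (fun _ x => x) ⊤ :=
    fun H => hu2 H _ fun h _ => hu1 ⊤ h (Subgroup.mem_top h)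
  have hNS : ∀ H : Subgroup G, IsTracial (crossProd Gv.NC (fun _ x => x) H) (vec G (1 : ℂ)) :=
    fun H => isTracial_mono (hle H) hM
  have key : ∀ (L : Type) [NormedAddCommGroup L] [InnerProductSpace ℂ L] [CompleteSpace L]
      (N₁ : VonNeumannAlgebra L) (ζ : L) (Λ : Type) [Group Λ] (v : Λ →* unitary (Op L)), RFin Λ → GrpAlg N₁ ζ v →
      ¬ RE (crossProd Gv.NC (fun _ x => x) S) (crossProd Gv.NC (fun _ x => x) ⊤) (vec G (1 : ℂ)) N₁ ζ := by
    intro L _ _ _ N₁ ζ Λ _ v hΛ hv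
    refine not_re_of main_step tru _ _ _ S u (fun g => hu1 ⊤ g (Subgroup.mem_top g)) (hu1 S) (hu4 S)
      (ι.comp γ) x ?_ ?_ v hv hΛ
    · intro h
      apply hgk
      rw [← hx]
      exact hι2 _ h
    · intro ε hε
      obtain ⟨δ, R, Sw, hδ, hR, hSw, hfin⟩ := Pool.Agent.N52.ST.fm_main Γ K hT hTK hcl n γ hγ g hg x (by
        rw [hx]
        have : g⁻¹ * (g * k * g⁻¹) * g = k := by group
        rw [this]
        exact hk) ε hε
      refine ⟨δ, R, Sw, hδ, fun w hw => ?_, fun w hw => hι1 _ (hSw w hw), ff_of hfin⟩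
      show ι (γ w) = 1
      rw [hR w hw, map_one]
  refine ⟨G, inferInstance, S, Gv.NC, 1, fun _ x => x, hGc, hS, nc_tracial, isAction_triv, hNS, ?_, key⟩
  exact key _ _ _ S (u.comp S.subtype) hSrf ⟨hNS S, fun h => hu1 S h h.2, fun V hV => hu2 S V fun h hh => hV ⟨h, hh⟩,
    fun h hh => hu3 h fun h1 => hh (Subtype.ext h1)⟩

end Pool.Agent.Helper47.CA
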