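import Pool.Agent.Helper47.CA.Defs

/-!
# Internal forms of the definitions
-/

set_option autoImplicit false

open scoped InnerProductSpace
open Filter Topology

namespace Pool.Agent.Helper47.CA

open Pool.Agent.N557.QWX (Op tr IsTracial IsHom)
open Pool.Agent.N859.QW (vN Aut L2)

section re

variable {L : Type} [NormedAddCommGroup L] [InnerProductSpace ℂ L] [CompleteSpace L]
  {N₁ : VonNeumannAlgebra L} {ζ : L}

variable {I : Type} (P : I → Piece N₁ ζ)

variable {H : Type} [NormedAddCommGroup H] [InnerProductSpace ℂ H] [CompleteSpace H]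

/-- The expanded form of `IsEmb`. -/
structure IsEmb0 (ω : Ultrafilter I) (M : VonNeumannAlgebra H) (ξ : H) (π : Op H → ∀ k, Op (P k).K) : Prop where
  mem : ∀ x ∈ M, ∀ k, π x k ∈ (P k).T
  bdd : ∀ x ∈ M, Bdd P (π x)
  one : Null P ω fun k => π 1 k - 1
  add : ∀ x ∈ M, ∀ y ∈ M, Null P ω fun k => π (x + y) k - (π x k + π y k)
  smul : ∀ c : ℂ, ∀ x ∈ M, Null P ω fun k => π (c • x) k - c • π x k
  mul : ∀ x ∈ M, ∀ y ∈ M, Null P ω fun k => π (x * y) k - π x k * π y k
  star : ∀ x ∈ M, Null P ω fun k => π (star x) k - star (π x k)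
  trace : ∀ x ∈ M, Tendsto (fun k => tr (P k).η (π x k)) ω (𝓝 (tr ξ x))

variable {P}

theorem emb0 {ω : Ultrafilter I} {M : VonNeumannAlgebra H} {ξ : H} {π : Op H → ∀ k, Op (P k).K}
    (h : IsEmb P ω M ξ π) : IsEmb0 P ω M ξ π :=
  ⟨h.mem, h.bdd, h.one, h.add, h.smul, h.mul, h.star, h.trace⟩

end re

section group

variable {G : Type} [Group G] {E : Type} [NormedAddCommGroup E] [InnerProductSpace ℂ E] [CompleteSpace E]

/-- The crossed product for an action by automorphisms of the algebra. -/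
noncomputable def crossedSub (N : VonNeumannAlgebra E) (α : G →* Aut N) (S : Subgroup G) :
    VonNeumannAlgebra (L2 G E) :=
  vN ({T | ∃ x : N.toStarSubalgebra, ∀ (ζ : L2 G E) (g : G),
      (T ζ : ∀ _ : G, E) g = ((α g⁻¹ x : N.toStarSubalgebra) : E →L[ℂ] E) ((ζ : ∀ _ : G, E) g)} ∪
    {T | ∃ h ∈ S, ∀ (ζ : L2 G E) (g : G), (T ζ : ∀ _ : G, E) g = (ζ : ∀ _ : G, E) (h⁻¹ * g)})

end group

end Pool.Agent.Helper47.CA
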