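import Pool.Agent.Helper47.CA.Main0

/-!
# The main step
-/

set_option autoImplicit false
set_option linter.unusedSectionVars false
set_option linter.unusedVariables false

open scoped InnerProductSpace Kronecker ComplexOrder
open Filter Topology Matrix Finset

namespace Pool.Agent.Helper47.CA

open Pool.Agent.N557.QWX (Op tr IsTracial IsHom)
open Pool.Agent.N859.QX (QWEP)
open Pool.Agent.N859.QW (vN)
open Pool.Agent.W661.RC (hs Le)
open Pool.Agent.W683.RC

noncomputable section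

/-! ### The matrix part -/

section matrixpart

variable {n : ℕ} {m Q : Type} [Fintype m] [DecidableEq m] [Nonempty m] [Fintype Q] [DecidableEq Q] [Group Q]

/-- right and left multiplication by a bounded matrix -/
theorem sqrt_hs_mul_right {a x : Matrix m m ℂ} {D : ℝ} (hD : 0 < D) (h : Le (aᴴ * a) (((D ^ 2 : ℝ) : ℂ) • 1)) :
    √(hs (x * a)) ≤ D * √(hs x) := by
  have h1 := hs_mul_le_right_of (le_flip (by positivity) h) x
  calc √(hs (x * a)) ≤ √(D ^ 2 * hs x) := Real.sqrt_le_sqrt h1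
    _ = D * √(hs x) := by rw [Real.sqrt_mul (sq_nonneg _), Real.sqrt_sq hD.le]

theorem sqrt_hs_mul_left {a x : Matrix m m ℂ} {D : ℝ} (hD : 0 < D) (h : Le (aᴴ * a) (((D ^ 2 : ℝ) : ℂ) • 1)) :
    √(hs (a * x)) ≤ D * √(hs x) := by
  have h1 := hs_mul_le_of h x
  calc √(hs (a * x)) ≤ √(D ^ 2 * hs x) := Real.sqrt_le_sqrt h1
    _ = D * √(hs x) := by rw [Real.sqrt_mul (sq_nonneg _), Real.sqrt_sq hD.le]

theorem sqrt_hs_isom {u x : Matrix m m ℂ} {D : ℝ} (hD : 1 ≤ D) (h : uᴴ * u = 1) :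
    √(hs (u * x)) ≤ D * √(hs x) := by
  rw [hs_isom_mul h]
  nlinarith [Real.sqrt_nonneg (hs x)]

/-- words in matrices which are close to unitary matrices -/
theorem word_matrix (D κ : ℝ) (hD : 1 ≤ D) (hκ : 0 ≤ κ) (y : Fin n → Matrix m m ℂ) (U : Fin n → unitaryGroup m ℂ)
    (hy : ∀ i, Le ((y i)ᴴ * y i) (((D ^ 2 : ℝ) : ℂ) • 1)) (hU : ∀ i, √(hs (y i - (U i : Matrix m m ℂ))) ≤ κ)
    (w : FreeGroup (Fin n)) :
    √(hs (evL y (fun i => (y i)ᴴ) w - (FreeGroup.lift U w : Matrix m m ℂ))) ≤ wl w * D ^ wl w * κ := by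
  have hD0 : 0 < D := by linarith
  have key := evL_close (fun x : Matrix m m ℂ => √(hs x)) (fun _ => True) D κ hD hκ (by simp [hs_zero])
    (fun x y _ _ => sqrt_hs_add_le x y) trivial (fun _ _ _ _ => trivial) (fun _ _ _ _ => trivial)
    (fun i => (U i : Matrix m m ℂ)) (fun i => (U i : Matrix m m ℂ)ᴴ) y (fun i => (y i)ᴴ) (fun i => by
      refine ⟨trivial, trivial, fun x _ => sqrt_hs_isom hD (mem_unitaryGroup_iff'.1 (U i).2), fun x _ =>
        sqrt_hs_mul_right hD0 (hy i), hU i⟩) (fun i => by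
      refine ⟨trivial, trivial, fun x _ => sqrt_hs_isom hD ?_, fun x _ => sqrt_hs_mul_right hD0 ?_, ?_⟩
      · rw [conjTranspose_conjTranspose]
        exact mem_unitaryGroup_iff.1 (U i).2
      · rw [conjTranspose_conjTranspose]
        exact le_flip (by positivity) (hy i)
      · rw [← conjTranspose_sub, hs_conjTranspose]
        exact hU i) w
  rw [evL_unitary] at key
  exact key.2.2

end matrixpart

/-- words in operators which are close -/
theorem word_op {K : Type} [NormedAddCommGroup K] [InnerProductSpace ℂ K] [CompleteSpace K]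
    {T : VonNeumannAlgebra K} {η : K} (hT : IsTracial T η) {n : ℕ} (D κ : ℝ) (hD : 1 ≤ D) (hκ : 0 ≤ κ)
    (a b : Fin n → Op K) (ha : ∀ i, a i ∈ T) (hb : ∀ i, b i ∈ T) (hna : ∀ i, ‖a i‖ ≤ D) (hnb : ∀ i, ‖b i‖ ≤ D)
    (hab : ∀ i, ‖(b i - a i) η‖ ≤ κ) (w : FreeGroup (Fin n)) :
    evL a (fun i => star (a i)) w ∈ T ∧ evL b (fun i => star (b i)) w ∈ T ∧
    ‖(evL b (fun i => star (b i)) w - evL a (fun i => star (a i)) w) η‖ ≤ wl w * D ^ wl w * κ := by
  refine evL_close (fun x : Op K => ‖x η‖) (fun x => x ∈ T) D κ hD hκ (by simp)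
    (fun x y _ _ => norm_add_le _ _) (mem_one T) (fun x y hx hy => mem_sub hx hy)
    (fun x y hx hy => mem_mul hx hy) a (fun i => star (a i)) b (fun i => star (b i)) (fun i => ?_) (fun i => ?_) w
  · exact ⟨ha i, hb i, fun y _ => (norm_mul_ap _ _ _).trans (mul_le_mul_of_nonneg_right (hna i) (norm_nonneg _)),
      fun y hy => (norm_mul_ap' hT hy (hb i)).trans (mul_le_mul_of_nonneg_right (hnb i) (norm_nonneg _)), hab i⟩
  · refine ⟨mem_star (ha i), mem_star (hb i), fun y _ => (norm_mul_ap _ _ _).trans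
      (mul_le_mul_of_nonneg_right (by rw [norm_star]; exact hna i) (norm_nonneg _)),
      fun y hy => (norm_mul_ap' hT hy (mem_star (hb i))).trans
        (mul_le_mul_of_nonneg_right (by rw [norm_star]; exact hnb i) (norm_nonneg _)), ?_⟩
    show ‖(star (b i) - star (a i)) η‖ ≤ κ
    rw [← star_sub, norm_star_ap hT (mem_sub (hb i) (ha i))]
    exact hab i

/-- the commutator of an element of the algebraic tensor product with `V ⊗ 1` -/
theorem comm_bound {m Q : Type} [Fintype m] [DecidableEq m] [Fintype Q] [DecidableEq Q] [Group Q] {r p : ℕ}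
    (F : Fin r → Matrix m m ℂ) (g : Fin p → Q) (α : Fin r → Fin p → ℂ) (V : Matrix m m ℂ) (β : ℝ)
    (h : ∀ k, √(hs (V * F k - F k * V)) ≤ β) :
    √(hs ((∑ k, ∑ l, α k l • (F k ⊗ₖ lamM (g l))) * (V ⊗ₖ (1 : Matrix Q Q ℂ)) -
      (V ⊗ₖ (1 : Matrix Q Q ℂ)) * ∑ k, ∑ l, α k l • (F k ⊗ₖ lamM (g l)))) ≤
      (∑ k, ∑ l, ‖α k l‖) * (β * √(Fintype.card Q)) := by
  have e : (∑ k, ∑ l, α k l • (F k ⊗ₖ lamM (g l))) * (V ⊗ₖ (1 : Matrix Q Q ℂ)) -
      (V ⊗ₖ (1 : Matrix Q Q ℂ)) * ∑ k, ∑ l, α k l • (F k ⊗ₖ lamM (g l)) =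
      ∑ k, ∑ l, α k l • ((F k * V - V * F k) ⊗ₖ lamM (g l)) := by
    rw [Matrix.sum_mul, Matrix.mul_sum, ← Finset.sum_sub_distrib]
    refine sum_congr rfl fun k _ => ?_
    rw [Matrix.sum_mul, Matrix.mul_sum, ← Finset.sum_sub_distrib]
    refine sum_congr rfl fun l _ => ?_
    rw [Matrix.smul_mul, Matrix.mul_smul, ← smul_sub, ← mul_kronecker_mul, ← mul_kronecker_mul, Matrix.mul_one,
      Matrix.one_mul]
    congr 1
    ext a b
    simp only [Matrix.sub_apply, kroneckerMap_apply]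
    ring
  rw [e, Finset.sum_mul]
  refine (sqrt_hs_sum_le _ _).trans (sum_le_sum fun k _ => ?_)
  rw [Finset.sum_mul]
  refine (sqrt_hs_sum_le _ _).trans (sum_le_sum fun l _ => ?_)
  rw [hs_smul, Real.sqrt_mul (sq_nonneg _), Real.sqrt_sq (norm_nonneg _), hs_kron, hs_lamM,
    Real.sqrt_mul (hs_nonneg _), hs_sub_comm]
  exact mul_le_mul_of_nonneg_left (mul_le_mul_of_nonneg_right (h k) (Real.sqrt_nonneg _)) (norm_nonneg _)

end

end Pool.Agent.Helper47.CA
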