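import Pool.Agent.Helper47.CA.Model

/-!
# Preparations for the main step
-/

set_option autoImplicit false
set_option linter.unusedSectionVars false

open scoped InnerProductSpace Kronecker ComplexOrder
open Filter Topology Matrix Finset

namespace Pool.Agent.Helper47.CA

open Pool.Agent.N557.QWX (Op tr IsTracial IsHom)
open Pool.Agent.N859.QX (QWEP)
open Pool.Agent.N859.QW (vN)
open Pool.Agent.W661.RC (hs Le)
open Pool.Agent.W683.RC

noncomputable section

section vn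

variable {K : Type} [NormedAddCommGroup K] [InnerProductSpace ℂ K] [CompleteSpace K]

theorem subset_vN {S : Set (Op K)} {x : Op K} (hx : x ∈ S) : x ∈ vN S := by
  have h : x ∈ Set.centralizer ((StarSubalgebra.centralizer ℂ S : StarSubalgebra ℂ (Op K)) : Set (Op K)) := by
    rw [Set.mem_centralizer_iff]
    intro y hy
    exact (((StarSubalgebra.mem_centralizer_iff ℂ).1 hy x hx).1).symm
  rw [vN, ← SetLike.mem_coe, VonNeumannAlgebra.coe_commutant]
  exact h

variable {Γ : Type} [Group Γ]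

theorem opr_mem {T : VonNeumannAlgebra K} {θ : Γ →* unitary (Op K)} (h : ∀ g, (θ g : Op K) ∈ T)
    (c : MonoidAlgebra ℂ Γ) : opr θ c ∈ T := by
  rw [opr_eq]
  show _ ∈ T.toStarSubalgebra
  exact sum_mem fun g _ => SMulMemClass.smul_mem _ (h g)

end vn

section em

variable {L : Type} [NormedAddCommGroup L] [InnerProductSpace ℂ L] [CompleteSpace L]
  {N₁ : VonNeumannAlgebra L} {ζ : L}

theorem opr_em (P : Piece N₁ ζ) {S : Type} [Group S] {u : S →* unitary (Op L)}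
    {θ : FreeGroup (UA P.A) × S →* unitary (Op P.K)} (hθ : IsTheta P u θ)
    (c : MonoidAlgebra ℂ (FreeGroup (UA P.A))) (h : S) :
    opr θ (em c h) = P.i (opr (θ1 P) c) * P.j (u h : Op L) := by
  have hi0 : P.i 0 = 0 := by
    have := P.tensor.homA.smul 0 0 (zero_mem (S := StarSubalgebra ℂ (Op P.H)) P.A.toStarSubalgebra)
    simpa using this
  induction c using MonoidAlgebra.induction_linear with
  | zero => rw [em_zero, map_zero, map_zero, hi0, zero_mul]
  | add a b ha hb =>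
    rw [em_add, map_add, ha, hb, map_add, P.tensor.homA.add _ (opr_mem (θ1_mem P) a) _ (opr_mem (θ1_mem P) b),
      add_mul]
  | single g z =>
    rw [em_single, opr_single, opr_single, hθ, P.tensor.homA.smul z _ (θ1_mem P g), smul_mul_assoc]
    rfl

end em

section num

theorem sqrt_le_of_close {h N t κ : ℝ} (hN : 0 < N) (ht : 0 ≤ t) (hκ : 0 ≤ κ) (hc : |h / N - t ^ 2| ≤ κ ^ 2) :
    √h ≤ (t + κ) * √N := by
  have h1 := (abs_le.1 hc).2
  have h2 : h ≤ (t + κ) ^ 2 * N := by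
    have h3 : h = h / N * N := by field_simp
    rw [h3]
    refine mul_le_mul_of_nonneg_right ?_ hN.le
    nlinarith
  calc √h ≤ √((t + κ) ^ 2 * N) := Real.sqrt_le_sqrt h2
    _ = (t + κ) * √N := by rw [Real.sqrt_mul (sq_nonneg _), Real.sqrt_sq (by linarith)]

theorem le_of_close {h N t κ s : ℝ} (hN : 0 < N) (hκ : 0 ≤ κ) (hs0 : 0 ≤ s) (hh : 0 ≤ h)
    (hc : |h / N - t ^ 2| ≤ κ ^ 2) (hle : √h ≤ s * √N) : t ≤ s + κ := by
  have h1 := (abs_le.1 hc).1
  have h2 : h ≤ s ^ 2 * N := by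
    have := pow_le_pow_left₀ (Real.sqrt_nonneg _) hle 2
    rwa [Real.sq_sqrt hh, mul_pow, Real.sq_sqrt hN.le] at this
  have h3 : h / N ≤ s ^ 2 := by
    rw [div_le_iff₀ hN]; exact h2
  have h4 : t ^ 2 ≤ (s + κ) ^ 2 := by nlinarith
  exact le_of_sq_le_sq' h4 (by linarith)
where
  le_of_sq_le_sq' {a b : ℝ} (h : a ^ 2 ≤ b ^ 2) (hb : 0 ≤ b) : a ≤ b := by
    exact (le_abs_self a).trans (abs_le_of_sq_le_sq h hb)

end num

section kron

variable {m q : Type} [Fintype m] [DecidableEq m] [Fintype q] [DecidableEq q]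

theorem hs_kron (A : Matrix m m ℂ) (B : Matrix q q ℂ) : hs (A ⊗ₖ B) = hs A * hs B := by
  have h : ((hs (A ⊗ₖ B) : ℝ) : ℂ) = ((hs A * hs B : ℝ) : ℂ) := by
    rw [hs_eq_trace, conjTranspose_kronecker, ← mul_kronecker_mul, trace_kronecker, Complex.ofReal_mul,
      hs_eq_trace, hs_eq_trace]
  exact_mod_cast h

theorem hs_of_unitary {A : Matrix m m ℂ} (h : Aᴴ * A = 1) : hs A = Fintype.card m := by
  have h1 : ((hs A : ℝ) : ℂ) = ((Fintype.card m : ℝ) : ℂ) := by
    rw [hs_eq_trace, h, trace_one]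
    push_cast
    rfl
  exact_mod_cast h1

theorem hs_lamM {Q : Type} [Group Q] [Fintype Q] [DecidableEq Q] (h : Q) : hs (lamM h) = Fintype.card Q :=
  hs_of_unitary (mem_unitaryGroup_iff'.1 (lamQ h).2)

theorem hs_one_le {A : Matrix m m ℂ} {c : ℝ} (h : Le (Aᴴ * A) ((c : ℂ) • 1)) :
    hs A ≤ c * Fintype.card m := by
  have h1 := hs_mul_le_of h (1 : Matrix m m ℂ)
  rwa [Matrix.mul_one, hs_of_unitary (A := (1 : Matrix m m ℂ)) (by simp)] at h1

theorem le_kron {V : Matrix m m ℂ} (h : Le (Vᴴ * V) 1) :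
    Le ((V ⊗ₖ (1 : Matrix q q ℂ))ᴴ * (V ⊗ₖ (1 : Matrix q q ℂ))) 1 := by
  unfold Le at *
  rw [conjTranspose_kronecker, ← mul_kronecker_mul, conjTranspose_one, Matrix.one_mul]
  have h1 := h.kronecker (y := (1 : Matrix q q ℂ)) Matrix.PosSemidef.one
  have h2 : (1 : Matrix (m × q) (m × q) ℂ) - (Vᴴ * V) ⊗ₖ (1 : Matrix q q ℂ) =
      (1 - Vᴴ * V) ⊗ₖ (1 : Matrix q q ℂ) := by
    rw [← one_kronecker_one (m := m) (n := q)]
    ext a b
    simp only [Matrix.sub_apply, kroneckerMap_apply]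
    ring
  rw [h2]
  exact h1

end kron

section model2

variable {L : Type} [NormedAddCommGroup L] [InnerProductSpace ℂ L] [CompleteSpace L]
  {N₁ : VonNeumannAlgebra L} {ζ : L}

/-- matrix models for finitely many elements of the group algebras -/
theorem exists_model2 (hMIC : S_MIC) {S : Type} [Group S] (u : S →* unitary (Op L)) (hN : GrpAlg N₁ ζ u)
    (hS : RFin S) (P : Piece N₁ ζ) (θ : FreeGroup (UA P.A) × S →* unitary (Op P.K))
    (htr : ∀ (w : FreeGroup (UA P.A)) (h : S), tr P.η (θ (w, h) : Op P.K) =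
        tr P.ξ (θ1 P w : Op P.H) * tr ζ (u h : Op L))
    (C : Finset (MonoidAlgebra ℂ (FreeGroup (UA P.A) × S))) (C1 T1 : Finset (MonoidAlgebra ℂ (FreeGroup (UA P.A))))
    (μ : ℝ) (hμ : 0 < μ) :
    ∃ (n : ℕ) (X : UA P.A → unitaryGroup (Fin n) ℂ) (Q : Type) (_ : Group Q) (_ : Fintype Q) (_ : DecidableEq Q)
      (φ : S →* Q), 0 < n ∧
      (∀ c ∈ C, |hs (mrep (rho (FreeGroup.lift X) φ) c) / Fintype.card (Fin n × Q) - ‖opr θ c P.η‖ ^ 2| ≤ μ) ∧
      (∀ c ∈ C1, |hs (mrep (FreeGroup.lift X) c) / Fintype.card (Fin n) - ‖opr (θ1 P) c P.ξ‖ ^ 2| ≤ μ) ∧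
      ∀ c ∈ T1, ‖trace (mrep (FreeGroup.lift X) c) / (Fintype.card (Fin n) : ℂ) - tr P.ξ (opr (θ1 P) c)‖ ≤ μ := by
  classical
  set B : ℝ := 1 + (∑ c ∈ C, n1 (cj c * c)) + (∑ c ∈ C1, n1 (cj c * c)) + ∑ c ∈ T1, n1 c with hB
  have p1 : 0 ≤ ∑ c ∈ C, n1 (cj c * c) := sum_nonneg fun _ _ => n1_nonneg _
  have p2 : 0 ≤ ∑ c ∈ C1, n1 (cj c * c) := sum_nonneg fun _ _ => n1_nonneg _
  have p3 : 0 ≤ ∑ c ∈ T1, n1 c := sum_nonneg fun _ _ => n1_nonneg _
  have hB0 : 0 < B := by linarith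
  obtain ⟨n, X, Q, gQ, fQ, dQ, φ, hn, hW, hW1⟩ := exists_model hMIC u hN hS P θ htr
    (C.biUnion fun c => (cj c * c).coeff.support)
    ((C1.biUnion fun c => (cj c * c).coeff.support) ∪ T1.biUnion fun c => c.coeff.support) (μ / B) (by positivity)
  have key : ∀ t : ℝ, t ≤ B → t * (μ / B) ≤ μ := by
    intro t ht
    rw [mul_div_assoc', div_le_iff₀ hB0]
    nlinarith
  refine ⟨n, X, Q, gQ, fQ, dQ, φ, hn, fun c hc => ?_, fun c hc => ?_, fun c hc => ?_⟩
  · refine (hs_close θ P.η (rho (FreeGroup.lift X) φ) (μ / B) c fun g hg =>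
      hW g (mem_biUnion.2 ⟨c, hc, hg⟩)).trans (key _ ?_)
    have := single_le_sum (f := fun c => n1 (cj c * c)) (fun _ _ => n1_nonneg _) hc
    linarith
  · refine (hs_close (θ1 P) P.ξ (FreeGroup.lift X) (μ / B) c fun g hg =>
      hW1 g (mem_union_left _ (mem_biUnion.2 ⟨c, hc, hg⟩))).trans (key _ ?_)
    have := single_le_sum (f := fun c => n1 (cj c * c)) (fun _ _ => n1_nonneg _) hc
    linarith
  · refine (trace_close (θ1 P) P.ξ (FreeGroup.lift X) (μ / B) c fun g hg =>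
      hW1 g (mem_union_right _ (mem_biUnion.2 ⟨c, hc, hg⟩))).trans (key _ ?_)
    have := single_le_sum (f := fun c => n1 c) (fun _ _ => n1_nonneg _) hc
    linarith

end model2

end

end Pool.Agent.Helper47.CA
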