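import Pool.Agent.Helper47.CA.Main

/-!
# The main step: assembly
-/

set_option autoImplicit false
set_option linter.unusedSectionVars false
set_option linter.unusedVariables false

open scoped InnerProductSpace Kronecker ComplexOrder
open Filter Topology Matrix Finset

namespace Pool.Agent.Helper47.CA

open Pool.Agent.N557.QWX (Op tr IsTracial IsHom)
open Pool.Agent.N859.QX (QWEP)
open Pool.Agent.N859.QW (vN)
open Pool.Agent.W661.RC (hs Le)
open Pool.Agent.W683.RC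

noncomputable section

variable {L : Type} [NormedAddCommGroup L] [InnerProductSpace ℂ L] [CompleteSpace L]
  {N₁ : VonNeumannAlgebra L} {ζ : L}

/-- elements of `A` come from the group algebra of the free group -/
theorem exists_lift (hUNI : S_UNI) (P : Piece N₁ ζ) {x : Op P.H} (hx : x ∈ P.A) :
    ∃ c : MonoidAlgebra ℂ (FreeGroup (UA P.A)), opr (θ1 P) c = x := by
  obtain ⟨c, hc⟩ := hUNI P.H P.A x hx
  refine ⟨∑ v ∈ c.support, MonoidAlgebra.single (FreeGroup.of v) (c v), ?_⟩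
  rw [map_sum, hc, Finsupp.sum]
  refine sum_congr rfl fun v _ => ?_
  rw [opr_single]
  have e : (θ1 P (FreeGroup.of v) : Op P.H) = ((v : unitary (Op P.H)) : Op P.H) := by
    show (((FreeGroup.lift (fun v : UA P.A => v) (FreeGroup.of v) : UA P.A) : unitary (Op P.H)) : Op P.H) = _
    rw [FreeGroup.lift_apply_of]
  rw [e]

/-- The data at the level of the group algebras. -/
structure Dat (n : ℕ) (R Sw : Finset (FreeGroup (Fin n))) (x : FreeGroup (Fin n)) (D κ : ℝ) {S : Type} [Group S]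
    (u : S →* unitary (Op L)) (P : Piece N₁ ζ) (θ : FreeGroup (UA P.A) × S →* unitary (Op P.K))
    {r p : ℕ} (c : Fin n → MonoidAlgebra ℂ (FreeGroup (UA P.A) × S))
    (φ' : Fin r → MonoidAlgebra ℂ (FreeGroup (UA P.A))) (cst : Fin r → Fin r → Fin r → ℂ) (t : Fin r → ℂ)
    (h : Fin p → S) (α : FreeGroup (Fin n) → Fin r → Fin p → ℂ) : Prop where
  bd : ∀ i (m : Type) [Fintype m] [DecidableEq m] (ρ : FreeGroup (UA P.A) × S →* unitaryGroup m ℂ),
    Le ((mrep ρ (c i))ᴴ * mrep ρ (c i)) (((D ^ 2 : ℝ) : ℂ) • 1)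
  un : ∀ i, ‖opr θ (cj (c i) * c i - 1) P.η‖ ≤ (1 + 2 * D) * κ
  rel : ∀ w ∈ R, ‖opr θ (evL c (fun i => cj (c i)) w - 1) P.η‖ ≤ (wl w * D ^ wl w + 1) * κ
  com : ∀ w ∈ Sw, ‖opr θ (evL c (fun i => cj (c i)) w - ∑ k, ∑ l, α w k l • em (φ' k) (h l)) P.η‖ ≤
    (wl w * D ^ wl w + 2) * κ
  e1 : ∀ j i, opr (θ1 P) (φ' j * φ' i - ∑ l, cst j i l • φ' l) = 0
  e2 : ∀ l j, opr (θ1 P) (cj (φ' l) * φ' j - ∑ i, cst j i l • cj (φ' i)) = 0
  e3 : opr (θ1 P) (∑ k, t k • φ' k - 1) = 0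
  e4 : ∀ k, tr P.ξ (opr (θ1 P) (cj (φ' k))) = t k
  e5 : ∀ j k, tr P.ξ (opr (θ1 P) (cj (φ' j) * φ' k)) = if j = k then 1 else 0

/-- the coefficients of the expectation -/
def tau (P : Piece N₁ ζ) {r : ℕ} (φ' : Fin r → MonoidAlgebra ℂ (FreeGroup (UA P.A))) (i : Fin r)
    (w : FreeGroup (UA P.A)) : ℂ := tr P.ξ (opr (θ1 P) (cj (φ' i) * MonoidAlgebra.single w 1))

/-- the element which is small if `d` is close to the subalgebra -/
def q7 (P : Piece N₁ ζ) {S : Type} [Group S] {r : ℕ} (φ' : Fin r → MonoidAlgebra ℂ (FreeGroup (UA P.A)))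
    (d : MonoidAlgebra ℂ (FreeGroup (UA P.A) × S)) : MonoidAlgebra ℂ (FreeGroup (UA P.A) × S) :=
  d - ∑ g ∈ d.coeff.support, ∑ i, (d.coeff g * tau P φ' i g.1) • em (φ' i) g.2

set_option maxHeartbeats 1600000 in
/-- the matrix argument -/
theorem core (hMIC : S_MIC) (hCOM : S_COM) (hBES : S_BES) (hPOL : S_POL)
    (n : ℕ) (R Sw : Finset (FreeGroup (Fin n))) (x : FreeGroup (Fin n)) (δ ε : ℝ) (hδ : 0 < δ) (hε : 0 < ε)
    (hFF : FF n R Sw x δ ε) (D E κ : ℝ) (hD : 1 ≤ D) (hE : 0 ≤ E)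
    (hER : ∀ w ∈ R, (wl w : ℝ) * D ^ wl w ≤ E) (hES : ∀ w ∈ Sw, (wl w : ℝ) * D ^ wl w ≤ E)
    (hEx : (wl x : ℝ) * D ^ wl x ≤ E) (hκ : 0 < κ) (hκδ : 100 * (E + 1) * (D + 1) * κ ≤ √δ)
    {S : Type} [Group S] (u : S →* unitary (Op L)) (hN : GrpAlg N₁ ζ u)
    (hS : RFin S) (P : Piece N₁ ζ) (θ : FreeGroup (UA P.A) × S →* unitary (Op P.K))
    (htr : ∀ (w : FreeGroup (UA P.A)) (h : S), tr P.η (θ (w, h) : Op P.K) =
        tr P.ξ (θ1 P w : Op P.H) * tr ζ (u h : Op L))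
    {r p : ℕ} (c : Fin n → MonoidAlgebra ℂ (FreeGroup (UA P.A) × S))
    (φ' : Fin r → MonoidAlgebra ℂ (FreeGroup (UA P.A))) (cst : Fin r → Fin r → Fin r → ℂ) (t : Fin r → ℂ)
    (h : Fin p → S) (α : FreeGroup (Fin n) → Fin r → Fin p → ℂ)
    (dat : Dat n R Sw x D κ u P θ c φ' cst t h α) :
    ‖opr θ (q7 P φ' (evL c (fun i => cj (c i)) x)) P.η‖ ≤ 10 * (E + 1) * (D + 1) * κ + 9 / 8 * √ε := by
  classical
  have hD0 : 0 < D := by linarith
  set cx := evL c (fun i => cj (c i)) x with hcx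
  set CF : ℝ := ∑ k, n1 (φ' k) with hCF
  have hCF0 : 0 ≤ CF := sum_nonneg fun _ _ => n1_nonneg _
  set A0 : ℝ := ∑ w ∈ Sw, ∑ k, ∑ l, ‖α w k l‖ with hA0
  have hA00 : 0 ≤ A0 := sum_nonneg fun _ _ => sum_nonneg fun _ _ => sum_nonneg fun _ _ => norm_nonneg _
  set β : ℝ := (√δ / (2 * (A0 + 1))) ^ 2 with hβ
  have hsδ : 0 < √δ := Real.sqrt_pos.2 hδ
  have hsε : 0 < √ε := Real.sqrt_pos.2 hε
  have hβ0 : 0 < β := by positivity
  obtain ⟨κc, hκc, hcom⟩ := hCOM r cst t CF β ε (√ε / 8) hβ0 hε.le (by positivity)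
  obtain ⟨κb, hκb, hbes⟩ := hBES r 1 one_pos
  set M0 : ℝ := 1 + n1 cx * (r * CF) with hM0
  have hn1 : 0 ≤ n1 cx := n1_nonneg _
  have hM00 : 0 < M0 := by positivity
  set μ : ℝ := min (min (κ ^ 2) (κ / M0)) (min κc κb) with hμ
  have hμ0 : 0 < μ := lt_min (lt_min (by positivity) (by positivity)) (lt_min hκc hκb)
  have hμ1 : μ ≤ κ ^ 2 := (min_le_left _ _).trans (min_le_left _ _)
  have hμ2 : μ ≤ κ / M0 := (min_le_left _ _).trans (min_le_right _ _)
  have hμ3 : μ ≤ κc := (min_le_right _ _).trans (min_le_left _ _)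
  have hμ4 : μ ≤ κb := (min_le_right _ _).trans (min_le_right _ _)
  -- the model
  obtain ⟨d, X, Q, gQ, fQ, dQ, φ, hd, m1, m2, m3⟩ := exists_model2 hMIC u hN hS P θ htr
    ((univ.image fun i => cj (c i) * c i - 1) ∪ (R.image fun w => evL c (fun i => cj (c i)) w - 1) ∪
      (Sw.image fun w => evL c (fun i => cj (c i)) w - ∑ k, ∑ l, α w k l • em (φ' k) (h l)) ∪
      {q7 P φ' cx})
    ((univ.image fun q : Fin r × Fin r => φ' q.1 * φ' q.2 - ∑ l, cst q.1 q.2 l • φ' l) ∪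
      (univ.image fun q : Fin r × Fin r => cj (φ' q.1) * φ' q.2 - ∑ i, cst q.2 i q.1 • cj (φ' i)) ∪
      {∑ k, t k • φ' k - 1})
    ((univ.image fun k => cj (φ' k)) ∪ (univ.image fun q : Fin r × Fin r => cj (φ' q.1) * φ' q.2) ∪
      ((univ ×ˢ cx.coeff.support).image fun q : Fin r × (FreeGroup (UA P.A) × S) =>
        cj (φ' q.1) * MonoidAlgebra.single q.2.1 1)) μ hμ0
  set ρ1 : FreeGroup (UA P.A) →* unitaryGroup (Fin d) ℂ := FreeGroup.lift X with hρ1
  set ρ : FreeGroup (UA P.A) × S →* unitaryGroup (Fin d × Q) ℂ := rho ρ1 φ with hρ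
  set N : ℝ := (Fintype.card (Fin d × Q) : ℝ) with hNdef
  haveI : Nonempty (Fin d) := ⟨⟨0, hd⟩⟩
  have hcd : (0 : ℝ) < Fintype.card (Fin d) := by exact_mod_cast Fintype.card_pos
  have hcq : (0 : ℝ) < Fintype.card Q := by exact_mod_cast Fintype.card_pos
  have hNprod : N = (Fintype.card (Fin d) : ℝ) * Fintype.card Q := by
    rw [hNdef, Fintype.card_prod]; push_cast; rfl
  have hN0 : 0 < N := by rw [hNprod]; positivity
  set s : ℝ := √N with hs
  have hs0 : 0 < s := Real.sqrt_pos.2 hN0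
  have hss : s = √(Fintype.card (Fin d)) * √(Fintype.card Q) := by
    rw [hs, hNprod, Real.sqrt_mul hcd.le]
  -- the estimates from the model
  have est : ∀ q, |Pool.Agent.W661.RC.hs (mrep ρ q) / N - ‖opr θ q P.η‖ ^ 2| ≤ μ → ∀ T : ℝ, ‖opr θ q P.η‖ ≤ T →
      √(Pool.Agent.W661.RC.hs (mrep ρ q)) ≤ (T + κ) * s := by
    intro q hq T hT
    refine (sqrt_le_of_close hN0 (norm_nonneg _) hκ.le (hq.trans hμ1)).trans ?_
    exact mul_le_mul_of_nonneg_right (by linarith) hs0.le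
  -- unitary matrices
  have hpol : ∀ i, ∃ U : unitaryGroup (Fin d × Q) ℂ, Pool.Agent.W661.RC.hs (mrep ρ (c i) - (U : Matrix _ _ ℂ)) ≤
      Pool.Agent.W661.RC.hs ((mrep ρ (c i))ᴴ * mrep ρ (c i) - 1) := fun i => hPOL (Fin d × Q) (mrep ρ (c i))
  choose U hU using hpol
  set κm : ℝ := (2 + 2 * D) * κ * s with hκm
  have hκm0 : 0 ≤ κm := by positivity
  have hU' : ∀ i, √(Pool.Agent.W661.RC.hs (mrep ρ (c i) - (U i : Matrix (Fin d × Q) (Fin d × Q) ℂ))) ≤ κm := by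
    intro i
    refine (Real.sqrt_le_sqrt (hU i)).trans ?_
    have h1 := est (cj (c i) * c i - 1) (m1 _ (by
      simp only [mem_union, mem_image, mem_univ, true_and]
      exact Or.inl (Or.inl (Or.inl ⟨i, rfl⟩)))) _ (dat.un i)
    rw [map_sub, map_mul, mrep_cj, map_one] at h1
    refine h1.trans (le_of_eq ?_)
    rw [hκm]
    ring
  have hword : ∀ w : FreeGroup (Fin n), √(Pool.Agent.W661.RC.hs (mrep ρ (evL c (fun i => cj (c i)) w) -
      (FreeGroup.lift U w : Matrix (Fin d × Q) (Fin d × Q) ℂ))) ≤ wl w * D ^ wl w * κm := by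
    intro w
    have h1 := word_matrix D κm hD hκm0 (fun i => mrep ρ (c i)) U (fun i => dat.bd i _ ρ) hU' w
    have h2 : mrep ρ (evL c (fun i => cj (c i)) w) =
        evL (fun i => mrep ρ (c i)) (fun i => (mrep ρ (c i))ᴴ) w := by
      have h3 := evL_map (↑(mrep ρ) : MonoidAlgebra ℂ (FreeGroup (UA P.A) × S) →*
        Matrix (Fin d × Q) (Fin d × Q) ℂ) c (fun i => cj (c i)) w
      have h4 : (fun i => mrep ρ (cj (c i))) = fun i => (mrep ρ (c i))ᴴ := by
        funext i; exact mrep_cj ρ (c i)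
      rw [← h4]
      exact h3
    rw [h2]
    exact h1
  have hD1 : 0 < D + 1 := by linarith
  have hE1 : 0 < E + 1 := by linarith
  have hEκ : E * κm ≤ 2 * (E + 1) * (D + 1) * κ * s := by
    rw [hκm]
    have : 0 ≤ (D + 1) * κ * s := by positivity
    nlinarith
  have hEDκ : E * κ ≤ (E + 1) * (D + 1) * κ := by nlinarith [mul_nonneg hE hD0.le, mul_nonneg (mul_nonneg hE hD0.le) hκ.le, mul_nonneg hD0.le hκ.le]
  have h1κ : κ ≤ (E + 1) * (D + 1) * κ := by nlinarith [mul_nonneg hE hD0.le, mul_nonneg (mul_nonneg hE hD0.le) hκ.le, mul_nonneg hD0.le hκ.le, mul_nonneg hE hκ.le]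
  set Z : ℝ := (E + 1) * (D + 1) * κ with hZ
  have hZ0 : 0 ≤ Z := by positivity
  have hZδ : 100 * Z ≤ √δ := by rw [hZ]; linarith [hκδ]
  -- the matrices F
  set F : Fin r → Matrix (Fin d) (Fin d) ℂ := fun k => mrep ρ1 (φ' k) with hF
  have hFle : ∀ k, Le ((F k)ᴴ * F k) (((CF ^ 2 : ℝ) : ℂ) • 1) := by
    intro k
    refine Le_trans (mrep_le ρ1 (φ' k)) ?_
    have h1 : n1 (φ' k) ≤ CF := single_le_sum (f := fun k => n1 (φ' k)) (fun _ _ => n1_nonneg _) (mem_univ k)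
    have h2 : n1 (φ' k) ^ 2 ≤ CF ^ 2 := pow_le_pow_left₀ (n1_nonneg _) h1 2
    exact Le_smul_right Matrix.PosSemidef.one h2
  have z1 : ∀ q, opr (θ1 P) q = 0 → |Pool.Agent.W661.RC.hs (mrep ρ1 q) / Fintype.card (Fin d) -
      ‖opr (θ1 P) q P.ξ‖ ^ 2| ≤ μ → Pool.Agent.W661.RC.hs (mrep ρ1 q) ≤ κc * Fintype.card (Fin d) := by
    intro q hq hq2
    rw [hq] at hq2
    simp only [_root_.zero_apply, norm_zero, ne_eq, OfNat.ofNat_ne_zero, not_false_eq_true, zero_pow,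
      sub_zero] at hq2
    have h1 := (le_abs_self _).trans (hq2.trans hμ3)
    rwa [div_le_iff₀ hcd] at h1
  have f1 : ∀ j i, Pool.Agent.W661.RC.hs (F j * F i - ∑ l, cst j i l • F l) ≤ κc * Fintype.card (Fin d) := by
    intro j i
    have h1 := z1 _ (dat.e1 j i) (m2 _ (by
      simp only [mem_union, mem_image, mem_univ, true_and]
      exact Or.inl (Or.inl ⟨(j, i), rfl⟩)))
    rw [map_sub, map_mul, map_sum] at h1
    simp only [map_smul] at h1
    exact h1
  have f2 : ∀ l j, Pool.Agent.W661.RC.hs ((F l)ᴴ * F j - ∑ i, cst j i l • (F i)ᴴ) ≤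
      κc * Fintype.card (Fin d) := by
    intro l j
    have h1 := z1 _ (dat.e2 l j) (m2 _ (by
      simp only [mem_union, mem_image, mem_univ, true_and]
      exact Or.inl (Or.inr ⟨(l, j), rfl⟩)))
    rw [map_sub, map_mul, map_sum, mrep_cj] at h1
    simp only [map_smul, mrep_cj] at h1
    exact h1
  have f3 : Pool.Agent.W661.RC.hs (∑ i, t i • F i - 1) ≤ κc * Fintype.card (Fin d) := by
    have h1 := z1 _ dat.e3 (m2 _ (by
      simp only [mem_union, mem_singleton, or_true]))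
    rw [map_sub, map_sum, map_one] at h1
    simp only [map_smul] at h1
    exact h1
  have f4 : ∀ k, ‖trace ((F k)ᴴ) / (Fintype.card (Fin d) : ℂ) - t k‖ ≤ κc := by
    intro k
    have h1 := m3 (cj (φ' k)) (by
      simp only [mem_union, mem_image, mem_univ, true_and]
      exact Or.inl (Or.inl ⟨k, rfl⟩))
    rw [mrep_cj, dat.e4] at h1
    exact h1.trans hμ3
  have f5 : ∀ j k, ‖trace ((F j)ᴴ * F k) / (Fintype.card (Fin d) : ℂ) - (if j = k then 1 else 0)‖ ≤ κb := by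
    intro j k
    have h1 := m3 (cj (φ' j) * φ' k) (by
      simp only [mem_union, mem_image, mem_univ, true_and]
      exact Or.inl (Or.inr ⟨(j, k), rfl⟩))
    rw [map_mul, mrep_cj, dat.e5] at h1
    exact h1.trans hμ4
  -- the relations
  have g1 : ∀ w ∈ R, Pool.Agent.W661.RC.hs ((FreeGroup.lift U w : Matrix (Fin d × Q) (Fin d × Q) ℂ) - 1) ≤
      δ * Fintype.card (Fin d × Q) := by
    intro w hw
    have h1 := est (evL c (fun i => cj (c i)) w - 1) (m1 _ (by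
      simp only [mem_union, mem_image, mem_univ, true_and]
      exact Or.inl (Or.inl (Or.inr ⟨w, hw, rfl⟩)))) _ (dat.rel w hw)
    rw [map_sub, map_one] at h1
    have h2 := hword w
    have h3 : √(Pool.Agent.W661.RC.hs ((FreeGroup.lift U w : Matrix (Fin d × Q) (Fin d × Q) ℂ) - 1)) ≤ √δ * s := by
      have e : (FreeGroup.lift U w : Matrix (Fin d × Q) (Fin d × Q) ℂ) - 1 =
          (mrep ρ (evL c (fun i => cj (c i)) w) - 1) -
          (mrep ρ (evL c (fun i => cj (c i)) w) - (FreeGroup.lift U w : Matrix (Fin d × Q) (Fin d × Q) ℂ)) := by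
        abel
      rw [e]
      refine (sqrt_hs_sub_le _ _).trans ?_
      have h4 : (wl w : ℝ) * D ^ wl w * κm ≤ E * κm := mul_le_mul_of_nonneg_right (hER w hw) hκm0
      have h5 : ((wl w * D ^ wl w + 1) * κ + κ) * s ≤ (E * κ + 2 * κ) * s := by
        refine mul_le_mul_of_nonneg_right ?_ hs0.le
        nlinarith [mul_le_mul_of_nonneg_right (hER w hw) hκ.le]
      have h6 : (E * κ + 2 * κ) * s ≤ 3 * Z * s := mul_le_mul_of_nonneg_right (by linarith) hs0.le
      have h7 : E * κm ≤ 2 * Z * s := by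
        refine hEκ.trans (le_of_eq ?_)
        rw [hZ]; ring
      have h8 : 5 * Z * s ≤ √δ * s := mul_le_mul_of_nonneg_right (by linarith) hs0.le
      linarith
    have h4 := pow_le_pow_left₀ (Real.sqrt_nonneg _) h3 2
    rw [Real.sq_sqrt (hs_nonneg _), mul_pow, Real.sq_sqrt hδ.le, hs, Real.sq_sqrt hN0.le] at h4
    exact h4
  have g2 : ∀ V0 : Matrix (Fin d) (Fin d) ℂ, Le (V0ᴴ * V0) 1 →
      (∀ i, Pool.Agent.W661.RC.hs (V0 * F i - F i * V0) ≤ β * Fintype.card (Fin d)) → ∀ w ∈ Sw,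
      Pool.Agent.W661.RC.hs ((FreeGroup.lift U w : Matrix (Fin d × Q) (Fin d × Q) ℂ) *
        (V0 ⊗ₖ (1 : Matrix Q Q ℂ)) - (V0 ⊗ₖ (1 : Matrix Q Q ℂ)) *
        (FreeGroup.lift U w : Matrix (Fin d × Q) (Fin d × Q) ℂ)) ≤ δ * Fintype.card (Fin d × Q) := by
    intro V0 hV0 hVF w hw
    have h1 := est _ (m1 _ (by
      simp only [mem_union, mem_image, mem_univ, true_and]
      exact Or.inl (Or.inr ⟨w, hw, rfl⟩))) _ (dat.com w hw)
    have e0 : mrep ρ (∑ k, ∑ l, α w k l • em (φ' k) (h l)) = ∑ k, ∑ l, α w k l • (F k ⊗ₖ lamM (φ (h l))) := by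
      rw [map_sum]
      refine sum_congr rfl fun k _ => ?_
      rw [map_sum]
      refine sum_congr rfl fun l _ => ?_
      rw [map_smul, mrep_em]
    rw [map_sub, e0] at h1
    set G := ∑ k, ∑ l, α w k l • (F k ⊗ₖ lamM (φ (h l))) with hG
    have h2 := hword w
    set W := (FreeGroup.lift U w : Matrix (Fin d × Q) (Fin d × Q) ℂ) with hW
    set V := V0 ⊗ₖ (1 : Matrix Q Q ℂ) with hV
    have hVle : Le (Vᴴ * V) 1 := le_kron hV0
    have h3 : √(Pool.Agent.W661.RC.hs (W - G)) ≤ 6 * Z * s := by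
      have e : W - G = (mrep ρ (evL c (fun i => cj (c i)) w) - G) -
          (mrep ρ (evL c (fun i => cj (c i)) w) - W) := by abel
      rw [e]
      refine (sqrt_hs_sub_le _ _).trans ?_
      have h4 : (wl w : ℝ) * D ^ wl w * κm ≤ E * κm := mul_le_mul_of_nonneg_right (hES w hw) hκm0
      have h5 : ((wl w * D ^ wl w + 2) * κ + κ) * s ≤ (E * κ + 3 * κ) * s := by
        refine mul_le_mul_of_nonneg_right ?_ hs0.le
        nlinarith [mul_le_mul_of_nonneg_right (hES w hw) hκ.le]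
      have h6 : (E * κ + 3 * κ) * s ≤ 4 * Z * s := mul_le_mul_of_nonneg_right (by linarith) hs0.le
      have h7 : E * κm ≤ 2 * Z * s := by
        refine hEκ.trans (le_of_eq ?_)
        rw [hZ]; ring
      linarith
    have h4 : √(Pool.Agent.W661.RC.hs (G * V - V * G)) ≤ √δ / 2 * s := by
      have h5 := comm_bound F (fun l => φ (h l)) (α w) V0 (√δ / (2 * (A0 + 1)) * √(Fintype.card (Fin d)))
        (fun k => by
          have := Real.sqrt_le_sqrt (hVF k)
          rwa [Real.sqrt_mul hβ0.le, hβ, Real.sqrt_sq (by positivity)] at this)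
      refine h5.trans ?_
      have h6 : (∑ k, ∑ l, ‖α w k l‖) ≤ A0 := single_le_sum
        (f := fun w => ∑ k, ∑ l, ‖α w k l‖)
        (fun _ _ => sum_nonneg fun _ _ => sum_nonneg fun _ _ => norm_nonneg _) hw
      have h7 : √δ / (2 * (A0 + 1)) * √(Fintype.card (Fin d)) * √(Fintype.card Q) =
          √δ / (2 * (A0 + 1)) * s := by rw [hss]; ring
      rw [h7]
      have h8 : (∑ k, ∑ l, ‖α w k l‖) * (√δ / (2 * (A0 + 1)) * s) ≤ A0 * (√δ / (2 * (A0 + 1)) * s) :=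
        mul_le_mul_of_nonneg_right h6 (by positivity)
      refine h8.trans ?_
      have h9 : A0 * (√δ / (2 * (A0 + 1)) * s) = (A0 / (A0 + 1)) * (√δ / 2 * s) := by
        field_simp
      rw [h9]
      have h10 : A0 / (A0 + 1) ≤ 1 := by
        rw [div_le_one (by linarith)]; linarith
      have h11 : 0 ≤ √δ / 2 * s := by positivity
      nlinarith
    have h5 : √(Pool.Agent.W661.RC.hs (W * V - V * W)) ≤ √δ * s := by
      have e : W * V - V * W = ((W - G) * V - V * (W - G)) + (G * V - V * G) := by noncomm_ring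
      rw [e]
      refine (sqrt_hs_add_le _ _).trans ?_
      have k1 : √(Pool.Agent.W661.RC.hs ((W - G) * V - V * (W - G))) ≤ 12 * Z * s := by
        refine (sqrt_hs_sub_le _ _).trans ?_
        have k2 := Real.sqrt_le_sqrt (hs_mul_le_right hVle (W - G))
        have k3 := Real.sqrt_le_sqrt (hs_mul_le hVle (W - G))
        linarith
      have k4 : 12 * Z * s ≤ √δ / 2 * s := mul_le_mul_of_nonneg_right (by linarith) hs0.le
      linarith
    have h6 := pow_le_pow_left₀ (Real.sqrt_nonneg _) h5 2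
    rw [Real.sq_sqrt (hs_nonneg _), mul_pow, Real.sq_sqrt hδ.le, hs, Real.sq_sqrt hN0.le] at h6
    exact h6
  -- the conclusion of the rigidity and of the commutant argument
  set z := (FreeGroup.lift U x : Matrix (Fin d × Q) (Fin d × Q) ℂ) with hz
  have hcast : ((Fintype.card (Fin d) : ℝ) * Fintype.card Q) = N := hNprod.symm
  have g3 := hcom (Fin d) Q F z hFle f1 f2 f3 f4 (by
      have : zᴴ * z = 1 := mem_unitaryGroup_iff'.1 (FreeGroup.lift U x).2
      rw [this]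
      exact Le_refl 1) (by
      intro V0 hV0 hVF
      have h1 := hFF (Fin d × Q) U (V0 ⊗ₖ (1 : Matrix Q Q ℂ)) g1 (le_kron hV0) (g2 V0 hV0 hVF)
      rw [hs_sub_comm, hcast]
      exact h1)
  rw [hcast] at g3
  have g4 : √(Pool.Agent.W661.RC.hs (z - EE F z)) ≤ (√ε + √ε / 8) * s := by
    calc √(Pool.Agent.W661.RC.hs (z - EE F z)) ≤ √((√ε + √ε / 8) ^ 2 * N) := Real.sqrt_le_sqrt g3
      _ = (√ε + √ε / 8) * s := by rw [Real.sqrt_mul (sq_nonneg _), Real.sqrt_sq (by positivity)]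
  have g5 : √(Pool.Agent.W661.RC.hs (mrep ρ cx - z)) ≤ 2 * Z * s := by
    refine (hword x).trans ((mul_le_mul_of_nonneg_right hEx hκm0).trans (hEκ.trans (le_of_eq ?_)))
    rw [hZ]; ring
  have g6 : √(Pool.Agent.W661.RC.hs (EE F z - EE F (mrep ρ cx))) ≤ 4 * Z * s := by
    rw [← EE_sub]
    have h1 := hbes (Fin d) Q F f5 (z - mrep ρ cx)
    rw [hs_sub_comm z] at h1
    have h2 : √(Pool.Agent.W661.RC.hs (EE F (z - mrep ρ cx))) ≤ 2 * √(Pool.Agent.W661.RC.hs (mrep ρ cx - z)) := by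
      refine (Real.sqrt_le_sqrt h1).trans ?_
      rw [Real.sqrt_mul (by norm_num)]
      refine mul_le_mul_of_nonneg_right ?_ (Real.sqrt_nonneg _)
      rw [Real.sqrt_le_left (by norm_num)]
      norm_num
    linarith
  have e7 : mrep ρ (q7 P φ' cx) = mrep ρ cx - ∑ g ∈ cx.coeff.support, ∑ i,
      (cx.coeff g * tau P φ' i g.1) • (F i ⊗ₖ lamM (φ g.2)) := by
    unfold q7
    rw [map_sub, map_sum]
    congr 1
    refine sum_congr rfl fun g _ => ?_
    rw [map_sum]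
    refine sum_congr rfl fun i _ => ?_
    rw [map_smul, mrep_em]
  have e8 : EE F (mrep ρ cx) = ∑ g ∈ cx.coeff.support, ∑ i,
      (cx.coeff g * (trace ((F i)ᴴ * (ρ1 g.1 : Matrix (Fin d) (Fin d) ℂ)) / (Fintype.card (Fin d) : ℂ))) •
        (F i ⊗ₖ lamM (φ g.2)) := by
    rw [mrep_eq, EE_sum]
    refine sum_congr rfl fun g _ => ?_
    have : (ρ g : Matrix (Fin d × Q) (Fin d × Q) ℂ) = (ρ1 g.1 : Matrix (Fin d) (Fin d) ℂ) ⊗ₖ lamM (φ g.2) := rfl
    rw [EE_smul, this, EE_kron, Finset.smul_sum]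
    refine sum_congr rfl fun i _ => ?_
    rw [smul_smul]
  have g8 : √(Pool.Agent.W661.RC.hs (EE F (mrep ρ cx) - ∑ g ∈ cx.coeff.support, ∑ i,
      (cx.coeff g * tau P φ' i g.1) • (F i ⊗ₖ lamM (φ g.2)))) ≤ κ * s := by
    rw [e8, ← Finset.sum_sub_distrib]
    refine (sqrt_hs_sum_le _ _).trans ?_
    have h1 : ∀ g ∈ cx.coeff.support, √(Pool.Agent.W661.RC.hs (∑ i,
        (cx.coeff g * (trace ((F i)ᴴ * (ρ1 g.1 : Matrix (Fin d) (Fin d) ℂ)) / (Fintype.card (Fin d) : ℂ))) •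
        (F i ⊗ₖ lamM (φ g.2)) - ∑ i, (cx.coeff g * tau P φ' i g.1) • (F i ⊗ₖ lamM (φ g.2)))) ≤
        ‖cx.coeff g‖ * (r * (μ * (CF * s))) := by
      intro g hg
      rw [← Finset.sum_sub_distrib]
      refine (sqrt_hs_sum_le _ _).trans ?_
      have h2 : ∀ i ∈ (univ : Finset (Fin r)), √(Pool.Agent.W661.RC.hs (
          (cx.coeff g * (trace ((F i)ᴴ * (ρ1 g.1 : Matrix (Fin d) (Fin d) ℂ)) / (Fintype.card (Fin d) : ℂ))) •
          (F i ⊗ₖ lamM (φ g.2)) - (cx.coeff g * tau P φ' i g.1) • (F i ⊗ₖ lamM (φ g.2)))) ≤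
          ‖cx.coeff g‖ * (μ * (CF * s)) := by
        intro i _
        rw [← sub_smul, ← mul_sub, hs_smul, Real.sqrt_mul (sq_nonneg _), Real.sqrt_sq (norm_nonneg _), norm_mul,
          mul_assoc]
        refine mul_le_mul_of_nonneg_left ?_ (norm_nonneg _)
        refine mul_le_mul ?_ ?_ (Real.sqrt_nonneg _) hμ0.le
        · have h3 := m3 (cj (φ' i) * MonoidAlgebra.single g.1 1) (by
            simp only [mem_union, mem_image, mem_product, mem_univ, true_and]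
            exact Or.inr ⟨(i, g), hg, rfl⟩)
          rw [map_mul, mrep_cj, mrep_single, one_smul] at h3
          exact h3
        · rw [hs_kron, hs_lamM, Real.sqrt_mul (hs_nonneg _), hss, ← mul_assoc]
          refine mul_le_mul_of_nonneg_right ?_ (Real.sqrt_nonneg _)
          have h4 := hs_one_le (hFle i)
          refine (Real.sqrt_le_sqrt h4).trans (le_of_eq ?_)
          rw [Real.sqrt_mul (sq_nonneg _), Real.sqrt_sq hCF0]
      refine (sum_le_sum h2).trans (le_of_eq ?_)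
      rw [sum_const, card_univ, Fintype.card_fin, nsmul_eq_mul]
      ring
    refine (sum_le_sum h1).trans ?_
    rw [← Finset.sum_mul]
    have h5 : (∑ g ∈ cx.coeff.support, ‖cx.coeff g‖) * (r * (μ * (CF * s))) = n1 cx * (r * CF) * μ * s := by
      rw [n1]; ring
    rw [h5]
    refine mul_le_mul_of_nonneg_right ?_ hs0.le
    have h6 : n1 cx * (r * CF) ≤ M0 := by rw [hM0]; linarith
    calc n1 cx * (r * CF) * μ ≤ M0 * (κ / M0) := mul_le_mul h6 hμ2 hμ0.le hM00.le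
      _ = κ := by field_simp
  have g9 : √(Pool.Agent.W661.RC.hs (mrep ρ (q7 P φ' cx))) ≤ (6 * Z + 9 / 8 * √ε + κ) * s := by
    rw [e7]
    have e : mrep ρ cx - ∑ g ∈ cx.coeff.support, ∑ i, (cx.coeff g * tau P φ' i g.1) • (F i ⊗ₖ lamM (φ g.2)) =
        (mrep ρ cx - z) + (z - EE F z) + (EE F z - EE F (mrep ρ cx)) +
        (EE F (mrep ρ cx) - ∑ g ∈ cx.coeff.support, ∑ i, (cx.coeff g * tau P φ' i g.1) •
          (F i ⊗ₖ lamM (φ g.2))) := by abel
    rw [e]
    have a1 := sqrt_hs_add_le ((mrep ρ cx - z) + (z - EE F z) + (EE F z - EE F (mrep ρ cx)))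
      (EE F (mrep ρ cx) - ∑ g ∈ cx.coeff.support, ∑ i, (cx.coeff g * tau P φ' i g.1) •
          (F i ⊗ₖ lamM (φ g.2)))
    have a2 := sqrt_hs_add_le ((mrep ρ cx - z) + (z - EE F z)) (EE F z - EE F (mrep ρ cx))
    have a3 := sqrt_hs_add_le (mrep ρ cx - z) (z - EE F z)
    linarith
  have g10 := le_of_close hN0 hκ.le (t := ‖opr θ (q7 P φ' cx) P.η‖) (s := 6 * Z + 9 / 8 * √ε + κ) (by positivity)
    (hs_nonneg _) ((m1 (q7 P φ' cx) (by simp only [mem_union, mem_singleton, or_true])).trans hμ1) g9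
  have : 10 * (E + 1) * (D + 1) * κ = 10 * Z := by rw [hZ]; ring
  rw [this]
  linarith

end

end Pool.Agent.Helper47.CA
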