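import Pool.Agent.Helper47.CA.MainB

/-!
# The main step: the theorem
-/

set_option autoImplicit false
set_option linter.unusedSectionVars false
set_option linter.unusedVariables false

open scoped InnerProductSpace Kronecker ComplexOrder
open Filter Topology Matrix Finset

namespace Pool.Agent.Helper47.CA

open Pool.Agent.N557.QWX (Op tr IsTracial IsHom)
open Pool.Agent.N859.QX (QWEP)
open Pool.Agent.N859.QW (vN)
open Pool.Agent.W661.RC (hs Le)
open Pool.Agent.W683.RC

noncomputable section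

variable {L : Type} [NormedAddCommGroup L] [InnerProductSpace ℂ L] [CompleteSpace L]
  {N₁ : VonNeumannAlgebra L} {ζ : L}

theorem TN_mem_i (P : Piece N₁ ζ) {b : Op P.H} (hb : b ∈ P.B) : P.i b ∈ P.TN := subset_vN (Or.inl ⟨b, hb, rfl⟩)

theorem TN_mem_j (P : Piece N₁ ζ) {c : Op L} (hc : c ∈ N₁) : P.j c ∈ P.TN := subset_vN (Or.inr ⟨c, hc, rfl⟩)

theorem mem_smul {K : Type} [NormedAddCommGroup K] [InnerProductSpace ℂ K] [CompleteSpace K]
    {T : VonNeumannAlgebra K} {x : Op K} (c : ℂ) (hx : x ∈ T) : c • x ∈ T :=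
  SMulMemClass.smul_mem (S := StarSubalgebra ℂ (Op K)) c hx

theorem mem_sum' {K : Type} [NormedAddCommGroup K] [InnerProductSpace ℂ K] [CompleteSpace K]
    {T : VonNeumannAlgebra K} {ι : Type} (s : Finset ι) (f : ι → Op K) (h : ∀ i ∈ s, f i ∈ T) :
    ∑ i ∈ s, f i ∈ T := by
  show ∑ i ∈ s, f i ∈ T.toStarSubalgebra
  exact sum_mem h

theorem nadd {K : Type} [NormedAddCommGroup K] [InnerProductSpace ℂ K] (x y : Op K) (η : K) :
    ‖(x + y) η‖ ≤ ‖x η‖ + ‖y η‖ := norm_add_le _ _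

theorem nsub {K : Type} [NormedAddCommGroup K] [InnerProductSpace ℂ K] (x y : Op K) (η : K) :
    ‖(x - y) η‖ ≤ ‖x η‖ + ‖y η‖ := norm_sub_le _ _

theorem nadd3 {K : Type} [NormedAddCommGroup K] [InnerProductSpace ℂ K] (x y z : Op K) (η : K) :
    ‖(x + y + z) η‖ ≤ ‖x η‖ + ‖y η‖ + ‖z η‖ := norm_add₃_le

theorem opr_evL {Γ : Type} [Group Γ] {K : Type} [NormedAddCommGroup K] [InnerProductSpace ℂ K] [CompleteSpace K]
    (θ : Γ →* unitary (Op K)) {n : ℕ} (c : Fin n → MonoidAlgebra ℂ Γ) (w : FreeGroup (Fin n)) :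
    opr θ (evL c (fun i => cj (c i)) w) = evL (fun i => opr θ (c i)) (fun i => star (opr θ (c i))) w := by
  have h3 := evL_map (↑(opr θ) : MonoidAlgebra ℂ Γ →* Op K) c (fun i => cj (c i)) w
  have h4 : (fun i => opr θ (cj (c i))) = fun i => star (opr θ (c i)) := by
    funext i; exact opr_cj θ (c i)
  rw [← h4]
  exact h3

set_option maxHeartbeats 1600000 in
theorem main_of (hMIC : S_MIC) (hKAP : S_KAP) (hTH : S_TH) (hDEN : S_DEN) (hHYP : S_HYP) (hUNI : S_UNI)
    (hCOM : S_COM) (hBES : S_BES) (hPOL : S_POL) : S_MAIN := by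
  classical
  intro n R Sw x δ ε C hδ hε hFF
  have hC0 : 0 ≤ |C| := abs_nonneg C
  obtain ⟨D, hD⟩ : ∃ D : ℝ, D = 2 * |C| + 1 := ⟨_, rfl⟩
  have hD1 : 1 ≤ D := by linarith
  have hD0 : 0 < D := by linarith
  set WW : Finset (FreeGroup (Fin n)) := insert x (R ∪ Sw) with hWW
  obtain ⟨E, hE⟩ : ∃ E : ℝ, E = (WW.sup wl : ℕ) * D ^ (WW.sup wl) := ⟨_, rfl⟩
  have hE0 : 0 ≤ E := by rw [hE]; positivity
  have hEw : ∀ w ∈ WW, (wl w : ℝ) * D ^ wl w ≤ E := by
    intro w hw
    have h1 : wl w ≤ WW.sup wl := le_sup (f := wl) hw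
    rw [hE]
    exact mul_le_mul (by exact_mod_cast h1) (pow_le_pow_right₀ hD1 h1) (by positivity) (by positivity)
  have hER : ∀ w ∈ R, (wl w : ℝ) * D ^ wl w ≤ E := fun w hw => hEw w (by simp [hWW, hw])
  have hES : ∀ w ∈ Sw, (wl w : ℝ) * D ^ wl w ≤ E := fun w hw => hEw w (by simp [hWW, hw])
  have hEx : (wl x : ℝ) * D ^ wl x ≤ E := hEw x (by simp [hWW])
  have hsδ : 0 < √δ := Real.sqrt_pos.2 hδ
  have hsε : 0 < √ε := Real.sqrt_pos.2 hε
  have hden : 0 < 100 * (E + 1) * (D + 1) := by positivity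
  obtain ⟨κ, hκdef⟩ : ∃ κ : ℝ, κ = min (√δ) (√ε) / (100 * (E + 1) * (D + 1)) := ⟨_, rfl⟩
  have hκ : 0 < κ := by rw [hκdef]; exact div_pos (lt_min hsδ hsε) hden
  have hκe : 100 * (E + 1) * (D + 1) * κ = min (√δ) (√ε) := by
    rw [hκdef]; field_simp
  have hκδ : 100 * (E + 1) * (D + 1) * κ ≤ √δ := hκe.le.trans (min_le_left _ _)
  have hκε : 100 * (E + 1) * (D + 1) * κ ≤ √ε := hκe.le.trans (min_le_right _ _)
  refine ⟨κ, hκ, ?_⟩
  intro L _ _ _ N₁ ζ S _ u hN hS P a haT haC haU haR haS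
  obtain ⟨θ, hθ, hθT, htr⟩ := hTH L N₁ ζ S u hN P
  have dens := hDEN L N₁ ζ S u hN P θ hθ
  have hkap : ∀ i, ∃ c : MonoidAlgebra ℂ (FreeGroup (UA P.A) × S),
      ‖(opr θ c - a i) P.η‖ ≤ κ ∧ ‖opr θ c‖ ≤ 2 * |C| ∧
      ∀ (m : Type) [Fintype m] [DecidableEq m] (ρ : FreeGroup (UA P.A) × S →* unitaryGroup m ℂ),
        Le ((mrep ρ c)ᴴ * mrep ρ c) ((((2 * |C|) ^ 2 : ℝ) : ℂ) • 1) := fun i =>
    hKAP P.K P.T P.η _ θ P.tensor.tracial hθT dens (a i) (haT i) |C| ((haC i).trans (le_abs_self C)) κ hκ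
  choose c hc1 hc2 hc3 using hkap
  have hT := P.tensor.tracial
  set b : Fin n → Op P.K := fun i => opr θ (c i) with hb
  have hbT : ∀ i, b i ∈ P.T := fun i => opr_mem hθT (c i)
  have hnb : ∀ i, ‖b i‖ ≤ D := fun i => (hc2 i).trans (by linarith)
  have hna : ∀ i, ‖a i‖ ≤ D := fun i => ((haC i).trans (le_abs_self C)).trans (by linarith)
  have hword := fun w => word_op hT D κ hD1 hκ.le a b haT hbT hna hnb hc1 w
  -- the elements of the subalgebra
  choose bS hbS1 hbS2 using haS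
  obtain ⟨r, f, cst, t, p, h, α', hfB, r1, r2, r3, r4, r5, hα'⟩ := hHYP L N₁ ζ S u hN P Sw.card
    (fun j => bS (Sw.equivFin.symm j).1 (Sw.equivFin.symm j).2) (fun j => hbS1 _ _) κ hκ
  set α : FreeGroup (Fin n) → Fin r → Fin p → ℂ := fun w =>
    if hw : w ∈ Sw then α' (Sw.equivFin ⟨w, hw⟩) else 0 with hα
  have hα2 : ∀ w (hw : w ∈ Sw), ‖(bS w hw - ∑ k, ∑ l, α w k l • (P.i (f k) * P.j (u (h l) : Op L))) P.η‖ ≤ κ := by
    intro w hw
    have h1 := hα' (Sw.equivFin ⟨w, hw⟩)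
    have h2 : (Sw.equivFin.symm (Sw.equivFin ⟨w, hw⟩)) = ⟨w, hw⟩ := Equiv.symm_apply_apply _ _
    simp only [h2] at h1
    have h3 : α w = α' (Sw.equivFin ⟨w, hw⟩) := by rw [hα]; exact dif_pos hw
    rw [h3]
    exact h1
  have hlift : ∀ k, ∃ c : MonoidAlgebra ℂ (FreeGroup (UA P.A)), opr (θ1 P) c = f k := fun k =>
    exists_lift hUNI P (P.le (hfB k))
  choose φ' hφ' using hlift
  have hem : ∀ k (g : S), opr θ (em (φ' k) g) = P.i (f k) * P.j (u g : Op L) := by
    intro k g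
    rw [opr_em P hθ, hφ']
  have dat : Dat n R Sw x D κ u P θ c φ' cst t h α := by
    refine ⟨?_, ?_, ?_, ?_, ?_, ?_, ?_, ?_, ?_⟩
    · intro i m _ _ ρ
      refine Le_trans (hc3 i m ρ) (Le_smul_right Matrix.PosSemidef.one ?_)
      exact pow_le_pow_left₀ (by positivity) (by linarith) 2
    · intro i
      rw [map_sub, map_mul, opr_cj, map_one]
      have e : star (b i) * b i - 1 = star (b i) * (b i - a i) + (star (b i) - star (a i)) * a i +
          (star (a i) * a i - 1) := by noncomm_ring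
      change ‖(star (b i) * b i - 1) P.η‖ ≤ _
      rw [e]
      have k1 : ‖(star (b i) * (b i - a i)) P.η‖ ≤ D * κ := by
        refine (norm_mul_ap _ _ _).trans ?_
        rw [norm_star]
        exact mul_le_mul (hnb i) (hc1 i) (norm_nonneg _) hD0.le
      have k2 : ‖((star (b i) - star (a i)) * a i) P.η‖ ≤ D * κ := by
        refine (norm_mul_ap' hT (mem_sub (mem_star (hbT i)) (mem_star (haT i))) (haT i)).trans ?_
        rw [← star_sub, norm_star_ap hT (mem_sub (hbT i) (haT i))]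
        exact mul_le_mul (hna i) (hc1 i) (norm_nonneg _) hD0.le
      have k3 := haU i
      calc ‖(star (b i) * (b i - a i) + (star (b i) - star (a i)) * a i + (star (a i) * a i - 1)) P.η‖
          ≤ ‖(star (b i) * (b i - a i)) P.η‖ + ‖((star (b i) - star (a i)) * a i) P.η‖ +
            ‖(star (a i) * a i - 1) P.η‖ := nadd3 _ _ _ _
        _ ≤ (1 + 2 * D) * κ := by linarith
    · intro w hw
      rw [map_sub, opr_evL, map_one]
      have e : evL b (fun i => star (b i)) w - 1 =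
          (evL b (fun i => star (b i)) w - evL a (fun i => star (a i)) w) +
          (evL a (fun i => star (a i)) w - 1) := by abel
      change ‖(evL b (fun i => star (b i)) w - 1) P.η‖ ≤ _
      rw [e]
      refine (nadd _ _ _).trans ?_
      have k1 := (hword w).2.2
      have k2 := haR w hw
      linarith
    · intro w hw
      rw [map_sub, opr_evL, map_sum]
      have e0 : ∑ k, opr θ (∑ l, α w k l • em (φ' k) (h l)) =
          ∑ k, ∑ l, α w k l • (P.i (f k) * P.j (u (h l) : Op L)) := by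
        refine sum_congr rfl fun k _ => ?_
        rw [map_sum]
        refine sum_congr rfl fun l _ => ?_
        rw [map_smul, hem]
      rw [e0]
      have e : evL b (fun i => star (b i)) w - ∑ k, ∑ l, α w k l • (P.i (f k) * P.j (u (h l) : Op L)) =
          (evL b (fun i => star (b i)) w - evL a (fun i => star (a i)) w) +
          (evL a (fun i => star (a i)) w - bS w hw) +
          (bS w hw - ∑ k, ∑ l, α w k l • (P.i (f k) * P.j (u (h l) : Op L))) := by abel
      change ‖(evL b (fun i => star (b i)) w - ∑ k, ∑ l, α w k l • (P.i (f k) * P.j (u (h l) : Op L))) P.η‖ ≤ _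
      rw [e]
      refine (nadd3 _ _ _ _).trans ?_
      have k1 := (hword w).2.2
      have k2 := hbS2 w hw
      have k3 := hα2 w hw
      linarith
    · intro j i
      rw [map_sub, map_mul, map_sum, hφ', hφ', r1]
      simp only [map_smul, hφ', sub_self]
    · intro l j
      rw [map_sub, map_mul, map_sum, opr_cj, hφ', hφ', r2]
      simp only [map_smul, opr_cj, hφ', sub_self]
    · rw [map_sub, map_sum, map_one]
      simp only [map_smul, hφ']
      rw [r3, sub_self]
    · intro k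
      rw [opr_cj, hφ']
      exact r4 k
    · intro j k
      rw [map_mul, opr_cj, hφ', hφ']
      exact r5 j k
  have hcore := core hMIC hCOM hBES hPOL n R Sw x δ ε hδ hε hFF D E κ hD1 hE0 hER hES hEx hκ hκδ u hN hS P θ
    (fun w g => htr w g) c φ' cst t h α dat
  set cx := evL c (fun i => cj (c i)) x with hcx
  refine ⟨∑ g ∈ cx.coeff.support, ∑ i, (cx.coeff g * tau P φ' i g.1) • (P.i (f i) * P.j (u g.2 : Op L)), ?_, ?_⟩
  · refine mem_sum' _ _ fun g _ => mem_sum' _ _ fun i _ => mem_smul _ (mem_mul (TN_mem_i P (hfB i)) (TN_mem_j P (hN.mem _)))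
  · have e1 : opr θ (q7 P φ' cx) = evL b (fun i => star (b i)) x -
        ∑ g ∈ cx.coeff.support, ∑ i, (cx.coeff g * tau P φ' i g.1) • (P.i (f i) * P.j (u g.2 : Op L)) := by
      unfold q7
      rw [map_sub, hcx, opr_evL, map_sum]
      congr 1
      refine sum_congr rfl fun g _ => ?_
      rw [map_sum]
      refine sum_congr rfl fun i _ => ?_
      rw [map_smul, hem]
    set B := ∑ g ∈ cx.coeff.support, ∑ i, (cx.coeff g * tau P φ' i g.1) • (P.i (f i) * P.j (u g.2 : Op L)) with hB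
    have e2 : evL a (fun i => star (a i)) x - B =
        (evL b (fun i => star (b i)) x - B) - (evL b (fun i => star (b i)) x - evL a (fun i => star (a i)) x) := by
      abel
    rw [e2]
    rw [e1] at hcore
    refine (nsub _ _ _).trans ?_
    have k1 := (hword x).2.2
    have k2 : (wl x : ℝ) * D ^ wl x * κ ≤ E * κ := mul_le_mul_of_nonneg_right hEx hκ.le
    have k3 : E * κ ≤ (E + 1) * (D + 1) * κ := by
      refine mul_le_mul_of_nonneg_right ?_ hκ.le
      nlinarith [mul_nonneg hE0 hD0.le]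
    linarith

end

end Pool.Agent.Helper47.CA
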