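import Pool.Agent.Helper47.CA.Alg
import Pool.Graph.R_seed8.W683.RC.Bas

/-!
# The matrix models
-/

set_option autoImplicit false
set_option linter.unusedSectionVars false

open scoped InnerProductSpace Kronecker ComplexOrder
open Filter Topology Matrix Finset

namespace Pool.Agent.Helper47.CA

open Pool.Agent.N557.QWX (Op tr IsTracial IsHom)
open Pool.Agent.N859.QX (QWEP)
open Pool.Agent.N859.QW (vN Aut L2)
open Pool.Agent.W661.RC (hs Le)
open Pool.Agent.W683.RC

noncomputable section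

/-! ### The regular representation -/

section lamQ

variable {Q : Type} [Group Q] [Fintype Q] [DecidableEq Q]

/-- the matrices of the left translations -/
def lamM (h : Q) : Matrix Q Q ℂ := Matrix.of fun a b => if a = h * b then 1 else 0

theorem lamM_mul (g h : Q) : lamM (g * h) = lamM g * lamM h := by
  ext a b
  rw [Matrix.mul_apply]
  simp only [lamM, Matrix.of_apply, mul_ite, mul_one, mul_zero]
  rw [Finset.sum_eq_single (h * b)]
  · simp [mul_assoc]
  · intro c _ hc
    rw [if_neg hc]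
  · intro h'
    exact absurd (mem_univ _) h'

theorem lamM_one : lamM (1 : Q) = 1 := by
  ext a b
  simp [lamM, Matrix.one_apply]

theorem lamM_star (h : Q) : (lamM h)ᴴ = lamM h⁻¹ := by
  ext a b
  rw [conjTranspose_apply]
  simp only [lamM, Matrix.of_apply]
  by_cases hb : b = h * a
  · rw [if_pos hb, if_pos (by rw [hb, inv_mul_cancel_left])]
    simp
  · rw [if_neg hb, if_neg (by
      intro h1
      exact hb (by rw [h1, mul_inv_cancel_left]))]
    simp

/-- the regular representation -/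
def lamQ : Q →* unitaryGroup Q ℂ where
  toFun h := ⟨lamM h, by
    rw [mem_unitaryGroup_iff, star_eq_conjTranspose, lamM_star, ← lamM_mul, mul_inv_cancel, lamM_one]⟩
  map_one' := Subtype.ext lamM_one
  map_mul' g h := Subtype.ext (lamM_mul g h)

theorem lamQ_coe (h : Q) : (lamQ h : Matrix Q Q ℂ) = lamM h := rfl

theorem trace_lamM (h : Q) : trace (lamM h) = if h = 1 then (Fintype.card Q : ℂ) else 0 := by
  unfold trace lamM
  simp only [Matrix.diag_apply, Matrix.of_apply]
  by_cases hh : h = 1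
  · rw [if_pos hh, hh]
    simp
  · rw [if_neg hh]
    refine Finset.sum_eq_zero fun a _ => if_neg fun h1 => hh ?_
    exact mul_eq_right.1 h1.symm

end lamQ

section rho

variable {Γ S Q : Type} [Group Γ] [Group S] [Group Q] [Fintype Q] [DecidableEq Q]
  {m : Type} [Fintype m] [DecidableEq m]

/-- the product representation -/
def rho (ρ : Γ →* unitaryGroup m ℂ) (φ : S →* Q) : Γ × S →* unitaryGroup (m × Q) ℂ where
  toFun g := ⟨(ρ g.1 : Matrix m m ℂ) ⊗ₖ (lamQ (φ g.2) : Matrix Q Q ℂ),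
    kronecker_mem_unitary (ρ g.1).2 (lamQ (φ g.2)).2⟩
  map_one' := Subtype.ext (by
    show (ρ 1 : Matrix m m ℂ) ⊗ₖ (lamQ (φ 1) : Matrix Q Q ℂ) = 1
    rw [map_one, map_one, map_one]
    exact one_kronecker_one)
  map_mul' g h := Subtype.ext (by
    show (ρ (g.1 * h.1) : Matrix m m ℂ) ⊗ₖ (lamQ (φ (g.2 * h.2)) : Matrix Q Q ℂ) =
      ((ρ g.1 : Matrix m m ℂ) ⊗ₖ (lamQ (φ g.2) : Matrix Q Q ℂ)) *
        ((ρ h.1 : Matrix m m ℂ) ⊗ₖ (lamQ (φ h.2) : Matrix Q Q ℂ))
    rw [map_mul, map_mul, map_mul, ← mul_kronecker_mul]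
    rfl)

theorem rho_coe (ρ : Γ →* unitaryGroup m ℂ) (φ : S →* Q) (w : Γ) (h : S) :
    (rho ρ φ (w, h) : Matrix (m × Q) (m × Q) ℂ) = (ρ w : Matrix m m ℂ) ⊗ₖ lamM (φ h) := rfl

theorem trace_rho (ρ : Γ →* unitaryGroup m ℂ) (φ : S →* Q) (w : Γ) (h : S) :
    trace (rho ρ φ (w, h) : Matrix (m × Q) (m × Q) ℂ) / (Fintype.card (m × Q) : ℂ) =
      trace (ρ w : Matrix m m ℂ) / (Fintype.card m : ℂ) * if φ h = 1 then 1 else 0 := by
  rw [rho_coe, trace_kronecker, trace_lamM, Fintype.card_prod]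
  push_cast
  have hQ : (Fintype.card Q : ℂ) ≠ 0 := by
    have : Nonempty Q := ⟨1⟩
    exact_mod_cast Fintype.card_ne_zero
  by_cases hh : φ h = 1
  · rw [if_pos hh, if_pos hh, mul_one, mul_div_mul_right _ _ hQ]
  · rw [if_neg hh, if_neg hh, mul_zero, zero_div, mul_zero]

/-- the element `φ' ⊗ h` of the group algebra of the product -/
def em (c : MonoidAlgebra ℂ Γ) (h : S) : MonoidAlgebra ℂ (Γ × S) :=
  c.coeff.sum fun w z => MonoidAlgebra.single (w, h) z

theorem em_zero (h : S) : em (0 : MonoidAlgebra ℂ Γ) h = 0 := by simp [em]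

theorem em_add (a b : MonoidAlgebra ℂ Γ) (h : S) : em (a + b) h = em a h + em b h := by
  unfold em
  rw [MonoidAlgebra.coeff_add]
  exact Finsupp.sum_add_index' (fun g => by simp) (fun g x y => by rw [MonoidAlgebra.single_add])

theorem em_single (w : Γ) (z : ℂ) (h : S) :
    em (MonoidAlgebra.single w z) h = MonoidAlgebra.single (w, h) z := by
  unfold em
  rw [MonoidAlgebra.coeff_single]
  exact Finsupp.sum_single_index (by simp)

theorem mrep_em (ρ : Γ →* unitaryGroup m ℂ) (φ : S →* Q) (c : MonoidAlgebra ℂ Γ) (h : S) :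
    mrep (rho ρ φ) (em c h) = mrep ρ c ⊗ₖ lamM (φ h) := by
  induction c using MonoidAlgebra.induction_linear with
  | zero => rw [em_zero, map_zero, map_zero, zero_kronecker]
  | add a b ha hb => rw [em_add, map_add, ha, hb, map_add, add_kronecker]
  | single g z => rw [em_single, mrep_single, mrep_single, rho_coe, smul_kronecker]

end rho

/-! ### Bounds -/

section bounds

variable {m : Type} [Fintype m] [DecidableEq m]

theorem le_flip {a : Matrix m m ℂ} {c : ℝ} (hc : 0 < c) (h : Le (aᴴ * a) ((c : ℂ) • 1)) :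
    Le (a * aᴴ) ((c : ℂ) • 1) := by
  have hs0 : 0 < √c := Real.sqrt_pos.2 hc
  set b : Matrix m m ℂ := (((√c)⁻¹ : ℝ) : ℂ) • a with hb
  have hbb : bᴴ * b = ((c⁻¹ : ℝ) : ℂ) • (aᴴ * a) := by
    rw [hb, conjTranspose_smul, smul_mul_assoc, mul_smul_comm, smul_smul, Complex.star_def,
      Complex.conj_ofReal, ← Complex.ofReal_mul, ← mul_inv, Real.mul_self_sqrt hc.le]
  have hbb' : b * bᴴ = ((c⁻¹ : ℝ) : ℂ) • (a * aᴴ) := by
    rw [hb, conjTranspose_smul, smul_mul_assoc, mul_smul_comm, smul_smul, Complex.star_def,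
      Complex.conj_ofReal, ← Complex.ofReal_mul, ← mul_inv, Real.mul_self_sqrt hc.le]
  have hcc : ((c⁻¹ : ℝ) : ℂ) • ((c : ℂ) • (1 : Matrix m m ℂ)) = 1 := by
    rw [smul_smul, ← Complex.ofReal_mul, inv_mul_cancel₀ hc.ne', Complex.ofReal_one, one_smul]
  have h1 : Le (bᴴ * b) 1 := by
    have := Le_smul h (inv_nonneg.2 hc.le)
    rwa [← hbb, hcc] at this
  have h2 := contr_conj h1
  have h3 := Le_smul h2 hc.le
  rw [hbb', smul_smul, ← Complex.ofReal_mul, mul_inv_cancel₀ hc.ne', Complex.ofReal_one, one_smul] at h3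
  exact h3

/-- `hs (a x) ≤ c hs x` for all `x` gives the order bound -/
theorem le_of_hs {a : Matrix m m ℂ} {c : ℝ}
    (h : ∀ v : Matrix m Unit ℂ, hs (a * v) ≤ c * hs v) : Le (aᴴ * a) ((c : ℂ) • 1) := by
  unfold Le
  have hH : ((c : ℂ) • (1 : Matrix m m ℂ) - aᴴ * a).IsHermitian := by
    unfold IsHermitian
    rw [conjTranspose_sub, conjTranspose_smul, conjTranspose_one, conjTranspose_mul,
      conjTranspose_conjTranspose, Complex.star_def, Complex.conj_ofReal]
  refine Matrix.PosSemidef.of_dotProduct_mulVec_nonneg hH fun x => ?_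
  have h1 := h (Matrix.of fun i _ => x i)
  have e1 : star x ⬝ᵥ ((c : ℂ) • (1 : Matrix m m ℂ) - aᴴ * a) *ᵥ x =
      ((c * hs (Matrix.of fun i (_ : Unit) => x i) - hs (a * Matrix.of fun i (_ : Unit) => x i) : ℝ) : ℂ) := by
    rw [sub_mulVec, dotProduct_sub, smul_mulVec, one_mulVec, dotProduct_smul, ← mulVec_mulVec,
      dotProduct_mulVec, ← star_mulVec, Complex.ofReal_sub, Complex.ofReal_mul, hs_eq_trace, hs_eq_trace]
    simp only [trace, Matrix.diag_apply, Matrix.mul_apply, Matrix.conjTranspose_apply, Matrix.of_apply,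
      Finset.univ_unique, Finset.sum_singleton, dotProduct, smul_eq_mul, Pi.star_apply, mulVec]
  rw [e1]
  have h2 : (0 : ℝ) ≤ c * hs (Matrix.of fun i (_ : Unit) => x i) -
    hs (a * Matrix.of fun i (_ : Unit) => x i) := by linarith
  exact ofReal_nonneg' h2

theorem mrep_le {Γ : Type} [Group Γ] (ρ : Γ →* unitaryGroup m ℂ) (c : MonoidAlgebra ℂ Γ) :
    Le ((mrep ρ c)ᴴ * mrep ρ c) ((((n1 c) ^ 2 : ℝ) : ℂ) • 1) := by
  refine le_of_hs fun v => ?_
  have h1 : √(hs (mrep ρ c * v)) ≤ n1 c * √(hs v) := by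
    rw [mrep_eq, Matrix.sum_mul]
    refine (sqrt_hs_sum_le _ _).trans ?_
    rw [n1, Finset.sum_mul]
    refine sum_le_sum fun g _ => ?_
    rw [Matrix.smul_mul, hs_smul, Real.sqrt_mul (sq_nonneg _), Real.sqrt_sq (norm_nonneg _)]
    have hu : (ρ g : Matrix m m ℂ)ᴴ * (ρ g : Matrix m m ℂ) = 1 := mem_unitaryGroup_iff'.1 (ρ g).2
    rw [hs_isom_mul hu]
  have h2 := pow_le_pow_left₀ (Real.sqrt_nonneg _) h1 2
  rw [Real.sq_sqrt (hs_nonneg _), mul_pow, Real.sq_sqrt (hs_nonneg _)] at h2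
  exact h2

end bounds

/-! ### Partial traces -/

section pt

variable {m q : Type} [Fintype m] [DecidableEq m] [Fintype q] [DecidableEq q] {r : ℕ}

theorem PT_add (w w' : Matrix (m × q) (m × q) ℂ) : PT (w + w') = PT w + PT w' := by
  ext a b
  simp only [PT, Matrix.of_apply, Matrix.add_apply, Finset.sum_add_distrib, add_div]

theorem PT_smul (c : ℂ) (w : Matrix (m × q) (m × q) ℂ) : PT (c • w) = c • PT w := by
  ext a b
  simp only [PT, Matrix.of_apply, Matrix.smul_apply, smul_eq_mul, ← Finset.mul_sum, mul_div_assoc]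

theorem PT_kron (A : Matrix m m ℂ) (B : Matrix q q ℂ) :
    PT (A ⊗ₖ B) = (trace A / (Fintype.card m : ℂ)) • B := by
  ext a b
  simp only [PT, Matrix.of_apply, Matrix.smul_apply, smul_eq_mul, kroneckerMap_apply, ← Finset.sum_mul]
  rw [trace]
  simp only [Matrix.diag_apply]
  ring

theorem EE_add (F : Fin r → Matrix m m ℂ) (w w' : Matrix (m × q) (m × q) ℂ) :
    EE F (w + w') = EE F w + EE F w' := by
  unfold EE
  rw [← Finset.sum_add_distrib]
  refine sum_congr rfl fun i _ => ?_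
  rw [Matrix.mul_add, PT_add, kronecker_add]

theorem EE_smul (F : Fin r → Matrix m m ℂ) (c : ℂ) (w : Matrix (m × q) (m × q) ℂ) :
    EE F (c • w) = c • EE F w := by
  unfold EE
  rw [Finset.smul_sum]
  refine sum_congr rfl fun i _ => ?_
  rw [mul_smul_comm, PT_smul, kronecker_smul]

theorem EE_zero (F : Fin r → Matrix m m ℂ) : EE F (0 : Matrix (m × q) (m × q) ℂ) = 0 := by
  have := EE_smul F 0 (0 : Matrix (m × q) (m × q) ℂ)
  rwa [zero_smul, zero_smul] at this

theorem EE_sub (F : Fin r → Matrix m m ℂ) (w w' : Matrix (m × q) (m × q) ℂ) :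
    EE F (w - w') = EE F w - EE F w' := by
  have := EE_add F (w - w') w'
  rw [sub_add_cancel] at this
  rw [this, add_sub_cancel_right]

theorem EE_sum {ι : Type} (F : Fin r → Matrix m m ℂ) (s : Finset ι) (f : ι → Matrix (m × q) (m × q) ℂ) :
    EE F (∑ i ∈ s, f i) = ∑ i ∈ s, EE F (f i) := by
  classical
  induction s using Finset.induction_on with
  | empty => simp [EE_zero]
  | insert a s ha ih => rw [sum_insert ha, sum_insert ha, EE_add, ih]

theorem EE_kron (F : Fin r → Matrix m m ℂ) (A : Matrix m m ℂ) (B : Matrix q q ℂ) :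
    EE F (A ⊗ₖ B) = ∑ i, (trace ((F i)ᴴ * A) / (Fintype.card m : ℂ)) • (F i ⊗ₖ B) := by
  unfold EE
  refine sum_congr rfl fun i _ => ?_
  rw [← mul_kronecker_mul, Matrix.one_mul, PT_kron, kronecker_smul]

end pt

end

end Pool.Agent.Helper47.CA
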