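import Pool.Agent.Helper47.CA.Word

/-!
# Existence of the matrix models
-/

set_option autoImplicit false
set_option linter.unusedSectionVars false

open scoped InnerProductSpace Kronecker ComplexOrder
open Filter Topology Matrix Finset

namespace Pool.Agent.Helper47.CA

open Pool.Agent.N557.QWX (Op tr IsTracial IsHom)
open Pool.Agent.N859.QX (QWEP)
open Pool.Agent.W661.RC (hs Le)
open Pool.Agent.W683.RC

noncomputable section

variable {L : Type} [NormedAddCommGroup L] [InnerProductSpace ℂ L] [CompleteSpace L]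
  {N₁ : VonNeumannAlgebra L} {ζ : L}

/-- the representation of the free group on the unitaries of `A` -/
def θ1 (P : Piece N₁ ζ) : FreeGroup (UA P.A) →* unitary (Op P.H) :=
  (UAs P.A).subtype.comp (FreeGroup.lift fun v : UA P.A => v)

theorem θ1_mem (P : Piece N₁ ζ) (w : FreeGroup (UA P.A)) : (θ1 P w : Op P.H) ∈ P.A :=
  (FreeGroup.lift (fun v : UA P.A => v) w : UA P.A).2

theorem tr_one' {K : Type} [NormedAddCommGroup K] [InnerProductSpace ℂ K] [CompleteSpace K] {η : K}
    (h : ‖η‖ = 1) : tr η (1 : Op K) = 1 := by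
  unfold tr
  show inner ℂ η η = (1 : ℂ)
  rw [inner_self_eq_norm_sq_to_K, h]
  norm_num

theorem exists_model (hMIC : S_MIC) {S : Type} [Group S] (u : S →* unitary (Op L)) (hN : GrpAlg N₁ ζ u)
    (hS : RFin S) (P : Piece N₁ ζ) (θ : FreeGroup (UA P.A) × S →* unitary (Op P.K))
    (htr : ∀ (w : FreeGroup (UA P.A)) (h : S), tr P.η (θ (w, h) : Op P.K) =
        tr P.ξ (θ1 P w : Op P.H) * tr ζ (u h : Op L))
    (W : Finset (FreeGroup (UA P.A) × S)) (W1 : Finset (FreeGroup (UA P.A))) (ε : ℝ) (hε : 0 < ε) :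
    ∃ (n : ℕ) (X : UA P.A → unitaryGroup (Fin n) ℂ) (Q : Type) (_ : Group Q) (_ : Fintype Q) (_ : DecidableEq Q)
      (φ : S →* Q), 0 < n ∧
      (∀ g ∈ W, ‖trace (rho (FreeGroup.lift X) φ g : Matrix (Fin n × Q) (Fin n × Q) ℂ) /
        (Fintype.card (Fin n × Q) : ℂ) - tr P.η (θ g : Op P.K)‖ ≤ ε) ∧
      ∀ w ∈ W1, ‖trace (FreeGroup.lift X w : Matrix (Fin n) (Fin n) ℂ) / (Fintype.card (Fin n) : ℂ) -
        tr P.ξ (θ1 P w : Op P.H)‖ ≤ ε := by
  classical
  obtain ⟨n, X, hn, hX⟩ := hMIC P.H P.A P.ξ P.tracial P.qwep (W1 ∪ W.image Prod.fst) ε hε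
  obtain ⟨Q, gQ, fQ, φ, hφ⟩ := hS (insert 1 (W.image Prod.snd))
  letI := Fintype.ofFinite Q
  refine ⟨n, X, Q, gQ, inferInstance, inferInstance, φ, hn, ?_, ?_⟩
  · rintro ⟨w, h⟩ hg
    rw [trace_rho, htr, Fintype.card_fin]
    have h1 := hX w (mem_union_right _ (mem_image_of_mem Prod.fst hg))
    have hh : φ h = 1 ↔ h = 1 := by
      constructor
      · intro h2
        refine hφ ?_ ?_ (by rw [h2, map_one])
        · exact mem_coe.2 (mem_insert_of_mem (mem_image_of_mem Prod.snd hg))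
        · exact mem_coe.2 (mem_insert_self _ _)
      · rintro rfl
        exact map_one φ
    by_cases hh1 : h = 1
    · rw [if_pos (hh.2 hh1), mul_one, hh1, map_one]
      have e : tr ζ ((1 : unitary (Op L)) : Op L) = 1 := tr_one' hN.tracial.unit
      rw [e, mul_one]
      exact h1
    · rw [if_neg fun h2 => hh1 (hh.1 h2), mul_zero, hN.tr h hh1, mul_zero, sub_zero, norm_zero]
      exact hε.le
  · intro w hw
    rw [Fintype.card_fin]
    exact hX w (mem_union_left _ hw)

end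

end Pool.Agent.Helper47.CA
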