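import Pool.Agent.Helper47.CA.Stm
import Pool.Graph.R_seed8.W683.RC.Bas

/-!
# STC: the staircase
-/

set_option autoImplicit false

namespace Pool.Agent.Helper47.CA

namespace Stc

open Matrix Finset
open Pool.Agent.W661.RC (hs Le)
open Pool.Agent.W683.RC
open scoped ComplexOrder Kronecker

section

variable {n : ℕ}

/-- the index set of the staircase -/
abbrev Dx (p : Fin n → ℕ) (q : ℕ) : Type := {x : Fin n × Fin q // (x.2 : ℕ) < p x.1}

/-- amplification -/
noncomputable def up (q : ℕ) (φ : Matrix (Fin n) (Fin n) ℂ) :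
    Matrix (Fin n × Fin q) (Fin n × Fin q) ℂ := φ ⊗ₖ (1 : Matrix (Fin q) (Fin q) ℂ)

/-- the isometry of the staircase -/
noncomputable def JJ (p : Fin n → ℕ) (q : ℕ) : Matrix (Fin n × Fin q) (Dx p q) ℂ :=
  (1 : Matrix (Fin n × Fin q) (Fin n × Fin q) ℂ).submatrix id Subtype.val

/-- the compression to the staircase -/
noncomputable def cp (p : Fin n → ℕ) (q : ℕ) (φ : Matrix (Fin n) (Fin n) ℂ) :
    Matrix (Dx p q) (Dx p q) ℂ := (JJ p q)ᴴ * (up q φ * JJ p q)

/-- the defect -/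
noncomputable def YY (p : Fin n → ℕ) (q : ℕ) (φ : Matrix (Fin n) (Fin n) ℂ) :
    Matrix (Fin n × Fin q) (Dx p q) ℂ := up q φ * JJ p q - JJ p q * cp p q φ

variable (p : Fin n → ℕ) (q : ℕ)

theorem JJ_same (d : Dx p q) : JJ p q d.1 d = 1 := one_apply_eq _

theorem JJ_ne {x : Fin n × Fin q} {d : Dx p q} (h : x ≠ d.1) : JJ p q x d = 0 := one_apply_ne h

theorem mul_JJ (M : Matrix (Fin n × Fin q) (Fin n × Fin q) ℂ) :
    M * JJ p q = M.submatrix id Subtype.val := by
  ext x d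
  rw [mul_apply, submatrix_apply, sum_eq_single d.1]
  · rw [JJ_same, mul_one]
    rfl
  · intro y _ hy
    rw [JJ_ne p q hy, mul_zero]
  · intro h
    exact absurd (mem_univ _) h

theorem JJ_mul {l : Type} (M : Matrix (Fin n × Fin q) l ℂ) :
    (JJ p q)ᴴ * M = M.submatrix Subtype.val id := by
  ext d x
  rw [mul_apply, submatrix_apply, sum_eq_single d.1]
  · rw [conjTranspose_apply, JJ_same, star_one, one_mul]
    rfl
  · intro y _ hy
    rw [conjTranspose_apply, JJ_ne p q hy, star_zero, zero_mul]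
  · intro h
    exact absurd (mem_univ _) h

theorem JJ_iso : (JJ p q)ᴴ * JJ p q = 1 := by
  rw [JJ_mul]
  ext x y
  rw [submatrix_apply, JJ, submatrix_apply, one_apply, one_apply]
  congr 1
  exact propext ⟨fun h => Subtype.ext h, fun h => congrArg Subtype.val h⟩

theorem up_mul (φ ψ : Matrix (Fin n) (Fin n) ℂ) : up q φ * up q ψ = up q (φ * ψ) := by
  rw [up, up, up, ← mul_kronecker_mul, Matrix.one_mul]

theorem up_sub (φ ψ : Matrix (Fin n) (Fin n) ℂ) : up q (φ - ψ) = up q φ - up q ψ := by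
  ext x y
  simp [up, kroneckerMap_apply, sub_mul]

theorem up_iso {φ : Matrix (Fin n) (Fin n) ℂ} (h : φᴴ * φ = 1) : (up q φ)ᴴ * up q φ = 1 := by
  rw [up, conjTranspose_kronecker, ← mul_kronecker_mul, h, conjTranspose_one, Matrix.one_mul,
    one_kronecker_one]

theorem cp_apply (φ : Matrix (Fin n) (Fin n) ℂ) (d e : Dx p q) :
    cp p q φ d e = up q φ d.1 e.1 := by
  rw [cp, JJ_mul, mul_JJ]
  rfl

theorem YY_adj {φ : Matrix (Fin n) (Fin n) ℂ} (h : φᴴ * φ = 1) :
    (YY p q φ)ᴴ * YY p q φ = 1 - (cp p q φ)ᴴ * cp p q φ := by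
  have h1 : (up q φ * JJ p q)ᴴ * (up q φ * JJ p q) = 1 := by
    rw [conjTranspose_mul, Matrix.mul_assoc, ← Matrix.mul_assoc (up q φ)ᴴ, up_iso q h,
      Matrix.one_mul, JJ_iso]
  have h2 : (JJ p q * cp p q φ)ᴴ * (up q φ * JJ p q) = (cp p q φ)ᴴ * cp p q φ := by
    rw [conjTranspose_mul, Matrix.mul_assoc]
    rfl
  have h3 : (up q φ * JJ p q)ᴴ * (JJ p q * cp p q φ) = (cp p q φ)ᴴ * cp p q φ := by
    have h4 := congrArg conjTranspose h2
    rw [conjTranspose_mul, conjTranspose_conjTranspose, conjTranspose_mul (cp p q φ)ᴴ,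
      conjTranspose_conjTranspose] at h4
    exact h4
  have h5 : (JJ p q * cp p q φ)ᴴ * (JJ p q * cp p q φ) = (cp p q φ)ᴴ * cp p q φ := by
    rw [conjTranspose_mul, Matrix.mul_assoc, ← Matrix.mul_assoc (JJ p q)ᴴ, JJ_iso, Matrix.one_mul]
  rw [YY, conjTranspose_sub, Matrix.sub_mul, Matrix.mul_sub, Matrix.mul_sub, h1, h2, h3, h5]
  abel

theorem YY_contr {φ : Matrix (Fin n) (Fin n) ℂ} (h : φᴴ * φ = 1) :
    Le ((YY p q φ)ᴴ * YY p q φ) 1 := by
  rw [YY_adj p q h, Le, sub_sub_cancel]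
  exact posSemidef_conjTranspose_mul_self _

theorem cp_contr {φ : Matrix (Fin n) (Fin n) ℂ} (h : φᴴ * φ = 1) :
    Le ((cp p q φ)ᴴ * cp p q φ) 1 := by
  have h1 := YY_adj p q h
  rw [Le, ← h1]
  exact posSemidef_conjTranspose_mul_self _

theorem JJ_contr : Le (((JJ p q)ᴴ)ᴴ * (JJ p q)ᴴ) 1 := by
  rw [conjTranspose_conjTranspose]
  refine contr_conj ?_
  rw [JJ_iso]
  exact Le_refl _

/-- the compression is almost isometric -/
theorem cp_iso_le {φ : Matrix (Fin n) (Fin n) ℂ} (h : φᴴ * φ = 1) :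
    hs ((cp p q φ)ᴴ * cp p q φ - 1) ≤ hs (YY p q φ) := by
  have h1 : (cp p q φ)ᴴ * cp p q φ - 1 = -((YY p q φ)ᴴ * YY p q φ) := by
    rw [YY_adj p q h]
    abel
  rw [h1, hs_neg]
  refine hs_mul_le ?_ _
  rw [conjTranspose_conjTranspose]
  exact contr_conj (YY_contr p q h)

/-- the compression is almost multiplicative -/
theorem cp_mul_le {φ ψ χ : Matrix (Fin n) (Fin n) ℂ} (h : φᴴ * φ = 1) :
    √(hs (cp p q χ - cp p q φ * cp p q ψ)) ≤
      √(hs (up q (χ - φ * ψ) * JJ p q)) + √(hs (YY p q ψ)) := by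
  have h1 : cp p q χ - cp p q φ * cp p q ψ =
      (JJ p q)ᴴ * (up q (χ - φ * ψ) * JJ p q) + (JJ p q)ᴴ * (up q φ * YY p q ψ) := by
    have h2 : cp p q φ * cp p q ψ = (JJ p q)ᴴ * (up q φ * (JJ p q * cp p q ψ)) := by
      rw [cp]
      simp only [Matrix.mul_assoc]
    rw [h2, YY, up_sub, ← up_mul, cp]
    simp only [Matrix.sub_mul, Matrix.mul_sub, Matrix.mul_assoc]
    abel
  rw [h1]
  refine (sqrt_hs_add_le _ _).trans (add_le_add ?_ ?_)
  · exact Real.sqrt_le_sqrt (hs_mul_le (JJ_contr p q) _)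
  · refine Real.sqrt_le_sqrt ((hs_mul_le (JJ_contr p q) _).trans ?_)
    rw [hs_isom_mul (up_iso q h)]

theorem sum_Dx {M : Type} [AddCommMonoid M] (f : Fin n × Fin q → M) :
    ∑ d : Dx p q, f d.1 = ∑ i, ∑ c : Fin q, if (c : ℕ) < p i then f (i, c) else 0 := by
  rw [← Fintype.sum_prod_type' (f := fun i (c : Fin q) => if (c : ℕ) < p i then f (i, c) else 0),
    ← Finset.sum_filter]
  symm
  refine Finset.sum_subtype (univ.filter fun x : Fin n × Fin q => (x.2 : ℕ) < p x.1)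
    (fun x => by simp) f

theorem card_cnt (b : ℕ) (hb : b ≤ q) :
    (univ.filter fun c : Fin q => (c : ℕ) < b).card = b := by
  have h1 : (univ.filter fun c : Fin q => (c : ℕ) < b).card = (Finset.range b).card := by
    refine Finset.card_bij (fun c _ => (c : ℕ)) ?_ ?_ ?_
    · intro c hc
      exact Finset.mem_range.2 (Finset.mem_filter.1 hc).2
    · intro c _ c' _ h
      exact Fin.ext h
    · intro m hm
      have hm' := Finset.mem_range.1 hm
      exact ⟨⟨m, hm'.trans_le hb⟩, by simpa using hm', rfl⟩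
  rw [h1, Finset.card_range]

theorem card_cnt2 (a b : ℕ) :
    (univ.filter fun c : Fin q => ¬ (c : ℕ) < a ∧ (c : ℕ) < b).card ≤ b - a := by
  rw [← Nat.card_Ico]
  refine Finset.card_le_card_of_injOn (fun c => (c : ℕ)) ?_ ?_
  · intro c hc
    have h := (Finset.mem_filter.1 hc).2
    exact Finset.mem_coe.2 (Finset.mem_Ico.2 ⟨not_lt.1 h.1, h.2⟩)
  · intro c _ c' _ h
    exact Fin.ext h

theorem card_Dx (hp : ∀ i, p i ≤ q) : Fintype.card (Dx p q) = ∑ i, p i := by
  have h1 : Fintype.card (Dx p q) = ∑ _d : Dx p q, 1 := by simp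
  have h2 := sum_Dx p q (fun _ => (1 : ℕ))
  rw [h1, h2]
  refine sum_congr rfl fun i _ => ?_
  rw [← Finset.sum_filter, Finset.sum_const, smul_eq_mul, mul_one, card_cnt q _ (hp i)]

theorem hs_up_JJ (ψ : Matrix (Fin n) (Fin n) ℂ) :
    hs (up q ψ * JJ p q) ≤ ∑ i, ∑ j, ‖ψ i j‖ ^ 2 * p j := by
  rw [mul_JJ, hs, Fintype.sum_prod_type]
  refine sum_le_sum fun i _ => ?_
  have h1 : ∀ c : Fin q, ∑ d : Dx p q, ‖(up q ψ).submatrix id Subtype.val (i, c) d‖ ^ 2 =
      ∑ j, if (c : ℕ) < p j then ‖ψ i j‖ ^ 2 else 0 := by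
    intro c
    have h2 := sum_Dx p q (fun y => ‖up q ψ (i, c) y‖ ^ 2)
    simp only [submatrix_apply, id]
    rw [h2]
    refine sum_congr rfl fun j _ => ?_
    rw [sum_eq_single c]
    · simp [up, kroneckerMap_apply]
    · intro c' _ hc
      simp [up, kroneckerMap_apply, one_apply_ne hc.symm]
    · intro h
      exact absurd (mem_univ _) h
  simp only [h1]
  rw [sum_comm]
  refine sum_le_sum fun j _ => ?_
  rw [← Finset.sum_filter, Finset.sum_const, nsmul_eq_mul, mul_comm]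
  refine mul_le_mul_of_nonneg_left ?_ (sq_nonneg _)
  have h3 := card_cnt2 q 0 (p j)
  simp only [Nat.not_lt_zero, not_false_eq_true, true_and, Nat.sub_zero] at h3
  exact_mod_cast h3

theorem YY_apply (φ : Matrix (Fin n) (Fin n) ℂ) (x : Fin n × Fin q) (d : Dx p q) :
    YY p q φ x d = if (x.2 : ℕ) < p x.1 then 0 else up q φ x d.1 := by
  rw [YY, Matrix.sub_apply, mul_JJ, submatrix_apply, id, mul_apply]
  split_ifs with h
  · rw [sum_eq_single ⟨x, h⟩]
    · rw [cp_apply, JJ, submatrix_apply, id, one_apply_eq, one_mul, sub_self]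
    · intro e _ he
      have h1 : x ≠ e.1 := fun h2 => he (Subtype.ext h2.symm)
      rw [JJ, submatrix_apply, id, one_apply_ne h1, zero_mul]
    · intro h
      exact absurd (mem_univ _) h
  · rw [sum_eq_zero, sub_zero]
    intro e _
    have h1 : x ≠ e.1 := by
      rintro rfl
      exact h e.2
    rw [JJ, submatrix_apply, id, one_apply_ne h1, zero_mul]

theorem hs_YY (φ : Matrix (Fin n) (Fin n) ℂ) :
    hs (YY p q φ) ≤ ∑ i, ∑ j, ‖φ i j‖ ^ 2 * ((p j - p i : ℕ) : ℝ) := by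
  rw [hs, Fintype.sum_prod_type]
  refine sum_le_sum fun i _ => ?_
  have h1 : ∀ c : Fin q, ∑ d : Dx p q, ‖YY p q φ (i, c) d‖ ^ 2 =
      ∑ j, if ¬ (c : ℕ) < p i ∧ (c : ℕ) < p j then ‖φ i j‖ ^ 2 else 0 := by
    intro c
    have h2 := sum_Dx p q (fun y => ‖if (c : ℕ) < p i then 0 else up q φ (i, c) y‖ ^ 2)
    simp only [YY_apply]
    rw [h2]
    refine sum_congr rfl fun j _ => ?_
    rw [sum_eq_single c]
    · by_cases hc : (c : ℕ) < p i
      · simp [hc]
      · simp [hc, up, kroneckerMap_apply]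
    · intro c' _ hc
      simp [up, kroneckerMap_apply, one_apply_ne hc.symm]
    · intro h
      exact absurd (mem_univ _) h
  simp only [h1]
  rw [sum_comm]
  refine sum_le_sum fun j _ => ?_
  rw [← Finset.sum_filter, Finset.sum_const, nsmul_eq_mul, mul_comm]
  refine mul_le_mul_of_nonneg_left ?_ (sq_nonneg _)
  exact_mod_cast card_cnt2 q (p i) (p j)

theorem trace_cp (hp : ∀ i, p i ≤ q) (φ : Matrix (Fin n) (Fin n) ℂ) :
    trace (cp p q φ) = ∑ i, (p i : ℂ) * φ i i := by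
  have h2 := sum_Dx p q (fun y => up q φ y y)
  rw [trace]
  simp only [diag_apply, cp_apply]
  rw [h2]
  refine sum_congr rfl fun i _ => ?_
  have h3 : ∀ c : Fin q, up q φ (i, c) (i, c) = φ i i := by
    intro c
    simp [up, kroneckerMap_apply]
  simp only [h3]
  rw [← Finset.sum_filter, Finset.sum_const, nsmul_eq_mul, card_cnt q _ (hp i)]

end

end Stc

end Pool.Agent.Helper47.CA
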