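import Pool.Agent.Helper47.CA.Stc1
import Pool.Agent.Helper47.CA.Stc2
import Pool.Agent.Helper47.CA.Pol

/-!
# STC: from densities to matrices (staircase)
-/

set_option autoImplicit false
set_option maxHeartbeats 1000000

namespace Pool.Agent.Helper47.CA

namespace Stc

open Matrix Finset
open Pool.Agent.W661.RC (hs Le)
open Pool.Agent.W683.RC
open scoped ComplexOrder Kronecker

theorem hs_submatrix {m n : Type} [Fintype m] [Fintype n] (e : m ≃ n) (M : Matrix n n ℂ) :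
    hs (M.submatrix e e) = hs M := by
  rw [hs, hs]
  refine Fintype.sum_equiv e _ _ fun i => ?_
  exact Fintype.sum_equiv e _ _ fun j => rfl

theorem trace_submatrix {m n : Type} [Fintype m] [Fintype n] (e : m ≃ n) (M : Matrix n n ℂ) :
    trace (M.submatrix e e) = trace M := by
  rw [trace, trace]
  exact Fintype.sum_equiv e _ _ fun i => rfl

theorem col_sum {n : ℕ} {φ : Matrix (Fin n) (Fin n) ℂ} (h : φᴴ * φ = 1) (j : Fin n) :
    ∑ i, ‖φ i j‖ ^ 2 = 1 := by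
  have h1 := congrFun (congrFun h j) j
  rw [mul_apply, one_apply_eq] at h1
  have h2 : ∀ i, φᴴ j i * φ i j = ((‖φ i j‖ ^ 2 : ℝ) : ℂ) := by
    intro i
    rw [conjTranspose_apply, Complex.star_def, Complex.conj_mul']
    push_cast
    rfl
  simp only [h2] at h1
  exact_mod_cast h1

theorem row_sum {n : ℕ} {φ : Matrix (Fin n) (Fin n) ℂ} (h : φᴴ * φ = 1) (i : Fin n) :
    ∑ j, ‖φ i j‖ ^ 2 = 1 := by
  have h0 : φᴴᴴ * φᴴ = 1 := unit_conj h
  have h1 := col_sum h0 i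
  simpa [conjTranspose_apply] using h1

theorem amgm (δ x y : ℝ) (hδ : 0 < δ) : x * y ≤ x ^ 2 / (2 * δ) + δ / 2 * y ^ 2 := by
  have h1 : x ^ 2 / (2 * δ) + δ / 2 * y ^ 2 - x * y = (x - δ * y) ^ 2 / (2 * δ) := by
    field_simp
    ring
  have h2 : 0 ≤ (x - δ * y) ^ 2 / (2 * δ) := by positivity
  linarith

/-- the defect is small -/
theorem YY_small {n q : ℕ} {t : Fin n → ℝ} (ht1 : ∑ i, t i ^ 2 = 1)
    {δ : ℝ} (hδ : 0 < δ) (hq : (n : ℝ) ≤ δ * q) {φ : Matrix (Fin n) (Fin n) ℂ}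
    (h : φᴴ * φ = 1) (hc : ∑ i, ∑ j, ‖φ i j‖ ^ 2 * (t i - t j) ^ 2 ≤ δ ^ 2) :
    hs (YY (fun i => ⌊(q : ℝ) * t i ^ 2⌋₊) q φ) ≤ 4 * δ * q := by
  refine (hs_YY _ _ _).trans ?_
  have hq0 : (0 : ℝ) ≤ q := Nat.cast_nonneg q
  have h1 : ∀ i j, ‖φ i j‖ ^ 2 * ((⌊(q : ℝ) * t j ^ 2⌋₊ - ⌊(q : ℝ) * t i ^ 2⌋₊ : ℕ) : ℝ) ≤
      q / (2 * δ) * (‖φ i j‖ ^ 2 * (t i - t j) ^ 2) +
        q * δ * (‖φ i j‖ ^ 2 * t i ^ 2) + q * δ * (‖φ i j‖ ^ 2 * t j ^ 2) + ‖φ i j‖ ^ 2 := by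
    intro i j
    have e1 : q / (2 * δ) * (‖φ i j‖ ^ 2 * (t i - t j) ^ 2) +
        q * δ * (‖φ i j‖ ^ 2 * t i ^ 2) + q * δ * (‖φ i j‖ ^ 2 * t j ^ 2) + ‖φ i j‖ ^ 2 =
        ‖φ i j‖ ^ 2 * (q * ((t i - t j) ^ 2 / (2 * δ) + δ * (t i ^ 2 + t j ^ 2)) + 1) := by ring
    rw [e1]
    refine mul_le_mul_of_nonneg_left ?_ (sq_nonneg _)
    have h2 := amgm δ (t j - t i) (t j + t i) hδ
    have h3 : (t j - t i) * (t j + t i) ≤
        (t i - t j) ^ 2 / (2 * δ) + δ * (t i ^ 2 + t j ^ 2) := by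
      have h4 : (t j - t i) ^ 2 = (t i - t j) ^ 2 := by ring
      rw [h4] at h2
      have h5 : δ / 2 * (t j + t i) ^ 2 ≤ δ * (t i ^ 2 + t j ^ 2) := by
        nlinarith [mul_nonneg hδ.le (sq_nonneg (t i - t j))]
      linarith
    have h6 : 0 ≤ (t i - t j) ^ 2 / (2 * δ) + δ * (t i ^ 2 + t j ^ 2) := by positivity
    rcases le_total (⌊(q : ℝ) * t i ^ 2⌋₊) (⌊(q : ℝ) * t j ^ 2⌋₊) with h7 | h7
    · rw [Nat.cast_sub h7]
      have h8 := Nat.floor_le (show 0 ≤ (q : ℝ) * t j ^ 2 by positivity)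
      have h9 := Nat.lt_floor_add_one ((q : ℝ) * t i ^ 2)
      have h10 := mul_le_mul_of_nonneg_left h3 hq0
      nlinarith
    · rw [Nat.sub_eq_zero_of_le h7, Nat.cast_zero]
      positivity
  refine (sum_le_sum fun i _ => sum_le_sum fun j _ => h1 i j).trans ?_
  simp only [sum_add_distrib, ← mul_sum]
  have s1 : ∑ i, ∑ j, ‖φ i j‖ ^ 2 * t i ^ 2 = 1 := by
    rw [← ht1]
    refine sum_congr rfl fun i _ => ?_
    rw [← sum_mul, row_sum h, one_mul]
  have s2 : ∑ i, ∑ j, ‖φ i j‖ ^ 2 * t j ^ 2 = 1 := by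
    rw [sum_comm, ← ht1]
    refine sum_congr rfl fun j _ => ?_
    rw [← sum_mul, col_sum h, one_mul]
  have s3 : ∑ i, ∑ j, ‖φ i j‖ ^ 2 = (n : ℝ) := by
    simp only [row_sum h]
    simp
  rw [s1, s2, s3]
  have h2 : (q : ℝ) / (2 * δ) * (∑ i, ∑ j, ‖φ i j‖ ^ 2 * (t i - t j) ^ 2) ≤ q / (2 * δ) * δ ^ 2 :=
    mul_le_mul_of_nonneg_left hc (by positivity)
  have h3 : (q : ℝ) / (2 * δ) * δ ^ 2 = q * δ / 2 := by
    field_simp
  nlinarith [mul_nonneg hq0 hδ.le]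

theorem five {D : Type} [Fintype D] [DecidableEq D] {ug uh ugh xg xh xgh : Matrix D D ℂ} {s : ℝ}
    (h1 : ugᴴ * ug = 1) (h2 : Le (xhᴴ * xh) 1) (h3 : √(hs (xg - ug)) ≤ s)
    (h4 : √(hs (xh - uh)) ≤ s) (h5 : √(hs (xgh - ugh)) ≤ s)
    (h6 : √(hs (xgh - xg * xh)) ≤ s + s) : √(hs (ugh - ug * uh)) ≤ 5 * s := by
  have e : ugh - ug * uh = (ugh - xgh) + (xgh - xg * xh) + ((xg - ug) * xh + ug * (xh - uh)) := by
    noncomm_ring
  have b1 : √(hs (ugh - xgh)) ≤ s := by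
    rw [hs_sub_comm]
    exact h5
  have b3 : √(hs ((xg - ug) * xh)) ≤ s := (Real.sqrt_le_sqrt (hs_mul_le_right h2 _)).trans h3
  have b4 : √(hs (ug * (xh - uh))) ≤ s := by
    rw [hs_unit_mul h1]
    exact h4
  rw [e]
  refine (sqrt_hs_add_le _ _).trans ?_
  have c1 := sqrt_hs_add_le (ugh - xgh) (xgh - xg * xh)
  have c2 := sqrt_hs_add_le ((xg - ug) * xh) (ug * (xh - uh))
  linarith

theorem trace_close {D : Type} [Fintype D] [DecidableEq D] {u x : Matrix D D ℂ} {s : ℝ}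
    (h : √(hs (x - u)) ≤ s) : ‖trace u - trace x‖ ≤ √(Fintype.card D) * s := by
  have h1 := norm_trace_le (1 : Matrix D D ℂ) (u - x)
  rw [conjTranspose_one, Matrix.one_mul, trace_sub] at h1
  have h2 : hs (1 : Matrix D D ℂ) = Fintype.card D := by
    rw [hs_eq, conjTranspose_one, Matrix.one_mul, trace_one]
    simp
  rw [h2] at h1
  refine h1.trans (mul_le_mul_of_nonneg_left ?_ (Real.sqrt_nonneg _))
  rw [hs_sub_comm]
  exact h

theorem stc_of (hpol : S_POL) : S_STC := by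
  classical
  intro Γ _ τ H A ε hε
  set A' : Finset Γ := A ∪ Finset.image₂ (· * ·) A A with hA'
  have hAA : A ⊆ A' := subset_union_left
  have hAm : ∀ g ∈ A, ∀ h ∈ A, g * h ∈ A' := fun g hg h hh =>
    mem_union_right _ (mem_image₂_of_mem hg hh)
  set δ : ℝ := min (1 / 2) (min (ε / 200) (ε ^ 2 / 64)) with hδdef
  have hδ : 0 < δ := lt_min (by norm_num) (lt_min (by positivity) (by positivity))
  have hδ1 : δ ≤ 1 / 2 := min_le_left _ _
  have hδ2 : δ ≤ ε / 200 := (min_le_right _ _).trans (min_le_left _ _)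
  have hδ3 : δ ≤ ε ^ 2 / 64 := (min_le_right _ _).trans (min_le_right _ _)
  obtain ⟨n, t, φ, ht0, ht1, hcom, hmul, htr⟩ := part1 τ H A' δ hδ
  set q : ℕ := ⌈(n : ℝ) / δ⌉₊ + 1 with hq
  have hqn : (n : ℝ) ≤ δ * q := by
    have h1 := Nat.le_ceil ((n : ℝ) / δ)
    rw [div_le_iff₀ hδ] at h1
    have h2 : (q : ℝ) = (⌈(n : ℝ) / δ⌉₊ : ℝ) + 1 := by rw [hq]; push_cast; ring
    rw [h2]
    nlinarith
  have hq0 : (0 : ℝ) < q := by
    have : 0 < q := Nat.succ_pos _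
    exact_mod_cast this
  set p : Fin n → ℕ := fun i => ⌊(q : ℝ) * t i ^ 2⌋₊ with hp
  have htle : ∀ i, t i ^ 2 ≤ 1 := by
    intro i
    rw [← ht1]
    exact single_le_sum (f := fun i => t i ^ 2) (fun i _ => sq_nonneg _) (mem_univ i)
  have hpl : ∀ i, (p i : ℝ) ≤ q * t i ^ 2 := fun i => Nat.floor_le (by positivity)
  have hpu : ∀ i, (q : ℝ) * t i ^ 2 < p i + 1 := fun i => Nat.lt_floor_add_one _
  have hpq : ∀ i, p i ≤ q := by
    intro i
    have h1 : (p i : ℝ) ≤ q := (hpl i).trans (by nlinarith [htle i])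
    exact_mod_cast h1
  have hun : ∀ g, (φ g : Matrix (Fin n) (Fin n) ℂ)ᴴ * (φ g : Matrix (Fin n) (Fin n) ℂ) = 1 :=
    fun g => UnitaryGroup.star_mul_self (φ g)
  -- the size
  set d : ℕ := Fintype.card (Dx p q) with hd
  have hdp : (d : ℝ) = ∑ i, (p i : ℝ) := by
    rw [hd, card_Dx p q hpq]
    push_cast
    rfl
  have hdq : (d : ℝ) ≤ q := by
    rw [hdp]
    calc ∑ i, (p i : ℝ) ≤ ∑ i, (q : ℝ) * t i ^ 2 := sum_le_sum fun i _ => hpl i
      _ = q := by rw [← mul_sum, ht1, mul_one]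
  have hdn : (q : ℝ) - n ≤ d := by
    rw [hdp]
    have h1 : ∑ i, ((q : ℝ) * t i ^ 2 - 1) ≤ ∑ i, (p i : ℝ) :=
      sum_le_sum fun i _ => by linarith [hpu i]
    have h2 : ∑ i : Fin n, ((q : ℝ) * t i ^ 2 - 1) = (q : ℝ) - n := by
      rw [sum_sub_distrib, ← mul_sum, ht1]
      simp
    linarith
  have hd2 : (q : ℝ) ≤ 2 * d := by nlinarith
  have hd0 : (0 : ℝ) < d := by linarith
  -- the bounds
  have hY : ∀ g ∈ A', hs (YY p q (φ g : Matrix (Fin n) (Fin n) ℂ)) ≤ 4 * δ * q := fun g hg =>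
    YY_small ht1 hδ hqn (hun g) (hcom g hg)
  choose U hU using fun g => hpol (Dx p q) (cp p q (φ g : Matrix (Fin n) (Fin n) ℂ))
  have hU' : ∀ g ∈ A', hs (cp p q (φ g : Matrix (Fin n) (Fin n) ℂ) - (U g : Matrix _ _ ℂ)) ≤
      4 * δ * q := fun g hg => (hU g).trans ((cp_iso_le p q (hun g)).trans (hY g hg))
  set s : ℝ := √(4 * δ * q) with hs'
  have hs2 : s ^ 2 = 4 * δ * q := Real.sq_sqrt (by positivity)
  have hs0 : 0 ≤ s := Real.sqrt_nonneg _
  have hUs : ∀ g ∈ A', √(hs (cp p q (φ g : Matrix (Fin n) (Fin n) ℂ) - (U g : Matrix _ _ ℂ))) ≤ s :=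
    fun g hg => Real.sqrt_le_sqrt (hU' g hg)
  have hUu : ∀ g, (U g : Matrix (Dx p q) (Dx p q) ℂ)ᴴ * (U g : Matrix (Dx p q) (Dx p q) ℂ) = 1 :=
    fun g => UnitaryGroup.star_mul_self (U g)
  let e : Fin d ≃ Dx p q := (Fintype.equivFin (Dx p q)).symm
  let X : Γ → unitaryGroup (Fin d) ℂ := fun g =>
    ⟨(U g : Matrix (Dx p q) (Dx p q) ℂ).submatrix e e, by
      rw [mem_unitaryGroup_iff', star_eq_conjTranspose, conjTranspose_submatrix,
        submatrix_mul_equiv, hUu, submatrix_one_equiv]⟩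
  have hX : ∀ g, (X g : Matrix (Fin d) (Fin d) ℂ) =
    (U g : Matrix (Dx p q) (Dx p q) ℂ).submatrix e e := fun g => rfl
  refine ⟨d, X, by exact_mod_cast hd0, ?_, ?_⟩
  · intro g hg h hh
    have hgh := hAm g hg h hh
    have h1 : (X (g * h) : Matrix (Fin d) (Fin d) ℂ) -
        (X g : Matrix (Fin d) (Fin d) ℂ) * (X h : Matrix (Fin d) (Fin d) ℂ) =
        ((U (g * h) : Matrix (Dx p q) (Dx p q) ℂ) - (U g : Matrix (Dx p q) (Dx p q) ℂ) *
          (U h : Matrix (Dx p q) (Dx p q) ℂ)).submatrix e e := by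
      rw [hX, hX, hX, submatrix_mul_equiv]
      rfl
    rw [h1, hs_submatrix]
    have b2 : √(hs (cp p q (φ (g * h) : Matrix (Fin n) (Fin n) ℂ) -
        cp p q (φ g : Matrix (Fin n) (Fin n) ℂ) * cp p q (φ h : Matrix (Fin n) (Fin n) ℂ))) ≤
          s + s := by
      refine (cp_mul_le p q (hun g)).trans (add_le_add ?_ ?_)
      · refine Real.sqrt_le_sqrt ((hs_up_JJ p q _).trans ?_)
        have h3 := hmul g (hAA hg) h (hAA hh)
        have h4 : ∑ i, ∑ j, ‖((φ (g * h) : Matrix (Fin n) (Fin n) ℂ) -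
            (φ g : Matrix (Fin n) (Fin n) ℂ) * (φ h : Matrix (Fin n) (Fin n) ℂ)) i j‖ ^ 2 *
              (p j : ℝ) ≤ q * δ ^ 2 := by
          refine le_trans ?_ (mul_le_mul_of_nonneg_left h3 hq0.le)
          rw [mul_sum]
          refine sum_le_sum fun i _ => ?_
          rw [mul_sum]
          refine sum_le_sum fun j _ => ?_
          have := mul_le_mul_of_nonneg_left (hpl j) (sq_nonneg ‖((φ (g * h) :
            Matrix (Fin n) (Fin n) ℂ) - (φ g : Matrix (Fin n) (Fin n) ℂ) *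
            (φ h : Matrix (Fin n) (Fin n) ℂ)) i j‖)
          linarith
        nlinarith
      · exact Real.sqrt_le_sqrt (hY h (hAA hh))
    have b5 := five (hUu g) (cp_contr p q (hun h)) (hUs g (hAA hg)) (hUs h (hAA hh))
      (hUs _ hgh) b2
    have b6 := pow_le_pow_left₀ (Real.sqrt_nonneg _) b5 2
    rw [Real.sq_sqrt (hs_nonneg _), mul_pow, hs2] at b6
    nlinarith
  · intro g hg
    rw [hX, trace_submatrix]
    have hg' := hAA hg
    set x := cp p q (φ g : Matrix (Fin n) (Fin n) ℂ) with hx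
    have hφ1 : ∀ i, ‖(φ g : Matrix (Fin n) (Fin n) ℂ) i i‖ ≤ 1 := by
      intro i
      have h1 := row_sum (hun g) i
      have h2 := single_le_sum (f := fun j => ‖(φ g : Matrix (Fin n) (Fin n) ℂ) i j‖ ^ 2)
        (fun j _ => sq_nonneg _) (mem_univ i)
      rw [h1] at h2
      exact (sq_le_one_iff₀ (norm_nonneg _)).1 h2
    set m : ℂ := ∑ i, (t i ^ 2 : ℝ) * (φ g : Matrix (Fin n) (Fin n) ℂ) i i with hm
    have hm1 : ‖m‖ ≤ 1 := by
      rw [← ht1, hm]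
      refine (norm_sum_le _ _).trans (sum_le_sum fun i _ => ?_)
      rw [norm_mul, Complex.norm_real, Real.norm_eq_abs, abs_of_nonneg (sq_nonneg _)]
      nlinarith [sq_nonneg (t i), hφ1 i]
    have c1 : ‖trace (U g : Matrix (Dx p q) (Dx p q) ℂ) - trace x‖ ≤ √d * s :=
      trace_close (hUs g hg')
    have c2 : ‖trace x - q * m‖ ≤ n := by
      rw [hx, trace_cp p q hpq, hm, mul_sum, ← sum_sub_distrib]
      refine (norm_sum_le _ _).trans ?_
      have h1 : ∀ i, ‖(p i : ℂ) * (φ g : Matrix (Fin n) (Fin n) ℂ) i i -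
          q * ((t i ^ 2 : ℝ) * (φ g : Matrix (Fin n) (Fin n) ℂ) i i)‖ ≤ 1 := by
        intro i
        have h2 : (p i : ℂ) * (φ g : Matrix (Fin n) (Fin n) ℂ) i i -
            q * ((t i ^ 2 : ℝ) * (φ g : Matrix (Fin n) (Fin n) ℂ) i i) =
            (((p i : ℝ) - q * t i ^ 2 : ℝ) : ℂ) * (φ g : Matrix (Fin n) (Fin n) ℂ) i i := by
          push_cast
          ring
        rw [h2, norm_mul, Complex.norm_real, Real.norm_eq_abs]
        have h3 : |(p i : ℝ) - q * t i ^ 2| ≤ 1 := by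
          rw [abs_le]
          constructor <;> linarith [hpl i, hpu i]
        nlinarith [abs_nonneg ((p i : ℝ) - q * t i ^ 2), hφ1 i, norm_nonneg
          ((φ g : Matrix (Fin n) (Fin n) ℂ) i i)]
      refine (sum_le_sum fun i _ => h1 i).trans ?_
      simp
    have c3 : ‖(q : ℂ) * m - d * τ g‖ ≤ n + d * δ := by
      have h1 : (q : ℂ) * m - d * τ g = ((q - d : ℝ) : ℂ) * m + d * (m - τ g) := by
        push_cast
        ring
      rw [h1]
      refine (norm_add_le _ _).trans (add_le_add ?_ ?_)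
      · rw [norm_mul, Complex.norm_real, Real.norm_eq_abs, abs_of_nonneg (by linarith)]
        nlinarith
      · rw [norm_mul, Complex.norm_natCast]
        exact mul_le_mul_of_nonneg_left (htr g hg') hd0.le
    have c4 : ‖trace (U g : Matrix (Dx p q) (Dx p q) ℂ) - d * τ g‖ ≤ √d * s + n + (n + d * δ) := by
      have h1 : trace (U g : Matrix (Dx p q) (Dx p q) ℂ) - d * τ g =
          (trace (U g : Matrix (Dx p q) (Dx p q) ℂ) - trace x) + (trace x - q * m) +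
            ((q : ℂ) * m - d * τ g) := by ring
      rw [h1]
      exact (norm_add₃_le).trans (by linarith)
    have hdc : (d : ℂ) ≠ 0 := by
      have : (d : ℝ) ≠ 0 := hd0.ne'
      exact_mod_cast this
    have h1 : trace (U g : Matrix (Dx p q) (Dx p q) ℂ) / d - τ g =
        (trace (U g : Matrix (Dx p q) (Dx p q) ℂ) - d * τ g) / d := by
      field_simp
    rw [h1, norm_div, Complex.norm_natCast, div_le_iff₀ hd0]
    refine c4.trans ?_
    set r : ℝ := √δ with hr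
    have hr2 : r ^ 2 = δ := Real.sq_sqrt hδ.le
    have hr0 : 0 ≤ r := Real.sqrt_nonneg _
    have hr1 : r ≤ 1 := by
      rw [hr]
      exact Real.sqrt_le_one.2 (by linarith)
    have hrε : 8 * r ≤ ε := by
      have : (8 * r) ^ 2 ≤ ε ^ 2 := by nlinarith
      exact (pow_le_pow_iff_left₀ (by positivity) hε.le two_ne_zero).1 this
    have h2 : √(d : ℝ) * s ≤ 3 * r * d := by
      have h3 : (√(d : ℝ) * s) ^ 2 ≤ (3 * r * d) ^ 2 := by
        rw [mul_pow, Real.sq_sqrt hd0.le, hs2, mul_pow, mul_pow, hr2]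
        nlinarith [mul_nonneg hδ.le hd0.le, mul_nonneg (mul_nonneg hδ.le hd0.le) hd0.le]
      exact (pow_le_pow_iff_left₀ (by positivity) (by positivity) two_ne_zero).1 h3
    have h4 : (n : ℝ) ≤ 2 * δ * d := by nlinarith
    have h5 : δ ≤ r := by nlinarith
    nlinarith [mul_nonneg hr0 hd0.le, mul_le_mul_of_nonneg_right h5 hd0.le,
      mul_le_mul_of_nonneg_right hrε hd0.le]

end Stc

theorem stc : S_STC := Stc.stc_of pol

end Pool.Agent.Helper47.CA
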