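import Pool.Agent.Helper47.CA.Stm
import Pool.Graph.R_pool_sql_team_seeded_63374d34.N2.QW.Mat
import Pool.Graph.R_seed8.W683.RC.Bas

/-!
# STC: from densities to matrices (staircase)
-/

set_option autoImplicit false
set_option maxHeartbeats 4000000

namespace Pool.Agent.Helper47.CA

namespace Stc

open Matrix Finset Pool.Agent.H21R2 Pool.Agent.H80R2.HG Pool.Agent.N2.QW
open scoped ComplexOrder Matrix.Norms.Frobenius InnerProductSpace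

/-- the matrix data -/
structure MDt {Γ : Type} [Group Γ] (A : Finset Γ) (τ : Γ → ℂ) (M ε : ℝ) {n N : ℕ}
    (B : Γ → Matrix (Fin n) (Fin n) ℂ) (Z : Matrix (Fin n) (Fin N) ℂ) : Prop where
  one : B 1 = 1
  op : ∀ g ∈ A, ∀ X : Matrix (Fin n) (Fin n) ℂ, ‖B g * X‖ ≤ M * ‖X‖
  nz : ‖Z‖ = 1
  inv : ∀ g ∈ A, ∀ V : unitaryGroup (Fin n) ℂ,
    ‖trace (Zᴴ * (V.1 * Z)) - trace ((B g * Z)ᴴ * (V.1 * (B g * Z)))‖ ≤ ε
  iso : ∀ g ∈ A, ‖(1 - (B g)ᴴ * B g) * Z‖ ^ 2 ≤ ε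
  mul : ∀ g ∈ A, ∀ h ∈ A, ‖(B (g * h) - B g * B h) * Z‖ ^ 2 ≤ ε
  tr : ∀ g ∈ A, ‖trace (Zᴴ * (B g * Z)) - τ g‖ ≤ ε

open Classical in
theorem toMDt {Γ : Type} [Group Γ] (A : Finset Γ) (τ : Γ → ℂ) (M ε : ℝ) (h1A : (1 : Γ) ∈ A)
    (K : Type) [NormedAddCommGroup K] [InnerProductSpace ℂ K] [CompleteSpace K]
    (b : Γ → (K →L[ℂ] K)) (N : ℕ) (ζ : Fin N → K) (hb1 : b 1 = 1) (hbM : ∀ g ∈ A, ‖b g‖ ≤ M)
    (hz : ∑ k, ‖ζ k‖ ^ 2 = 1)
    (hinv : ∀ g ∈ A, ∀ V : K →L[ℂ] K, ‖V‖ ≤ 1 →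
      ‖∑ k, (⟪ζ k, V (ζ k)⟫_ℂ - ⟪b g (ζ k), V (b g (ζ k))⟫_ℂ)‖ ≤ ε)
    (hiso : ∀ g ∈ A, ∑ k, ‖(1 - star (b g) * b g) (ζ k)‖ ^ 2 ≤ ε)
    (hmul : ∀ g ∈ A, ∀ h ∈ A, ∑ k, ‖(b (g * h) - b g * b h) (ζ k)‖ ^ 2 ≤ ε)
    (htr : ∀ g ∈ A, ‖∑ k, ⟪ζ k, b g (ζ k)⟫_ℂ - τ g‖ ≤ ε) :
    ∃ (n N : ℕ) (B : Γ → Matrix (Fin n) (Fin n) ℂ) (Z : Matrix (Fin n) (Fin N) ℂ),
      MDt A τ M ε B Z := by
  set s : Set K := ⋃ g ∈ A, Set.range (fun k => b g (ζ k)) with hs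
  have hfin : s.Finite := A.finite_toSet.biUnion fun g _ => Set.finite_range _
  set W : Submodule ℂ K := Submodule.span ℂ s with hW
  have : FiniteDimensional ℂ W := FiniteDimensional.span_of_finite ℂ hfin
  set bs := stdOrthonormalBasis ℂ W with hbs
  set e : Fin (Module.finrank ℂ W) → K := fun x => (bs x : K) with he'
  have he : Orthonormal ℂ e := bs.orthonormal.comp_linearIsometry W.subtypeₗᵢ
  have hsp : ∀ v ∈ W, Sp e v := by
    intro v hv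
    have h1 := congrArg (fun x : W => (x : K)) (bs.sum_repr' ⟨v, hv⟩)
    simp only [Submodule.coe_sum, Submodule.coe_smul] at h1
    exact h1.symm
  have hbW : ∀ g ∈ A, ∀ k, b g (ζ k) ∈ W := fun g hg k =>
    Submodule.subset_span (Set.mem_biUnion hg ⟨k, rfl⟩)
  have hζW : ∀ k, ζ k ∈ W := by
    intro k
    have := hbW 1 h1A k
    rwa [hb1] at this
  have hB : ∀ g, mt e (b g) * ZZ e ζ = ZZ e (fun k => b g (ζ k)) := fun g =>
    mt_mul_ZZ e (b g) ζ fun k => hsp _ (hζW k)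
  refine ⟨_, N, fun g => mt e (b g), ZZ e ζ, ?_, ?_, ?_, ?_, ?_, ?_, ?_⟩
  · show mt e (b 1) = 1
    rw [hb1, mt_one e he]
  · intro g hg X
    exact norm_mt_mul e he _ M (hbM g hg) X
  · rw [norm_eq, fro2_ZZ e ζ (fun k => hsp _ (hζW k)), hz, Real.sqrt_one]
  · intro g hg V
    rw [hB, trace_ZZ, trace_ZZ, ← sum_sub_distrib]
    exact hinv g hg _ (norm_Vop_le e he V)
  · intro g hg
    have h1 : (1 - (mt e (b g))ᴴ * mt e (b g)) * ZZ e ζ =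
        ZZ e (fun k => (1 - star (b g) * b g) (ζ k)) := by
      rw [Matrix.sub_mul, Matrix.one_mul, Matrix.mul_assoc, hB, ← mt_star,
        mt_mul_ZZ e _ _ (fun k => hsp _ (hbW g hg k)), ZZ_sub]
      rfl
    rw [norm_sq_eq, h1]
    exact (fro2_ZZ_le e he _).trans (hiso g hg)
  · intro g hg h hh
    have h1 : (mt e (b (g * h)) - mt e (b g) * mt e (b h)) * ZZ e ζ =
        ZZ e (fun k => (b (g * h) - b g * b h) (ζ k)) := by
      rw [Matrix.sub_mul, Matrix.mul_assoc, hB, hB,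
        mt_mul_ZZ e _ _ (fun k => hsp _ (hbW h hh k)), ZZ_sub]
      rfl
    rw [norm_sq_eq, h1]
    exact (fro2_ZZ_le e he _).trans (hmul g hg h hh)
  · intro g hg
    rw [hB, trace_ZZ' e _ _ (fun k => hsp _ (hbW g hg k))]
    exact htr g hg


/-- **The almost commuting unitaries.** -/
theorem part1 {Γ : Type} [Group Γ] (τ : Γ → ℂ)
    (H : ∀ A : Finset Γ, ∃ M : ℝ, ∀ ε : ℝ, 0 < ε →
      ∃ (K : Type) (_ : NormedAddCommGroup K) (_ : InnerProductSpace ℂ K) (_ : CompleteSpace K)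
        (b : Γ → (K →L[ℂ] K)) (N : ℕ) (ζ : Fin N → K), b 1 = 1 ∧ (∀ g ∈ A, ‖b g‖ ≤ M) ∧
        ∑ k, ‖ζ k‖ ^ 2 = 1 ∧
        (∀ g ∈ A, ∀ V : K →L[ℂ] K, ‖V‖ ≤ 1 →
          ‖∑ k, (⟪ζ k, V (ζ k)⟫_ℂ - ⟪b g (ζ k), V (b g (ζ k))⟫_ℂ)‖ ≤ ε) ∧
        (∀ g ∈ A, ∑ k, ‖(1 - star (b g) * b g) (ζ k)‖ ^ 2 ≤ ε) ∧
        (∀ g ∈ A, ∀ h ∈ A, ∑ k, ‖(b (g * h) - b g * b h) (ζ k)‖ ^ 2 ≤ ε) ∧
        ∀ g ∈ A, ‖∑ k, ⟪ζ k, b g (ζ k)⟫_ℂ - τ g‖ ≤ ε)
    (A : Finset Γ) (δ : ℝ) (hδ : 0 < δ) :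
    ∃ (n : ℕ) (t : Fin n → ℝ) (φ : Γ → unitaryGroup (Fin n) ℂ), (∀ i, 0 ≤ t i) ∧
      ∑ i, t i ^ 2 = 1 ∧
      (∀ g ∈ A, ∑ i, ∑ j, ‖(φ g : Matrix (Fin n) (Fin n) ℂ) i j‖ ^ 2 * (t i - t j) ^ 2 ≤ δ ^ 2) ∧
      (∀ g ∈ A, ∀ h ∈ A, ∑ i, ∑ j, ‖((φ (g * h) : Matrix (Fin n) (Fin n) ℂ) -
        (φ g : Matrix (Fin n) (Fin n) ℂ) * (φ h : Matrix (Fin n) (Fin n) ℂ)) i j‖ ^ 2 * t j ^ 2 ≤
          δ ^ 2) ∧
      ∀ g ∈ A, ‖∑ i, (t i ^ 2 : ℝ) * (φ g : Matrix (Fin n) (Fin n) ℂ) i i - τ g‖ ≤ δ := by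
  classical
  set A' : Finset Γ := insert 1 (A ∪ Finset.image₂ (· * ·) A A) with hA'
  have hAA : A ⊆ A' := fun g hg => mem_insert_of_mem (mem_union_left _ hg)
  have hAm : ∀ g ∈ A, ∀ h ∈ A, g * h ∈ A' := fun g hg h hh =>
    mem_insert_of_mem (mem_union_right _ (mem_image₂_of_mem hg hh))
  have h1A : (1 : Γ) ∈ A' := mem_insert_self _ _
  obtain ⟨M, hM⟩ := H A'
  have hMp : 0 < 6 + |M| := by positivity
  set η : ℝ := min (1 / 4) (δ / (6 + |M|)) with hη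
  have hη0 : 0 < η := lt_min (by norm_num) (by positivity)
  have hη1 : η ≤ 1 / 4 := min_le_left _ _
  have hη2 : (6 + |M|) * η ≤ δ := by
    have : η ≤ δ / (6 + |M|) := min_le_right _ _
    rw [le_div_iff₀ hMp] at this
    linarith
  have hp2 : η ^ 2 ≤ η := by nlinarith
  have hp4 : η ^ 4 ≤ η ^ 2 := by
    have : η ^ 4 = η ^ 2 * η ^ 2 := by ring
    rw [this]
    nlinarith [sq_nonneg η]
  obtain ⟨K, _, _, _, b, N, ζ, c1, c2, c3, c4, c5, c6, c7⟩ := hM (η ^ 4) (by positivity)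
  obtain ⟨n, N, B, Z, hD⟩ := toMDt A' τ M (η ^ 4) h1A K b N ζ c1 c2 c3 c4 c5 c6 c7
  have hM0 : 0 ≤ M := by
    have := c2 1 h1A
    exact (norm_nonneg _).trans this
  rw [abs_of_nonneg hM0] at hη2
  have hZp : (Z * Zᴴ).PosSemidef := posSemidef_self_mul_conjTranspose Z
  set W : unitaryGroup (Fin n) ℂ := hZp.1.eigenvectorUnitary with hW
  set t : Fin n → ℝ := fun i => Real.sqrt (hZp.1.eigenvalues i) with ht
  set T : Matrix (Fin n) (Fin n) ℂ := PSAux.conjD W t with hTdef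
  have hTp : T.PosSemidef := PSAux.conjD_psd _ _ (fun i => Real.sqrt_nonneg _)
  have hTT : T * T = Z * Zᴴ := by
    rw [hTdef, PSAux.conjD_mul]
    conv_rhs => rw [PSAux.herm_eq (Z * Zᴴ) hZp.1]
    congr 1
    funext i
    exact Real.mul_self_sqrt (hZp.eigenvalues_nonneg i)
  have hT : Tᴴ = T := hTp.1
  have hT1 := norm_T hT hTT hD.nz
  have hsq : ∀ {m : ℕ} (X : Matrix (Fin n) (Fin m) ℂ), ‖X‖ ^ 2 ≤ η ^ 4 → ‖X‖ ≤ η ^ 2 := by
    intro m X hX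
    refine le_of_sq_le_sq ?_ (by positivity)
    calc ‖X‖ ^ 2 ≤ η ^ 4 := hX
      _ = (η ^ 2) ^ 2 := by ring
  have hu : ∀ g, ∃ u : unitaryGroup (Fin n) ℂ,
      (g ∈ A' → ‖u.1 * T - B g * T‖ ≤ η ∧ ‖T * u.1 - B g * T‖ ≤ η) := by
    intro g
    by_cases hgA : g ∈ A'
    · obtain ⟨u, hu⟩ := exists_u hTp hTT hD.nz (B g) η hη0.le (hsq _ (hD.iso g hgA))
        (fun V => (hD.inv g hgA V).trans hp4)
      exact ⟨u, fun _ => hu⟩
    · exact ⟨1, fun h => absurd h hgA⟩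
  choose φ hφ using hu
  have hcomm : ∀ a ∈ A', ‖(φ a).1 * T - T * (φ a).1‖ ≤ 2 * η := by
    intro a ha
    have e1 : (φ a).1 * T - T * (φ a).1 = ((φ a).1 * T - B a * T) - (T * (φ a).1 - B a * T) := by
      abel
    rw [e1]
    refine (norm_sub_le _ _).trans ?_
    have := hφ a ha
    linarith [this.1, this.2]
  have hmul : ∀ a ∈ A, ∀ c ∈ A, ‖((φ (a * c)).1 - (φ a).1 * (φ c).1) * T‖ ≤ δ := by
    intro a ha c hc
    have hac := hAm a ha c hc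
    have e1 : ((φ (a * c)).1 - (φ a).1 * (φ c).1) * T =
        ((φ (a * c)).1 * T - B (a * c) * T) + (B (a * c) - B a * B c) * T -
          B a * (T * (φ c).1 - B c * T) - ((φ a).1 * T - B a * T) * (φ c).1 -
          (φ a).1 * ((φ c).1 * T - T * (φ c).1) := by
      noncomm_ring
    have n1 := (hφ _ hac).1
    have n2 : ‖(B (a * c) - B a * B c) * T‖ ≤ η := by
      rw [norm_mul_T hT hTT]
      exact (hsq _ (hD.mul a (hAA ha) c (hAA hc))).trans hp2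
    have n3 : ‖B a * (T * (φ c).1 - B c * T)‖ ≤ M * η :=
      (hD.op a (hAA ha) _).trans (mul_le_mul_of_nonneg_left (hφ c (hAA hc)).2 hM0)
    have n4 : ‖((φ a).1 * T - B a * T) * (φ c).1‖ ≤ η := by
      rw [norm_mul_unitary]
      exact (hφ a (hAA ha)).1
    have n5 : ‖(φ a).1 * ((φ c).1 * T - T * (φ c).1)‖ ≤ 2 * η := by
      rw [norm_unitary_mul]
      exact hcomm c (hAA hc)
    rw [e1]
    refine (norm_sub_le _ _).trans ?_
    refine (add_le_add_left (norm_sub_le _ _) _).trans ?_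
    refine (add_le_add_left (add_le_add_left (norm_sub_le _ _) _) _).trans ?_
    refine (add_le_add_left (add_le_add_left (add_le_add_left (norm_add_le _ _) _) _) _).trans ?_
    nlinarith
  have htrc : ∀ g ∈ A, ‖trace (T * T * (φ g).1) - τ g‖ ≤ δ := by
    intro g hg
    have e1 : trace (T * T * (φ g).1) - τ g = trace (T * ((φ g).1 * T - B g * T)) +
        (trace (Zᴴ * (B g * Z)) - τ g) := by
      rw [← trace_TT hTT, Matrix.mul_sub, trace_sub]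
      have h1 : ∀ V : Matrix (Fin n) (Fin n) ℂ, trace (T * (V * T)) = trace (T * T * V) := by
        intro V
        rw [← Matrix.mul_assoc, Matrix.trace_mul_comm, Matrix.mul_assoc]
      rw [h1, h1]
      ring
    rw [e1]
    refine (norm_add_le _ _).trans ?_
    have h2 := norm_trace_mul_le T ((φ g).1 * T - B g * T)
    rw [hT1, one_mul] at h2
    have h3 := (hφ g (hAA hg)).1
    have h4 := (hD.tr g (hAA hg)).trans (hp4.trans hp2)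
    nlinarith
  -- change of the basis
  have hWW : (W : Matrix (Fin n) (Fin n) ℂ)ᴴ * (W : Matrix (Fin n) (Fin n) ℂ) = 1 := PSAux.uh W
  have hWW' : (W : Matrix (Fin n) (Fin n) ℂ) * (W : Matrix (Fin n) (Fin n) ℂ)ᴴ = 1 := PSAux.hu W
  set Dg : Matrix (Fin n) (Fin n) ℂ := diagonal (fun i => (t i : ℂ)) with hDg
  have hTD : T = (W : Matrix (Fin n) (Fin n) ℂ) * Dg * (W : Matrix (Fin n) (Fin n) ℂ)ᴴ := rfl
  have hinv : ((W⁻¹ : unitaryGroup (Fin n) ℂ) : Matrix (Fin n) (Fin n) ℂ) =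
    (W : Matrix (Fin n) (Fin n) ℂ)ᴴ := rfl
  let ψ : Γ → unitaryGroup (Fin n) ℂ := fun g => W⁻¹ * φ g * W
  have hψ : ∀ g, (ψ g : Matrix (Fin n) (Fin n) ℂ) =
      (W : Matrix (Fin n) (Fin n) ℂ)ᴴ * (φ g).1 * (W : Matrix (Fin n) (Fin n) ℂ) := fun g => rfl
  have hn : ∀ X : Matrix (Fin n) (Fin n) ℂ, ‖(W : Matrix (Fin n) (Fin n) ℂ)ᴴ * X *
      (W : Matrix (Fin n) (Fin n) ℂ)‖ = ‖X‖ := by
    intro X
    rw [norm_mul_unitary, ← hinv, norm_unitary_mul]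
  have hd2 : ∀ X : Matrix (Fin n) (Fin n) ℂ, ‖X * Dg‖ ^ 2 = ∑ i, ∑ j, ‖X i j‖ ^ 2 * t j ^ 2 := by
    intro X
    rw [norm_sq_eq, fro2]
    refine sum_congr rfl fun i _ => sum_congr rfl fun j _ => ?_
    rw [hDg, mul_diagonal, norm_mul, mul_pow, Complex.norm_real, Real.norm_eq_abs, sq_abs]
  refine ⟨n, t, ψ, fun i => Real.sqrt_nonneg _, ?_, ?_, ?_, ?_⟩
  · have h1 : ‖Dg‖ = 1 := by
      have h2 := hn T
      rw [hTD] at h2
      have h3 : (W : Matrix (Fin n) (Fin n) ℂ)ᴴ * ((W : Matrix (Fin n) (Fin n) ℂ) * Dg *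
          (W : Matrix (Fin n) (Fin n) ℂ)ᴴ) * (W : Matrix (Fin n) (Fin n) ℂ) = Dg := by
        calc _ = ((W : Matrix (Fin n) (Fin n) ℂ)ᴴ * (W : Matrix (Fin n) (Fin n) ℂ)) * Dg *
            ((W : Matrix (Fin n) (Fin n) ℂ)ᴴ * (W : Matrix (Fin n) (Fin n) ℂ)) := by
              simp only [Matrix.mul_assoc]
          _ = Dg := by rw [hWW, Matrix.one_mul, Matrix.mul_one]
      rw [h3, ← hTD, hT1] at h2
      exact h2
    have h2 := hd2 1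
    rw [Matrix.one_mul, h1, one_pow] at h2
    rw [h2]
    refine sum_congr rfl fun i _ => ?_
    rw [sum_eq_single i]
    · rw [Matrix.one_apply_eq, norm_one, one_pow, one_mul]
    · intro j _ hj
      rw [Matrix.one_apply_ne hj.symm, norm_zero]
      ring
    · intro h
      exact absurd (mem_univ i) h
  · intro g hg
    have h1 : ‖(ψ g : Matrix (Fin n) (Fin n) ℂ) * Dg - Dg * (ψ g : Matrix (Fin n) (Fin n) ℂ)‖ ≤
        2 * η := by
      have h2 : (ψ g : Matrix (Fin n) (Fin n) ℂ) * Dg - Dg * (ψ g : Matrix (Fin n) (Fin n) ℂ) =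
          (W : Matrix (Fin n) (Fin n) ℂ)ᴴ * ((φ g).1 * T - T * (φ g).1) *
            (W : Matrix (Fin n) (Fin n) ℂ) := by
        rw [hψ, hTD]
        calc _ = (W : Matrix (Fin n) (Fin n) ℂ)ᴴ * (φ g).1 * (W : Matrix (Fin n) (Fin n) ℂ) * Dg *
                1 - 1 * Dg * ((W : Matrix (Fin n) (Fin n) ℂ)ᴴ * (φ g).1 *
                  (W : Matrix (Fin n) (Fin n) ℂ)) := by rw [Matrix.mul_one, Matrix.one_mul]
          _ = _ := by rw [← hWW]; noncomm_ring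
      rw [h2, hn]
      exact hcomm g (hAA hg)
    have h2 : ‖(ψ g : Matrix (Fin n) (Fin n) ℂ) * Dg - Dg * (ψ g : Matrix (Fin n) (Fin n) ℂ)‖ ^ 2 =
        ∑ i, ∑ j, ‖(ψ g : Matrix (Fin n) (Fin n) ℂ) i j‖ ^ 2 * (t i - t j) ^ 2 := by
      rw [norm_sq_eq, fro2]
      refine sum_congr rfl fun i _ => sum_congr rfl fun j _ => ?_
      rw [Matrix.sub_apply, hDg, mul_diagonal, diagonal_mul]
      have h3 : (ψ g : Matrix (Fin n) (Fin n) ℂ) i j * (t j : ℂ) -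
          (t i : ℂ) * (ψ g : Matrix (Fin n) (Fin n) ℂ) i j =
          (ψ g : Matrix (Fin n) (Fin n) ℂ) i j * ((t j - t i : ℝ) : ℂ) := by
        push_cast
        ring
      rw [h3, norm_mul, mul_pow, Complex.norm_real, Real.norm_eq_abs, sq_abs]
      ring
    rw [← h2]
    refine pow_le_pow_left₀ (norm_nonneg _) (h1.trans ?_) 2
    nlinarith
  · intro g hg h hh
    rw [← hd2]
    have h2 : ((ψ (g * h) : Matrix (Fin n) (Fin n) ℂ) -
        (ψ g : Matrix (Fin n) (Fin n) ℂ) * (ψ h : Matrix (Fin n) (Fin n) ℂ)) * Dg =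
          (W : Matrix (Fin n) (Fin n) ℂ)ᴴ * (((φ (g * h)).1 - (φ g).1 * (φ h).1) * T) *
            (W : Matrix (Fin n) (Fin n) ℂ) := by
      rw [hψ, hψ, hψ, hTD]
      have e1 : (W : Matrix (Fin n) (Fin n) ℂ)ᴴ * (φ g).1 * (W : Matrix (Fin n) (Fin n) ℂ) *
          ((W : Matrix (Fin n) (Fin n) ℂ)ᴴ * (φ h).1 * (W : Matrix (Fin n) (Fin n) ℂ)) =
          (W : Matrix (Fin n) (Fin n) ℂ)ᴴ * ((φ g).1 * (φ h).1) * (W : Matrix (Fin n) (Fin n) ℂ) := by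
        calc _ = (W : Matrix (Fin n) (Fin n) ℂ)ᴴ * (φ g).1 * ((W : Matrix (Fin n) (Fin n) ℂ) *
              (W : Matrix (Fin n) (Fin n) ℂ)ᴴ) * (φ h).1 * (W : Matrix (Fin n) (Fin n) ℂ) := by
                simp only [Matrix.mul_assoc]
          _ = _ := by rw [hWW', Matrix.mul_one]; simp only [Matrix.mul_assoc]
      rw [e1]
      calc _ = (W : Matrix (Fin n) (Fin n) ℂ)ᴴ * ((φ (g * h)).1 - (φ g).1 * (φ h).1) *
            (W : Matrix (Fin n) (Fin n) ℂ) * Dg * 1 := by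
              rw [Matrix.mul_one]; noncomm_ring
        _ = _ := by rw [← hWW]; noncomm_ring
    rw [h2, hn]
    exact pow_le_pow_left₀ (norm_nonneg _) (hmul g hg h hh) 2
  · intro g hg
    have h1 : trace (T * T * (φ g).1) = ∑ i, (t i ^ 2 : ℝ) * (ψ g : Matrix (Fin n) (Fin n) ℂ) i i := by
      have h2 : trace (T * T * (φ g).1) = trace (Dg * Dg * (ψ g : Matrix (Fin n) (Fin n) ℂ)) := by
        rw [hψ, hTD]
        have e1 : (W : Matrix (Fin n) (Fin n) ℂ) * Dg * (W : Matrix (Fin n) (Fin n) ℂ)ᴴ *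
            ((W : Matrix (Fin n) (Fin n) ℂ) * Dg * (W : Matrix (Fin n) (Fin n) ℂ)ᴴ) * (φ g).1 =
            (W : Matrix (Fin n) (Fin n) ℂ) * (Dg * Dg * (W : Matrix (Fin n) (Fin n) ℂ)ᴴ *
              (φ g).1) := by
          calc _ = (W : Matrix (Fin n) (Fin n) ℂ) * Dg * ((W : Matrix (Fin n) (Fin n) ℂ)ᴴ *
              (W : Matrix (Fin n) (Fin n) ℂ)) * Dg * (W : Matrix (Fin n) (Fin n) ℂ)ᴴ * (φ g).1 := by
                simp only [Matrix.mul_assoc]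
            _ = _ := by rw [hWW, Matrix.mul_one]; simp only [Matrix.mul_assoc]
        rw [e1, Matrix.trace_mul_comm]
        congr 1
        simp only [Matrix.mul_assoc]
      rw [h2, hDg, diagonal_mul_diagonal, trace]
      refine sum_congr rfl fun i _ => ?_
      rw [diag_apply, diagonal_mul]
      push_cast
      ring
    rw [← h1]
    exact htrc g hg

end Stc

end Pool.Agent.Helper47.CA
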