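import Pool.Agent.Helper47.CA.Int
import Pool.Graph.R_seed8.W661.RC.Defs

/-!
# Relative embeddability: statements of the parts

`hs x` is the SQUARED unnormalised Hilbert-Schmidt norm, `Le a b` means that `b - a` is positive semidefinite.
-/

set_option autoImplicit false

open scoped InnerProductSpace Kronecker
open Filter Topology Matrix

namespace Pool.Agent.Helper47.CA

open Pool.Agent.N557.QWX (Op tr IsTracial IsHom)
open Pool.Agent.N859.QX (QWEP)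
open Pool.Agent.N859.QW (vN Aut L2)
open Pool.Agent.W661.RC (hs Le)

noncomputable section

/-! ## From QWEP to matrices -/

/-- The group of the unitaries of a von Neumann algebra. -/
def UAs {H : Type} [NormedAddCommGroup H] [InnerProductSpace ℂ H] [CompleteSpace H] (A : VonNeumannAlgebra H) :
    Subgroup (unitary (Op H)) where
  carrier := {u | (u : Op H) ∈ A}
  one_mem' := by
    show ((1 : unitary (Op H)) : Op H) ∈ A.toStarSubalgebra
    exact one_mem A.toStarSubalgebra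
  mul_mem' := by
    intro a b ha hb
    show ((a * b : unitary (Op H)) : Op H) ∈ A.toStarSubalgebra
    exact mul_mem (S := StarSubalgebra ℂ (Op H)) ha hb
  inv_mem' := by
    intro a ha
    show ((a⁻¹ : unitary (Op H)) : Op H) ∈ A.toStarSubalgebra
    exact star_mem (S := StarSubalgebra ℂ (Op H)) ha

/-- The group of the unitaries of a von Neumann algebra, as a type. -/
abbrev UA {H : Type} [NormedAddCommGroup H] [InnerProductSpace ℂ H] [CompleteSpace H] (A : VonNeumannAlgebra H) :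
    Type := UAs A

/-- STA: the hypertrace on the unitaries of a QWEP finite von Neumann algebra. Copy of `Pool.Agent.N286.QW.t_state`
(with `Pool.Agent.N833.QW.t_bim` and `Pool.Agent.N664.QWP.RT` for the right multiplications), with the value of the
trace in place of `0`. -/
def S_STA : Prop :=
  ∀ (H : Type) [NormedAddCommGroup H] [InnerProductSpace ℂ H] [CompleteSpace H] (A : VonNeumannAlgebra H) (ξ : H),
    IsTracial A ξ → QWEP A →
    ∃ (K : Type) (_ : NormedAddCommGroup K) (_ : InnerProductSpace ℂ K) (_ : CompleteSpace K)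
      (b : UA A → (K →L[ℂ] K)) (φ : (K →L[ℂ] K) →ₗ[ℂ] ℂ),
      b 1 = 1 ∧ φ 1 = 1 ∧ (∀ T, φ (star T) = star (φ T)) ∧ (∀ T, 0 ≤ (φ (star T * T)).re) ∧
      (∀ g V, φ (star (b g) * V * b g) = φ V) ∧
      (∀ g, φ (star (1 - star (b g) * b g) * (1 - star (b g) * b g)) = 0) ∧
      (∀ g h, φ (star (b (g * h) - b g * b h) * (b (g * h) - b g * b h)) = 0) ∧
      ∀ g : UA A, φ (b g) = tr ξ ((g : unitary (Op H)) : Op H)

/-- STC: from densities to matrices (staircase). Use `MatA.toMD` (modified), `exists_u` of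
`Pool/Graph/.../N2/QW/Mat.lean`: there are unitary matrices `φ g` and a positive `T` with `‖T‖₂ = 1` which almost
commute, `φ` is almost multiplicative on `T` and `trace (T² φ g)` is close to `τ g`. Let `ρ i` be the eigenvalues of
`T²`, `p i = ⌊q ρ i⌋` for a large `q`, and `P = ⊕ e_i ⊗ (first p i coordinates)` on `ℂⁿ ⊗ ℂ^q`. Then `P (φ g ⊗ 1) P` on
the range of `P` is almost unitary, almost multiplicative and has almost the trace `τ g`; take polar parts. -/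
def S_STC : Prop :=
  ∀ (Γ : Type) [Group Γ] (τ : Γ → ℂ),
    (∀ A : Finset Γ, ∃ M : ℝ, ∀ ε : ℝ, 0 < ε →
      ∃ (K : Type) (_ : NormedAddCommGroup K) (_ : InnerProductSpace ℂ K) (_ : CompleteSpace K)
        (b : Γ → (K →L[ℂ] K)) (N : ℕ) (ζ : Fin N → K), b 1 = 1 ∧ (∀ g ∈ A, ‖b g‖ ≤ M) ∧
        ∑ k, ‖ζ k‖ ^ 2 = 1 ∧
        (∀ g ∈ A, ∀ V : K →L[ℂ] K, ‖V‖ ≤ 1 →
          ‖∑ k, (⟪ζ k, V (ζ k)⟫_ℂ - ⟪b g (ζ k), V (b g (ζ k))⟫_ℂ)‖ ≤ ε) ∧
        (∀ g ∈ A, ∑ k, ‖(1 - star (b g) * b g) (ζ k)‖ ^ 2 ≤ ε) ∧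
        (∀ g ∈ A, ∀ h ∈ A, ∑ k, ‖(b (g * h) - b g * b h) (ζ k)‖ ^ 2 ≤ ε) ∧
        ∀ g ∈ A, ‖∑ k, ⟪ζ k, b g (ζ k)⟫_ℂ - τ g‖ ≤ ε) →
    ∀ (A : Finset Γ) (ε : ℝ), 0 < ε → ∃ (n : ℕ) (X : Γ → unitaryGroup (Fin n) ℂ), 0 < n ∧
      (∀ g ∈ A, ∀ h ∈ A, hs ((X (g * h) : Matrix (Fin n) (Fin n) ℂ) -
        (X g : Matrix (Fin n) (Fin n) ℂ) * (X h : Matrix (Fin n) (Fin n) ℂ)) ≤ ε * n) ∧
      ∀ g ∈ A, ‖trace (X g : Matrix (Fin n) (Fin n) ℂ) / n - τ g‖ ≤ ε

/-- MIC: matrix models for the unitaries of a QWEP finite von Neumann algebra (from STA, `Pool.Agent.N163.QW.t_day` and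
STC: theorem `mic : S_STA → S_STC → S_MIC`). -/
def S_MIC : Prop :=
  ∀ (H : Type) [NormedAddCommGroup H] [InnerProductSpace ℂ H] [CompleteSpace H] (A : VonNeumannAlgebra H) (ξ : H),
    IsTracial A ξ → QWEP A → ∀ (W : Finset (FreeGroup (UA A))) (ε : ℝ), 0 < ε →
    ∃ (n : ℕ) (X : UA A → unitaryGroup (Fin n) ℂ), 0 < n ∧
      ∀ w ∈ W, ‖trace ((FreeGroup.lift X w : unitaryGroup (Fin n) ℂ) : Matrix (Fin n) (Fin n) ℂ) / n -
        tr ξ (((FreeGroup.lift (fun u : UA A => u) w : UA A) : unitary (Op H)) : Op H)‖ ≤ ε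

/-! ## Approximation in the tensor product -/

section reps

variable {Γ : Type} [Group Γ]

/-- The extension of a unitary representation to the group algebra. -/
def opr {K : Type} [NormedAddCommGroup K] [InnerProductSpace ℂ K] [CompleteSpace K]
    (θ : Γ →* unitary (Op K)) : MonoidAlgebra ℂ Γ →ₐ[ℂ] Op K :=
  MonoidAlgebra.lift ℂ (Op K) Γ ((unitary (Op K)).subtype.comp θ)

/-- The extension of a representation by unitary matrices to the group algebra. -/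
def mrep {m : Type} [Fintype m] [DecidableEq m] (ρ : Γ →* unitaryGroup m ℂ) :
    MonoidAlgebra ℂ Γ →ₐ[ℂ] Matrix m m ℂ :=
  MonoidAlgebra.lift ℂ (Matrix m m ℂ) Γ ((unitaryGroup m ℂ).subtype.comp ρ)

end reps

/-- KAP: Kaplansky's density theorem for the norm `x ↦ ‖x η‖`, with elements of the group algebra whose norm is
controlled in ALL representations by unitary matrices. Proof for `a = a*`, `‖a‖ ≤ 1`: `a = fa w` with `w = w*` in `T`
(`S_CA` of `N557/QW/Stm.lean`, proved in `N896/QWP/CAB.lean`), `s = s*` in the group algebra with `‖(opr θ s - w) η‖`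
small, then `‖(fa (opr θ s) - a) η‖` is small by `S_CB` and the trace property; `p` a real polynomial with
`|p| ≤ 1` on `[-C, C]`, `C ≥ ‖s‖₁`, close to `2 t / (1 + t²)` there; take `c = p(s)`. -/
def S_KAP : Prop :=
  ∀ (K : Type) [NormedAddCommGroup K] [InnerProductSpace ℂ K] [CompleteSpace K] (T : VonNeumannAlgebra K) (η : K)
    (Γ : Type) [Group Γ] (θ : Γ →* unitary (Op K)), IsTracial T η → (∀ g, (θ g : Op K) ∈ T) →
    (∀ a ∈ T, ∀ ε : ℝ, 0 < ε → ∃ c : MonoidAlgebra ℂ Γ, ‖(opr θ c - a) η‖ ≤ ε) →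
    ∀ a ∈ T, ∀ C : ℝ, ‖a‖ ≤ C → ∀ ε : ℝ, 0 < ε → ∃ c : MonoidAlgebra ℂ Γ,
      ‖(opr θ c - a) η‖ ≤ ε ∧ ‖opr θ c‖ ≤ 2 * C ∧
      ∀ (m : Type) [Fintype m] [DecidableEq m] (ρ : Γ →* unitaryGroup m ℂ),
        Le ((mrep ρ c)ᴴ * mrep ρ c) ((((2 * C) ^ 2 : ℝ) : ℂ) • 1)

/-- The tracial von Neumann algebra `(N, tr ζ)` is generated by the unitaries `u h`, and the trace is the canonical
trace of the group. -/
structure GrpAlg {L : Type} [NormedAddCommGroup L] [InnerProductSpace ℂ L] [CompleteSpace L]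
    (N : VonNeumannAlgebra L) (ζ : L) {S : Type} [Group S] (u : S →* unitary (Op L)) : Prop where
  tracial : IsTracial N ζ
  mem : ∀ h, (u h : Op L) ∈ N
  gen : ∀ V : VonNeumannAlgebra L, (∀ h, (u h : Op L) ∈ V) → N ≤ V
  tr : ∀ h, h ≠ 1 → tr ζ (u h : Op L) = 0

/-- The representation of `FreeGroup (UA A) × S` in the tensor product `A ⊗ N₁`. -/
def IsTheta {L : Type} [NormedAddCommGroup L] [InnerProductSpace ℂ L] [CompleteSpace L]
    {N₁ : VonNeumannAlgebra L} {ζ : L} (P : Piece N₁ ζ) {S : Type} [Group S] (u : S →* unitary (Op L))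
    (θ : FreeGroup (UA P.A) × S →* unitary (Op P.K)) : Prop :=
  ∀ (w : FreeGroup (UA P.A)) (h : S), (θ (w, h) : Op P.K) =
    P.i (((FreeGroup.lift (fun v : UA P.A => v) w : UA P.A) : unitary (Op P.H)) : Op P.H) * P.j (u h : Op L)

/-- UNI: every element of a von Neumann algebra is a linear combination of (four) unitaries of the algebra. -/
def S_UNI : Prop :=
  ∀ (H : Type) [NormedAddCommGroup H] [InnerProductSpace ℂ H] [CompleteSpace H] (A : VonNeumannAlgebra H),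
    ∀ x ∈ A, ∃ c : UA A →₀ ℂ, x = c.sum fun v z => z • ((v : unitary (Op H)) : Op H)

/-- TH: the representation exists -/
def S_TH : Prop :=
  ∀ (L : Type) [NormedAddCommGroup L] [InnerProductSpace ℂ L] [CompleteSpace L] (N₁ : VonNeumannAlgebra L) (ζ : L)
    (S : Type) [Group S] (u : S →* unitary (Op L)), GrpAlg N₁ ζ u → ∀ P : Piece N₁ ζ,
    ∃ θ : FreeGroup (UA P.A) × S →* unitary (Op P.K), IsTheta P u θ ∧ (∀ g, (θ g : Op P.K) ∈ P.T) ∧
      ∀ (w : FreeGroup (UA P.A)) (h : S), tr P.η (θ (w, h) : Op P.K) =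
        tr P.ξ (((FreeGroup.lift (fun v : UA P.A => v) w : UA P.A) : unitary (Op P.H)) : Op P.H) *
          tr ζ (u h : Op L)

/-- DEN: the group algebra is dense in the `2`-norm (double commutant theorem for the vector `η`; elements of `A` are
linear combinations of unitaries of `A`; `N₁` is approximated in the `2`-norm by the span of the `u h`; no normality of
`i`, `j` is needed: `‖i a (j b - j b') η‖ ≤ ‖i a‖ ‖(b - b') ζ‖`). -/
def S_DEN : Prop :=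
  ∀ (L : Type) [NormedAddCommGroup L] [InnerProductSpace ℂ L] [CompleteSpace L] (N₁ : VonNeumannAlgebra L) (ζ : L)
    (S : Type) [Group S] (u : S →* unitary (Op L)), GrpAlg N₁ ζ u → ∀ (P : Piece N₁ ζ)
    (θ : FreeGroup (UA P.A) × S →* unitary (Op P.K)), IsTheta P u θ →
    ∀ a ∈ P.T, ∀ ε : ℝ, 0 < ε →
      ∃ c : MonoidAlgebra ℂ (FreeGroup (UA P.A) × S), ‖(opr θ c - a) P.η‖ ≤ ε

/-- HYP: finitely many elements of `B ⊗ N₁` are approximated in the `2`-norm by the span of the `i (f_k) j (u_h)`, where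
`f` is an orthonormal basis of one finite-dimensional `*`-subalgebra of `B`. (`f_k ξ` is an orthonormal basis of `D ξ`;
`cst j i l = ⟨f_l ξ, f_j f_i ξ⟩`, `t i = ⟨f_i ξ, ξ⟩`; the second relation is the star of the first for
`f_j* f_l`.) -/
def S_HYP : Prop :=
  ∀ (L : Type) [NormedAddCommGroup L] [InnerProductSpace ℂ L] [CompleteSpace L] (N₁ : VonNeumannAlgebra L) (ζ : L)
    (S : Type) [Group S] (u : S →* unitary (Op L)), GrpAlg N₁ ζ u → ∀ (P : Piece N₁ ζ)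
    (s : ℕ) (b : Fin s → Op P.K), (∀ w, b w ∈ P.TN) → ∀ ε : ℝ, 0 < ε →
    ∃ (r : ℕ) (f : Fin r → Op P.H) (cst : Fin r → Fin r → Fin r → ℂ) (t : Fin r → ℂ) (p : ℕ) (h : Fin p → S)
      (α : Fin s → Fin r → Fin p → ℂ), (∀ k, f k ∈ P.B) ∧
      (∀ j i, f j * f i = ∑ l, cst j i l • f l) ∧
      (∀ l j, star (f l) * f j = ∑ i, cst j i l • star (f i)) ∧
      (∑ k, t k • f k = 1) ∧ (∀ k, tr P.ξ (star (f k)) = t k) ∧
      (∀ j k, tr P.ξ (star (f j) * f k) = if j = k then 1 else 0) ∧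
      ∀ w, ‖(b w - ∑ k, ∑ l, α w k l • (P.i (f k) * P.j (u (h l) : Op L))) P.η‖ ≤ ε

/-! ## Matrices -/

section matrices

variable {m q : Type} [Fintype m] [DecidableEq m] [Fintype q] [DecidableEq q] {r : ℕ}

/-- The normalised partial trace over the first factor. -/
def PT (w : Matrix (m × q) (m × q) ℂ) : Matrix q q ℂ :=
  Matrix.of fun a b => (∑ x : m, w (x, a) (x, b)) / (Fintype.card m : ℂ)

/-- The (approximate) conditional expectation `∑ (F_i ⊗ 1) (1 ⊗ PT (F_i* z))`. -/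
def EE (F : Fin r → Matrix m m ℂ) (z : Matrix (m × q) (m × q) ℂ) : Matrix (m × q) (m × q) ℂ :=
  ∑ i, F i ⊗ₖ PT (((F i)ᴴ ⊗ₖ (1 : Matrix q q ℂ)) * z)

end matrices

/-- COM: a matrix `z` which almost commutes with all contractions in the approximate commutant of a finite-dimensional
algebra (with the basis `F`) is close to the algebra. -/
def S_COM : Prop :=
  ∀ (r : ℕ) (cst : Fin r → Fin r → Fin r → ℂ) (t : Fin r → ℂ) (C β ε σ : ℝ), 0 < β → 0 ≤ ε → 0 < σ →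
    ∃ κ : ℝ, 0 < κ ∧ ∀ (m q : Type) [Fintype m] [DecidableEq m] [Nonempty m] [Fintype q] [DecidableEq q] [Nonempty q]
      (F : Fin r → Matrix m m ℂ) (z : Matrix (m × q) (m × q) ℂ),
      (∀ i, Le ((F i)ᴴ * F i) (((C ^ 2 : ℝ) : ℂ) • 1)) →
      (∀ j i, hs (F j * F i - ∑ l, cst j i l • F l) ≤ κ * Fintype.card m) →
      (∀ l j, hs ((F l)ᴴ * F j - ∑ i, cst j i l • (F i)ᴴ) ≤ κ * Fintype.card m) →
      hs (∑ i, t i • F i - 1) ≤ κ * Fintype.card m →
      (∀ i, ‖trace ((F i)ᴴ) / (Fintype.card m : ℂ) - t i‖ ≤ κ) →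
      Le (zᴴ * z) 1 →
      (∀ V : Matrix m m ℂ, Le (Vᴴ * V) 1 → (∀ i, hs (V * F i - F i * V) ≤ β * Fintype.card m) →
        hs ((V ⊗ₖ (1 : Matrix q q ℂ)) * z - z * (V ⊗ₖ (1 : Matrix q q ℂ))) ≤
          ε * (Fintype.card m * Fintype.card q)) →
      hs (z - EE F z) ≤ (√ε + σ) ^ 2 * (Fintype.card m * Fintype.card q)

/-- BES: `EE F` is almost a contraction if `F` is almost orthonormal. -/
def S_BES : Prop :=
  ∀ (r : ℕ) (σ : ℝ), 0 < σ → ∃ κ : ℝ, 0 < κ ∧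
    ∀ (m q : Type) [Fintype m] [DecidableEq m] [Nonempty m] [Fintype q] [DecidableEq q] [Nonempty q]
      (F : Fin r → Matrix m m ℂ),
      (∀ i j, ‖trace ((F i)ᴴ * F j) / (Fintype.card m : ℂ) - (if i = j then 1 else 0)‖ ≤ κ) →
      ∀ w : Matrix (m × q) (m × q) ℂ, hs (EE F w) ≤ (1 + σ) * hs w

/-- POL: an almost unitary matrix is close to a unitary matrix (polar decomposition; `| |x| - 1 | ≤ | |x|² - 1 |`). -/
def S_POL : Prop :=
  ∀ (m : Type) [Fintype m] [DecidableEq m] (x : Matrix m m ℂ), ∃ U : unitaryGroup m ℂ,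
    hs (x - (U : Matrix m m ℂ)) ≤ hs (xᴴ * x - 1)

/-! ## Truncation -/

/-- TRU: an element `z` of `T` which is close to the subalgebra `N` in the `2`-norm is not almost orthogonal to the
unit ball of `N`. Take `b₁ = fa ((n + n*)/2)`, `b₂ = fa ((n - n*)/2i)` (`fa a = 2 a (1 + a²)⁻¹`, `S_CA`, `S_CB`). -/
def S_TRU : Prop :=
  ∀ (K : Type) [NormedAddCommGroup K] [InnerProductSpace ℂ K] [CompleteSpace K] (T N : VonNeumannAlgebra K) (η : K),
    IsTracial T η → N ≤ T → ∀ z ∈ T, ∀ C : ℝ, ‖z‖ ≤ C → ∀ n ∈ N, ∀ ε : ℝ, ‖(z - n) η‖ ≤ ε →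
    ∃ b₁ ∈ N, ∃ b₂ ∈ N, ‖b₁‖ ≤ 1 ∧ ‖b₂‖ ≤ 1 ∧
      2 / (1 + C ^ 2) * ‖z η‖ ^ 2 ≤ ‖tr η (b₁ * z)‖ + ‖tr η (b₂ * z)‖ + 6 * C * ε

/-! ## Groups -/

/-- Residual finiteness. -/
def RFin (G : Type) [Group G] : Prop :=
  ∀ T : Finset G, ∃ (Q : Type) (_ : Group Q) (_ : Finite Q) (f : G →* Q), Set.InjOn f (T : Set G)

/-- GRP: `G = (⊕_ℤ Γ) ⋊ ℤ`, `S = {x ∈ ⊕_ℤ Γ | x_n = 1 for n < 0, x_0 ∈ K}`, `ι` the embedding at the place `0`. The mean
is the limit along an ultrafilter of the averages of the values at the cosets `t⁻ᵏ S`, `k = 1, …, n`: these cosets are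
eventually fixed by every element of `⊕_ℤ Γ`. -/
def S_GRP : Prop :=
  ∀ (Γ : Type) [Group Γ] (K : Subgroup Γ), Countable Γ → RFin Γ →
    ∃ (G : Type) (_ : Group G) (S : Subgroup G) (ι : Γ →* G), Countable G ∧ CoAmenable S ∧ RFin S ∧
      (∀ k ∈ K, ι k ∈ S) ∧ ∀ y, ι y ∈ S → y ∈ K

/-- GV: the crossed product of `ℂ`, i.e. the group von Neumann algebra. -/
def S_GV : Prop :=
  ∀ (G : Type) [Group G], ∃ (N : VonNeumannAlgebra ℂ) (ξ : ℂ) (α : G →* Aut N), IsTracial N ξ ∧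
    (∀ g (x : N.toStarSubalgebra), tr ξ ((α g x : N.toStarSubalgebra) : Op ℂ) = tr ξ (x : Op ℂ)) ∧
    IsTracial (crossedSub N α ⊤) (vec G ξ) ∧ ∃ u : G →* unitary (Op (L2 G ℂ)),
      (∀ (S : Subgroup G), ∀ h ∈ S, (u h : Op (L2 G ℂ)) ∈ crossedSub N α S) ∧
      (∀ (S : Subgroup G) (V : VonNeumannAlgebra (L2 G ℂ)), (∀ h ∈ S, (u h : Op (L2 G ℂ)) ∈ V) →
        crossedSub N α S ≤ V) ∧
      (∀ g, g ≠ 1 → tr (vec G ξ) (u g : Op (L2 G ℂ)) = 0) ∧
      ∀ (S : Subgroup G) (y : G), y ∉ S → ∀ b ∈ crossedSub N α S, tr (vec G ξ) (b * (u y : Op (L2 G ℂ))) = 0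

/-! ## The main step -/

/-- The finite form of the rigidity of Kazhdan pairs (`Pool.Agent.N52.ST.S_FM`). -/
def FF (n : ℕ) (R Sw : Finset (FreeGroup (Fin n))) (x : FreeGroup (Fin n)) (δ ε : ℝ) : Prop :=
  ∀ (m : Type) [Fintype m] [DecidableEq m] [Nonempty m] (U : Fin n → unitaryGroup m ℂ) (V : Matrix m m ℂ),
    (∀ w ∈ R, hs ((FreeGroup.lift U w : Matrix m m ℂ) - 1) ≤ δ * Fintype.card m) → Le (Vᴴ * V) 1 →
    (∀ w ∈ Sw, hs ((FreeGroup.lift U w : Matrix m m ℂ) * V - V * (FreeGroup.lift U w : Matrix m m ℂ))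
      ≤ δ * Fintype.card m) →
    hs ((FreeGroup.lift U x : Matrix m m ℂ) * V - V * (FreeGroup.lift U x : Matrix m m ℂ)) ≤ ε * Fintype.card m

/-- Evaluation of a word. -/
def evL {M : Type} [Monoid M] {n : ℕ} (a a' : Fin n → M) (w : FreeGroup (Fin n)) : M :=
  (w.toWord.map fun p => if p.2 then a p.1 else a' p.1).prod

/-- MAIN: the rigidity in the tensor product `A ⊗ N₁`. -/
def S_MAIN : Prop :=
  ∀ (n : ℕ) (R Sw : Finset (FreeGroup (Fin n))) (x : FreeGroup (Fin n)) (δ ε C : ℝ), 0 < δ → 0 < ε →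
    FF n R Sw x δ ε → ∃ κ : ℝ, 0 < κ ∧
    ∀ (L : Type) [NormedAddCommGroup L] [InnerProductSpace ℂ L] [CompleteSpace L] (N₁ : VonNeumannAlgebra L) (ζ : L)
      (S : Type) [Group S] (u : S →* unitary (Op L)), GrpAlg N₁ ζ u → RFin S → ∀ (P : Piece N₁ ζ)
      (a : Fin n → Op P.K), (∀ i, a i ∈ P.T) → (∀ i, ‖a i‖ ≤ C) → (∀ i, ‖(star (a i) * a i - 1) P.η‖ ≤ κ) →
      (∀ w ∈ R, ‖(evL a (fun i => star (a i)) w - 1) P.η‖ ≤ κ) →
      (∀ w ∈ Sw, ∃ b ∈ P.TN, ‖(evL a (fun i => star (a i)) w - b) P.η‖ ≤ κ) →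
      ∃ b ∈ P.TN, ‖(evL a (fun i => star (a i)) x - b) P.η‖ ≤ 2 * √ε

end

end Pool.Agent.Helper47.CA
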