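import Pool.Agent.Helper47.CA.Mod

/-!
# Words: products of close elements are close
-/

set_option autoImplicit false
set_option linter.unusedSectionVars false

open scoped InnerProductSpace Kronecker ComplexOrder
open Filter Topology Matrix Finset

namespace Pool.Agent.Helper47.CA

open Pool.Agent.N557.QWX (Op tr IsTracial IsHom)
open Pool.Agent.W661.RC (hs Le)
open Pool.Agent.W683.RC

noncomputable section

/-- products of close elements are close -/
theorem prod_close {M : Type} [Ring M] (ν : M → ℝ) (Y : M → Prop) (D κ : ℝ) (hD : 1 ≤ D) (hκ : 0 ≤ κ)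
    (hν0 : ν 0 ≤ 0) (hadd : ∀ x y, Y x → Y y → ν (x + y) ≤ ν x + ν y) (Y1 : Y 1)
    (Ysub : ∀ x y, Y x → Y y → Y (x - y)) (Ymul : ∀ x y, Y x → Y y → Y (x * y))
    (l : List (M × M))
    (h : ∀ p ∈ l, Y p.1 ∧ Y p.2 ∧ (∀ y, Y y → ν (p.1 * y) ≤ D * ν y) ∧ (∀ y, Y y → ν (y * p.2) ≤ D * ν y) ∧
      ν (p.2 - p.1) ≤ κ) :
    Y (l.map Prod.fst).prod ∧ Y (l.map Prod.snd).prod ∧
      (∀ y, Y y → ν (y * (l.map Prod.snd).prod) ≤ D ^ l.length * ν y) ∧
      ν ((l.map Prod.snd).prod - (l.map Prod.fst).prod) ≤ l.length * D ^ l.length * κ := by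
  have hD0 : 0 < D := lt_of_lt_of_le one_pos hD
  induction l with
  | nil =>
    refine ⟨by simpa using Y1, by simpa using Y1, fun y _ => by simp, ?_⟩
    simpa using hν0
  | cons p l ih =>
    obtain ⟨i1, i2, i3, i4⟩ := ih fun q hq => h q (List.mem_cons_of_mem _ hq)
    obtain ⟨h1, h2, h3, h4, h5⟩ := h p List.mem_cons_self
    simp only [List.map_cons, List.prod_cons, List.length_cons]
    refine ⟨Ymul _ _ h1 i1, Ymul _ _ h2 i2, fun y hy => ?_, ?_⟩
    · rw [← mul_assoc, pow_succ, mul_assoc (D ^ l.length)]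
      exact (i3 _ (Ymul _ _ hy h2)).trans (mul_le_mul_of_nonneg_left (h4 y hy) (by positivity))
    · have e : p.2 * (l.map Prod.snd).prod - p.1 * (l.map Prod.fst).prod =
          p.1 * ((l.map Prod.snd).prod - (l.map Prod.fst).prod) + (p.2 - p.1) * (l.map Prod.snd).prod := by
        noncomm_ring
      rw [e]
      refine (hadd _ _ (Ymul _ _ h1 (Ysub _ _ i2 i1)) (Ymul _ _ (Ysub _ _ h2 h1) i2)).trans ?_
      have b1 := (h3 _ (Ysub _ _ i2 i1)).trans (mul_le_mul_of_nonneg_left i4 hD0.le)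
      have b2 := (i3 _ (Ysub _ _ h2 h1)).trans (mul_le_mul_of_nonneg_left h5 (by positivity))
      have b3 : D ^ l.length * κ ≤ D ^ (l.length + 1) * κ :=
        mul_le_mul_of_nonneg_right (pow_le_pow_right₀ hD (Nat.le_succ _)) hκ
      push_cast
      have e2 : D * (l.length * D ^ l.length * κ) = l.length * D ^ (l.length + 1) * κ := by
        rw [pow_succ]; ring
      rw [e2] at b1
      linarith

variable {n : ℕ}

theorem evL_map {M M' : Type} [Monoid M] [Monoid M'] (f : M →* M') (a a' : Fin n → M) (w : FreeGroup (Fin n)) :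
    f (evL a a' w) = evL (fun i => f (a i)) (fun i => f (a' i)) w := by
  unfold evL
  rw [map_list_prod, List.map_map]
  congr 1
  refine List.map_congr_left fun p _ => ?_
  simp only [Function.comp]
  split_ifs <;> rfl

/-- the evaluation of a word at unitary matrices -/
theorem evL_unitary {m : Type} [Fintype m] [DecidableEq m] (U : Fin n → unitaryGroup m ℂ) (w : FreeGroup (Fin n)) :
    evL (fun i => (U i : Matrix m m ℂ)) (fun i => (U i : Matrix m m ℂ)ᴴ) w =
      (FreeGroup.lift U w : Matrix m m ℂ) := by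
  unfold evL
  conv_rhs => rw [← FreeGroup.mk_toWord (x := w), FreeGroup.lift_mk]
  have h : ∀ l : List (Fin n × Bool),
      (l.map fun p => if p.2 then (U p.1 : Matrix m m ℂ) else (U p.1 : Matrix m m ℂ)ᴴ).prod =
        (((l.map fun x => cond x.2 (U x.1) (U x.1)⁻¹).prod : unitaryGroup m ℂ) : Matrix m m ℂ) := by
    intro l
    induction l with
    | nil => rfl
    | cons p l ih =>
      rw [List.map_cons, List.prod_cons, ih, List.map_cons, List.prod_cons]
      have : ((if p.2 then (U p.1 : Matrix m m ℂ) else (U p.1 : Matrix m m ℂ)ᴴ)) =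
          ((cond p.2 (U p.1) (U p.1)⁻¹ : unitaryGroup m ℂ) : Matrix m m ℂ) := by
        rcases p with ⟨i, b⟩
        cases b <;> rfl
      rw [this]
      rfl
  exact h _

/-- length of the words -/
def wl (w : FreeGroup (Fin n)) : ℕ := w.toWord.length

/-- closeness of the evaluations of a word -/
theorem evL_close {M : Type} [Ring M] (ν : M → ℝ) (Y : M → Prop) (D κ : ℝ) (hD : 1 ≤ D) (hκ : 0 ≤ κ)
    (hν0 : ν 0 ≤ 0) (hadd : ∀ x y, Y x → Y y → ν (x + y) ≤ ν x + ν y) (Y1 : Y 1)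
    (Ysub : ∀ x y, Y x → Y y → Y (x - y)) (Ymul : ∀ x y, Y x → Y y → Y (x * y))
    (a a' b b' : Fin n → M)
    (h : ∀ i, Y (a i) ∧ Y (b i) ∧ (∀ y, Y y → ν (a i * y) ≤ D * ν y) ∧ (∀ y, Y y → ν (y * b i) ≤ D * ν y) ∧
      ν (b i - a i) ≤ κ)
    (h' : ∀ i, Y (a' i) ∧ Y (b' i) ∧ (∀ y, Y y → ν (a' i * y) ≤ D * ν y) ∧
      (∀ y, Y y → ν (y * b' i) ≤ D * ν y) ∧ ν (b' i - a' i) ≤ κ) (w : FreeGroup (Fin n)) :
    Y (evL a a' w) ∧ Y (evL b b' w) ∧ ν (evL b b' w - evL a a' w) ≤ wl w * D ^ wl w * κ := by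
  have key := prod_close ν Y D κ hD hκ hν0 hadd Y1 Ysub Ymul
    (w.toWord.map fun p => ((if p.2 then a p.1 else a' p.1), (if p.2 then b p.1 else b' p.1))) (by
      intro q hq
      obtain ⟨p, -, rfl⟩ := List.mem_map.1 hq
      by_cases hp : p.2 = true
      · simp only [hp, if_true]; exact h p.1
      · simp only [hp]; exact h' p.1)
  simp only [List.map_map, List.length_map] at key
  exact ⟨key.1, key.2.1, key.2.2.2⟩

/-! ### the two norms -/

section two

variable {K : Type} [NormedAddCommGroup K] [InnerProductSpace ℂ K] [CompleteSpace K]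

theorem mem_mul {T : VonNeumannAlgebra K} {x y : Op K} (hx : x ∈ T) (hy : y ∈ T) : x * y ∈ T :=
  mul_mem (S := StarSubalgebra ℂ (Op K)) hx hy

theorem mem_sub {T : VonNeumannAlgebra K} {x y : Op K} (hx : x ∈ T) (hy : y ∈ T) : x - y ∈ T :=
  sub_mem (S := StarSubalgebra ℂ (Op K)) hx hy

theorem mem_add {T : VonNeumannAlgebra K} {x y : Op K} (hx : x ∈ T) (hy : y ∈ T) : x + y ∈ T :=
  add_mem (S := StarSubalgebra ℂ (Op K)) hx hy

theorem mem_star {T : VonNeumannAlgebra K} {x : Op K} (hx : x ∈ T) : star x ∈ T :=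
  star_mem (S := StarSubalgebra ℂ (Op K)) hx

theorem mem_one (T : VonNeumannAlgebra K) : (1 : Op K) ∈ T :=
  one_mem (S := StarSubalgebra ℂ (Op K)) _

theorem norm_star_ap {T : VonNeumannAlgebra K} {η : K} (hT : IsTracial T η) {x : Op K} (hx : x ∈ T) :
    ‖star x η‖ = ‖x η‖ := by
  have h := hT.tracial (star x) (mem_star hx) x hx
  rw [tr_star_mul] at h
  have h2 := tr_star_mul η (star x)
  rw [star_star] at h2
  rw [h2] at h
  have h3 : ‖x η‖ ^ 2 = ‖star x η‖ ^ 2 := by exact_mod_cast h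
  exact ((sq_eq_sq₀ (norm_nonneg _) (norm_nonneg _)).1 h3).symm

theorem norm_mul_ap (x y : Op K) (η : K) : ‖(x * y) η‖ ≤ ‖x‖ * ‖y η‖ := x.le_opNorm (y η)

theorem norm_mul_ap' {T : VonNeumannAlgebra K} {η : K} (hT : IsTracial T η) {x y : Op K} (hx : x ∈ T)
    (hy : y ∈ T) : ‖(x * y) η‖ ≤ ‖y‖ * ‖x η‖ := by
  rw [← norm_star_ap hT (mem_mul hx hy), star_mul, ← norm_star_ap hT hx, ← norm_star y]
  exact norm_mul_ap _ _ _

end two

end

end Pool.Agent.Helper47.CA
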